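import Mathlib

/-! Algebra of Jacobi polynomials from the Pearson identity. -/

namespace Pool.Agent.Lib.MP_3e0ca7_an

open Polynomial

noncomputable def Dp : ℝ[X] := 1 - X ^ 2
noncomputable def bp (a b : ℝ) : ℝ[X] := C (a - b) + C (a + b) * X

@[simp] theorem eval_Dp (t : ℝ) : Dp.eval t = 1 - t ^ 2 := by simp [Dp]
@[simp] theorem eval_bp (a b t : ℝ) : (bp a b).eval t = a - b + (a + b) * t := by simp [bp]
theorem der_Dp : derivative Dp = -(C 2 * X) := by
  simp only [Dp, derivative_sub, derivative_one, derivative_X_pow]; simp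
theorem der_bp (a b : ℝ) : derivative (bp a b) = C (a + b) := by simp [bp]

structure PF (a b : ℝ) (I : ℝ[X] →ₗ[ℝ] ℝ) : Prop where
  pear : ∀ f, I (Dp * derivative f - bp a b * f) = 0
  pos : ∀ f, f ≠ 0 → (∀ t ∈ Set.Icc (-1 : ℝ) 1, 0 ≤ f.eval t) → 0 < I f

structure Orth (I : ℝ[X] →ₗ[ℝ] ℝ) (n : ℕ) (p : ℝ[X]) : Prop where
  deg : ∀ m, n < m → p.coeff m = 0
  lead : p.coeff n = 1
  orth : ∀ q : ℝ[X], (∀ m, n ≤ m → q.coeff m = 0) → I (p * q) = 0

noncomputable def Lop (a b : ℝ) (f : ℝ[X]) : ℝ[X] :=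
  Dp * derivative (derivative f) - bp a b * derivative f

theorem coeff_theta (f : ℝ[X]) (m : ℕ) : (X * derivative f).coeff m = m * f.coeff m := by
  cases m with
  | zero => simp
  | succ m => rw [coeff_X_mul, coeff_derivative]; push_cast; ring

theorem coeff_pear (a b : ℝ) (f : ℝ[X]) (m : ℕ) :
    (Dp * derivative f - bp a b * f).coeff (m + 1) = (m + 2) * f.coeff (m + 2) - m * f.coeff m
      - (a - b) * f.coeff (m + 1) - (a + b) * f.coeff m := by
  have h : Dp * derivative f - bp a b * f = derivative f - X * (X * derivative f)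
      - C (a - b) * f - C (a + b) * (X * f) := by
    unfold Dp bp; ring
  rw [h]
  simp only [coeff_sub, coeff_C_mul, coeff_X_mul, coeff_theta, coeff_derivative]
  push_cast; ring

theorem coeff_Lop (a b : ℝ) (f : ℝ[X]) (m : ℕ) :
    (Lop a b f).coeff m = (m + 2) * (m + 1) * f.coeff (m + 2) - (a - b) * (m + 1) * f.coeff (m + 1)
      - m * (m - 1 + (a + b)) * f.coeff m := by
  have h : Lop a b f = derivative (derivative f) - (X * derivative (X * derivative f) - X * derivative f)
      - C (a - b) * derivative f - C (a + b) * (X * derivative f) := by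
    unfold Lop Dp bp; simp only [derivative_mul, derivative_X]; ring
  rw [h]
  simp only [coeff_sub, coeff_C_mul, coeff_theta, coeff_derivative]
  push_cast; ring

theorem PF.symm {a b : ℝ} {I : ℝ[X] →ₗ[ℝ] ℝ} (h : PF a b I) (p q : ℝ[X]) :
    I (Lop a b p * q) = I (p * Lop a b q) := by
  have := h.pear (derivative p * q - p * derivative q)
  have e : Dp * derivative (derivative p * q - p * derivative q) -
      bp a b * (derivative p * q - p * derivative q) = Lop a b p * q - p * Lop a b q := by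
    unfold Lop; simp only [derivative_sub, derivative_mul]; ring
  rw [e, map_sub] at this
  linarith

theorem Orth.coeff_mul {I : ℝ[X] →ₗ[ℝ] ℝ} {n : ℕ} {p : ℝ[X]} (h : Orth I n p) (q : ℝ[X])
    (hq : ∀ m, n < m → q.coeff m = 0) : I (p * q) = q.coeff n * I (p * p) := by
  have := h.orth (q - C (q.coeff n) * p) (by
    intro m hm
    rw [coeff_sub, coeff_C_mul]
    rcases hm.eq_or_lt with rfl | hm
    · rw [h.lead]; ring
    · rw [hq m hm, h.deg m hm]; ring)
  have e : p * (q - C (q.coeff n) * p) = p * q - q.coeff n • (p * p) := by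
    rw [smul_eq_C_mul]; ring
  rw [e, map_sub, map_smul, smul_eq_mul] at this
  linarith

theorem Orth.ne_zero {I : ℝ[X] →ₗ[ℝ] ℝ} {n : ℕ} {p : ℝ[X]} (h : Orth I n p) : p ≠ 0 := by
  intro h0
  have := h.lead
  simp [h0] at this

theorem PF.sq_pos {a b : ℝ} {I : ℝ[X] →ₗ[ℝ] ℝ} (h : PF a b I) {f : ℝ[X]} (hf : f ≠ 0) :
    0 < I (f * f) :=
  h.pos _ (mul_ne_zero hf hf) fun t _ => by rw [eval_mul]; exact mul_self_nonneg _

theorem PF.ode {a b : ℝ} {I : ℝ[X] →ₗ[ℝ] ℝ} (h : PF a b I) {n : ℕ} {p : ℝ[X]} (hp : Orth I n p) :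
    Lop a b p + C ((n : ℝ) * (n - 1 + (a + b))) * p = 0 := by
  set r := Lop a b p + C ((n : ℝ) * (n - 1 + (a + b))) * p with hr
  have hd : ∀ m, n ≤ m → r.coeff m = 0 := by
    intro m hm
    rw [hr, coeff_add, coeff_C_mul, coeff_Lop, hp.deg (m + 2) (by omega), hp.deg (m + 1) (by omega)]
    rcases hm.eq_or_lt with rfl | hm
    · ring
    · rw [hp.deg m hm]; ring
  by_contra h0
  have h1 := h.sq_pos h0
  have h2 : I (Lop a b p * r) = 0 := by
    rw [h.symm]
    refine hp.orth _ fun m hm => ?_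
    rw [coeff_Lop, hd m hm, hd (m + 1) (by omega), hd (m + 2) (by omega)]; ring
  have h3 := hp.orth r hd
  have e : r * r = Lop a b p * r + ((n : ℝ) * (n - 1 + (a + b))) • (p * r) := by
    rw [smul_eq_C_mul]
    conv_lhs => rw [hr]
    rw [← hr]; ring
  rw [e, map_add, map_smul, h2, h3] at h1
  simp at h1

/-- `I (D q^2) = (2n + c - 2) I (p^2)` for `p = (X - τ) q` -/
theorem PF.norm_quot {a b : ℝ} {I : ℝ[X] →ₗ[ℝ] ℝ} (h : PF a b I) {n : ℕ} {p q : ℝ[X]}
    (hp : Orth I (n + 1) p) {τ : ℝ} (e : p = (X - C τ) * q) (hq : ∀ m, n < m → q.coeff m = 0)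
    (hq1 : q.coeff n = 1) : I (Dp * (q * q)) = (2 * n + (a + b)) * I (p * p) := by
  have h1 := h.pear (p * q)
  have e1 : Dp * derivative (p * q) - bp a b * (p * q) = Dp * (q * q)
      + p * (Dp * derivative q - bp a b * q) + p * (Dp * derivative q - bp 0 0 * q) := by
    have : derivative p = q + (X - C τ) * derivative q := by rw [e]; simp [derivative_mul]
    rw [derivative_mul, this, e]; simp only [bp, sub_self, add_zero, map_zero]; ring
  have key : ∀ a b : ℝ, I (p * (Dp * derivative q - bp a b * q)) = -(n + (a + b)) * I (p * p) := by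
    intro a b
    rw [hp.coeff_mul, coeff_pear, hq (n + 2) (by omega), hq (n + 1) (by omega), hq1]
    · ring
    · intro m hm
      obtain ⟨k, rfl⟩ : ∃ k, m = k + 1 := ⟨m - 1, by omega⟩
      rw [coeff_pear, hq k (by omega), hq (k + 1) (by omega), hq (k + 2) (by omega)]; ring
  rw [e1, map_add, map_add, key, key] at h1
  linarith

theorem PF.mom1 {a b : ℝ} {I : ℝ[X] →ₗ[ℝ] ℝ} (h : PF a b I) :
    (a - b) * I 1 + (a + b) * I X = 0 := by
  have := h.pear 1
  have e : Dp * derivative 1 - bp a b * 1 = -((a - b) • (1 : ℝ[X]) + (a + b) • X) := by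
    simp [bp, smul_eq_C_mul]
  rw [e, map_neg, map_add, map_smul, map_smul] at this
  simp only [smul_eq_mul] at this
  linarith

theorem PF.mom2 {a b : ℝ} {I : ℝ[X] →ₗ[ℝ] ℝ} (h : PF a b I) :
    (1 + (a + b)) * I (X * X) = I 1 - (a - b) * I X := by
  have := h.pear X
  have e : Dp * derivative X - bp a b * X =
      (1 : ℝ[X]) - (a - b) • X - (1 + (a + b)) • (X * X) := by
    simp only [bp, Dp, smul_eq_C_mul, derivative_X, map_add, map_one]; ring
  rw [e, map_sub, map_sub, map_smul, map_smul] at this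
  simp only [smul_eq_mul] at this
  linarith

theorem PF.momD {a b : ℝ} {I : ℝ[X] →ₗ[ℝ] ℝ} (h : PF a b I) :
    (a + b) * (a + b + 1) * I Dp = 4 * a * b * I 1 := by
  have e : Dp = 1 - X * X := by unfold Dp; ring
  rw [e, map_sub]
  linear_combination (-(a + b)) * h.mom2 + (a - b) * h.mom1

noncomputable def shift (I : ℝ[X] →ₗ[ℝ] ℝ) : ℝ[X] →ₗ[ℝ] ℝ := I ∘ₗ LinearMap.mulLeft ℝ Dp

theorem shift_apply (I : ℝ[X] →ₗ[ℝ] ℝ) (f : ℝ[X]) : shift I f = I (Dp * f) := rfl

theorem Dp_ne : Dp ≠ 0 := by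
  intro h
  have := congrArg (eval 0) h
  simp at this

theorem PF.shift {a b : ℝ} {I : ℝ[X] →ₗ[ℝ] ℝ} (h : PF a b I) : PF (a + 1) (b + 1) (shift I) := by
  refine ⟨fun f => ?_, fun f hf h0 => ?_⟩
  · rw [shift_apply, ← h.pear (Dp * f)]
    congr 1
    rw [derivative_mul, der_Dp]
    simp only [bp, map_add, map_sub, map_one, C_ofNat]; ring
  · rw [shift_apply]
    refine h.pos _ (mul_ne_zero Dp_ne hf) fun t ht => ?_
    rw [eval_mul, eval_Dp]
    exact mul_nonneg (by nlinarith [ht.1, ht.2]) (h0 t ht)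

theorem PF.orth_shift {a b : ℝ} {I : ℝ[X] →ₗ[ℝ] ℝ} (h : PF a b I) {n : ℕ} {p : ℝ[X]}
    (hp : Orth I (n + 1) p) :
    Orth (Pool.Agent.Lib.MP_3e0ca7_an.shift I) n (C (1 / ((n : ℝ) + 1)) * derivative p) := by
  have hn : (n : ℝ) + 1 ≠ 0 := by positivity
  refine ⟨fun m hm => ?_, ?_, fun q hq => ?_⟩
  · rw [coeff_C_mul, coeff_derivative, hp.deg _ (by omega)]; ring
  · rw [coeff_C_mul, coeff_derivative, hp.lead]; field_simp
  · have h1 := h.pear (p * q)
    have h2 := hp.orth (Dp * derivative q - bp a b * q) (by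
      intro m hm
      obtain ⟨k, rfl⟩ : ∃ k, m = k + 1 := ⟨m - 1, by omega⟩
      rw [coeff_pear, hq k (by omega), hq (k + 1) (by omega), hq (k + 2) (by omega)]; ring)
    have e : Dp * (C (1 / ((n : ℝ) + 1)) * derivative p * q) = (1 / ((n : ℝ) + 1)) •
        ((Dp * derivative (p * q) - bp a b * (p * q)) - p * (Dp * derivative q - bp a b * q)) := by
      rw [smul_eq_C_mul, derivative_mul]; ring
    rw [shift_apply, e, map_smul, map_sub, h1, h2]; simp

/-- `p(1)^2 μ₀ / I(p^2)` -/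
noncomputable def Gf : ℕ → ℝ → ℝ → ℝ
  | 0, _, _ => 1
  | n + 1, a, b => a * (a + b) * (a + b + 1) / (b * (n + 1) * (n + (a + b))) * Gf n (a + 1) (b + 1)

theorem PF.at_one : ∀ (n : ℕ) {a b : ℝ} {I : ℝ[X] →ₗ[ℝ] ℝ} {p : ℝ[X]}, PF a b I → 0 < a → 0 < b →
    Orth I n p → p.eval 1 ^ 2 * I 1 = Gf n a b * I (p * p)
  | 0, a, b, I, p, _, _, _, hp => by
    have : p = 1 := by
      ext m
      cases m with
      | zero => simpa using hp.lead
      | succ m => rw [hp.deg _ (by omega)]; simp [coeff_one]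
    simp [this, Gf]
  | n + 1, a, b, I, p, h, ha, hb, hp => by
    have ih := PF.at_one n h.shift (by linarith) (by linarith) (h.orth_shift hp)
    have hode := h.ode hp
    have h1 := congrArg (eval 1) hode
    simp only [Lop, eval_add, eval_sub, eval_mul, eval_Dp, eval_bp, eval_C, eval_zero] at h1
    have h2 := h.pear (p * derivative p)
    have e : Dp * derivative (p * derivative p) - bp a b * (p * derivative p) =
        Dp * (derivative p * derivative p) -
          (((n + 1 : ℕ) : ℝ) * ((n + 1 : ℕ) - 1 + (a + b))) • (p * p) := by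
      rw [smul_eq_C_mul, derivative_mul]
      unfold Lop at hode
      linear_combination p * hode
    rw [e, map_sub, map_smul, smul_eq_mul] at h2
    have e2 : Dp * (C (1 / ((n : ℝ) + 1)) * derivative p * (C (1 / ((n : ℝ) + 1)) * derivative p)) =
        (1 / ((n : ℝ) + 1)) ^ 2 • (Dp * (derivative p * derivative p)) := by
      rw [smul_eq_C_mul, C_pow]; ring
    rw [shift_apply, shift_apply, e2, map_smul, smul_eq_mul, mul_one, eval_mul, eval_C] at ih
    have h3 := h.momD
    push_cast at h1 h2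
    have hn : (0 : ℝ) ≤ n := Nat.cast_nonneg n
    have hp1 : p.eval 1 = 2 * a * (derivative p).eval 1 / ((n + 1) * (n + (a + b))) := by
      field_simp; linarith
    have hI1 : I 1 = (a + b) * (a + b + 1) * I Dp / (4 * a * b) := by
      field_simp; linarith
    have hpp : I (p * p) = I (Dp * (derivative p * derivative p)) / ((n + 1) * (n + (a + b))) := by
      field_simp; linarith
    have ih' : (derivative p).eval 1 ^ 2 * I Dp =
        Gf n (a + 1) (b + 1) * I (Dp * (derivative p * derivative p)) := by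
      have := ih
      field_simp at this
      linarith
    rw [hp1, hI1, hpp, Gf]
    field_simp
    linear_combination 4 * ih'

theorem Gf_succ : ∀ (n : ℕ) {a b : ℝ}, 0 < a → 0 < b →
    Gf (n + 2) a b * ((2 * n + (a + b) + 1) * (n + 2) * (n + 1 + b)) =
      Gf (n + 1) a b * ((2 * n + (a + b) + 3) * (n + 1 + a) * (n + (a + b)))
  | 0, a, b, ha, hb => by
    simp only [Gf]; push_cast; field_simp; ring
  | n + 1, a, b, ha, hb => by
    have ih := Gf_succ n (a := a + 1) (b := b + 1) (by linarith) (by linarith)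
    have hn : (0 : ℝ) ≤ n := Nat.cast_nonneg n
    have e1 : Gf (n + 1 + 2) a b = a * (a + b) * (a + b + 1) /
      (b * ((n + 2 : ℕ) + 1) * ((n + 2 : ℕ) + (a + b))) * Gf (n + 2) (a + 1) (b + 1) := rfl
    have e2 : Gf (n + 1 + 1) a b = a * (a + b) * (a + b + 1) /
      (b * ((n + 1 : ℕ) + 1) * ((n + 1 : ℕ) + (a + b))) * Gf (n + 1) (a + 1) (b + 1) := rfl
    rw [e1, e2]
    push_cast
    field_simp
    linear_combination ((n : ℝ) + 3) * ih

end Pool.Agent.Lib.MP_3e0ca7_an
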