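import Pool.Agent.Lib.MP_3e0ca7_an.Consts

/-! Interval programs for extreme nodes. -/

namespace Pool.Agent.Lib.MP_3e0ca7_an

set_option maxRecDepth 100000
set_option linter.unusedVariables false

noncomputable def FExt : Chk := fun l0 h0 l1 h1 l2 h2 l3 h3 =>
  addP l0 h0 l1 h1 fun n4a n4b =>
  mulP n4a n4b l2 h2 fun n6a n6b =>
  addP 100000000 100000000 n6a n6b fun n8a n8b =>
  posS n8a h2 n8b l2 fun n10a n10b =>
  addP 200000000 200000000 l0 h0 fun n12a n12b =>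
  mulP l2 h2 l2 h2 fun n14a n14b =>
  divP n14a n14b n10a n10b fun n15a n15b =>
  mulP 200000000 n12b n15a n15b fun n16a n16b =>
  mulP l0 h0 n16a n16b fun n18a n18b =>
  posS 200000000 n18b 200000000 n18a fun n21a n21b =>
  mulP l1 h1 n16a n16b fun n22a n22b =>
  divP n22a n22b n21a n21b fun n23a n23b =>
  posS 100000000 n23b 100000000 n23a fun n25a n25b =>
  mulP l0 h0 n25a n25b fun n26a n26b =>
  mulP 50000000 50000000 n26a n26b fun n29a n29b =>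
  posS 100000000 n29b 100000000 n29a fun n31a n31b =>
  mulP n26a n26b n31a n31b fun n32a n32b =>
  addP 200000000 200000000 n32a n32b fun n33a n33b =>
  addP 200000000 200000000 n26a n26b fun n34a n34b =>
  mulP n33a n34b n15a n15b fun n36a n36b =>
  mulP l0 h0 n36a n36b fun n38a n38b =>
  posS 200000000 n38b 200000000 n38a fun n41a n41b =>
  mulP l1 h1 n36a n36b fun n42a n42b =>
  divP n42a n42b n41a n41b fun n43a n43b =>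
  posS 100000000 n43b 100000000 n43a fun n45a n45b =>
  mulP l0 h0 n45a n45b fun n46a n46b =>
  divP 100000000 100000000 n45a n45b fun n48a n48b =>
  mulP n36a n36b n48a n48b fun n50a n50b =>
  addP 200000000 200000000 n46a n46b fun n52a n52b =>
  divP 200000000 200000000 n52a n52b fun n53a n53b =>
  addP n50a n50b n48a n48b fun n55a n55b =>
  mulP 25000000 25000000 n41a n41b fun n57a n57b =>
  posS n55a n57b n55b n57a fun n59a n59b =>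
  posS 100000000 n38b 100000000 n38a fun n61a n61b =>
  mulN 3 n50a n50b fun n63a n63b =>
  mulN 2 n50a n50b fun n64a n64b =>
  addP n38a n38b n64a n64b fun n65a n65b =>
  mulP l1 h1 n50a n50b fun n66a n66b =>
  divP n66a n66b n41a n41b fun n67a n67b =>
  mulN 2 n67a n67b fun n68a n68b =>
  addP n65a n65b n68a n68b fun n69a n69b =>
  mulP n63a n63b n69a n69b fun n70a n70b =>
  mulN 2 n48a n48b fun n72a n72b =>
  addP n4a n4b 200000000 200000000 fun n73a n73b =>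
  mulP n73a n73b n50a n50b fun n74a n74b =>
  addP n61a n61b n74a n74b fun n75a n75b =>
  mulP n72a n72b n75a n75b fun n76a n76b =>
  mulN 8 n41a n41b fun n79a n79b =>
  mulP n79a n79b n59a n59b fun n80a n80b =>
  mulP n53a 100000000 n76a n76b fun n81a n81b =>
  addP n70a n70b n81a n81b fun n82a n82b =>
  divP n82a n82b n80a n80b fun n83a n83b =>
  mulP n46a n46b n83a n83b fun n85a n85b =>
  addP 100000000 100000000 n85a n85b fun n86a n86b =>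
  divP 100000000 100000000 n86a n86b fun n87a n87b =>
  mulP n85a n85b n53a n53b fun n88a n88b =>
  posS 100000000 n88b 100000000 n88a fun n90a n90b =>
  mulP n87a n90b n76a n76b fun n92a n92b =>
  addP n70a n70b n92a n92b fun n93a n93b =>
  divP n93a n93b n80a n80b fun n94a n94b =>
  mulN 3 n41a n41b fun n96a n96b =>
  mulN 2 l0 h0 fun n97a n97b =>
  mulP n97a n97b n87a n90b fun n98a n98b =>
  addP n96a n96b n98a n98b fun n99a n99b =>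
  divP n59a n59b n99a n99b fun n100a n100b =>
  mulP l3 h3 n94a n94b fun n102a n102b =>
  mulN 2 n102a n102b fun n104a n104b =>
  asm n104a 0 100000000 0 <|
  mulP l3 h3 l3 h3 fun n108a n108b =>
  addP n46a n46b l3 h3 fun n109a n109b =>
  mulP n50a n50b n109a n109b fun n110a n110b =>
  posS 200000000 n110b 200000000 n110a fun n113a n113b =>
  mulP 50000000 50000000 n4a n4b fun n114a n114b =>
  posS 200000000 n114b 200000000 n114a fun n116a n116b =>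
  mulP n110a n110b n116a n116b fun n118a n118b =>
  addP l0 h0 n118a n118b fun n120a n120b =>
  addP 100000000 100000000 n102a n102b fun n122a n122b =>
  minP n104a n104b 100000000 100000000 fun n123a n123b =>
  addP 100000000 100000000 n123a n123b fun n124a n124b =>
  mulP n109a n109b n113a n113b fun n126a n126b =>
  mulP n100a n100b l3 h3 fun n128a n128b =>
  mulP n128a n128b n122a n124b fun n129a n129b =>
  addP n129a n129b 50000000 50000000 fun n130a n130b =>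
  mulP l3 h3 n130a n130b fun n131a n131b =>
  mulS n126a n126b n131a 100000000 n131b 100000000 fun n133a n133b n133c n133d =>
  addP 200000000 200000000 n6a n6b fun n135a n135b =>
  mulN 2 l2 h2 fun n136a n136b =>
  posS n135a n136b n135b n136a fun n138a n138b =>
  posS n138a h2 n138b l2 fun n140a n140b =>
  divP n136a n136b n138a n138b fun n141a n141b =>
  mulS n141a n141b l0 h1 h0 l1 fun n143a n143b n143c n143d =>
  addP n143d n143b 150000000 150000000 fun n146a n146b =>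
  mulN 2 n140a n140b fun n147a n147b =>
  divP l2 h2 n147a n147b fun n148a n148b =>
  mulS n148a n148b 100000000 n4b 100000000 n4a fun n150a n150b n150c n150d =>
  addS n146a n143c n146b n143a n150a n150b n150c n150d fun n151a n151b n151c n151d =>
  posS n151a n151b n151c n151d fun n152a n152b =>
  posS 400000000 n4b 400000000 n4a fun n155a n155b =>
  absS n133a n133b n133c n133d fun n156a n156b =>
  mulP n156a n156b n156a n156b fun n157a n157b =>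
  mulN 2 l3 h3 fun n159a n159b =>
  posS n133a n133b n133c n133d fun n160a n160b =>
  mulS n160a n160b 200000000 n120b 200000000 n120a fun n161a n161b n161c n161d =>
  posS n133d n133c n133b n133a fun n163a n163b =>
  mulS n163a n163b 200000000 n120b 200000000 n120a fun n164a n164b n164c n164d =>
  addS n161a n161b n161c n161d n164d n164c n164b n164a fun n165a n165b n165c n165d =>
  mulS n159a n159b n165a n165b n165c n165d fun n167a n167b n167c n167d =>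
  addP n167a n167c n157a n157b fun n169a n169b =>
  mulP n126a n126b n48a n48b fun n170a n170b =>
  mulP n170a n170b n33a n34b fun n171a n171b =>
  divP n171a n171b n10a n10b fun n172a n172b =>
  mulP n155a n155b l2 h2 fun n173a n173b =>
  mulS n172a n172b 100000000 n173b 100000000 n173a fun n175a n175b n175c n175d =>
  addP n175a n175c n110a n110b fun n177a n177b =>
  mulS n108a n108b n177a n175b n177b n175d fun n178a n178b n178c n178d =>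
  addS n169a n167b n169b n167d n178a n178b n178c n178d fun n179a n179b n179c n179d =>
  mulP n48a n48b n48a n48b fun n181a n181b =>
  mulP 270000000 270000000 l0 h0 fun n183a n183b =>
  addP 70000000 70000000 n183a n183b fun n185a n185b =>
  mulP 50000000 50000000 l1 h1 fun n186a n186b =>
  addP 100000000 100000000 n186a n186b fun n187a n187b =>
  divP n185a n185b n187a n187b fun n188a n188b =>
  addP 100000000 100000000 l2 h2 fun n189a n189b =>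
  mulP 75000000 75000000 n189a n189b fun n191a n191b =>
  mulP n188a n188b n191a n191b fun n192a n192b =>
  mulP n181a n181b n181a n181b fun n193a n193b =>
  mulP n192a n192b n193a n193b fun n194a n194b =>
  divP l2 h2 n152a n152b fun n195a n195b =>
  posS n179a n179b n179c n179d fun n196a n196b =>
  mulP n195a n195b n196a n196b fun n197a n197b =>
  addP n108a n108b n197a n197b fun n198a n198b =>
  mulP n194a n194b n198a n198b fun n199a n199b =>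
  mulP 66666666 66666667 n102a n102b fun n201a n201b =>
  addP 100000000 100000000 n201a n201b fun n202a n202b =>
  mulP n100a n100b n202a n202b fun n203a n203b =>
  mulP n203a n203b n108a n108b fun n205a n205b =>
  mulP 138888 138889 l3 h3 fun n208a n208b =>
  addP 833333 833334 n208a n208b fun n210a n210b =>
  mulP l3 h3 n210a n210b fun n211a n211b =>
  addP 4166666 4166667 n211a n211b fun n213a n213b =>
  mulP l3 h3 n213a n213b fun n214a n214b =>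
  addP 16666666 16666667 n214a n214b fun n216a n216b =>
  mulP l3 h3 n216a n216b fun n217a n217b =>
  addP 50000000 50000000 n217a n217b fun n218a n218b =>
  mulP 50000000 50000000 n46a n46b fun n220a n220b =>
  addP 100000000 100000000 n220a n220b fun n221a n221b =>
  mulP n221a n221b n221a n221b fun n222a n222b =>
  mulP n222a n222b n222a n222b fun n223a n223b =>
  mulN 2 n223a n223b fun n224a n224b =>
  addP 100000000 100000000 l3 h3 fun n225a n225b =>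
  mulP n224a n224b n225a n225b fun n226a n226b =>
  mulP n108a n108b n218a n218b fun n227a n227b =>
  addP n225a n225b n227a n227b fun n228a n228b =>
  mulP n228a n228b n203a n203b fun n229a n229b =>
  mulP 16666666 16666667 n205a n205b fun n230a n230b =>
  addP 50000000 50000000 n230a n230b fun n231a n231b =>
  mulP n205a n205b n231a n231b fun n232a n232b =>
  addP 100000000 100000000 n232a n232b fun n233a n233b =>
  mulP n229a n229b n233a n233b fun n234a n234b =>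
  addP n218a n218b n234a n234b fun n235a n235b =>
  mulP n226a n226b n235a n235b fun n236a n236b =>
  gol n199b 0 n236a 0 <|
  true

def QExt (a b ε η : ℝ) : Prop :=
  ∀ c : ℝ, c = (a + b) →
  ∀ den : ℝ, den = (((1:ℝ) + (c * ε)) - ε) → 0 ≤ den →
  ∀ θ : ℝ, (2:ℝ) ≤ θ → θ ≤ ((2:ℝ) + a) →
  ∀ Xt : ℝ, Xt = (θ * ((ε * ε) / den)) →
  ∀ X : ℝ, X = (a * Xt) →
  ∀ Y : ℝ, Y = ((2:ℝ) - X) → 0 ≤ Y →
  ∀ om : ℝ, om = ((1:ℝ) - ((b * Xt) / Y)) → 0 ≤ om →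
  ∀ y1 : ℝ, y1 = (a * om) →
  ((2:ℝ) + (y1 * (max ((1:ℝ) - ((1/2:ℝ) * y1)) 0))) ≤ θ → θ ≤ ((2:ℝ) + y1) →
  ∀ e1 : ℝ, e1 = ((1:ℝ) / om) →
  ∀ χ : ℝ, χ = (Xt * e1) →
  ∀ φ : ℝ, ((2:ℝ) / ((2:ℝ) + y1)) ≤ φ → φ ≤ (1:ℝ) →
  ∀ num : ℝ, num = ((χ + e1) - ((1/4:ℝ) * Y)) → 0 ≤ num →
  ∀ τ : ℝ, τ = ((1:ℝ) - X) → 0 ≤ τ →
  ∀ m1 : ℝ, m1 = (((3:ℝ) * χ) * ((X + ((2:ℝ) * χ)) + ((2:ℝ) * ((b * χ) / Y)))) →
  ∀ m2 : ℝ, m2 = (((2:ℝ) * e1) * (τ + ((c + (2:ℝ)) * χ))) →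
  ∀ mr : ℝ, mr = ((m1 + (φ * m2)) / (((8:ℝ) * Y) * num)) →
  ((1:ℝ) / ((1:ℝ) + (y1 * mr))) ≤ φ → φ ≤ (max ((1:ℝ) - ((y1 * mr) * ((2:ℝ) / ((2:ℝ) + y1)))) 0) →
  ∀ ρ : ℝ, ρ = (num / (((3:ℝ) * Y) + (((2:ℝ) * a) * φ))) →
  ∀ w : ℝ, w = (η * mr) →
  ((2:ℝ) * w) ≤ (1:ℝ) →
  ∀ ot : ℝ, ot = (χ * (y1 + η)) →
  ∀ pt : ℝ, pt = ((2:ℝ) - ot) → 0 ≤ pt →
  ∀ c2 : ℝ, c2 = ((2:ℝ) - ((1/2:ℝ) * c)) → 0 ≤ c2 →
  ∀ J : ℝ, J = (((2:ℝ) - a) - (ot * c2)) →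
  ∀ ϑ : ℝ, ((1:ℝ) + w) ≤ ϑ → ϑ ≤ ((1:ℝ) + (min ((2:ℝ) * w) (1:ℝ))) →
  ∀ ye : ℝ, ye = ((y1 + η) * pt) →
  ∀ G : ℝ, G = (ye * ((η * (((ρ * η) * ϑ) + (1/2:ℝ))) - (1:ℝ))) →
  ∀ M : ℝ, M = (((2:ℝ) + (c * ε)) - ((2:ℝ) * ε)) → 0 ≤ M →
  ∀ M1 : ℝ, M1 = (M - ε) → 0 ≤ M1 →
  ∀ s0 : ℝ, s0 = (((3/2:ℝ) - ((((2:ℝ) * ε) / M) * (a - b))) + ((ε / ((2:ℝ) * M1)) * ((1:ℝ) - c))) → 0 ≤ s0 →
  ∀ c4 : ℝ, c4 = ((4:ℝ) - c) → 0 ≤ c4 →
  ∀ br : ℝ, br = (((G * G) + (((2:ℝ) * η) * (G * J))) + ((η * η) * (ot + ((((ye * e1) * θ) / den) * ((1:ℝ) - (c4 * ε)))))) →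
  ∀ rp : ℝ, rp = (ρ * ((1:ℝ) + ((2/3:ℝ) * w))) →
  ∀ T : ℝ, T = (rp * (η * η)) →
  ∀ E2 : ℝ, E2 = ((1/2:ℝ) + (η * ((1/6:ℝ) + (η * ((1/24:ℝ) + (η * ((1/120:ℝ) + ((1/720:ℝ) * η)))))))) →
  ((((((7/10:ℝ) + ((27/10:ℝ) * a)) / ((1:ℝ) + ((1/2:ℝ) * b))) * ((3/4:ℝ) * ((1:ℝ) + ε))) * ((e1 * e1) * (e1 * e1))) * ((η * η) + ((ε / s0) * (max br 0)))) ≤ ((((2:ℝ) * ((((1:ℝ) + ((1/2:ℝ) * y1)) * ((1:ℝ) + ((1/2:ℝ) * y1))) * (((1:ℝ) + ((1/2:ℝ) * y1)) * ((1:ℝ) + ((1/2:ℝ) * y1))))) * ((1:ℝ) + η)) * (E2 + (((((1:ℝ) + η) + ((η * η) * E2)) * rp) * ((1:ℝ) + (T * ((1/2:ℝ) + ((1/6:ℝ) * T)))))))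

theorem sndExt : Snd FExt QExt := by
  intro l0 h0 l1 h1 l2 h2 l3 h3 H a b ε η v0 v1 v2 v3 c e_c den e_den p_den θ lo13 hi13 Xt e_Xt X e_X Y e_Y p_Y om e_om p_om y1 e_y1 lo35 hi35 e1 e_e1 χ e_χ φ lo54 hi54 num e_num p_num τ e_τ p_τ m1 e_m1 m2 e_m2 mr e_mr lo91 hi91 ρ e_ρ w e_w as107 ot e_ot pt e_pt p_pt c2 e_c2 p_c2 J e_J ϑ lo125 hi125 ye e_ye G e_G M e_M p_M M1 e_M1 p_M1 s0 e_s0 p_s0 c4 e_c4 p_c4 br e_br rp e_rp T e_T E2 e_E2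
  unfold FExt at H
  obtain ⟨n4a, n4b, m4, H⟩ := addP_s v0 v1 H
  have m5 := MP.eq m4 e_c
  obtain ⟨n6a, n6b, m6, H⟩ := mulP_s m5 v2 H
  obtain ⟨n8a, n8b, m8, H⟩ := addP_s k_1_1 m6 H
  obtain ⟨n10a, n10b, m10, H⟩ := nnS_s (subP_s m8 v2) e_den p_den H
  obtain ⟨n12a, n12b, m12, H⟩ := addP_s k_2_1 v0 H
  have m13 := btwP k_2_1 m12 lo13 hi13
  obtain ⟨n14a, n14b, m14, H⟩ := mulP_s v2 v2 H
  obtain ⟨n15a, n15b, m15, H⟩ := divP_s m14 m10 H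
  obtain ⟨n16a, n16b, m16, H⟩ := mulP_s m13 m15 H
  have m17 := MP.eq m16 e_Xt
  obtain ⟨n18a, n18b, m18, H⟩ := mulP_s v0 m17 H
  have m19 := MP.eq m18 e_X
  obtain ⟨n21a, n21b, m21, H⟩ := nnS_s (subP_s k_2_1 m19) e_Y p_Y H
  obtain ⟨n22a, n22b, m22, H⟩ := mulP_s v1 m17 H
  obtain ⟨n23a, n23b, m23, H⟩ := divP_s m22 m21 H
  obtain ⟨n25a, n25b, m25, H⟩ := nnS_s (subP_s k_1_1 m23) e_om p_om H
  obtain ⟨n26a, n26b, m26, H⟩ := mulP_s v0 m25 H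
  have m27 := MP.eq m26 e_y1
  obtain ⟨n29a, n29b, m29, H⟩ := mulP_s k_1_2 m27 H
  obtain ⟨n31a, n31b, m31, H⟩ := posS_s (subP_s k_1_1 m29) H
  obtain ⟨n32a, n32b, m32, H⟩ := mulP_s m27 m31 H
  obtain ⟨n33a, n33b, m33, H⟩ := addP_s k_2_1 m32 H
  obtain ⟨n34a, n34b, m34, H⟩ := addP_s k_2_1 m27 H
  have m35 := btwP m33 m34 lo35 hi35
  obtain ⟨n36a, n36b, m36, H⟩ := mulP_s m35 m15 H
  have m37 := MP.eq m36 e_Xt
  obtain ⟨n38a, n38b, m38, H⟩ := mulP_s v0 m37 H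
  have m39 := MP.eq m38 e_X
  obtain ⟨n41a, n41b, m41, H⟩ := nnS_s (subP_s k_2_1 m39) e_Y p_Y H
  obtain ⟨n42a, n42b, m42, H⟩ := mulP_s v1 m37 H
  obtain ⟨n43a, n43b, m43, H⟩ := divP_s m42 m41 H
  obtain ⟨n45a, n45b, m45, H⟩ := nnS_s (subP_s k_1_1 m43) e_om p_om H
  obtain ⟨n46a, n46b, m46, H⟩ := mulP_s v0 m45 H
  have m47 := MP.eq m46 e_y1
  obtain ⟨n48a, n48b, m48, H⟩ := divP_s k_1_1 m45 H
  have m49 := MP.eq m48 e_e1
  obtain ⟨n50a, n50b, m50, H⟩ := mulP_s m37 m49 H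
  have m51 := MP.eq m50 e_χ
  obtain ⟨n52a, n52b, m52, H⟩ := addP_s k_2_1 m47 H
  obtain ⟨n53a, n53b, m53, H⟩ := divP_s k_2_1 m52 H
  have m54 := btwP m53 k_1_1 lo54 hi54
  obtain ⟨n55a, n55b, m55, H⟩ := addP_s m51 m49 H
  obtain ⟨n57a, n57b, m57, H⟩ := mulP_s k_1_4 m41 H
  obtain ⟨n59a, n59b, m59, H⟩ := nnS_s (subP_s m55 m57) e_num p_num H
  obtain ⟨n61a, n61b, m61, H⟩ := nnS_s (subP_s k_1_1 m39) e_τ p_τ H
  obtain ⟨n63a, n63b, m63, H⟩ := mulN_s (c := (3:ℝ)) (n := 3) (by norm_num) m51 H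
  obtain ⟨n64a, n64b, m64, H⟩ := mulN_s (c := (2:ℝ)) (n := 2) (by norm_num) m51 H
  obtain ⟨n65a, n65b, m65, H⟩ := addP_s m39 m64 H
  obtain ⟨n66a, n66b, m66, H⟩ := mulP_s v1 m51 H
  obtain ⟨n67a, n67b, m67, H⟩ := divP_s m66 m41 H
  obtain ⟨n68a, n68b, m68, H⟩ := mulN_s (c := (2:ℝ)) (n := 2) (by norm_num) m67 H
  obtain ⟨n69a, n69b, m69, H⟩ := addP_s m65 m68 H
  obtain ⟨n70a, n70b, m70, H⟩ := mulP_s m63 m69 H
  have m71 := MP.eq m70 e_m1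
  obtain ⟨n72a, n72b, m72, H⟩ := mulN_s (c := (2:ℝ)) (n := 2) (by norm_num) m49 H
  obtain ⟨n73a, n73b, m73, H⟩ := addP_s m5 k_2_1 H
  obtain ⟨n74a, n74b, m74, H⟩ := mulP_s m73 m51 H
  obtain ⟨n75a, n75b, m75, H⟩ := addP_s m61 m74 H
  obtain ⟨n76a, n76b, m76, H⟩ := mulP_s m72 m75 H
  have m77 := MP.eq m76 e_m2
  obtain ⟨n79a, n79b, m79, H⟩ := mulN_s (c := (8:ℝ)) (n := 8) (by norm_num) m41 H
  obtain ⟨n80a, n80b, m80, H⟩ := mulP_s m79 m59 H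
  obtain ⟨n81a, n81b, m81, H⟩ := mulP_s m54 m77 H
  obtain ⟨n82a, n82b, m82, H⟩ := addP_s m71 m81 H
  obtain ⟨n83a, n83b, m83, H⟩ := divP_s m82 m80 H
  have m84 := MP.eq m83 e_mr
  obtain ⟨n85a, n85b, m85, H⟩ := mulP_s m47 m84 H
  obtain ⟨n86a, n86b, m86, H⟩ := addP_s k_1_1 m85 H
  obtain ⟨n87a, n87b, m87, H⟩ := divP_s k_1_1 m86 H
  obtain ⟨n88a, n88b, m88, H⟩ := mulP_s m85 m53 H
  obtain ⟨n90a, n90b, m90, H⟩ := posS_s (subP_s k_1_1 m88) H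
  have m91 := btwP m87 m90 lo91 hi91
  obtain ⟨n92a, n92b, m92, H⟩ := mulP_s m91 m77 H
  obtain ⟨n93a, n93b, m93, H⟩ := addP_s m71 m92 H
  obtain ⟨n94a, n94b, m94, H⟩ := divP_s m93 m80 H
  have m95 := MP.eq m94 e_mr
  obtain ⟨n96a, n96b, m96, H⟩ := mulN_s (c := (3:ℝ)) (n := 3) (by norm_num) m41 H
  obtain ⟨n97a, n97b, m97, H⟩ := mulN_s (c := (2:ℝ)) (n := 2) (by norm_num) v0 H
  obtain ⟨n98a, n98b, m98, H⟩ := mulP_s m97 m91 H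
  obtain ⟨n99a, n99b, m99, H⟩ := addP_s m96 m98 H
  obtain ⟨n100a, n100b, m100, H⟩ := divP_s m59 m99 H
  have m101 := MP.eq m100 e_ρ
  obtain ⟨n102a, n102b, m102, H⟩ := mulP_s v3 m95 H
  have m103 := MP.eq m102 e_w
  obtain ⟨n104a, n104b, m104, H⟩ := mulN_s (c := (2:ℝ)) (n := 2) (by norm_num) m103 H
  replace H := asm_s (toS_s m104) (toS_s k_1_1) as107 H
  obtain ⟨n108a, n108b, m108, H⟩ := mulP_s v3 v3 H
  obtain ⟨n109a, n109b, m109, H⟩ := addP_s m47 v3 H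
  obtain ⟨n110a, n110b, m110, H⟩ := mulP_s m51 m109 H
  have m111 := MP.eq m110 e_ot
  obtain ⟨n113a, n113b, m113, H⟩ := nnS_s (subP_s k_2_1 m111) e_pt p_pt H
  obtain ⟨n114a, n114b, m114, H⟩ := mulP_s k_1_2 m5 H
  obtain ⟨n116a, n116b, m116, H⟩ := nnS_s (subP_s k_2_1 m114) e_c2 p_c2 H
  obtain ⟨n118a, n118b, m118, H⟩ := mulP_s m111 m116 H
  obtain ⟨n120a, n120b, m120, H⟩ := subS_P (subP_s k_2_1 v0) m118 H
  have m121 := MS.eq m120 e_J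
  obtain ⟨n122a, n122b, m122, H⟩ := addP_s k_1_1 m103 H
  obtain ⟨n123a, n123b, m123, H⟩ := minP_s m104 k_1_1 H
  obtain ⟨n124a, n124b, m124, H⟩ := addP_s k_1_1 m123 H
  have m125 := btwP m122 m124 lo125 hi125
  obtain ⟨n126a, n126b, m126, H⟩ := mulP_s m109 m113 H
  have m127 := MP.eq m126 e_ye
  obtain ⟨n128a, n128b, m128, H⟩ := mulP_s m101 v3 H
  obtain ⟨n129a, n129b, m129, H⟩ := mulP_s m128 m125 H
  obtain ⟨n130a, n130b, m130, H⟩ := addP_s m129 k_1_2 H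
  obtain ⟨n131a, n131b, m131, H⟩ := mulP_s v3 m130 H
  obtain ⟨n133a, n133b, n133c, n133d, m133, H⟩ := mulS_s m127 (subP_s m131 k_1_1) H
  have m134 := MS.eq m133 e_G
  obtain ⟨n135a, n135b, m135, H⟩ := addP_s k_2_1 m6 H
  obtain ⟨n136a, n136b, m136, H⟩ := mulN_s (c := (2:ℝ)) (n := 2) (by norm_num) v2 H
  obtain ⟨n138a, n138b, m138, H⟩ := nnS_s (subP_s m135 m136) e_M p_M H
  obtain ⟨n140a, n140b, m140, H⟩ := nnS_s (subP_s m138 v2) e_M1 p_M1 H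
  obtain ⟨n141a, n141b, m141, H⟩ := divP_s m136 m138 H
  obtain ⟨n143a, n143b, n143c, n143d, m143, H⟩ := mulS_s m141 (subP_s v0 v1) H
  obtain ⟨n146a, n146b, m146, H⟩ := subP_S k_3_2 m143 H
  obtain ⟨n147a, n147b, m147, H⟩ := mulN_s (c := (2:ℝ)) (n := 2) (by norm_num) m140 H
  obtain ⟨n148a, n148b, m148, H⟩ := divP_s v2 m147 H
  obtain ⟨n150a, n150b, n150c, n150d, m150, H⟩ := mulS_s m148 (subP_s k_1_1 m5) H
  obtain ⟨n151a, n151b, n151c, n151d, m151, H⟩ := addS_s m146 m150 H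
  obtain ⟨n152a, n152b, m152, H⟩ := nnS_s m151 e_s0 p_s0 H
  obtain ⟨n155a, n155b, m155, H⟩ := nnS_s (subP_s k_4_1 m5) e_c4 p_c4 H
  obtain ⟨n156a, n156b, m156, H⟩ := absS_s m134 H
  obtain ⟨n157a, n157b, m157, H⟩ := mulP_s m156 m156 H
  obtain ⟨n159a, n159b, m159, H⟩ := mulN_s (c := (2:ℝ)) (n := 2) (by norm_num) v3 H
  obtain ⟨n160a, n160b, m160, H⟩ := posS_s m134 H
  obtain ⟨n161a, n161b, n161c, n161d, m161, H⟩ := mulS_s m160 m121 H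
  obtain ⟨n163a, n163b, m163, H⟩ := posS_s (neg_s m134) H
  obtain ⟨n164a, n164b, n164c, n164d, m164, H⟩ := mulS_s m163 m121 H
  obtain ⟨n165a, n165b, n165c, n165d, m165, H⟩ := subS_s m161 m164 H
  obtain ⟨n167a, n167b, n167c, n167d, m167, H⟩ := mulS_s m159 (MS.split m165) H
  obtain ⟨n169a, n169b, m169, H⟩ := addP_S (MP.sq m157) m167 H
  obtain ⟨n170a, n170b, m170, H⟩ := mulP_s m127 m49 H
  obtain ⟨n171a, n171b, m171, H⟩ := mulP_s m170 m35 H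
  obtain ⟨n172a, n172b, m172, H⟩ := divP_s m171 m10 H
  obtain ⟨n173a, n173b, m173, H⟩ := mulP_s m155 v2 H
  obtain ⟨n175a, n175b, n175c, n175d, m175, H⟩ := mulS_s m172 (subP_s k_1_1 m173) H
  obtain ⟨n177a, n177b, m177, H⟩ := addP_S m111 m175 H
  obtain ⟨n178a, n178b, n178c, n178d, m178, H⟩ := mulS_s m108 m177 H
  obtain ⟨n179a, n179b, n179c, n179d, m179, H⟩ := addS_s m169 m178 H
  have m180 := MS.eq m179 e_br
  obtain ⟨n181a, n181b, m181, H⟩ := mulP_s m49 m49 H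
  obtain ⟨n183a, n183b, m183, H⟩ := mulP_s k_27_10 v0 H
  obtain ⟨n185a, n185b, m185, H⟩ := addP_s k_7_10 m183 H
  obtain ⟨n186a, n186b, m186, H⟩ := mulP_s k_1_2 v1 H
  obtain ⟨n187a, n187b, m187, H⟩ := addP_s k_1_1 m186 H
  obtain ⟨n188a, n188b, m188, H⟩ := divP_s m185 m187 H
  obtain ⟨n189a, n189b, m189, H⟩ := addP_s k_1_1 v2 H
  obtain ⟨n191a, n191b, m191, H⟩ := mulP_s k_3_4 m189 H
  obtain ⟨n192a, n192b, m192, H⟩ := mulP_s m188 m191 H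
  obtain ⟨n193a, n193b, m193, H⟩ := mulP_s m181 m181 H
  obtain ⟨n194a, n194b, m194, H⟩ := mulP_s m192 m193 H
  obtain ⟨n195a, n195b, m195, H⟩ := divP_s v2 m152 H
  obtain ⟨n196a, n196b, m196, H⟩ := posS_s m180 H
  obtain ⟨n197a, n197b, m197, H⟩ := mulP_s m195 m196 H
  obtain ⟨n198a, n198b, m198, H⟩ := addP_s m108 m197 H
  obtain ⟨n199a, n199b, m199, H⟩ := mulP_s m194 m198 H
  obtain ⟨n201a, n201b, m201, H⟩ := mulP_s k_2_3 m103 H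
  obtain ⟨n202a, n202b, m202, H⟩ := addP_s k_1_1 m201 H
  obtain ⟨n203a, n203b, m203, H⟩ := mulP_s m101 m202 H
  have m204 := MP.eq m203 e_rp
  obtain ⟨n205a, n205b, m205, H⟩ := mulP_s m204 m108 H
  have m206 := MP.eq m205 e_T
  obtain ⟨n208a, n208b, m208, H⟩ := mulP_s k_1_720 v3 H
  obtain ⟨n210a, n210b, m210, H⟩ := addP_s k_1_120 m208 H
  obtain ⟨n211a, n211b, m211, H⟩ := mulP_s v3 m210 H
  obtain ⟨n213a, n213b, m213, H⟩ := addP_s k_1_24 m211 H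
  obtain ⟨n214a, n214b, m214, H⟩ := mulP_s v3 m213 H
  obtain ⟨n216a, n216b, m216, H⟩ := addP_s k_1_6 m214 H
  obtain ⟨n217a, n217b, m217, H⟩ := mulP_s v3 m216 H
  obtain ⟨n218a, n218b, m218, H⟩ := addP_s k_1_2 m217 H
  have m219 := MP.eq m218 e_E2
  obtain ⟨n220a, n220b, m220, H⟩ := mulP_s k_1_2 m47 H
  obtain ⟨n221a, n221b, m221, H⟩ := addP_s k_1_1 m220 H
  obtain ⟨n222a, n222b, m222, H⟩ := mulP_s m221 m221 H
  obtain ⟨n223a, n223b, m223, H⟩ := mulP_s m222 m222 H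
  obtain ⟨n224a, n224b, m224, H⟩ := mulN_s (c := (2:ℝ)) (n := 2) (by norm_num) m223 H
  obtain ⟨n225a, n225b, m225, H⟩ := addP_s k_1_1 v3 H
  obtain ⟨n226a, n226b, m226, H⟩ := mulP_s m224 m225 H
  obtain ⟨n227a, n227b, m227, H⟩ := mulP_s m108 m219 H
  obtain ⟨n228a, n228b, m228, H⟩ := addP_s m225 m227 H
  obtain ⟨n229a, n229b, m229, H⟩ := mulP_s m228 m204 H
  obtain ⟨n230a, n230b, m230, H⟩ := mulP_s k_1_6 m206 H
  obtain ⟨n231a, n231b, m231, H⟩ := addP_s k_1_2 m230 H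
  obtain ⟨n232a, n232b, m232, H⟩ := mulP_s m206 m231 H
  obtain ⟨n233a, n233b, m233, H⟩ := addP_s k_1_1 m232 H
  obtain ⟨n234a, n234b, m234, H⟩ := mulP_s m229 m233 H
  obtain ⟨n235a, n235b, m235, H⟩ := addP_s m219 m234 H
  obtain ⟨n236a, n236b, m236, H⟩ := mulP_s m226 m235 H
  obtain ⟨g239, H⟩ := gol_s (toS_s m199) (toS_s m236) H
  exact g239

noncomputable def FOne : Chk := fun l0 h0 l1 h1 l2 h2 _ _ =>
  addP l0 h0 l1 h1 fun n3a n3b =>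
  mulP 69300000 69300000 n3a n3b fun n6a n6b =>
  minP l0 h0 l1 h1 fun n8a n8b =>
  mulP 25000000 25000000 n3a n3b fun n10a n10b =>
  minP n8a n8b n10a n10b fun n11a n11b =>
  posS 100000000 n11b 100000000 n11a fun n14a n14b =>
  addP 100000000 100000000 l0 h0 fun n15a n15b =>
  addP 200000000 200000000 l0 h0 fun n17a n17b =>
  mulP n15a n15b n17a n17b fun n18a n18b =>
  addP 100000000 100000000 n3a n3b fun n19a n19b =>
  mulP n18a n18b n19a n19b fun n20a n20b =>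
  addP 100000000 100000000 l1 h1 fun n21a n21b =>
  mulN 3 n21a n21b fun n23a n23b =>
  addP 200000000 200000000 l1 h1 fun n24a n24b =>
  mulP n23a n23b n24a n24b fun n25a n25b =>
  mulP 4166666 4166667 n6a n6b fun n27a n27b =>
  addP 16666666 16666667 n27a n27b fun n29a n29b =>
  mulP n6a n6b n29a n29b fun n30a n30b =>
  addP 50000000 50000000 n30a n30b fun n32a n32b =>
  mulP n6a n6b n32a n32b fun n33a n33b =>
  addP 100000000 100000000 n33a n33b fun n34a n34b =>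
  mulP n6a n6b n34a n34b fun n35a n35b =>
  addP 100000000 100000000 n35a n35b fun n36a n36b =>
  mulP n25a n25b n36a n36b fun n37a n37b =>
  mulP n37a n37b n14a n14b fun n38a n38b =>
  divP n20a n20b n38a n38b fun n39a n39b =>
  addP 400000000 400000000 n3a n3b fun n43a n43b =>
  divP 600000000 600000000 n43a n43b fun n45a n45b =>
  mulS n45a n45b l0 h1 h0 l1 fun n46a n46b n46c n46d =>
  addP n46d n46b 300000000 300000000 fun n48a n48b =>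
  absS l0 h1 h0 l1 fun n49a n49b =>
  mulP n49a n49b n49a n49b fun n50a n50b =>
  mulN 3 n50a n50b fun n52a n52b =>
  mulP n52a n52b n19a n19b fun n53a n53b =>
  mulP n43a n43b n43a n43b fun n54a n54b =>
  divP n53a n53b n54a n54b fun n55a n55b =>
  addP 600000000 600000000 n55a n55b fun n56a n56b =>
  addP 300000000 300000000 n3a n3b fun n57a n57b =>
  divP n56a n56b n57a n57b fun n58a n58b =>
  addP n48a n48b n58a n58b fun n60a n60b =>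
  posS n60a n46c n60b n46a fun n61a n61b =>
  mulP n39a n39b n39a n39b fun n62a n62b =>
  mulP n62a n62b n61a n61b fun n63a n63b =>
  mulP n3a n3b l2 h2 fun n65a n65b =>
  addP 100000000 100000000 n65a n65b fun n66a n66b =>
  posS n66a h2 n66b l2 fun n68a n68b =>
  mulP l2 h2 l2 h2 fun n70a n70b =>
  divP n70a n70b n68a n68b fun n71a n71b =>
  mulP 200000000 n17b n71a n71b fun n72a n72b =>
  mulP l0 h0 n72a n72b fun n74a n74b =>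
  posS 200000000 n74b 200000000 n74a fun n77a n77b =>
  mulP l1 h1 n72a n72b fun n78a n78b =>
  divP n78a n78b n77a n77b fun n79a n79b =>
  posS 100000000 n79b 100000000 n79a fun n81a n81b =>
  mulP l0 h0 n81a n81b fun n82a n82b =>
  mulP 2500000 2500000 n82a n82b fun n85a n85b =>
  addP 12500000 12500000 n85a n85b fun n87a n87b =>
  mulP n82a n82b n87a n87b fun n88a n88b =>
  addP 33333333 33333334 n88a n88b fun n90a n90b =>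
  mulP n82a n82b n90a n90b fun n91a n91b =>
  addP 50000000 50000000 n91a n91b fun n92a n92b =>
  mulP l0 h0 l0 h0 fun n94a n94b =>
  mulP n63a n63b n94a n94b fun n95a n95b =>
  mulP n81a n81b n81a n81b fun n96a n96b =>
  mulN 2 n96a n96b fun n97a n97b =>
  mulP n97a n97b n92a n92b fun n98a n98b =>
  mulP n82a n82b n82a n82b fun n99a n99b =>
  mulP n99a n99b n92a n92b fun n100a n100b =>
  mulS n98a n98b 100000000 n100b 100000000 n100a fun n102a n102b n102c n102d =>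
  gol n95b 0 n102a n102b <|
  true

def QOne (a b ε _u0 : ℝ) : Prop :=
  ∀ c : ℝ, c = (a + b) →
  ∀ cl : ℝ, cl = ((693/1000:ℝ) * c) →
  ∀ hm : ℝ, hm = ((1:ℝ) - (min (min a b) ((1/4:ℝ) * c))) → 0 ≤ hm →
  ∀ π3 : ℝ, π3 = (((((1:ℝ) + a) * ((2:ℝ) + a)) * ((1:ℝ) + c)) / (((((3:ℝ) * ((1:ℝ) + b)) * ((2:ℝ) + b)) * ((1:ℝ) + (cl * ((1:ℝ) + (cl * ((1/2:ℝ) + (cl * ((1/6:ℝ) + ((1/24:ℝ) * cl))))))))) * hm)) →
  ∀ S3 : ℝ, S3 = (((3:ℝ) - (((6:ℝ) / ((4:ℝ) + c)) * (a - b))) + (((6:ℝ) + ((((3:ℝ) * ((a - b) * (a - b))) * ((1:ℝ) + c)) / (((4:ℝ) + c) * ((4:ℝ) + c)))) / ((3:ℝ) + c))) → 0 ≤ S3 →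
  ∀ Kh : ℝ, Kh = ((π3 * π3) * S3) →
  ∀ den : ℝ, den = (((1:ℝ) + (c * ε)) - ε) → 0 ≤ den →
  ∀ θ : ℝ, (2:ℝ) ≤ θ → θ ≤ ((2:ℝ) + a) →
  ∀ Xt : ℝ, Xt = (θ * ((ε * ε) / den)) →
  ∀ X : ℝ, X = (a * Xt) →
  ∀ Y : ℝ, Y = ((2:ℝ) - X) → 0 ≤ Y →
  ∀ om : ℝ, om = ((1:ℝ) - ((b * Xt) / Y)) → 0 ≤ om →
  ∀ y1 : ℝ, y1 = (a * om) →
  ∀ gg : ℝ, gg = ((1/2:ℝ) + (y1 * ((1/3:ℝ) + (y1 * ((1/8:ℝ) + ((1/40:ℝ) * y1)))))) →
  (Kh * (a * a)) ≤ ((((2:ℝ) * (om * om)) * gg) * ((1:ℝ) - ((y1 * y1) * gg)))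

theorem sndOne : Snd FOne QOne := by
  intro l0 h0 l1 h1 l2 h2 l3 h3 H a b ε _u0 v0 v1 v2 v3 c e_c cl e_cl hm e_hm p_hm π3 e_π3 S3 e_S3 p_S3 Kh e_Kh den e_den p_den θ lo69 hi69 Xt e_Xt X e_X Y e_Y p_Y om e_om p_om y1 e_y1 gg e_gg
  unfold FOne at H
  obtain ⟨n3a, n3b, m3, H⟩ := addP_s v0 v1 H
  have m4 := MP.eq m3 e_c
  obtain ⟨n6a, n6b, m6, H⟩ := mulP_s k_693_1000 m4 H
  have m7 := MP.eq m6 e_cl
  obtain ⟨n8a, n8b, m8, H⟩ := minP_s v0 v1 H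
  obtain ⟨n10a, n10b, m10, H⟩ := mulP_s k_1_4 m4 H
  obtain ⟨n11a, n11b, m11, H⟩ := minP_s m8 m10 H
  obtain ⟨n14a, n14b, m14, H⟩ := nnS_s (subP_s k_1_1 m11) e_hm p_hm H
  obtain ⟨n15a, n15b, m15, H⟩ := addP_s k_1_1 v0 H
  obtain ⟨n17a, n17b, m17, H⟩ := addP_s k_2_1 v0 H
  obtain ⟨n18a, n18b, m18, H⟩ := mulP_s m15 m17 H
  obtain ⟨n19a, n19b, m19, H⟩ := addP_s k_1_1 m4 H
  obtain ⟨n20a, n20b, m20, H⟩ := mulP_s m18 m19 H
  obtain ⟨n21a, n21b, m21, H⟩ := addP_s k_1_1 v1 H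
  obtain ⟨n23a, n23b, m23, H⟩ := mulN_s (c := (3:ℝ)) (n := 3) (by norm_num) m21 H
  obtain ⟨n24a, n24b, m24, H⟩ := addP_s k_2_1 v1 H
  obtain ⟨n25a, n25b, m25, H⟩ := mulP_s m23 m24 H
  obtain ⟨n27a, n27b, m27, H⟩ := mulP_s k_1_24 m7 H
  obtain ⟨n29a, n29b, m29, H⟩ := addP_s k_1_6 m27 H
  obtain ⟨n30a, n30b, m30, H⟩ := mulP_s m7 m29 H
  obtain ⟨n32a, n32b, m32, H⟩ := addP_s k_1_2 m30 H
  obtain ⟨n33a, n33b, m33, H⟩ := mulP_s m7 m32 H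
  obtain ⟨n34a, n34b, m34, H⟩ := addP_s k_1_1 m33 H
  obtain ⟨n35a, n35b, m35, H⟩ := mulP_s m7 m34 H
  obtain ⟨n36a, n36b, m36, H⟩ := addP_s k_1_1 m35 H
  obtain ⟨n37a, n37b, m37, H⟩ := mulP_s m25 m36 H
  obtain ⟨n38a, n38b, m38, H⟩ := mulP_s m37 m14 H
  obtain ⟨n39a, n39b, m39, H⟩ := divP_s m20 m38 H
  have m40 := MP.eq m39 e_π3
  obtain ⟨n43a, n43b, m43, H⟩ := addP_s k_4_1 m4 H
  obtain ⟨n45a, n45b, m45, H⟩ := divP_s k_6_1 m43 H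
  obtain ⟨n46a, n46b, n46c, n46d, m46, H⟩ := mulS_s m45 (subP_s v0 v1) H
  obtain ⟨n48a, n48b, m48, H⟩ := subP_S k_3_1 m46 H
  obtain ⟨n49a, n49b, m49, H⟩ := absS_s (subP_s v0 v1) H
  obtain ⟨n50a, n50b, m50, H⟩ := mulP_s m49 m49 H
  obtain ⟨n52a, n52b, m52, H⟩ := mulN_s (c := (3:ℝ)) (n := 3) (by norm_num) (MP.sq m50) H
  obtain ⟨n53a, n53b, m53, H⟩ := mulP_s m52 m19 H
  obtain ⟨n54a, n54b, m54, H⟩ := mulP_s m43 m43 H
  obtain ⟨n55a, n55b, m55, H⟩ := divP_s m53 m54 H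
  obtain ⟨n56a, n56b, m56, H⟩ := addP_s k_6_1 m55 H
  obtain ⟨n57a, n57b, m57, H⟩ := addP_s k_3_1 m4 H
  obtain ⟨n58a, n58b, m58, H⟩ := divP_s m56 m57 H
  obtain ⟨n60a, n60b, m60, H⟩ := addS_P m48 m58 H
  obtain ⟨n61a, n61b, m61, H⟩ := nnS_s m60 e_S3 p_S3 H
  obtain ⟨n62a, n62b, m62, H⟩ := mulP_s m40 m40 H
  obtain ⟨n63a, n63b, m63, H⟩ := mulP_s m62 m61 H
  have m64 := MP.eq m63 e_Kh
  obtain ⟨n65a, n65b, m65, H⟩ := mulP_s m4 v2 H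
  obtain ⟨n66a, n66b, m66, H⟩ := addP_s k_1_1 m65 H
  obtain ⟨n68a, n68b, m68, H⟩ := nnS_s (subP_s m66 v2) e_den p_den H
  have m69 := btwP k_2_1 m17 lo69 hi69
  obtain ⟨n70a, n70b, m70, H⟩ := mulP_s v2 v2 H
  obtain ⟨n71a, n71b, m71, H⟩ := divP_s m70 m68 H
  obtain ⟨n72a, n72b, m72, H⟩ := mulP_s m69 m71 H
  have m73 := MP.eq m72 e_Xt
  obtain ⟨n74a, n74b, m74, H⟩ := mulP_s v0 m73 H
  have m75 := MP.eq m74 e_X
  obtain ⟨n77a, n77b, m77, H⟩ := nnS_s (subP_s k_2_1 m75) e_Y p_Y H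
  obtain ⟨n78a, n78b, m78, H⟩ := mulP_s v1 m73 H
  obtain ⟨n79a, n79b, m79, H⟩ := divP_s m78 m77 H
  obtain ⟨n81a, n81b, m81, H⟩ := nnS_s (subP_s k_1_1 m79) e_om p_om H
  obtain ⟨n82a, n82b, m82, H⟩ := mulP_s v0 m81 H
  have m83 := MP.eq m82 e_y1
  obtain ⟨n85a, n85b, m85, H⟩ := mulP_s k_1_40 m83 H
  obtain ⟨n87a, n87b, m87, H⟩ := addP_s k_1_8 m85 H
  obtain ⟨n88a, n88b, m88, H⟩ := mulP_s m83 m87 H
  obtain ⟨n90a, n90b, m90, H⟩ := addP_s k_1_3 m88 H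
  obtain ⟨n91a, n91b, m91, H⟩ := mulP_s m83 m90 H
  obtain ⟨n92a, n92b, m92, H⟩ := addP_s k_1_2 m91 H
  have m93 := MP.eq m92 e_gg
  obtain ⟨n94a, n94b, m94, H⟩ := mulP_s v0 v0 H
  obtain ⟨n95a, n95b, m95, H⟩ := mulP_s m64 m94 H
  obtain ⟨n96a, n96b, m96, H⟩ := mulP_s m81 m81 H
  obtain ⟨n97a, n97b, m97, H⟩ := mulN_s (c := (2:ℝ)) (n := 2) (by norm_num) m96 H
  obtain ⟨n98a, n98b, m98, H⟩ := mulP_s m97 m93 H
  obtain ⟨n99a, n99b, m99, H⟩ := mulP_s m83 m83 H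
  obtain ⟨n100a, n100b, m100, H⟩ := mulP_s m99 m93 H
  obtain ⟨n102a, n102b, n102c, n102d, m102, H⟩ := mulS_s m98 (subP_s k_1_1 m100) H
  obtain ⟨g104, H⟩ := gol_s (toS_s m95) m102 H
  exact g104

noncomputable def FKb : Chk := fun l0 h0 l1 h1 _ _ _ _ =>
  addP l0 h0 l1 h1 fun n2a n2b =>
  mulP 69300000 69300000 n2a n2b fun n5a n5b =>
  minP l0 h0 l1 h1 fun n7a n7b =>
  mulP 25000000 25000000 n2a n2b fun n9a n9b =>
  minP n7a n7b n9a n9b fun n10a n10b =>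
  posS 100000000 n10b 100000000 n10a fun n13a n13b =>
  addP 100000000 100000000 l0 h0 fun n14a n14b =>
  addP 200000000 200000000 l0 h0 fun n16a n16b =>
  mulP n14a n14b n16a n16b fun n17a n17b =>
  addP 100000000 100000000 n2a n2b fun n18a n18b =>
  mulP n17a n17b n18a n18b fun n19a n19b =>
  addP 100000000 100000000 l1 h1 fun n20a n20b =>
  mulN 3 n20a n20b fun n22a n22b =>
  addP 200000000 200000000 l1 h1 fun n23a n23b =>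
  mulP n22a n22b n23a n23b fun n24a n24b =>
  mulP 4166666 4166667 n5a n5b fun n26a n26b =>
  addP 16666666 16666667 n26a n26b fun n28a n28b =>
  mulP n5a n5b n28a n28b fun n29a n29b =>
  addP 50000000 50000000 n29a n29b fun n31a n31b =>
  mulP n5a n5b n31a n31b fun n32a n32b =>
  addP 100000000 100000000 n32a n32b fun n33a n33b =>
  mulP n5a n5b n33a n33b fun n34a n34b =>
  addP 100000000 100000000 n34a n34b fun n35a n35b =>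
  mulP n24a n24b n35a n35b fun n36a n36b =>
  mulP n36a n36b n13a n13b fun n37a n37b =>
  divP n19a n19b n37a n37b fun n38a n38b =>
  addP 400000000 400000000 n2a n2b fun n42a n42b =>
  divP 600000000 600000000 n42a n42b fun n44a n44b =>
  mulS n44a n44b l0 h1 h0 l1 fun n45a n45b n45c n45d =>
  addP n45d n45b 300000000 300000000 fun n47a n47b =>
  absS l0 h1 h0 l1 fun n48a n48b =>
  mulP n48a n48b n48a n48b fun n49a n49b =>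
  mulN 3 n49a n49b fun n51a n51b =>
  mulP n51a n51b n18a n18b fun n52a n52b =>
  mulP n42a n42b n42a n42b fun n53a n53b =>
  divP n52a n52b n53a n53b fun n54a n54b =>
  addP 600000000 600000000 n54a n54b fun n55a n55b =>
  addP 300000000 300000000 n2a n2b fun n56a n56b =>
  divP n55a n55b n56a n56b fun n57a n57b =>
  addP n47a n47b n57a n57b fun n59a n59b =>
  posS n59a n45c n59b n45a fun n60a n60b =>
  mulP n38a n38b n38a n38b fun n61a n61b =>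
  mulP n61a n61b n60a n60b fun n62a n62b =>
  mulP 270000000 270000000 l0 h0 fun n65a n65b =>
  addP 70000000 70000000 n65a n65b fun n67a n67b =>
  mulP 50000000 50000000 l1 h1 fun n68a n68b =>
  addP 100000000 100000000 n68a n68b fun n69a n69b =>
  divP n67a n67b n69a n69b fun n70a n70b =>
  gol n62b 0 n70a 0 <|
  true

def QKb (a b _u0 _u1 : ℝ) : Prop :=
  ∀ c : ℝ, c = (a + b) →
  ∀ cl : ℝ, cl = ((693/1000:ℝ) * c) →
  ∀ hm : ℝ, hm = ((1:ℝ) - (min (min a b) ((1/4:ℝ) * c))) → 0 ≤ hm →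
  ∀ π3 : ℝ, π3 = (((((1:ℝ) + a) * ((2:ℝ) + a)) * ((1:ℝ) + c)) / (((((3:ℝ) * ((1:ℝ) + b)) * ((2:ℝ) + b)) * ((1:ℝ) + (cl * ((1:ℝ) + (cl * ((1/2:ℝ) + (cl * ((1/6:ℝ) + ((1/24:ℝ) * cl))))))))) * hm)) →
  ∀ S3 : ℝ, S3 = (((3:ℝ) - (((6:ℝ) / ((4:ℝ) + c)) * (a - b))) + (((6:ℝ) + ((((3:ℝ) * ((a - b) * (a - b))) * ((1:ℝ) + c)) / (((4:ℝ) + c) * ((4:ℝ) + c)))) / ((3:ℝ) + c))) → 0 ≤ S3 →
  ∀ Kh : ℝ, Kh = ((π3 * π3) * S3) →
  Kh ≤ (((7/10:ℝ) + ((27/10:ℝ) * a)) / ((1:ℝ) + ((1/2:ℝ) * b)))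

theorem sndKb : Snd FKb QKb := by
  intro l0 h0 l1 h1 l2 h2 l3 h3 H a b _u0 _u1 v0 v1 v2 v3 c e_c cl e_cl hm e_hm p_hm π3 e_π3 S3 e_S3 p_S3 Kh e_Kh
  unfold FKb at H
  obtain ⟨n2a, n2b, m2, H⟩ := addP_s v0 v1 H
  have m3 := MP.eq m2 e_c
  obtain ⟨n5a, n5b, m5, H⟩ := mulP_s k_693_1000 m3 H
  have m6 := MP.eq m5 e_cl
  obtain ⟨n7a, n7b, m7, H⟩ := minP_s v0 v1 H
  obtain ⟨n9a, n9b, m9, H⟩ := mulP_s k_1_4 m3 H
  obtain ⟨n10a, n10b, m10, H⟩ := minP_s m7 m9 H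
  obtain ⟨n13a, n13b, m13, H⟩ := nnS_s (subP_s k_1_1 m10) e_hm p_hm H
  obtain ⟨n14a, n14b, m14, H⟩ := addP_s k_1_1 v0 H
  obtain ⟨n16a, n16b, m16, H⟩ := addP_s k_2_1 v0 H
  obtain ⟨n17a, n17b, m17, H⟩ := mulP_s m14 m16 H
  obtain ⟨n18a, n18b, m18, H⟩ := addP_s k_1_1 m3 H
  obtain ⟨n19a, n19b, m19, H⟩ := mulP_s m17 m18 H
  obtain ⟨n20a, n20b, m20, H⟩ := addP_s k_1_1 v1 H
  obtain ⟨n22a, n22b, m22, H⟩ := mulN_s (c := (3:ℝ)) (n := 3) (by norm_num) m20 H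
  obtain ⟨n23a, n23b, m23, H⟩ := addP_s k_2_1 v1 H
  obtain ⟨n24a, n24b, m24, H⟩ := mulP_s m22 m23 H
  obtain ⟨n26a, n26b, m26, H⟩ := mulP_s k_1_24 m6 H
  obtain ⟨n28a, n28b, m28, H⟩ := addP_s k_1_6 m26 H
  obtain ⟨n29a, n29b, m29, H⟩ := mulP_s m6 m28 H
  obtain ⟨n31a, n31b, m31, H⟩ := addP_s k_1_2 m29 H
  obtain ⟨n32a, n32b, m32, H⟩ := mulP_s m6 m31 H
  obtain ⟨n33a, n33b, m33, H⟩ := addP_s k_1_1 m32 H
  obtain ⟨n34a, n34b, m34, H⟩ := mulP_s m6 m33 H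
  obtain ⟨n35a, n35b, m35, H⟩ := addP_s k_1_1 m34 H
  obtain ⟨n36a, n36b, m36, H⟩ := mulP_s m24 m35 H
  obtain ⟨n37a, n37b, m37, H⟩ := mulP_s m36 m13 H
  obtain ⟨n38a, n38b, m38, H⟩ := divP_s m19 m37 H
  have m39 := MP.eq m38 e_π3
  obtain ⟨n42a, n42b, m42, H⟩ := addP_s k_4_1 m3 H
  obtain ⟨n44a, n44b, m44, H⟩ := divP_s k_6_1 m42 H
  obtain ⟨n45a, n45b, n45c, n45d, m45, H⟩ := mulS_s m44 (subP_s v0 v1) H
  obtain ⟨n47a, n47b, m47, H⟩ := subP_S k_3_1 m45 H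
  obtain ⟨n48a, n48b, m48, H⟩ := absS_s (subP_s v0 v1) H
  obtain ⟨n49a, n49b, m49, H⟩ := mulP_s m48 m48 H
  obtain ⟨n51a, n51b, m51, H⟩ := mulN_s (c := (3:ℝ)) (n := 3) (by norm_num) (MP.sq m49) H
  obtain ⟨n52a, n52b, m52, H⟩ := mulP_s m51 m18 H
  obtain ⟨n53a, n53b, m53, H⟩ := mulP_s m42 m42 H
  obtain ⟨n54a, n54b, m54, H⟩ := divP_s m52 m53 H
  obtain ⟨n55a, n55b, m55, H⟩ := addP_s k_6_1 m54 H
  obtain ⟨n56a, n56b, m56, H⟩ := addP_s k_3_1 m3 H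
  obtain ⟨n57a, n57b, m57, H⟩ := divP_s m55 m56 H
  obtain ⟨n59a, n59b, m59, H⟩ := addS_P m47 m57 H
  obtain ⟨n60a, n60b, m60, H⟩ := nnS_s m59 e_S3 p_S3 H
  obtain ⟨n61a, n61b, m61, H⟩ := mulP_s m39 m39 H
  obtain ⟨n62a, n62b, m62, H⟩ := mulP_s m61 m60 H
  have m63 := MP.eq m62 e_Kh
  obtain ⟨n65a, n65b, m65, H⟩ := mulP_s k_27_10 v0 H
  obtain ⟨n67a, n67b, m67, H⟩ := addP_s k_7_10 m65 H
  obtain ⟨n68a, n68b, m68, H⟩ := mulP_s k_1_2 v1 H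
  obtain ⟨n69a, n69b, m69, H⟩ := addP_s k_1_1 m68 H
  obtain ⟨n70a, n70b, m70, H⟩ := divP_s m67 m69 H
  obtain ⟨g73, H⟩ := gol_s (toS_s m63) (toS_s m70) H
  exact g73

noncomputable def FMono : Chk := fun l0 h0 l1 h1 l2 h2 _ _ =>
  addP l0 h0 l1 h1 fun n3a n3b =>
  mulP n3a n3b l2 h2 fun n5a n5b =>
  addP 200000000 200000000 n5a n5b fun n7a n7b =>
  mulN 2 l2 h2 fun n8a n8b =>
  posS n7a n8b n7b n8a fun n10a n10b =>
  posS n10a h2 n10b l2 fun n12a n12b =>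
  divP n8a n8b n10a n10b fun n13a n13b =>
  mulS n13a n13b l0 h1 h0 l1 fun n15a n15b n15c n15d =>
  addP n15d n15b 150000000 150000000 fun n18a n18b =>
  mulN 2 n12a n12b fun n19a n19b =>
  divP l2 h2 n19a n19b fun n20a n20b =>
  mulS n20a n20b 100000000 n3b 100000000 n3a fun n23a n23b n23c n23d =>
  addS n18a n15c n18b n15a n23a n23b n23c n23d fun n24a n24b n24c n24d =>
  posS n24a n24b n24c n24d fun n25a n25b =>
  addP n10a n10b n8a n8b fun n26a n26b =>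
  mulP n10a n10b n26a n26b fun n27a n27b =>
  divP 400000000 400000000 n27a n27b fun n29a n29b =>
  mulS n29a n29b l0 h1 h0 l1 fun n30a n30b n30c n30d =>
  addP n10a n10b l2 h2 fun n31a n31b =>
  mulP n12a n12b n31a n31b fun n32a n32b =>
  divP 100000000 100000000 n32a n32b fun n33a n33b =>
  mulS n33a n33b 100000000 n3b 100000000 n3a fun n34a n34b n34c n34d =>
  addS n30a n30b n30c n30d n34d n34c n34b n34a fun n35a n35b n35c n35d =>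
  posS n35a n35b n35c n35d fun n36a n36b =>
  divP n36a n36b n25a n25b fun n37a n37b =>
  posS 100000000 h0 100000000 l0 fun n40a n40b =>
  addP 100000000 100000000 n5a n5b fun n41a n41b =>
  posS n41a h2 n41b l2 fun n43a n43b =>
  mulP l0 h0 l2 h2 fun n44a n44b =>
  addP 100000000 100000000 n44a n44b fun n45a n45b =>
  divP n40a n40b n45a n45b fun n46a n46b =>
  divP n40a n40b n43a n43b fun n48a n48b =>
  mulP l2 h2 n37a n37b fun n50a n50b =>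
  addP 100000000 100000000 n8a n8b fun n52a n52b =>
  divP l2 h2 n52a n52b fun n53a n53b =>
  addP n50a n50b n53a n53b fun n55a n55b =>
  mulP n50a n50b n53a n53b fun n56a n56b =>
  mulP l2 h2 n56a n56b fun n57a n57b =>
  addP n55a n55b n57a n57b fun n58a n58b =>
  addP n46a n46b n48a n48b fun n60a n60b =>
  mulP n46a n46b n48a n48b fun n61a n61b =>
  mulP l2 h2 n61a n61b fun n62a n62b =>
  addP n60a n60b n62a n62b fun n63a n63b =>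
  addP 100000000 100000000 n58a n58b fun n65a n65b =>
  mulP l2 h2 n58a n58b fun n66a n66b =>
  addP n65a n65b n66a n66b fun n67a n67b =>
  mulP l2 h2 n63a n63b fun n68a n68b =>
  addP 200000000 200000000 n68a n68b fun n69a n69b =>
  mulP n63a n63b n69a n69b fun n70a n70b =>
  gol n67b 0 n70a 0 <|
  true

def QMono (a b ε _u0 : ℝ) : Prop :=
  ∀ c : ℝ, c = (a + b) →
  ∀ M : ℝ, M = (((2:ℝ) + (c * ε)) - ((2:ℝ) * ε)) → 0 ≤ M →
  ∀ M1 : ℝ, M1 = (M - ε) → 0 ≤ M1 →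
  ∀ s0 : ℝ, s0 = (((3/2:ℝ) - ((((2:ℝ) * ε) / M) * (a - b))) + ((ε / ((2:ℝ) * M1)) * ((1:ℝ) - c))) → 0 ≤ s0 →
  ∀ De : ℝ, De = ((max ((((4:ℝ) / (M * (M + ((2:ℝ) * ε)))) * (a - b)) - (((1:ℝ) / (M1 * (M + ε))) * ((1:ℝ) - c))) 0) / s0) →
  ∀ al : ℝ, al = ((1:ℝ) - a) → 0 ≤ al →
  ∀ den : ℝ, den = (((1:ℝ) + (c * ε)) - ε) → 0 ≤ den →
  ∀ pp : ℝ, pp = (al / ((1:ℝ) + (a * ε))) →
  ∀ qq : ℝ, qq = (al / den) →
  ∀ x : ℝ, x = (ε * De) →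
  ∀ y : ℝ, y = (ε / ((1:ℝ) + ((2:ℝ) * ε))) →
  ∀ xy : ℝ, xy = ((x + y) + (ε * (x * y))) →
  ∀ pq : ℝ, pq = ((pp + qq) + (ε * (pp * qq))) →
  (((1:ℝ) + xy) + (ε * xy)) ≤ (pq * ((2:ℝ) + (ε * pq)))

theorem sndMono : Snd FMono QMono := by
  intro l0 h0 l1 h1 l2 h2 l3 h3 H a b ε _u0 v0 v1 v2 v3 c e_c M e_M p_M M1 e_M1 p_M1 s0 e_s0 p_s0 De e_De al e_al p_al den e_den p_den pp e_pp qq e_qq x e_x y e_y xy e_xy pq e_pq
  unfold FMono at H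
  obtain ⟨n3a, n3b, m3, H⟩ := addP_s v0 v1 H
  have m4 := MP.eq m3 e_c
  obtain ⟨n5a, n5b, m5, H⟩ := mulP_s m4 v2 H
  obtain ⟨n7a, n7b, m7, H⟩ := addP_s k_2_1 m5 H
  obtain ⟨n8a, n8b, m8, H⟩ := mulN_s (c := (2:ℝ)) (n := 2) (by norm_num) v2 H
  obtain ⟨n10a, n10b, m10, H⟩ := nnS_s (subP_s m7 m8) e_M p_M H
  obtain ⟨n12a, n12b, m12, H⟩ := nnS_s (subP_s m10 v2) e_M1 p_M1 H
  obtain ⟨n13a, n13b, m13, H⟩ := divP_s m8 m10 H
  obtain ⟨n15a, n15b, n15c, n15d, m15, H⟩ := mulS_s m13 (subP_s v0 v1) H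
  obtain ⟨n18a, n18b, m18, H⟩ := subP_S k_3_2 m15 H
  obtain ⟨n19a, n19b, m19, H⟩ := mulN_s (c := (2:ℝ)) (n := 2) (by norm_num) m12 H
  obtain ⟨n20a, n20b, m20, H⟩ := divP_s v2 m19 H
  obtain ⟨n23a, n23b, n23c, n23d, m23, H⟩ := mulS_s m20 (subP_s k_1_1 m4) H
  obtain ⟨n24a, n24b, n24c, n24d, m24, H⟩ := addS_s m18 m23 H
  obtain ⟨n25a, n25b, m25, H⟩ := nnS_s m24 e_s0 p_s0 H
  obtain ⟨n26a, n26b, m26, H⟩ := addP_s m10 m8 H
  obtain ⟨n27a, n27b, m27, H⟩ := mulP_s m10 m26 H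
  obtain ⟨n29a, n29b, m29, H⟩ := divP_s k_4_1 m27 H
  obtain ⟨n30a, n30b, n30c, n30d, m30, H⟩ := mulS_s m29 (subP_s v0 v1) H
  obtain ⟨n31a, n31b, m31, H⟩ := addP_s m10 v2 H
  obtain ⟨n32a, n32b, m32, H⟩ := mulP_s m12 m31 H
  obtain ⟨n33a, n33b, m33, H⟩ := divP_s k_1_1 m32 H
  obtain ⟨n34a, n34b, n34c, n34d, m34, H⟩ := mulS_s m33 (subP_s k_1_1 m4) H
  obtain ⟨n35a, n35b, n35c, n35d, m35, H⟩ := subS_s m30 m34 H
  obtain ⟨n36a, n36b, m36, H⟩ := posS_s m35 H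
  obtain ⟨n37a, n37b, m37, H⟩ := divP_s m36 m25 H
  have m38 := MP.eq m37 e_De
  obtain ⟨n40a, n40b, m40, H⟩ := nnS_s (subP_s k_1_1 v0) e_al p_al H
  obtain ⟨n41a, n41b, m41, H⟩ := addP_s k_1_1 m5 H
  obtain ⟨n43a, n43b, m43, H⟩ := nnS_s (subP_s m41 v2) e_den p_den H
  obtain ⟨n44a, n44b, m44, H⟩ := mulP_s v0 v2 H
  obtain ⟨n45a, n45b, m45, H⟩ := addP_s k_1_1 m44 H
  obtain ⟨n46a, n46b, m46, H⟩ := divP_s m40 m45 H
  have m47 := MP.eq m46 e_pp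
  obtain ⟨n48a, n48b, m48, H⟩ := divP_s m40 m43 H
  have m49 := MP.eq m48 e_qq
  obtain ⟨n50a, n50b, m50, H⟩ := mulP_s v2 m38 H
  have m51 := MP.eq m50 e_x
  obtain ⟨n52a, n52b, m52, H⟩ := addP_s k_1_1 m8 H
  obtain ⟨n53a, n53b, m53, H⟩ := divP_s v2 m52 H
  have m54 := MP.eq m53 e_y
  obtain ⟨n55a, n55b, m55, H⟩ := addP_s m51 m54 H
  obtain ⟨n56a, n56b, m56, H⟩ := mulP_s m51 m54 H
  obtain ⟨n57a, n57b, m57, H⟩ := mulP_s v2 m56 H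
  obtain ⟨n58a, n58b, m58, H⟩ := addP_s m55 m57 H
  have m59 := MP.eq m58 e_xy
  obtain ⟨n60a, n60b, m60, H⟩ := addP_s m47 m49 H
  obtain ⟨n61a, n61b, m61, H⟩ := mulP_s m47 m49 H
  obtain ⟨n62a, n62b, m62, H⟩ := mulP_s v2 m61 H
  obtain ⟨n63a, n63b, m63, H⟩ := addP_s m60 m62 H
  have m64 := MP.eq m63 e_pq
  obtain ⟨n65a, n65b, m65, H⟩ := addP_s k_1_1 m59 H
  obtain ⟨n66a, n66b, m66, H⟩ := mulP_s v2 m59 H
  obtain ⟨n67a, n67b, m67, H⟩ := addP_s m65 m66 H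
  obtain ⟨n68a, n68b, m68, H⟩ := mulP_s v2 m64 H
  obtain ⟨n69a, n69b, m69, H⟩ := addP_s k_2_1 m68 H
  obtain ⟨n70a, n70b, m70, H⟩ := mulP_s m64 m69 H
  obtain ⟨g73, H⟩ := gol_s (toS_s m67) (toS_s m70) H
  exact g73

noncomputable def FTwo : Chk := fun l0 h0 l1 h1 _ _ _ _ =>
  addP 200000000 200000000 l1 h1 fun n3a n3b =>
  divP 200000000 200000000 n3a n3b fun n4a n4b =>
  addP 200000000 200000000 l0 h0 fun n6a n6b =>
  addP n6a n6b l1 h1 fun n7a n7b =>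
  mulN 2 l0 h0 fun n8a n8b =>
  addP 200000000 200000000 n8a n8b fun n9a n9b =>
  divP n7a n7b n9a n9b fun n10a n10b =>
  addP n4a n4b n4a n4b fun n12a n12b =>
  mulP n4a n4b n4a n4b fun n13a n13b =>
  mulP l1 h1 n13a n13b fun n14a n14b =>
  addP n12a n12b n14a n14b fun n15a n15b =>
  addP n15a n15b n3a n3b fun n18a n18b =>
  mulP n15a n15b n3a n3b fun n19a n19b =>
  mulP l1 h1 n19a n19b fun n20a n20b =>
  addP n18a n18b n20a n20b fun n21a n21b =>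
  addP n21a n21b n10a n10b fun n23a n23b =>
  mulP n21a n21b n10a n10b fun n24a n24b =>
  mulP l1 h1 n24a n24b fun n25a n25b =>
  addP n23a n23b n25a n25b fun n26a n26b =>
  divP 100000000 100000000 n6a n6b fun n29a n29b =>
  addP n29a n29b n29a n29b fun n31a n31b =>
  mulP n29a n29b n29a n29b fun n32a n32b =>
  mulP l1 h1 n32a n32b fun n33a n33b =>
  addP n31a n31b n33a n33b fun n34a n34b =>
  posS 100000000 h0 100000000 l0 fun n37a n37b =>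
  addP n34a n34b n34a n34b fun n38a n38b =>
  mulP n34a n34b n34a n34b fun n39a n39b =>
  mulP l1 h1 n39a n39b fun n40a n40b =>
  addP n38a n38b n40a n40b fun n41a n41b =>
  addP 100000000 100000000 l0 h0 fun n43a n43b =>
  divP 100000000 100000000 n43a n43b fun n44a n44b =>
  addP n41a n41b n44a n44b fun n46a n46b =>
  mulP n41a n41b n44a n44b fun n47a n47b =>
  mulP l1 h1 n47a n47b fun n48a n48b =>
  addP n46a n46b n48a n48b fun n49a n49b =>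
  addP 200000000 200000000 n37a n37b fun n51a n51b =>
  addP 300000000 300000000 l0 h0 fun n53a n53b =>
  mulP n37a n37b n53a n53b fun n54a n54b =>
  divP n51a n51b n54a n54b fun n55a n55b =>
  addP n49a n49b n55a n55b fun n57a n57b =>
  mulP n49a n49b n55a n55b fun n58a n58b =>
  mulP l1 h1 n58a n58b fun n59a n59b =>
  addP n57a n57b n59a n59b fun n60a n60b =>
  mulP 96000000 96000000 l1 h1 fun n63a n63b =>
  addP 138600000 138600000 n63a n63b fun n65a n65b =>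
  addP n60a n60b n65a n65b fun n67a n67b =>
  mulP n60a n60b n65a n65b fun n68a n68b =>
  mulP l1 h1 n68a n68b fun n69a n69b =>
  addP n67a n67b n69a n69b fun n70a n70b =>
  gol n26b 0 n70a 0 <|
  true

def QTwo (a b _u0 _u1 : ℝ) : Prop :=
  ∀ x1 : ℝ, x1 = ((2:ℝ) / ((2:ℝ) + b)) →
  ∀ x2 : ℝ, x2 = ((((2:ℝ) + a) + b) / ((2:ℝ) + ((2:ℝ) * a))) →
  ∀ o1 : ℝ, o1 = ((x1 + x1) + (b * (x1 * x1))) →
  ∀ x3 : ℝ, x3 = ((2:ℝ) + b) →
  ∀ o2 : ℝ, o2 = ((o1 + x3) + (b * (o1 * x3))) →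
  ∀ o3 : ℝ, o3 = ((o2 + x2) + (b * (o2 * x2))) →
  ∀ y1 : ℝ, y1 = ((1:ℝ) / ((2:ℝ) + a)) →
  ∀ o4 : ℝ, o4 = ((y1 + y1) + (b * (y1 * y1))) →
  ∀ al : ℝ, al = ((1:ℝ) - a) → 0 ≤ al →
  ∀ o5 : ℝ, o5 = ((o4 + o4) + (b * (o4 * o4))) →
  ∀ y3 : ℝ, y3 = ((1:ℝ) / ((1:ℝ) + a)) →
  ∀ o6 : ℝ, o6 = ((o5 + y3) + (b * (o5 * y3))) →
  ∀ y4 : ℝ, y4 = (((2:ℝ) + al) / (al * ((3:ℝ) + a))) →
  ∀ o7 : ℝ, o7 = ((o6 + y4) + (b * (o6 * y4))) →
  ∀ y5 : ℝ, y5 = ((693/500:ℝ) + ((24/25:ℝ) * b)) →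
  ∀ o8 : ℝ, o8 = ((o7 + y5) + (b * (o7 * y5))) →
  o3 ≤ o8

theorem sndTwo : Snd FTwo QTwo := by
  intro l0 h0 l1 h1 l2 h2 l3 h3 H a b _u0 _u1 v0 v1 v2 v3 x1 e_x1 x2 e_x2 o1 e_o1 x3 e_x3 o2 e_o2 o3 e_o3 y1 e_y1 o4 e_o4 al e_al p_al o5 e_o5 y3 e_y3 o6 e_o6 y4 e_y4 o7 e_o7 y5 e_y5 o8 e_o8
  unfold FTwo at H
  obtain ⟨n3a, n3b, m3, H⟩ := addP_s k_2_1 v1 H
  obtain ⟨n4a, n4b, m4, H⟩ := divP_s k_2_1 m3 H
  have m5 := MP.eq m4 e_x1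
  obtain ⟨n6a, n6b, m6, H⟩ := addP_s k_2_1 v0 H
  obtain ⟨n7a, n7b, m7, H⟩ := addP_s m6 v1 H
  obtain ⟨n8a, n8b, m8, H⟩ := mulN_s (c := (2:ℝ)) (n := 2) (by norm_num) v0 H
  obtain ⟨n9a, n9b, m9, H⟩ := addP_s k_2_1 m8 H
  obtain ⟨n10a, n10b, m10, H⟩ := divP_s m7 m9 H
  have m11 := MP.eq m10 e_x2
  obtain ⟨n12a, n12b, m12, H⟩ := addP_s m5 m5 H
  obtain ⟨n13a, n13b, m13, H⟩ := mulP_s m5 m5 H
  obtain ⟨n14a, n14b, m14, H⟩ := mulP_s v1 m13 H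
  obtain ⟨n15a, n15b, m15, H⟩ := addP_s m12 m14 H
  have m16 := MP.eq m15 e_o1
  have m17 := MP.eq m3 e_x3
  obtain ⟨n18a, n18b, m18, H⟩ := addP_s m16 m17 H
  obtain ⟨n19a, n19b, m19, H⟩ := mulP_s m16 m17 H
  obtain ⟨n20a, n20b, m20, H⟩ := mulP_s v1 m19 H
  obtain ⟨n21a, n21b, m21, H⟩ := addP_s m18 m20 H
  have m22 := MP.eq m21 e_o2
  obtain ⟨n23a, n23b, m23, H⟩ := addP_s m22 m11 H
  obtain ⟨n24a, n24b, m24, H⟩ := mulP_s m22 m11 H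
  obtain ⟨n25a, n25b, m25, H⟩ := mulP_s v1 m24 H
  obtain ⟨n26a, n26b, m26, H⟩ := addP_s m23 m25 H
  have m27 := MP.eq m26 e_o3
  obtain ⟨n29a, n29b, m29, H⟩ := divP_s k_1_1 m6 H
  have m30 := MP.eq m29 e_y1
  obtain ⟨n31a, n31b, m31, H⟩ := addP_s m30 m30 H
  obtain ⟨n32a, n32b, m32, H⟩ := mulP_s m30 m30 H
  obtain ⟨n33a, n33b, m33, H⟩ := mulP_s v1 m32 H
  obtain ⟨n34a, n34b, m34, H⟩ := addP_s m31 m33 H
  have m35 := MP.eq m34 e_o4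
  obtain ⟨n37a, n37b, m37, H⟩ := nnS_s (subP_s k_1_1 v0) e_al p_al H
  obtain ⟨n38a, n38b, m38, H⟩ := addP_s m35 m35 H
  obtain ⟨n39a, n39b, m39, H⟩ := mulP_s m35 m35 H
  obtain ⟨n40a, n40b, m40, H⟩ := mulP_s v1 m39 H
  obtain ⟨n41a, n41b, m41, H⟩ := addP_s m38 m40 H
  have m42 := MP.eq m41 e_o5
  obtain ⟨n43a, n43b, m43, H⟩ := addP_s k_1_1 v0 H
  obtain ⟨n44a, n44b, m44, H⟩ := divP_s k_1_1 m43 H
  have m45 := MP.eq m44 e_y3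
  obtain ⟨n46a, n46b, m46, H⟩ := addP_s m42 m45 H
  obtain ⟨n47a, n47b, m47, H⟩ := mulP_s m42 m45 H
  obtain ⟨n48a, n48b, m48, H⟩ := mulP_s v1 m47 H
  obtain ⟨n49a, n49b, m49, H⟩ := addP_s m46 m48 H
  have m50 := MP.eq m49 e_o6
  obtain ⟨n51a, n51b, m51, H⟩ := addP_s k_2_1 m37 H
  obtain ⟨n53a, n53b, m53, H⟩ := addP_s k_3_1 v0 H
  obtain ⟨n54a, n54b, m54, H⟩ := mulP_s m37 m53 H
  obtain ⟨n55a, n55b, m55, H⟩ := divP_s m51 m54 H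
  have m56 := MP.eq m55 e_y4
  obtain ⟨n57a, n57b, m57, H⟩ := addP_s m50 m56 H
  obtain ⟨n58a, n58b, m58, H⟩ := mulP_s m50 m56 H
  obtain ⟨n59a, n59b, m59, H⟩ := mulP_s v1 m58 H
  obtain ⟨n60a, n60b, m60, H⟩ := addP_s m57 m59 H
  have m61 := MP.eq m60 e_o7
  obtain ⟨n63a, n63b, m63, H⟩ := mulP_s k_24_25 v1 H
  obtain ⟨n65a, n65b, m65, H⟩ := addP_s k_693_500 m63 H
  have m66 := MP.eq m65 e_y5
  obtain ⟨n67a, n67b, m67, H⟩ := addP_s m61 m66 H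
  obtain ⟨n68a, n68b, m68, H⟩ := mulP_s m61 m66 H
  obtain ⟨n69a, n69b, m69, H⟩ := mulP_s v1 m68 H
  obtain ⟨n70a, n70b, m70, H⟩ := addP_s m67 m69 H
  have m71 := MP.eq m70 e_o8
  obtain ⟨g74, H⟩ := gol_s (toS_s m27) (toS_s m71) H
  exact g74

end Pool.Agent.Lib.MP_3e0ca7_an
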