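import Pool.Agent.Lib.MP_3e0ca7_an.CertI
import Pool.Agent.Lib.MP_3e0ca7_an.CertE

/-! Kernel runs of the bisection certificates. -/

namespace Pool.Agent.Lib.MP_3e0ca7_an

set_option maxRecDepth 100000
set_option linter.unusedVariables false

open Tr in
noncomputable def trIntM3 : Tr :=
  (b (b (b (b (b (b l (a l l)) (c l (a (b l (a l l)) (a (b l l) (b l l))))) (a (b (c l (a (c l (a (b l l) (b l
    l))) (c l (a (b l l) (b l l))))) (b (c l (b (a (a l l) (a l l)) (c l (a l (a l l))))) (c l (c (a l l) (d (a (b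
    l (a l l)) (b l (a l l))) l))))) (b (c l (b (a (a l l) (a l l)) (c l (d (a (a l l) (a l l)) l)))) (b (c l (c
    (a l l) (d (a (a l l) (a l l)) l))) (a (c l (c l (d (b l l) l))) (c l (c l (b l (a l l))))))))) (a (a (b (b (b
    (c l (c l (c l (d (b l l) l)))) (c l (c l (d (a (b l (a l l)) (b l l)) l)))) (a (b (c l (c l (c l (b l (a l
    l))))) (c l (c l (c l (d (b l l) l))))) (b (c l (c l (c l (b l (a l l))))) (c l (c l (c l (d (b l l) l)))))))
    (b (c (c l (b l l)) (d (a (b (c l (c l (b l l))) (c l (c l (b l l)))) (b (c l (c l (b l l))) (c l (c l (b l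
    l))))) (c l (b l l)))) (b (c (c l (a l l)) (a (c (a l l) (d (c l (b l l)) l)) (c (a l l) (d (c l (b l l))
    l)))) (c (c l (a l l)) (c (d (a (a l l) l) l) (a (d (c l (b l l)) l) (d (c l (b l l)) l))))))) (b (b (b (c l
    (c l (d (c l (b l l)) l))) (c l (c l (d (c l (d (b l l) l)) l)))) (b (c l (a (c l (c l (b l l))) (c l (b (a l
    l) (b l l))))) (a (c l (c l (c l (b l (a l l))))) (c l (c l (c l (b l l))))))) (b (b (c (c l l) (a (c l (d (c
    l (b l l)) l)) (c l (d (c l (a l l)) l)))) (c (c l l) (c (c l (a l l)) (d (a (c l (b l l)) (c l (a l l)))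
    l)))) (d (a (c (c l (a l l)) (b (c l (c l (b l l))) (c l (c l (a l l))))) (c (c l (a l l)) (b (c l (c l (a l
    l))) (c l (b (a l l) l))))) (c (c l l) (b (c l l) (c l (a l l)))))))) (a (b (b (b (c l (c l (c (a l l) (d (a l
    l) l)))) (c l (c (a l l) (c (a l l) (d (b l l) l))))) (b (c (a l l) (c (a l l) (d (b (a l l) (a l l)) l))) (a
    (c l (c l (b (a l l) (a l l)))) (c (a l l) (c l (c l (b l l))))))) (b (b (c (c l l) (a (c l (b (a l l) (a l
    l))) (c l (c l (b l l))))) (c (c l (a l l)) (c (c l (a l l)) (b (d (a l l) l) (d (a l l) l))))) (d (b (c (c l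
    l) (a (c l (b l l)) (c l (a l l)))) (c (c l (a l l)) (a (c l (b l l)) (c l (a l l))))) (c (c l (a l l)) (b (c
    l l) (c l l)))))) (b (b (b (c l (c l (d (b l l) l))) (c (a l l) (c (a l l) (d (a (a l l) l) l)))) (b (a (c l
    (b (c l l) (c l l))) (c l (c l (b l l)))) (c (c l l) (a (b (c l l) (c l l)) (c l (b l l)))))) (d (b (b (a (c l
    (c l (a l l))) (c l (c l l))) (c (c l l) (a (c l (a l l)) (c l l)))) (b (c (c l l) (a (c l (a l l)) (c l l)))
    (c (c l l) (a (c l l) (c l l))))) (b (c (c l l) (a (b l l) (b l l))) (b (a (c l l) (c l l)) (a (c l l) (c l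
    l))))))))) (b (a (a (b (d (b (b (c (c l (a l l)) (c (c l (a l l)) (a (c l (b l l)) (c l (b l l))))) (c (c l (a
    l l)) (c (c l (a l l)) (a (c l (b l l)) (c l (a l l)))))) (b (c (a (c l l) (c l l)) (c (c l (a l l)) (a (c l
    (a l l)) (c l (a l l))))) (c (a (c l l) (c l l)) (c (c l (a l l)) (a (c l (b l l)) (c l (a l l))))))) (b (c (c
    l l) (a (c l (b l l)) (c l (b l l)))) (a (c (c l l) (c l (b l l))) (c (c l l) (c l (b l l)))))) (b (b (a (c (a
    (c l l) (c l l)) (c (c l (a l l)) (b (c l l) l))) (b (c (c l l) (c l (c l l))) (c (c l l) (c (a l l) l)))) (c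
    (c (d (a l l) l) (d (a (a l l) (a l l)) l)) (b (b (a l l) l) l))) (a (b (a (c (c (b l l) l) l) (c (c (b l l)
    l) l)) l) (b (c (c (d (a l l) l) l) l) l)))) (b (b (a (b (c (c l l) (c (b l l) (d (c l (a l l)) l))) (c (c l
    l) (c (b l l) (d (c l (a l l)) l)))) (b (c (c l l) (c (a l l) (d (b l l) l))) (c (c l l) (c (a l l) (c l (a l
    l)))))) (b (c (c (d (a l l) l) (d (a l l) l)) (c (d (a l l) l) (d (a (b l l) (a l l)) l))) (c (c (d (a l l) l)
    (d (a l l) l)) (c (d (a l l) l) (d (a (b l l) (a l l)) l))))) (a (b (b (b (c (c l l) (c l (c l l))) (c (c l l)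
    (c l l))) (b (c (c l l) l) (c (a (c l l) (c l l)) l))) (b (c (c (d (a l l) l) l) l) l)) (b (b (b (c (c l l) (c
    l (a l l))) (c (c l l) (c l l))) (b (c (c l l) l) (c (c (a l l) l) l))) (b (c (c (d (a l l) l) l) l) l))))) (a
    (b (b (b (a (c (c l l) (c (a l l) (c l (a l l)))) (c (c l l) (b (c l l) (c l l)))) (c (a (c l l) (c (a l l)
    l)) (c (d (a l l) l) (d (a (a l l) l) l)))) (b (c (c (d (a l l) l) (a (a l l) l)) (c (d (a l l) l) (d (a (a l
    l) l) l))) (c (c (d (a l l) l) (a (a l l) l)) (c (a (a l l) l) (d (a l l) l))))) (a (b (b (b (c (c l l) (c l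
    l)) (c (c l l) (c l l))) (b (c (c l l) l) (c (c (a l l) l) l))) (b (b (c (c (a l l) l) l) l) l)) (b (b (c (c
    (a l l) l) (b (c l l) (c l l))) (c (a (c l l) (c l l)) l)) (b (b (c (c (a l l) l) l) l) l)))) (a (b (b (b (c
    (c l l) (c l (a l l))) (c (c (a l l) l) (c l (a l l)))) (b (c (c (a l l) l) (c l l)) (c (c (a l l) l) (c l
    l)))) (b (b (c (c (a l l) l) (c l (a l l))) (c (a (c l l) (c l l)) l)) (b (b (c (c (a l l) l) l) l) l))) (b (b
    (b (c (c l l) (c l l)) (c (c (a l l) l) (c l l))) (b (c (c (a l l) l) (c l l)) (c (c (a l l) l) (c l l)))) (b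
    (b (c (c (a l l) l) (c l l)) (c (a (c l l) (c l l)) l)) (b (c (c (d l l) l) l) l)))))) (b (b (b (a l l) (a l
    l)) l) l))) (b (b l l) (a l l)))

theorem okIntM3 : chk FIntM trIntM3 81250000 87500000 0 200000000 0 66310000 0 66310000 = true := by decide +kernel

open Tr in
noncomputable def trIntP0 : Tr :=
  (a (b (b l l) (b (b l l) l)) (a (b (b (a l (b l l)) (c l (b (a l (b l (a l l))) (a l (c l (a (a l l) (a (a l
    l) (b l l)))))))) (b (b (b (a l (c l (a l (a l (a l l))))) l) l) l)) (a (b (c (a (b l l) (b l (b l l))) (a (b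
    (a (b l l) (b l l)) (b (b l (a l l)) (c l (c (b l l) (a (b l (a l l)) (a (b l l) (b l l))))))) (b (b (a l l)
    (b l (a l l))) (c (a (b l l) (b l l)) (a (b (b l l) (a (b l (a l l)) (a (b l l) (b l l)))) (a (b (b l l) (a (b
    l l) (b l l))) (a (b l (b l l)) (b l (b l l))))))))) (b (b (a (b (c l (c l (a (a l (a l l)) (c l (d (a (a l l)
    (a l l)) l))))) (b (c l (c l (a (a l l) (a l (a l l))))) l)) (a (c l (b (b (a l l) (c l (a l (a l l)))) (c l
    (d (a (b (a l l) (a l l)) (a (b l l) (b l l))) l)))) (c l (a (c l (b (b l (a l l)) (c l (d (a (b l l) (b l l))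
    l)))) (c l (b (b l (a l l)) (c l (d (a (b l l) (b l l)) l)))))))) (a l (a l (b (b (c l (c l (a (a l (b l l))
    (a (b l l) (b l (a l l)))))) l) l)))) l)) (a (a (b (c (b l (a l l)) (a (b (b l l) (b (b l l) (a (b l l) (b l
    l)))) (b (b l l) (b (b l l) (a (b l l) (b l l)))))) (b (b (c l (c (b l (a l l)) (a (c (b l l) (b (b l (a l l))
    (d (a (b l l) (b l l)) l))) (b (a (a l l) (a l l)) (d (a (b l l) (b l l)) l))))) (a (b (c l (c l (d (a (a (b l
    l) (b l l)) (c l (a (b l l) (b l l)))) l))) l) (c l (b (c l (c (a l l) (d (d (a (b l (a l l)) (b l (a l l)))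
    (a l l)) l))) (a l (c l (a l (b (b l l) l)))))))) l)) (b (b (a (b l (a l l)) (b l l)) (b (c l (a (b l l) (b l
    l))) (c l (a (a (b l l) (b l l)) (a (b l l) (b l l)))))) (a (b (b (c l (b (c l (a (a l l) (a l l))) (c l (d (a
    (a l l) (a l l)) l)))) (c l (b (c l (c (a l l) (d (a (a (b l l) (b l l)) (b l (a l l))) l))) (a (b (c l (a (b
    l l) (b l l))) l) (c l (a (b (b l l) l) (d (b l (a l l)) l))))))) l) (b (b (c l (b (c l (d (a l l) l)) (c l (d
    (a (a l l) (a l l)) l)))) (c l (b (c l (d (a (a (b l l) (b l l)) (b l (a l l))) l)) (a (a (c l (b (a l l) (b l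
    l))) (c l (c l (b l (a l l))))) (a (c l (c l (b l (a l l)))) (c l (c l (b l (a l l))))))))) (a l (a l (b (b (b
    (b (b (c l (c l l)) l) l) l) l) l))))))) (a (b (b (b l (a l l)) (b (b (a l l) (a l l)) (a (a (b l l) (b l l))
    (b l (a l l))))) (a (b (b (c l (b (a (a l l) (a l l)) (c l (d (a (a l l) (a l l)) l)))) (b (c l (c l (d (a (b
    l (a l l)) (b l l)) l))) (a (c l (a (c l (c l (b l (a l l)))) (c l (b l (a l l))))) (a (c l (c l (b l (a l
    l)))) (c l (c l (b l (a l l)))))))) (b (b (a (b (c l (c l (c l (d (d (a l l) l) l)))) l) (c l (c l (d (b (a (a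
    l l) (a l l)) (c l (d (a l l) l))) l)))) l) l)) (b (b (c l (a (a (b l l) (b l l)) (a (b l l) (b l l)))) (b (c
    l (b (a (a l l) l) (c l (a (a l l) l)))) (c l (a (c l (a (b l (a l l)) (b l l))) (c l (d (a (a l l) (a l l))
    l)))))) (b (a (b (c l (c l (d (a (a (b l l) (b l l)) (b l (a l l))) l))) (a l (b (b (c l (c l (a l l))) l)
    l))) (b (c l (c l (a (c l (b l (a l l))) (d (b l l) l)))) (c l (d (b (c l (c l (a (a l l) l))) (a l (b (c l l)
    l))) l)))) l)))) (b (b (b l (a l l)) (a (b (a l l) (b l (a l l))) (b l (a l l)))) (a (b (b (c l (a (b l (a l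
    l)) (b l l))) (b (b (a (a l l) l) (c l (a (a l l) l))) (c l (a (c l (d (b l l) l)) (c l (a (a l l) l)))))) (b
    (a (b (c l (a (c l (b l (a l l))) (c l (b l (a l l))))) (c l (d (b (c l (a (a l l) l)) (c l (d (a (a l l) l)
    l))) l))) (b (c l (c l (d (a (a l l) (a l l)) l))) (c l (d (c l (a (b l (a l l)) (b l l))) l)))) (b (a (a l (a
    l (b (b (c l (c l l)) l) l))) (c l (a (b (c l (a (d l l) (b l l))) l) (d (c l (b (a l l) (a l l))) l)))) l)))
    (a (b (b (b l (a l l)) (a (c l (b l (a l l))) (b l (b l l)))) (b (b (c l (c l (a (b l l) (a l l)))) (c l (d (b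
    (a l l) (a (a l l) l)) l))) (b (c l (d (a (c l (d (b l l) l)) (c l (b l (a l l)))) l)) (a l (b (c l (c l (a (b
    l l) (b l l)))) l))))) (b (b (b l l) (c l (a (b l l) (b l l)))) (b (a (c l (d (b l (b l l)) l)) (c l (d (b l
    (a l l)) l))) (b (b (c l (c l (a (a l l) l))) (c l (c l (d (a l l) l)))) (c (a l l) (d (a (c l (b (a l l) (a l
    l))) (c l (b l (a l l)))) l)))))))))))))

theorem okIntP0 : chk FIntP trIntP0 0 100000000 0 50000000 0 66310000 0 66310000 = true := by decide +kernel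

open Tr in
noncomputable def trExt3 : Tr :=
  (a (d (d (d (d l l) (d l l)) (a (d (d l (c l l)) (c (c (d l (d l (a l l))) (d l (d l (a l l)))) (d (d l l) (a
    (d l (b l l)) (d l (b l l)))))) (d (d l (c l l)) (c (d (d l (a l l)) (c (d l (a l l)) (d l (a l l)))) (d (d l
    (a l l)) (c (d l (a l l)) (d l (a l l)))))))) (c (c (d (a (c (d (d (a (d l l) (d l l)) (d (a (a l l) (a l l))
    l)) l) (d (d (a (d l l) (d l l)) (d (a (a l l) (a l l)) l)) l)) (b (d (d (a (d l l) (d l l)) (c (d (a l l) l)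
    (d (a l l) l))) l) (d (d (a (d l l) (d l (a l l))) (c (d (a l l) l) (d (a l l) l))) l))) l) (d (a (d (a (d (d
    l (a l l)) (b (c l l) (b l l))) (d (d l (a l l)) (b (c l l) (c l l)))) l) (a (b (d (d (d l l) (d l l)) l) (d
    (d (d l l) (c l l)) l)) (d (c (d (d l l) (d (a l l) l)) (d (d l l) (b (a l l) l))) l))) l)) (c (d (a (d (b (d
    (d l (a l l)) (c (a l l) l)) (c (d (d l l) l) (d (d l l) l))) l) (a (d (d (d l (a l l)) (b (c l l) (c l l)))
    l) (d (b (d (d l l) (c l l)) (d (d l l) (c l l))) l))) l) (d (a (d (a (d (d l l) (b l l)) (b (d (a l l) l) (d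
    (c l l) l))) l) (a (d (d (d l (a l l)) (a (b l l) (b l l))) l) (d (d (d l (a l l)) (b (c l l) (b l l))) l)))
    l)))) (a (d (d (d (d l l) (d l l)) (d (d l (c l l)) (c (d (d l (a l l)) (c (d l (a l l)) (d l (a l l)))) (d (d
    l (a l l)) (c (d l (a l l)) (d l (a l l))))))) (c (d (c (c (a (d (d (d l (a l l)) (b (d l l) (d l l))) l) (d
    (d (d l (a l l)) (b (d l (a l l)) (d l l))) l)) (a (d (d (d l (a l l)) (b (d l l) (d l l))) l) (d (d (d l (a l
    l)) (b (d l l) (d l l))) l))) (c (a (d (d (d l (a l l)) (a (d l l) (d l l))) l) (d (d (d l (a l l)) (b (d l l)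
    (d l l))) l)) (a (d (d (d l l) (a (b l l) (d l l))) l) (d (d (d l (a l l)) (b (d l l) (d l l))) l)))) l) (b (d
    (c (c (d (d (d l l) (a (a l l) (c l l))) l) (d (d (d l l) (d l l)) l)) (d (d (d l (a l l)) (c (d l l) (a l
    l))) l)) l) (d (c (a (d (d (d l l) (c (a l l) l)) l) (d (d (d l l) (b (c l l) (c l l))) l)) (d (c (d (d l l)
    (a l l)) (d (d l l) (a l l))) l)) l)))) (d (d (d (d l l) (d l l)) (d (d l (c l l)) (c (d (d l (a l l)) (a (c
    (d l l) (d l l)) (c (d l l) (d l (a l l))))) (d (d l (a l l)) (a (c (d l l) (d l l)) (c (d l l) (d l l)))))))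
    (c (c (d (d (a (b (d (d l (a l l)) (c (d l (a l l)) (d l (a l l)))) (d (d l (a l l)) (c (d l (a l l)) (d l (a
    l l))))) (b (d (d l (a l l)) (c (d l (a l l)) (d l (a l l)))) (d (d l (c l l)) (a (c (d l l) (d l l)) (c (d l
    l) (d l l)))))) (d (c (a l (a l l)) (b l l)) l)) l) (d (c (b (d (d (d l (a l l)) (d (a l l) (a l l))) l) (d (d
    (d l (a l l)) (a (d l l) (d l (a l l)))) l)) (b (d (d (d l (a l l)) (a (d l l) (d l l))) l) (d (d (d l (a l
    l)) (d (a l l) (a l (a l l)))) l))) l)) (c (c (b (d (d (d (d l l) (d (a l l) (a l l))) l) l) (d (d (d (d l (a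
    l l)) (a (d l l) (d l l))) l) l)) (a (d (d (d (d l l) (b (d l l) (b l l))) l) l) (d (d (d (d l (a l l)) (b (d
    l l) (d l l))) l) l))) (d (a (b (d (c (d l (a l l)) (d l (a l l))) l) (d (d (d l l) (c (a l l) l)) l)) (d (d
    (b (d l l) (d l l)) (d (b l (a l l)) (b l (a l l)))) (b l l))) l))))))

theorem okExt3 : chk FExt trExt3 33155000 66310000 0 16577500 25000000 33333334 0 400000000 = true := by decide +kernel

open Tr in
noncomputable def trExt9 : Tr :=
  (c (d (d (d l (d l l)) (d (d l (c l (a l l))) (a (c (d l (d l l)) (c (d l (d l l)) (d l (d l (a l l))))) (c (d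
    l (c l (a l l))) (d (d l l) (c (d l l) (d l (a l l)))))))) (c (d (d (a (c (d (d l l) (a (d l l) (d l l))) (d
    (d l (a l l)) (c (d l l) (d (a l l) l)))) (c (d (d l l) (c (d l l) (d l l))) (d (d l (a l l)) (c (d (a l l) l)
    (d (a l l) l))))) (b (c l l) (c l l))) l) (a (c (a (d (d (d (d l l) (c l l)) l) l) (d (d (d (d l (a l l)) (c
    (b l l) (b l l))) l) l)) (d (d (d (a (d l (a l l)) (c (d l l) (d l l))) (c (a l (a l l)) (b l l))) l) l)) (d
    (c (d (d (a (d l (a l l)) (d l (a l l))) (c (d (a l l) l) (d (a (a l l) (a l l)) l))) l) (d (c (d (a (d l l)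
    (d l l)) (d (a (a l l) (a l l)) l)) (d (a (d l (a l l)) (d l (a l l))) (d (a (b l l) (b l l)) l))) l)) l))))
    (d (d (d (d l l) (d l (a l l))) (a (c (d (d l l) (d (d l (a l l)) (c (d l (a l l)) (a (d l (a l l)) (d l (a l
    l)))))) (d (d l (a l l)) (a (d (d l (b l l)) (c (d l (a l l)) (b (d l l) (d l l)))) (d (d l (c l l)) (c (d l
    (b l l)) (b (d l l) (d l (a l l)))))))) (c (d (d l l) (d (d l (c l l)) (a (c (d l (a l l)) (d l (b l l))) (c
    (d l (a l l)) (d l (b l l)))))) (d (d l (c l l)) (c (d (d l (a l l)) (a (b (d l l) (d l (a l l))) (a (d l (b l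
    l)) (d l (b l l))))) (d (d l (a l l)) (a (b (d l (a l l)) (d l (a l l))) (b (d l (a l l)) (d l (c l
    l)))))))))) (c (a (c (d (d (c (a (d (d l l) l) (d (d l (a l l)) l)) (a (d (d l (a l l)) l) (d (d l (a l l))
    l))) l) l) (c (d (a (d (d (d l (a l l)) l) l) (d (d (d l (a l l)) l) l)) l) (d (a (d (d (d l (a l l)) l) l) (d
    (d (b (d l l) (d l l)) l) l)) l))) (d (c (a (d (c (b (d (d l l) l) (d (d l l) l)) (a (d (d l l) l) (d (d l l)
    l))) l) (d (c (b (d (d l l) l) (d (d l l) l)) (b (d (d l l) l) (d (d l l) l))) l)) (d (c (a (b (d (d l l) l)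
    (d (d l l) l)) (b (d (d l l) l) (d (d l (a l l)) l))) (a (d (b (d l l) (d l (a l l))) l) (a (d (d l (b l l))
    l) (d (d l (b l l)) l)))) l)) l)) (c (c (d (d (a (a (d (b (d l l) (d l l)) l) (d (b (d l l) (d l l)) l)) (b (d
    (a (d l l) (d l (a l l))) l) (d (d (a l l) (a (a l l) (a l l))) l))) l) l) (d (d (a (a (d (a (d l l) (d l l))
    l) (d (b (d l l) (d l l)) l)) (a (d (b (d l l) (d l l)) l) (d (d (b l l) (a (b l l) (b l l))) l))) l) l)) (c
    (d (d (a (d (a (d (a l l) l) (a (d l l) (d l l))) l) (a (d (b (d l l) (d l l)) l) (d (b (d l l) (d (a l l) l))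
    l))) l) l) (b (d (d (a (d (d (a l l) l) l) (d (a (c l l) (d l l)) l)) l) l) (d (d (a (a l (a l l)) (d (a (b l
    l) (c (a l l) l)) l)) l) l)))))))

theorem okExt9 : chk FExt trExt9 33155000 49732500 49732500 66310000 16666667 33333334 0 400000000 = true := by decide +kernel

open Tr in
noncomputable def trOne0 : Tr :=
  (b (a l (a (a l (b l l)) (a (b (a (b l l) (b l l)) (b l l)) (a (a (b (b (b l l) (b l l)) (b l l)) (b (b (b l
    l) (b l l)) (b (b l l) l))) (a (b (b (b (b (a l l) l) (b l l)) (b (b l l) (b l (a l l)))) (c (b (b l l) l) (b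
    (b (b l l) (a l l)) (b l l)))) (b (a (b (b (b (b l l) (b l l)) (b (b l l) (b l l))) (b (b (b l l) (b l l)) (b
    (b l l) (b l l)))) (b (a (b (b (b (b l l) (a l l)) (a (b l l) (b l l))) (b (b (a l l) l) (b l l))) (b (a (b (b
    (b l l) (b l l)) (b (b l l) (b l l))) (b (b (b (b l l) (b l l)) (b (b l l) (b l l))) (b (b (b l l) (b l l)) (a
    (b l l) (b l l))))) (c (b (b (a l l) l) (b l l)) (b (b (b (a l l) l) (b l l)) (b (b l l) (b l l)))))) (b (b (a
    (b l l) (b (c l (b l l)) (c l (b l l)))) (b (a l (c l (b l l))) (c l (a l (b l l))))) (b (b (c l (a l (b l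
    l))) (c l (a l (b l l)))) (a (c l (b l l)) (c l (b (b l l) (b l l)))))))) (b (a (b (b (b l (a l l)) (c l (b l
    l))) (c l (b (a l l) l))) (b (a (b (c l (b l l)) (c l (b l l))) (b (c l (a (b l l) (b (b l l) (b l l)))) (c l
    (b (b l l) (c l (a l l)))))) (b (c l (a (b l l) (c l (b (b l l) l)))) (c l (b (c l l) l))))) (b (a (b l l) (c
    l (b (a l l) l))) (c l (b l l)))))))))) (a l (a (a l l) (a (b l l) (c (b (a l (b l l)) l) (b (a (b l l) (a (b
    l l) (b (b l l) l))) (b l l)))))))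

theorem okOne0 : chk FOne trOne0 0 66310000 0 66310000 0 33333334 0 0 = true := by decide +kernel

end Pool.Agent.Lib.MP_3e0ca7_an
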