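import Pool.Agent.Lib.MP_3e0ca7_an.Run0
import Pool.Agent.Lib.MP_3e0ca7_an.Run1
import Pool.Agent.Lib.MP_3e0ca7_an.Run2
import Pool.Agent.Lib.MP_3e0ca7_an.Run3

/-! The certified inequalities on the full boxes. -/

namespace Pool.Agent.Lib.MP_3e0ca7_an

set_option maxRecDepth 100000
set_option linter.unusedVariables false

theorem allIntP {x0 x1 x2 x3 : ℝ} (m0 : MP 0 100000000 x0) (m1 : MP 0 50000000 x1) (m2 : MP 0 66310000 x2) (m3 : MP 0 66310000 x3) : IntBody x0 x1 x2 x3 x1 := by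
  exact chk_s sndIntP trIntP0 _ _ _ _ _ _ _ _ okIntP0 _ _ _ _ m0 m1 m2 m3

theorem allIntM {x0 x1 x2 x3 : ℝ} (m0 : MP 0 100000000 x0) (m1 : MP 0 200000000 x1) (m2 : MP 0 66310000 x2) (m3 : MP 0 66310000 x3) : IntBody x0 x1 x2 x3 (-x1) := by
  rcases m0.split 50000000 with m0 | m0
  · exact chk_s sndIntM trIntM0 _ _ _ _ _ _ _ _ okIntM0 _ _ _ _ m0 m1 m2 m3
  · rcases m0.split 75000000 with m0 | m0
    · exact chk_s sndIntM trIntM1 _ _ _ _ _ _ _ _ okIntM1 _ _ _ _ m0 m1 m2 m3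
    · rcases m0.split 87500000 with m0 | m0
      · rcases m0.split 81250000 with m0 | m0
        · exact chk_s sndIntM trIntM2 _ _ _ _ _ _ _ _ okIntM2 _ _ _ _ m0 m1 m2 m3
        · exact chk_s sndIntM trIntM3 _ _ _ _ _ _ _ _ okIntM3 _ _ _ _ m0 m1 m2 m3
      · exact chk_s sndIntM trIntM4 _ _ _ _ _ _ _ _ okIntM4 _ _ _ _ m0 m1 m2 m3

theorem allExt {x0 x1 x2 x3 : ℝ} (m0 : MP 0 66310000 x0) (m1 : MP 0 66310000 x1) (m2 : MP 0 33333334 x2) (m3 : MP 0 400000000 x3) : QExt x0 x1 x2 x3 := by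
  rcases m2.split 16666667 with m2 | m2
  · exact chk_s sndExt trExt0 _ _ _ _ _ _ _ _ okExt0 _ _ _ _ m0 m1 m2 m3
  · rcases m1.split 33155000 with m1 | m1
    · rcases m0.split 33155000 with m0 | m0
      · exact chk_s sndExt trExt1 _ _ _ _ _ _ _ _ okExt1 _ _ _ _ m0 m1 m2 m3
      · rcases m1.split 16577500 with m1 | m1
        · rcases m2.split 25000000 with m2 | m2
          · exact chk_s sndExt trExt2 _ _ _ _ _ _ _ _ okExt2 _ _ _ _ m0 m1 m2 m3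
          · exact chk_s sndExt trExt3 _ _ _ _ _ _ _ _ okExt3 _ _ _ _ m0 m1 m2 m3
        · rcases m0.split 49732500 with m0 | m0
          · exact chk_s sndExt trExt4 _ _ _ _ _ _ _ _ okExt4 _ _ _ _ m0 m1 m2 m3
          · exact chk_s sndExt trExt5 _ _ _ _ _ _ _ _ okExt5 _ _ _ _ m0 m1 m2 m3
    · rcases m0.split 33155000 with m0 | m0
      · exact chk_s sndExt trExt6 _ _ _ _ _ _ _ _ okExt6 _ _ _ _ m0 m1 m2 m3
      · rcases m1.split 49732500 with m1 | m1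
        · rcases m0.split 49732500 with m0 | m0
          · exact chk_s sndExt trExt7 _ _ _ _ _ _ _ _ okExt7 _ _ _ _ m0 m1 m2 m3
          · exact chk_s sndExt trExt8 _ _ _ _ _ _ _ _ okExt8 _ _ _ _ m0 m1 m2 m3
        · rcases m0.split 49732500 with m0 | m0
          · exact chk_s sndExt trExt9 _ _ _ _ _ _ _ _ okExt9 _ _ _ _ m0 m1 m2 m3
          · exact chk_s sndExt trExt10 _ _ _ _ _ _ _ _ okExt10 _ _ _ _ m0 m1 m2 m3

theorem allOne {x0 x1 x2 x3 : ℝ} (m0 : MP 0 66310000 x0) (m1 : MP 0 66310000 x1) (m2 : MP 0 33333334 x2) (m3 : MP 0 0 x3) : QOne x0 x1 x2 x3 := by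
  exact chk_s sndOne trOne0 _ _ _ _ _ _ _ _ okOne0 _ _ _ _ m0 m1 m2 m3

theorem allKb {x0 x1 x2 x3 : ℝ} (m0 : MP 0 66310000 x0) (m1 : MP 0 66310000 x1) (m2 : MP 0 0 x2) (m3 : MP 0 0 x3) : QKb x0 x1 x2 x3 := by
  exact chk_s sndKb trKb0 _ _ _ _ _ _ _ _ okKb0 _ _ _ _ m0 m1 m2 m3

theorem allMono {x0 x1 x2 x3 : ℝ} (m0 : MP 0 66310000 x0) (m1 : MP 0 66310000 x1) (m2 : MP 0 33333334 x2) (m3 : MP 0 0 x3) : QMono x0 x1 x2 x3 := by
  exact chk_s sndMono trMono0 _ _ _ _ _ _ _ _ okMono0 _ _ _ _ m0 m1 m2 m3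

theorem allTwo {x0 x1 x2 x3 : ℝ} (m0 : MP 0 66310000 x0) (m1 : MP 0 66310000 x1) (m2 : MP 0 0 x2) (m3 : MP 0 0 x3) : QTwo x0 x1 x2 x3 := by
  exact chk_s sndTwo trTwo0 _ _ _ _ _ _ _ _ okTwo0 _ _ _ _ m0 m1 m2 m3

end Pool.Agent.Lib.MP_3e0ca7_an
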