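import Pool.Agent.Lib.MP_3e0ca7_an.Consts

/-! Interval programs for interior nodes. -/

namespace Pool.Agent.Lib.MP_3e0ca7_an

set_option maxRecDepth 100000
set_option linter.unusedVariables false

noncomputable def FIntP : Chk := fun l0 h0 l1 h1 l2 h2 l3 h3 =>
  mulP l0 h0 l0 h0 fun n4a n4b =>
  mulP n4a n4b n4a n4b fun n5a n5b =>
  mulP n5a n5b n4a n4b fun n6a n6b =>
  posS 100000000 n6b 100000000 n6a fun n10a n10b =>
  addP 100000000 100000000 n10a n10b fun n11a n11b =>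
  mulP l1 h1 n6a n6b fun n13a n13b =>
  mulP l1 h1 n11a n11b fun n14a n14b =>
  mulN 2 n14a n14b fun n16a n16b =>
  asm n16a 0 100000000 0 <|
  mulP l1 h1 l1 h1 fun n21a n21b =>
  mulP n13a n13b n11a n11b fun n22a n22b =>
  addP l2 h2 l3 h3 fun n23a n23b =>
  mulP l2 h2 n11a n11b fun n25a n25b =>
  mulP l3 h3 n6a n6b fun n26a n26b =>
  mulP n25a n25b n11a n11b fun n29a n29b =>
  mulP n26a n26b n6a n6b fun n30a n30b =>
  addP n29a n29b n30a n30b fun n31a n31b =>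
  mulP 33333333 33333334 n31a n31b fun n33a n33b =>
  absS n25a n26b n25b n26a fun n34a n34b =>
  mulP n34a n34b n34a n34b fun n35a n35b =>
  mulP 8333333 8333334 n35a n35b fun n38a n38b =>
  addP n33a n33b n38a n38b fun n39a n39b =>
  mulP n21a n21b n39a n39b fun n40a n40b =>
  posS 100000000 n14b 100000000 n14a fun n43a n43b =>
  addP 100000000 100000000 n13a n13b fun n44a n44b =>
  posS n44a 0 n44b 0 fun n46a n46b =>
  mulP 120000000 120000000 n14a n14b fun n48a n48b =>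
  posS 100000000 n48b 100000000 n48a fun n50a n50b =>
  mulP 80000000 80000000 n13a n13b fun n52a n52b =>
  addP 100000000 100000000 n52a n52b fun n53a n53b =>
  posS n53a 0 n53b 0 fun n55a n55b =>
  addP n10a n10b n22a n22b fun n56a n56b =>
  mulP n43a n43b n46a n46b fun n59a n59b =>
  posS 100000000 h2 100000000 l2 fun n62a n62b =>
  posS 100000000 h3 100000000 l3 fun n64a n64b =>
  mulP 250000000 250000000 n59a n59b fun n66a n66b =>
  mulP 50000000 50000000 l1 h1 fun n68a n68b =>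
  mulP n62a n62b n62a n62b fun n69a n69b =>
  divP n14a n14b n50a n50b fun n70a n70b =>
  mulP n69a n69b n70a n70b fun n71a n71b =>
  mulP n64a n64b n64a n64b fun n72a n72b =>
  divP n13a n13b n55a n55b fun n73a n73b =>
  mulP n72a n72b n73a n73b fun n74a n74b =>
  addP n71a n71b n74a n74b fun n75a n75b =>
  mulP n68a n68b n75a n75b fun n76a n76b =>
  addP n66a n66b n76a n76b fun n77a n77b =>
  mulP 125000000 125000000 l1 h1 fun n79a n79b =>
  mulP n79a n79b n22a n22b fun n80a n80b =>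
  posS n77a n80b n77b n80a fun n82a n82b =>
  mulP n10a n10b n10a n10b fun n83a n83b =>
  mulN 2 n83a n83b fun n84a n84b =>
  addP 200000000 200000000 n84a n84b fun n85a n85b =>
  mulP n21a n21b n85a n85b fun n87a n87b =>
  mulP 33333333 33333334 n82a n82b fun n89a n89b =>
  posS n89a n40b n89b n40a fun n91a n91b =>
  asm n87a 0 n91b 0 <|
  divP 100000000 100000000 n85a n85b fun n95a n95b =>
  addP n25a n25b n26a n26b fun n98a n98b =>
  mulP n6a n6b n11a n11b fun n99a n99b =>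
  mulN 2 n99a n99b fun n100a n100b =>
  addP n98a n98b n100a n100b fun n101a n101b =>
  mulP 12500000 12500000 n101a n101b fun n103a n103b =>
  mulS n103a n103b n25a n26b n25b n26a fun n104a n104b n104c n104d =>
  mulP 150000000 150000000 n10a n10b fun n106a n106b =>
  mulS 0 n95b n104a n104b n104c n104d fun n107a n107b n107c n107d =>
  addP n107d n107b n106a n106b fun n109a n109b =>
  mulN 2 l1 h1 fun n111a n111b =>
  mulS n111a n111b n109a n107c n109b n107a fun n112a n112b n112c n112d =>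
  addP n112d n112b 100000000 100000000 fun n113a n113b =>
  posS n113a n112c n113b n112a fun n114a n114b =>
  addP 100000000 100000000 n114a n114b fun n115a n115b =>
  divP 200000000 200000000 n115a n115b fun n116a n116b =>
  mulP 50000000 50000000 n91a n91b fun n117a n117b =>
  addP 150000000 150000000 n117a n117b fun n118a n118b =>
  divP n114a n114b n118a n118b fun n119a n119b =>
  posS 200000000 n119b 200000000 n119a fun n121a n121b =>
  mulP n29a n29b n46a n46b fun n123a n123b =>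
  mulP n30a n30b n43a n43b fun n124a n124b =>
  addP n123a n123b n124a n124b fun n125a n125b =>
  mulS n111a n111b n56a 0 n56b 0 fun n127a n127b n127c n127d =>
  addP n127a n127c n59a n59b fun n129a n129b =>
  mulP 50000000 50000000 n21a n21b fun n130a n130b =>
  mulP n130a n130b n125a n125b fun n131a n131b =>
  addP n127d n127b n131a n131b fun n133a n133b =>
  mulP n59a n59b n116a n121b fun n135a n135b =>
  absS n56a 0 n56b 0 fun n137a n137b =>
  mulP n137a n137b n137a n137b fun n138a n138b =>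
  mulP 50000000 50000000 n23a n23b fun n141a n141b =>
  posS 100000000 n141b 100000000 n141a fun n143a n143b =>
  mulN 3 n138a n138b fun n145a n145b =>
  posS n145a 150000000 n145b 150000000 fun n148a n148b =>
  mulP 56000000 56000000 n148a n148b fun n150a n150b =>
  posS 150000000 n145b 150000000 n145a fun n152a n152b =>
  mulN 3 n152a n152b fun n153a n153b =>
  posS 100000000 n23b 100000000 n23a fun n156a n156b =>
  mulP 50000000 50000000 n156a n156b fun n157a n157b =>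
  addP n150a n150b n157a n157b fun n159a n159b =>
  mulP n137a n137b n143a n143b fun n160a n160b =>
  absS l2 h3 h2 l3 fun n162a n162b =>
  mulP n160a n160b n162a n162b fun n163a n163b =>
  addP n159a n159b n163a n163b fun n165a n165b =>
  addP 100000000 100000000 n143a n143b fun n166a n166b =>
  mulP n166a n166b n166a n166b fun n167a n167b =>
  mulP n138a n138b n167a n167b fun n168a n168b =>
  addP n153a n153b n168a n168b fun n170a n170b =>
  divP n89a n89b n11a n11b fun n172a n172b =>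
  addP n172a n172b 75000000 75000000 fun n174a n174b =>
  posS 100000000 h0 100000000 l0 fun n177a n177b =>
  posS 66666666 h2 66666667 l2 fun n180a n180b =>
  mulN 12 n177a n177b fun n182a n182b =>
  mulP n177a n177b n177a n177b fun n183a n183b =>
  mulN 6 n183a n183b fun n185a n185b =>
  addP n182a n182b n185a n185b fun n186a n186b =>
  addP n186a n186b n14a n14b fun n187a n187b =>
  mulP n180a n180b n187a n187b fun n188a n188b =>
  mulP 138600000 138600000 n10a n10b fun n190a n190b =>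
  addP n190a n190b n13a n13b fun n191a n191b =>
  mulP l3 h3 n191a n191b fun n192a n192b =>
  addP n188a n188b n192a n192b fun n193a n193b =>
  addP n193a n193b 33333333 33333334 fun n194a n194b =>
  mulP 66666666 66666667 n14a n14b fun n195a n195b =>
  posS n194a n195b n194b n195a fun n197a n197b =>
  mulS l1 h1 n25a n26b n25b n26a fun n198a n198b n198c n198d =>
  addP n198d n198b 100000000 100000000 fun n199a n199b =>
  posS n199a n198c n199b n198a fun n200a n200b =>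
  mulP 4166666 4166667 n197a n197b fun n202a n202b =>
  addP 16666666 16666667 n202a n202b fun n204a n204b =>
  mulP n197a n197b n204a n204b fun n205a n205b =>
  addP 50000000 50000000 n205a n205b fun n206a n206b =>
  mulP n197a n197b n206a n206b fun n207a n207b =>
  addP 100000000 100000000 n207a n207b fun n208a n208b =>
  mulP n197a n197b n208a n208b fun n209a n209b =>
  addP 100000000 100000000 n209a n209b fun n210a n210b =>
  mulP 71650000 71650000 n210a n210b fun n212a n212b =>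
  mulP n212a n212b n200a n200b fun n213a n213b =>
  mulP n11a n11b n11a n11b fun n214a n214b =>
  divP n213a n213b n214a n214b fun n215a n215b =>
  addP 200000000 200000000 n114a n114b fun n217a n217b =>
  divP 300000000 300000000 n217a n217b fun n218a n218b =>
  mulP n91a n91b n218a n218b fun n220a n220b =>
  mulP 355555555 355555556 n215a n215b fun n223a n223b =>
  mulP n223a n223b n218a n218b fun n224a n224b =>
  mulP l0 h0 l1 h1 fun n226a n226b =>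
  mulP 50000000 50000000 n226a n226b fun n227a n227b =>
  mulP n227a n227b n148a n148b fun n228a n228b =>
  addP n91a n91b n40a n40b fun n230a n230b =>
  mulN 3 n230a n230b fun n231a n231b =>
  mulP n135a n135b n91a n91b fun n232a n232b =>
  addP n133a n133b n232a n232b fun n234a n234b =>
  absS n129a n234b n129b n234a fun n235a n235b =>
  mulP n235a n235b n235a n235b fun n236a n236b =>
  mulP n231a n231b n59a n59b fun n238a n238b =>
  addP n236a n236b n238a n238b fun n239a n239b =>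
  mulS n21a n21b n165a n170b n165b n170a fun n240a n240b n240c n240d =>
  addP n240a n240c n239a n239b fun n242a n242b =>
  mulS n5a n5b n242a n240b n242b n240d fun n243a n243b n243c n243d =>
  mulP n11a n11b n174a n174b fun n244a n244b =>
  divP n231a n231b n244a n244b fun n245a n245b =>
  addP n245a n245b n174a n174b fun n246a n246b =>
  mulP n228a n228b n246a n246b fun n247a n247b =>
  addP n243a n243c n247a n247b fun n249a n249b =>
  mulP 4166666 4166667 n220a n220b fun n250a n250b =>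
  addP 16666666 16666667 n250a n250b fun n251a n251b =>
  mulP n220a n220b n251a n251b fun n252a n252b =>
  addP 50000000 50000000 n252a n252b fun n253a n253b =>
  mulP n220a n220b n253a n253b fun n254a n254b =>
  addP 100000000 100000000 n254a n254b fun n255a n255b =>
  mulP n224a n224b n255a n255b fun n256a n256b =>
  gol n249b n243d n256a 0 <|
  addP n87a n87b n40a n40b fun n259a n259b =>
  mulN 3 n259a n259b fun n260a n260b =>
  mulP n135a n135b n87a n87b fun n261a n261b =>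
  addP n133a n133b n261a n261b fun n263a n263b =>
  absS n129a n263b n129b n263a fun n264a n264b =>
  mulP n264a n264b n264a n264b fun n265a n265b =>
  mulP n260a n260b n59a n59b fun n267a n267b =>
  addP n265a n265b n267a n267b fun n268a n268b =>
  addP n240a n240c n268a n268b fun n270a n270b =>
  mulS n5a n5b n270a n240b n270b n240d fun n271a n271b n271c n271d =>
  divP n260a n260b n244a n244b fun n272a n272b =>
  addP n272a n272b n174a n174b fun n273a n273b =>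
  mulP n228a n228b n273a n273b fun n274a n274b =>
  addP n271a n271c n274a n274b fun n276a n276b =>
  mulP n220a n220b n220a n220b fun n277a n277b =>
  mulP 8333333 8333334 n220a n220b fun n278a n278b =>
  addP 16666666 16666667 n278a n278b fun n279a n279b =>
  mulP n277a n277b n279a n279b fun n280a n280b =>
  mulP n87a n87b n218a n218b fun n282a n282b =>
  mulP 12500000 12500000 n220a n220b fun n283a n283b =>
  addP 33333333 33333334 n283a n283b fun n284a n284b =>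
  mulP n220a n220b n284a n284b fun n285a n285b =>
  addP 50000000 50000000 n285a n285b fun n286a n286b =>
  mulP n282a n282b n286a n286b fun n287a n287b =>
  addP 100000000 100000000 n287a n287b fun n289a n289b =>
  mulS n224a n224b n289a n280b n289b n280a fun n290a n290b n290c n290d =>
  gol n276b n271d n290a n290b <|
  true

def IntBody (s z a b ξ : ℝ) : Prop :=
  ∀ X : ℝ, X = (((s * s) * (s * s)) * (s * s)) →
  ∀ τ : ℝ, τ = ((1:ℝ) - X) → 0 ≤ τ →
  ∀ Y : ℝ, Y = ((1:ℝ) + τ) →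
  2 * (ξ * Y) ≤ 1 →
  -(2 * (ξ * X)) ≤ 1 →
  ∀ c : ℝ, c = (a + b) →
  ∀ b0 : ℝ, b0 = ((a * Y) - (b * X)) →
  ∀ zk : ℝ, zk = ((z * z) * (((1/3:ℝ) * (((a * Y) * Y) + ((b * X) * X))) + ((1/12:ℝ) * (b0 * b0)))) →
  ∀ f1 : ℝ, f1 = 1 - ξ * Y → 0 ≤ f1 →
  ∀ f2 : ℝ, f2 = 1 + ξ * X → 0 ≤ f2 →
  ∀ d1 : ℝ, d1 = 1 - ξ * Y - z * Y / 5 → 0 ≤ d1 →
  ∀ d2 : ℝ, d2 = 1 + ξ * X - z * X / 5 → 0 ≤ d2 →
  ∀ t : ℝ, t = τ + ξ * (X * Y) →
  ∀ g : ℝ, g = (f1 * f2) →
  ∀ al : ℝ, al = ((1:ℝ) - a) → 0 ≤ al →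
  ∀ be : ℝ, be = ((1:ℝ) - b) → 0 ≤ be →
  ∀ em : ℝ, em = ((((5/2:ℝ) * g) + (((1/2:ℝ) * z) * (((al * al) * ((z * Y) / d1)) + ((be * be) * ((z * X) / d2))))) - (((5/4:ℝ) * z) * ((z * X) * Y))) → 0 ≤ em →
  ∀ N0 : ℝ, N0 = ((2:ℝ) + ((2:ℝ) * (τ * τ))) →
  ∀ r0 : ℝ, r0 = ((z * z) * N0) →
  ∀ r1 : ℝ, r1 = (((1/3:ℝ) * em) - zk) → 0 ≤ r1 →
  r0 ≤ r1 →
  ∀ iN : ℝ, (0:ℝ) ≤ iN → iN ≤ ((1:ℝ) / N0) →
  ∀ u0 : ℝ, u0 = (((3/2:ℝ) * τ) - (iN * (((1/8:ℝ) * (((a * Y) + (b * X)) + ((2:ℝ) * (X * Y)))) * b0))) →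
  ∀ u1 : ℝ, u1 = 1 - 2 * ξ * u0 → 0 ≤ u1 →
  ∀ θ : ℝ, ((2:ℝ) / ((1:ℝ) + u1)) ≤ θ → θ ≤ (max ((2:ℝ) - (u1 / ((3/2:ℝ) + ((1/2:ℝ) * r1)))) 0) →
  ∀ q : ℝ, q = ((((a * Y) * Y) * f2) + (((b * X) * X) * f1)) →
  ∀ B : ℝ, B = g + 2 * ξ * t - 1 / 2 * (z * z) * q →
  ∀ gθ : ℝ, gθ = (g * θ) →
  ∀ t2 : ℝ, t2 = (t * t) →
  ∀ c2 : ℝ, c2 = ((1:ℝ) - ((1/2:ℝ) * c)) → 0 ≤ c2 →
  ∀ e3 : ℝ, e3 = (((3:ℝ) * t2) - (3/2:ℝ)) →
  ∀ rest : ℝ, rest = ((((((14/25:ℝ) * (max e3 0)) - ((3:ℝ) * (max (-e3) 0))) + ((1/2:ℝ) * (max ((1:ℝ) - c) 0))) + ((|t| * c2) * |(a - b)|)) - (t2 * (((1:ℝ) + c2) * ((1:ℝ) + c2)))) →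
  ∀ ω : ℝ, ω = ((((1/3:ℝ) * em) / Y) + (3/4:ℝ)) →
  ∀ os : ℝ, os = ((1:ℝ) - s) → 0 ≤ os →
  ∀ ap : ℝ, ap = ((2/3:ℝ) - a) → 0 ≤ ap →
  ∀ ex : ℝ, ex = ap * (12 * os + 6 * (os * os) + ξ * Y) + b * (693 / 500 * τ + ξ * X) - 2 / 3 * (ξ * Y) + 1 / 3 → 0 ≤ ex →
  ∀ v : ℝ, v = 1 - ξ * b0 → 0 ≤ v →
  ∀ F : ℝ, F = ((((1433/2000:ℝ) * ((1:ℝ) + (ex * ((1:ℝ) + (ex * ((1/2:ℝ) + (ex * ((1/6:ℝ) + ((1/24:ℝ) * ex))))))))) * v) / (Y * Y)) →
  ∀ iu : ℝ, iu = ((3:ℝ) / ((2:ℝ) + u1)) →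
  ∀ T1 : ℝ, T1 = (r1 * iu) →
  ∀ G : ℝ, G = (((32/9:ℝ) * F) * iu) →
  ∀ W : ℝ, W = (((1/2:ℝ) * (s * z)) * (max e3 0)) →
  ((((s * s) * (s * s)) * ((((B - (gθ * r1)) * (B - (gθ * r1))) + (((3:ℝ) * (r1 + zk)) * g)) + ((z * z) * rest))) + (W * ((((3:ℝ) * (r1 + zk)) / (Y * ω)) + ω))) ≤ (G * ((1:ℝ) + (T1 * ((1/2:ℝ) + (T1 * ((1/6:ℝ) + ((1/24:ℝ) * T1))))))) ∧
  ((((s * s) * (s * s)) * ((((B - (gθ * r0)) * (B - (gθ * r0))) + (((3:ℝ) * (r0 + zk)) * g)) + ((z * z) * rest))) + (W * ((((3:ℝ) * (r0 + zk)) / (Y * ω)) + ω))) ≤ (G * (((1:ℝ) - ((T1 * T1) * ((1/6:ℝ) + ((1/12:ℝ) * T1)))) + ((r0 * iu) * ((1/2:ℝ) + (T1 * ((1/3:ℝ) + ((1/8:ℝ) * T1)))))))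

theorem sndIntP : Snd FIntP (fun s z a b => IntBody s z a b (z)) := by
  intro l0 h0 l1 h1 l2 h2 l3 h3 H s z a b v0 v1 v2 v3 X e_X τ e_τ p_τ Y e_Y as19 _ c e_c b0 e_b0 zk e_zk f1 e_f1 p_f1 f2 e_f2 p_f2 d1 e_d1 p_d1 d2 e_d2 p_d2 t e_t g e_g al e_al p_al be e_be p_be em e_em p_em N0 e_N0 r0 e_r0 r1 e_r1 p_r1 as94 iN lo97 hi97 u0 e_u0 u1 e_u1 p_u1 θ lo122 hi122 q e_q B e_B gθ e_gθ t2 e_t2 c2 e_c2 p_c2 e3 e_e3 rest e_rest ω e_ω os e_os p_os ap e_ap p_ap ex e_ex p_ex v e_v p_v F e_F iu e_iu T1 e_T1 G e_G W e_W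
  unfold FIntP at H
  obtain ⟨n4a, n4b, m4, H⟩ := mulP_s v0 v0 H
  obtain ⟨n5a, n5b, m5, H⟩ := mulP_s m4 m4 H
  obtain ⟨n6a, n6b, m6, H⟩ := mulP_s m5 m4 H
  have m7 := MP.eq m6 e_X
  obtain ⟨n10a, n10b, m10, H⟩ := nnS_s (subP_s k_1_1 m7) e_τ p_τ H
  obtain ⟨n11a, n11b, m11, H⟩ := addP_s k_1_1 m10 H
  have m12 := MP.eq m11 e_Y
  obtain ⟨n13a, n13b, m13, H⟩ := mulP_s v1 m7 H
  obtain ⟨n14a, n14b, m14, H⟩ := mulP_s v1 m12 H
  obtain ⟨n16a, n16b, m16, H⟩ := mulN_s (c := (2:ℝ)) (n := 2) (by norm_num) m14 H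
  replace H := asm_s (toS_s m16) (toS_s k_1_1) (by linarith only [as19]) H
  obtain ⟨n21a, n21b, m21, H⟩ := mulP_s v1 v1 H
  obtain ⟨n22a, n22b, m22, H⟩ := mulP_s m13 m12 H
  obtain ⟨n23a, n23b, m23, H⟩ := addP_s v2 v3 H
  have m24 := MP.eq m23 e_c
  obtain ⟨n25a, n25b, m25, H⟩ := mulP_s v2 m12 H
  obtain ⟨n26a, n26b, m26, H⟩ := mulP_s v3 m7 H
  have m28 := MS.eq (subP_s m25 m26) e_b0
  obtain ⟨n29a, n29b, m29, H⟩ := mulP_s m25 m12 H
  obtain ⟨n30a, n30b, m30, H⟩ := mulP_s m26 m7 H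
  obtain ⟨n31a, n31b, m31, H⟩ := addP_s m29 m30 H
  obtain ⟨n33a, n33b, m33, H⟩ := mulP_s k_1_3 m31 H
  obtain ⟨n34a, n34b, m34, H⟩ := absS_s m28 H
  obtain ⟨n35a, n35b, m35, H⟩ := mulP_s m34 m34 H
  obtain ⟨n38a, n38b, m38, H⟩ := mulP_s k_1_12 (MP.sq m35) H
  obtain ⟨n39a, n39b, m39, H⟩ := addP_s m33 m38 H
  obtain ⟨n40a, n40b, m40, H⟩ := mulP_s m21 m39 H
  have m41 := MP.eq m40 e_zk
  obtain ⟨n43a, n43b, m43, H⟩ := nnS_s (subP_s k_1_1 m14) (e_f1.trans (by ring)) p_f1 H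
  obtain ⟨n44a, n44b, m44, H⟩ := addP_s k_1_1 m13 H
  obtain ⟨n46a, n46b, m46, H⟩ := nnS_s (toS_s m44) (e_f2.trans (by ring)) p_f2 H
  obtain ⟨n48a, n48b, m48, H⟩ := mulP_s k_6_5 m14 H
  obtain ⟨n50a, n50b, m50, H⟩ := nnS_s (subP_s k_1_1 m48) (e_d1.trans (by ring)) p_d1 H
  obtain ⟨n52a, n52b, m52, H⟩ := mulP_s k_4_5 m13 H
  obtain ⟨n53a, n53b, m53, H⟩ := addP_s k_1_1 m52 H
  obtain ⟨n55a, n55b, m55, H⟩ := nnS_s (toS_s m53) (e_d2.trans (by ring)) p_d2 H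
  obtain ⟨n56a, n56b, m56, H⟩ := addP_s m10 m22 H
  have m58 := MS.eq (toS_s m56) (e_t.trans (by ring))
  obtain ⟨n59a, n59b, m59, H⟩ := mulP_s m43 m46 H
  have m60 := MP.eq m59 e_g
  obtain ⟨n62a, n62b, m62, H⟩ := nnS_s (subP_s k_1_1 v2) e_al p_al H
  obtain ⟨n64a, n64b, m64, H⟩ := nnS_s (subP_s k_1_1 v3) e_be p_be H
  obtain ⟨n66a, n66b, m66, H⟩ := mulP_s k_5_2 m60 H
  obtain ⟨n68a, n68b, m68, H⟩ := mulP_s k_1_2 v1 H
  obtain ⟨n69a, n69b, m69, H⟩ := mulP_s m62 m62 H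
  obtain ⟨n70a, n70b, m70, H⟩ := divP_s m14 m50 H
  obtain ⟨n71a, n71b, m71, H⟩ := mulP_s m69 m70 H
  obtain ⟨n72a, n72b, m72, H⟩ := mulP_s m64 m64 H
  obtain ⟨n73a, n73b, m73, H⟩ := divP_s m13 m55 H
  obtain ⟨n74a, n74b, m74, H⟩ := mulP_s m72 m73 H
  obtain ⟨n75a, n75b, m75, H⟩ := addP_s m71 m74 H
  obtain ⟨n76a, n76b, m76, H⟩ := mulP_s m68 m75 H
  obtain ⟨n77a, n77b, m77, H⟩ := addP_s m66 m76 H
  obtain ⟨n79a, n79b, m79, H⟩ := mulP_s k_5_4 v1 H
  obtain ⟨n80a, n80b, m80, H⟩ := mulP_s m79 m22 H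
  obtain ⟨n82a, n82b, m82, H⟩ := nnS_s (subP_s m77 m80) e_em p_em H
  obtain ⟨n83a, n83b, m83, H⟩ := mulP_s m10 m10 H
  obtain ⟨n84a, n84b, m84, H⟩ := mulN_s (c := (2:ℝ)) (n := 2) (by norm_num) m83 H
  obtain ⟨n85a, n85b, m85, H⟩ := addP_s k_2_1 m84 H
  have m86 := MP.eq m85 e_N0
  obtain ⟨n87a, n87b, m87, H⟩ := mulP_s m21 m86 H
  have m88 := MP.eq m87 e_r0
  obtain ⟨n89a, n89b, m89, H⟩ := mulP_s k_1_3 m82 H
  obtain ⟨n91a, n91b, m91, H⟩ := nnS_s (subP_s m89 m41) e_r1 p_r1 H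
  replace H := asm_s (toS_s m88) (toS_s m91) as94 H
  obtain ⟨n95a, n95b, m95, H⟩ := divP_s k_1_1 m86 H
  have m97 := btwP k_0_1 m95 lo97 hi97
  obtain ⟨n98a, n98b, m98, H⟩ := addP_s m25 m26 H
  obtain ⟨n99a, n99b, m99, H⟩ := mulP_s m7 m12 H
  obtain ⟨n100a, n100b, m100, H⟩ := mulN_s (c := (2:ℝ)) (n := 2) (by norm_num) m99 H
  obtain ⟨n101a, n101b, m101, H⟩ := addP_s m98 m100 H
  obtain ⟨n103a, n103b, m103, H⟩ := mulP_s k_1_8 m101 H
  obtain ⟨n104a, n104b, n104c, n104d, m104, H⟩ := mulS_s m103 m28 H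
  obtain ⟨n106a, n106b, m106, H⟩ := mulP_s k_3_2 m10 H
  obtain ⟨n107a, n107b, n107c, n107d, m107, H⟩ := mulS_s m97 m104 H
  obtain ⟨n109a, n109b, m109, H⟩ := subP_S m106 m107 H
  have m110 := MS.eq m109 e_u0
  obtain ⟨n111a, n111b, m111, H⟩ := mulN_s (c := (2:ℝ)) (n := 2) (by norm_num) v1 H
  obtain ⟨n112a, n112b, n112c, n112d, m112, H⟩ := mulS_s m111 m110 H
  obtain ⟨n113a, n113b, m113, H⟩ := subP_S k_1_1 m112 H
  obtain ⟨n114a, n114b, m114, H⟩ := nnS_s m113 (e_u1.trans (by ring)) p_u1 H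
  obtain ⟨n115a, n115b, m115, H⟩ := addP_s k_1_1 m114 H
  obtain ⟨n116a, n116b, m116, H⟩ := divP_s k_2_1 m115 H
  obtain ⟨n117a, n117b, m117, H⟩ := mulP_s k_1_2 m91 H
  obtain ⟨n118a, n118b, m118, H⟩ := addP_s k_3_2 m117 H
  obtain ⟨n119a, n119b, m119, H⟩ := divP_s m114 m118 H
  obtain ⟨n121a, n121b, m121, H⟩ := posS_s (subP_s k_2_1 m119) H
  have m122 := btwP m116 m121 lo122 hi122
  obtain ⟨n123a, n123b, m123, H⟩ := mulP_s m29 m46 H
  obtain ⟨n124a, n124b, m124, H⟩ := mulP_s m30 m43 H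
  obtain ⟨n125a, n125b, m125, H⟩ := addP_s m123 m124 H
  have m126 := MP.eq m125 e_q
  obtain ⟨n127a, n127b, n127c, n127d, m127, H⟩ := mulS_s m111 m58 H
  obtain ⟨n129a, n129b, m129, H⟩ := addP_S m60 m127 H
  obtain ⟨n130a, n130b, m130, H⟩ := mulP_s k_1_2 m21 H
  obtain ⟨n131a, n131b, m131, H⟩ := mulP_s m130 m126 H
  obtain ⟨n133a, n133b, m133, H⟩ := subS_P m129 m131 H
  have m134 := MS.eq m133 (e_B.trans (by ring))
  obtain ⟨n135a, n135b, m135, H⟩ := mulP_s m60 m122 H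
  have m136 := MP.eq m135 e_gθ
  obtain ⟨n137a, n137b, m137, H⟩ := absS_s m58 H
  obtain ⟨n138a, n138b, m138, H⟩ := mulP_s m137 m137 H
  have m140 := MP.eq (MP.sq m138) e_t2
  obtain ⟨n141a, n141b, m141, H⟩ := mulP_s k_1_2 m24 H
  obtain ⟨n143a, n143b, m143, H⟩ := nnS_s (subP_s k_1_1 m141) e_c2 p_c2 H
  obtain ⟨n145a, n145b, m145, H⟩ := mulN_s (c := (3:ℝ)) (n := 3) (by norm_num) m140 H
  have m147 := MS.eq (subP_s m145 k_3_2) e_e3
  obtain ⟨n148a, n148b, m148, H⟩ := posS_s m147 H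
  obtain ⟨n150a, n150b, m150, H⟩ := mulP_s k_14_25 m148 H
  obtain ⟨n152a, n152b, m152, H⟩ := posS_s (neg_s m147) H
  obtain ⟨n153a, n153b, m153, H⟩ := mulN_s (c := (3:ℝ)) (n := 3) (by norm_num) m152 H
  obtain ⟨n156a, n156b, m156, H⟩ := posS_s (subP_s k_1_1 m24) H
  obtain ⟨n157a, n157b, m157, H⟩ := mulP_s k_1_2 m156 H
  obtain ⟨n159a, n159b, m159, H⟩ := addS_P (subP_s m150 m153) m157 H
  obtain ⟨n160a, n160b, m160, H⟩ := mulP_s m137 m143 H
  obtain ⟨n162a, n162b, m162, H⟩ := absS_s (subP_s v2 v3) H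
  obtain ⟨n163a, n163b, m163, H⟩ := mulP_s m160 m162 H
  obtain ⟨n165a, n165b, m165, H⟩ := addS_P m159 m163 H
  obtain ⟨n166a, n166b, m166, H⟩ := addP_s k_1_1 m143 H
  obtain ⟨n167a, n167b, m167, H⟩ := mulP_s m166 m166 H
  obtain ⟨n168a, n168b, m168, H⟩ := mulP_s m140 m167 H
  obtain ⟨n170a, n170b, m170, H⟩ := subS_P m165 m168 H
  have m171 := MS.eq m170 e_rest
  obtain ⟨n172a, n172b, m172, H⟩ := divP_s m89 m12 H
  obtain ⟨n174a, n174b, m174, H⟩ := addP_s m172 k_3_4 H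
  have m175 := MP.eq m174 e_ω
  obtain ⟨n177a, n177b, m177, H⟩ := nnS_s (subP_s k_1_1 v0) e_os p_os H
  obtain ⟨n180a, n180b, m180, H⟩ := nnS_s (subP_s k_2_3 v2) e_ap p_ap H
  obtain ⟨n182a, n182b, m182, H⟩ := mulN_s (c := (12:ℝ)) (n := 12) (by norm_num) m177 H
  obtain ⟨n183a, n183b, m183, H⟩ := mulP_s m177 m177 H
  obtain ⟨n185a, n185b, m185, H⟩ := mulN_s (c := (6:ℝ)) (n := 6) (by norm_num) m183 H
  obtain ⟨n186a, n186b, m186, H⟩ := addP_s m182 m185 H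
  obtain ⟨n187a, n187b, m187, H⟩ := addP_s m186 m14 H
  obtain ⟨n188a, n188b, m188, H⟩ := mulP_s m180 m187 H
  obtain ⟨n190a, n190b, m190, H⟩ := mulP_s k_693_500 m10 H
  obtain ⟨n191a, n191b, m191, H⟩ := addP_s m190 m13 H
  obtain ⟨n192a, n192b, m192, H⟩ := mulP_s v3 m191 H
  obtain ⟨n193a, n193b, m193, H⟩ := addP_s m188 m192 H
  obtain ⟨n194a, n194b, m194, H⟩ := addP_s m193 k_1_3 H
  obtain ⟨n195a, n195b, m195, H⟩ := mulP_s k_2_3 m14 H
  obtain ⟨n197a, n197b, m197, H⟩ := nnS_s (subP_s m194 m195) (e_ex.trans (by ring)) p_ex H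
  obtain ⟨n198a, n198b, n198c, n198d, m198, H⟩ := mulS_s v1 m28 H
  obtain ⟨n199a, n199b, m199, H⟩ := subP_S k_1_1 m198 H
  obtain ⟨n200a, n200b, m200, H⟩ := nnS_s m199 (e_v.trans (by ring)) p_v H
  obtain ⟨n202a, n202b, m202, H⟩ := mulP_s k_1_24 m197 H
  obtain ⟨n204a, n204b, m204, H⟩ := addP_s k_1_6 m202 H
  obtain ⟨n205a, n205b, m205, H⟩ := mulP_s m197 m204 H
  obtain ⟨n206a, n206b, m206, H⟩ := addP_s k_1_2 m205 H
  obtain ⟨n207a, n207b, m207, H⟩ := mulP_s m197 m206 H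
  obtain ⟨n208a, n208b, m208, H⟩ := addP_s k_1_1 m207 H
  obtain ⟨n209a, n209b, m209, H⟩ := mulP_s m197 m208 H
  obtain ⟨n210a, n210b, m210, H⟩ := addP_s k_1_1 m209 H
  obtain ⟨n212a, n212b, m212, H⟩ := mulP_s k_1433_2000 m210 H
  obtain ⟨n213a, n213b, m213, H⟩ := mulP_s m212 m200 H
  obtain ⟨n214a, n214b, m214, H⟩ := mulP_s m12 m12 H
  obtain ⟨n215a, n215b, m215, H⟩ := divP_s m213 m214 H
  have m216 := MP.eq m215 e_F
  obtain ⟨n217a, n217b, m217, H⟩ := addP_s k_2_1 m114 H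
  obtain ⟨n218a, n218b, m218, H⟩ := divP_s k_3_1 m217 H
  have m219 := MP.eq m218 e_iu
  obtain ⟨n220a, n220b, m220, H⟩ := mulP_s m91 m219 H
  have m221 := MP.eq m220 e_T1
  obtain ⟨n223a, n223b, m223, H⟩ := mulP_s k_32_9 m216 H
  obtain ⟨n224a, n224b, m224, H⟩ := mulP_s m223 m219 H
  have m225 := MP.eq m224 e_G
  obtain ⟨n226a, n226b, m226, H⟩ := mulP_s v0 v1 H
  obtain ⟨n227a, n227b, m227, H⟩ := mulP_s k_1_2 m226 H
  obtain ⟨n228a, n228b, m228, H⟩ := mulP_s m227 m148 H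
  have m229 := MP.eq m228 e_W
  obtain ⟨n230a, n230b, m230, H⟩ := addP_s m91 m41 H
  obtain ⟨n231a, n231b, m231, H⟩ := mulN_s (c := (3:ℝ)) (n := 3) (by norm_num) m230 H
  obtain ⟨n232a, n232b, m232, H⟩ := mulP_s m136 m91 H
  obtain ⟨n234a, n234b, m234, H⟩ := subS_P m134 m232 H
  obtain ⟨n235a, n235b, m235, H⟩ := absS_s m234 H
  obtain ⟨n236a, n236b, m236, H⟩ := mulP_s m235 m235 H
  obtain ⟨n238a, n238b, m238, H⟩ := mulP_s m231 m60 H
  obtain ⟨n239a, n239b, m239, H⟩ := addP_s (MP.sq m236) m238 H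
  obtain ⟨n240a, n240b, n240c, n240d, m240, H⟩ := mulS_s m21 m171 H
  obtain ⟨n242a, n242b, m242, H⟩ := addP_S m239 m240 H
  obtain ⟨n243a, n243b, n243c, n243d, m243, H⟩ := mulS_s m5 m242 H
  obtain ⟨n244a, n244b, m244, H⟩ := mulP_s m12 m175 H
  obtain ⟨n245a, n245b, m245, H⟩ := divP_s m231 m244 H
  obtain ⟨n246a, n246b, m246, H⟩ := addP_s m245 m175 H
  obtain ⟨n247a, n247b, m247, H⟩ := mulP_s m229 m246 H
  obtain ⟨n249a, n249b, m249, H⟩ := addS_P m243 m247 H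
  obtain ⟨n250a, n250b, m250, H⟩ := mulP_s k_1_24 m221 H
  obtain ⟨n251a, n251b, m251, H⟩ := addP_s k_1_6 m250 H
  obtain ⟨n252a, n252b, m252, H⟩ := mulP_s m221 m251 H
  obtain ⟨n253a, n253b, m253, H⟩ := addP_s k_1_2 m252 H
  obtain ⟨n254a, n254b, m254, H⟩ := mulP_s m221 m253 H
  obtain ⟨n255a, n255b, m255, H⟩ := addP_s k_1_1 m254 H
  obtain ⟨n256a, n256b, m256, H⟩ := mulP_s m225 m255 H
  obtain ⟨g258, H⟩ := gol_s m249 (toS_s m256) H
  obtain ⟨n259a, n259b, m259, H⟩ := addP_s m88 m41 H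
  obtain ⟨n260a, n260b, m260, H⟩ := mulN_s (c := (3:ℝ)) (n := 3) (by norm_num) m259 H
  obtain ⟨n261a, n261b, m261, H⟩ := mulP_s m136 m88 H
  obtain ⟨n263a, n263b, m263, H⟩ := subS_P m134 m261 H
  obtain ⟨n264a, n264b, m264, H⟩ := absS_s m263 H
  obtain ⟨n265a, n265b, m265, H⟩ := mulP_s m264 m264 H
  obtain ⟨n267a, n267b, m267, H⟩ := mulP_s m260 m60 H
  obtain ⟨n268a, n268b, m268, H⟩ := addP_s (MP.sq m265) m267 H
  obtain ⟨n270a, n270b, m270, H⟩ := addP_S m268 m240 H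
  obtain ⟨n271a, n271b, n271c, n271d, m271, H⟩ := mulS_s m5 m270 H
  obtain ⟨n272a, n272b, m272, H⟩ := divP_s m260 m244 H
  obtain ⟨n273a, n273b, m273, H⟩ := addP_s m272 m175 H
  obtain ⟨n274a, n274b, m274, H⟩ := mulP_s m229 m273 H
  obtain ⟨n276a, n276b, m276, H⟩ := addS_P m271 m274 H
  obtain ⟨n277a, n277b, m277, H⟩ := mulP_s m221 m221 H
  obtain ⟨n278a, n278b, m278, H⟩ := mulP_s k_1_12 m221 H
  obtain ⟨n279a, n279b, m279, H⟩ := addP_s k_1_6 m278 H
  obtain ⟨n280a, n280b, m280, H⟩ := mulP_s m277 m279 H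
  obtain ⟨n282a, n282b, m282, H⟩ := mulP_s m88 m219 H
  obtain ⟨n283a, n283b, m283, H⟩ := mulP_s k_1_8 m221 H
  obtain ⟨n284a, n284b, m284, H⟩ := addP_s k_1_3 m283 H
  obtain ⟨n285a, n285b, m285, H⟩ := mulP_s m221 m284 H
  obtain ⟨n286a, n286b, m286, H⟩ := addP_s k_1_2 m285 H
  obtain ⟨n287a, n287b, m287, H⟩ := mulP_s m282 m286 H
  obtain ⟨n289a, n289b, m289, H⟩ := addS_P (subP_s k_1_1 m280) m287 H
  obtain ⟨n290a, n290b, n290c, n290d, m290, H⟩ := mulS_s m225 m289 H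
  obtain ⟨g291, H⟩ := gol_s m276 m290 H
  exact ⟨g258, g291⟩

noncomputable def FIntM : Chk := fun l0 h0 l1 h1 l2 h2 l3 h3 =>
  mulP l0 h0 l0 h0 fun n4a n4b =>
  mulP n4a n4b n4a n4b fun n5a n5b =>
  mulP n5a n5b n4a n4b fun n6a n6b =>
  posS 100000000 n6b 100000000 n6a fun n10a n10b =>
  addP 100000000 100000000 n10a n10b fun n11a n11b =>
  mulP l1 h1 n6a n6b fun n13a n13b =>
  mulP l1 h1 n11a n11b fun n14a n14b =>
  mulN 2 n13a n13b fun n17a n17b =>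
  asm n17a 0 100000000 0 <|
  mulP l1 h1 l1 h1 fun n21a n21b =>
  mulP n13a n13b n11a n11b fun n22a n22b =>
  addP l2 h2 l3 h3 fun n23a n23b =>
  mulP l2 h2 n11a n11b fun n25a n25b =>
  mulP l3 h3 n6a n6b fun n26a n26b =>
  mulP n25a n25b n11a n11b fun n29a n29b =>
  mulP n26a n26b n6a n6b fun n30a n30b =>
  addP n29a n29b n30a n30b fun n31a n31b =>
  mulP 33333333 33333334 n31a n31b fun n33a n33b =>
  absS n25a n26b n25b n26a fun n34a n34b =>
  mulP n34a n34b n34a n34b fun n35a n35b =>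
  mulP 8333333 8333334 n35a n35b fun n38a n38b =>
  addP n33a n33b n38a n38b fun n39a n39b =>
  mulP n21a n21b n39a n39b fun n40a n40b =>
  addP 100000000 100000000 n14a n14b fun n42a n42b =>
  posS n42a 0 n42b 0 fun n44a n44b =>
  posS 100000000 n13b 100000000 n13a fun n46a n46b =>
  mulP 80000000 80000000 n14a n14b fun n48a n48b =>
  addP 100000000 100000000 n48a n48b fun n49a n49b =>
  posS n49a 0 n49b 0 fun n51a n51b =>
  mulP 120000000 120000000 n13a n13b fun n53a n53b =>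
  posS 100000000 n53b 100000000 n53a fun n55a n55b =>
  mulP n44a n44b n46a n46b fun n58a n58b =>
  posS 100000000 h2 100000000 l2 fun n61a n61b =>
  posS 100000000 h3 100000000 l3 fun n63a n63b =>
  mulP 250000000 250000000 n58a n58b fun n65a n65b =>
  mulP 50000000 50000000 l1 h1 fun n67a n67b =>
  mulP n61a n61b n61a n61b fun n68a n68b =>
  divP n14a n14b n51a n51b fun n69a n69b =>
  mulP n68a n68b n69a n69b fun n70a n70b =>
  mulP n63a n63b n63a n63b fun n71a n71b =>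
  divP n13a n13b n55a n55b fun n72a n72b =>
  mulP n71a n71b n72a n72b fun n73a n73b =>
  addP n70a n70b n73a n73b fun n74a n74b =>
  mulP n67a n67b n74a n74b fun n75a n75b =>
  addP n65a n65b n75a n75b fun n76a n76b =>
  mulP 125000000 125000000 l1 h1 fun n78a n78b =>
  mulP n78a n78b n22a n22b fun n79a n79b =>
  posS n76a n79b n76b n79a fun n81a n81b =>
  mulP n10a n10b n10a n10b fun n82a n82b =>
  mulN 2 n82a n82b fun n83a n83b =>
  addP 200000000 200000000 n83a n83b fun n84a n84b =>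
  mulP n21a n21b n84a n84b fun n86a n86b =>
  mulP 33333333 33333334 n81a n81b fun n88a n88b =>
  posS n88a n40b n88b n40a fun n90a n90b =>
  asm n86a 0 n90b 0 <|
  divP 100000000 100000000 n84a n84b fun n94a n94b =>
  addP n25a n25b n26a n26b fun n97a n97b =>
  mulP n6a n6b n11a n11b fun n98a n98b =>
  mulN 2 n98a n98b fun n99a n99b =>
  addP n97a n97b n99a n99b fun n100a n100b =>
  mulP 12500000 12500000 n100a n100b fun n102a n102b =>
  mulS n102a n102b n25a n26b n25b n26a fun n103a n103b n103c n103d =>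
  mulP 150000000 150000000 n10a n10b fun n105a n105b =>
  mulS 0 n94b n103a n103b n103c n103d fun n106a n106b n106c n106d =>
  addP n106d n106b n105a n105b fun n108a n108b =>
  mulN 2 l1 h1 fun n110a n110b =>
  mulS n110a n110b n108a n106c n108b n106a fun n111a n111b n111c n111d =>
  addP n111a n111c 100000000 100000000 fun n112a n112b =>
  posS n112a n111b n112b n111d fun n113a n113b =>
  addP 100000000 100000000 n113a n113b fun n114a n114b =>
  divP 200000000 200000000 n114a n114b fun n115a n115b =>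
  mulP 50000000 50000000 n90a n90b fun n116a n116b =>
  addP 150000000 150000000 n116a n116b fun n117a n117b =>
  divP n113a n113b n117a n117b fun n118a n118b =>
  posS 200000000 n118b 200000000 n118a fun n120a n120b =>
  mulP n29a n29b n46a n46b fun n122a n122b =>
  mulP n30a n30b n44a n44b fun n123a n123b =>
  addP n122a n122b n123a n123b fun n124a n124b =>
  mulS n110a n110b n10a n22b n10b n22a fun n126a n126b n126c n126d =>
  addP n126d n126b n58a n58b fun n128a n128b =>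
  mulP 50000000 50000000 n21a n21b fun n129a n129b =>
  mulP n129a n129b n124a n124b fun n130a n130b =>
  addP n126a n126c n130a n130b fun n132a n132b =>
  mulP n58a n58b n115a n120b fun n134a n134b =>
  absS n10a n22b n10b n22a fun n136a n136b =>
  mulP n136a n136b n136a n136b fun n137a n137b =>
  mulP 50000000 50000000 n23a n23b fun n140a n140b =>
  posS 100000000 n140b 100000000 n140a fun n142a n142b =>
  mulN 3 n137a n137b fun n144a n144b =>
  posS n144a 150000000 n144b 150000000 fun n147a n147b =>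
  mulP 56000000 56000000 n147a n147b fun n149a n149b =>
  posS 150000000 n144b 150000000 n144a fun n151a n151b =>
  mulN 3 n151a n151b fun n152a n152b =>
  posS 100000000 n23b 100000000 n23a fun n155a n155b =>
  mulP 50000000 50000000 n155a n155b fun n156a n156b =>
  addP n149a n149b n156a n156b fun n158a n158b =>
  mulP n136a n136b n142a n142b fun n159a n159b =>
  absS l2 h3 h2 l3 fun n161a n161b =>
  mulP n159a n159b n161a n161b fun n162a n162b =>
  addP n158a n158b n162a n162b fun n164a n164b =>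
  addP 100000000 100000000 n142a n142b fun n165a n165b =>
  mulP n165a n165b n165a n165b fun n166a n166b =>
  mulP n137a n137b n166a n166b fun n167a n167b =>
  addP n152a n152b n167a n167b fun n169a n169b =>
  divP n88a n88b n11a n11b fun n171a n171b =>
  addP n171a n171b 75000000 75000000 fun n173a n173b =>
  posS 100000000 h0 100000000 l0 fun n176a n176b =>
  posS 66666666 h2 66666667 l2 fun n179a n179b =>
  mulN 12 n176a n176b fun n181a n181b =>
  mulP n176a n176b n176a n176b fun n182a n182b =>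
  mulN 6 n182a n182b fun n184a n184b =>
  addP n181a n181b n184a n184b fun n185a n185b =>
  mulS n179a n179b n185a n14b n185b n14a fun n187a n187b n187c n187d =>
  mulP 138600000 138600000 n10a n10b fun n189a n189b =>
  mulS l3 h3 n189a n13b n189b n13a fun n191a n191b n191c n191d =>
  addS n187a n187b n187c n187d n191a n191b n191c n191d fun n192a n192b n192c n192d =>
  mulP 66666666 66666667 n14a n14b fun n193a n193b =>
  addP n193a n193b 33333333 33333334 fun n194a n194b =>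
  addP n192a n192c n194a n194b fun n196a n196b =>
  posS n196a n192b n196b n192d fun n197a n197b =>
  mulS l1 h1 n25a n26b n25b n26a fun n198a n198b n198c n198d =>
  addP n198a n198c 100000000 100000000 fun n199a n199b =>
  posS n199a n198b n199b n198d fun n200a n200b =>
  mulP 4166666 4166667 n197a n197b fun n202a n202b =>
  addP 16666666 16666667 n202a n202b fun n204a n204b =>
  mulP n197a n197b n204a n204b fun n205a n205b =>
  addP 50000000 50000000 n205a n205b fun n206a n206b =>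
  mulP n197a n197b n206a n206b fun n207a n207b =>
  addP 100000000 100000000 n207a n207b fun n208a n208b =>
  mulP n197a n197b n208a n208b fun n209a n209b =>
  addP 100000000 100000000 n209a n209b fun n210a n210b =>
  mulP 71650000 71650000 n210a n210b fun n212a n212b =>
  mulP n212a n212b n200a n200b fun n213a n213b =>
  mulP n11a n11b n11a n11b fun n214a n214b =>
  divP n213a n213b n214a n214b fun n215a n215b =>
  addP 200000000 200000000 n113a n113b fun n217a n217b =>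
  divP 300000000 300000000 n217a n217b fun n218a n218b =>
  mulP n90a n90b n218a n218b fun n220a n220b =>
  mulP 355555555 355555556 n215a n215b fun n223a n223b =>
  mulP n223a n223b n218a n218b fun n224a n224b =>
  mulP l0 h0 l1 h1 fun n226a n226b =>
  mulP 50000000 50000000 n226a n226b fun n227a n227b =>
  mulP n227a n227b n147a n147b fun n228a n228b =>
  addP n90a n90b n40a n40b fun n230a n230b =>
  mulN 3 n230a n230b fun n231a n231b =>
  mulP n134a n134b n90a n90b fun n232a n232b =>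
  addP n132a n132b n232a n232b fun n234a n234b =>
  absS n128a n234b n128b n234a fun n235a n235b =>
  mulP n235a n235b n235a n235b fun n236a n236b =>
  mulP n231a n231b n58a n58b fun n238a n238b =>
  addP n236a n236b n238a n238b fun n239a n239b =>
  mulS n21a n21b n164a n169b n164b n169a fun n240a n240b n240c n240d =>
  addP n240a n240c n239a n239b fun n242a n242b =>
  mulS n5a n5b n242a n240b n242b n240d fun n243a n243b n243c n243d =>
  mulP n11a n11b n173a n173b fun n244a n244b =>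
  divP n231a n231b n244a n244b fun n245a n245b =>
  addP n245a n245b n173a n173b fun n246a n246b =>
  mulP n228a n228b n246a n246b fun n247a n247b =>
  addP n243a n243c n247a n247b fun n249a n249b =>
  mulP 4166666 4166667 n220a n220b fun n250a n250b =>
  addP 16666666 16666667 n250a n250b fun n251a n251b =>
  mulP n220a n220b n251a n251b fun n252a n252b =>
  addP 50000000 50000000 n252a n252b fun n253a n253b =>
  mulP n220a n220b n253a n253b fun n254a n254b =>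
  addP 100000000 100000000 n254a n254b fun n255a n255b =>
  mulP n224a n224b n255a n255b fun n256a n256b =>
  gol n249b n243d n256a 0 <|
  addP n86a n86b n40a n40b fun n259a n259b =>
  mulN 3 n259a n259b fun n260a n260b =>
  mulP n134a n134b n86a n86b fun n261a n261b =>
  addP n132a n132b n261a n261b fun n263a n263b =>
  absS n128a n263b n128b n263a fun n264a n264b =>
  mulP n264a n264b n264a n264b fun n265a n265b =>
  mulP n260a n260b n58a n58b fun n267a n267b =>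
  addP n265a n265b n267a n267b fun n268a n268b =>
  addP n240a n240c n268a n268b fun n270a n270b =>
  mulS n5a n5b n270a n240b n270b n240d fun n271a n271b n271c n271d =>
  divP n260a n260b n244a n244b fun n272a n272b =>
  addP n272a n272b n173a n173b fun n273a n273b =>
  mulP n228a n228b n273a n273b fun n274a n274b =>
  addP n271a n271c n274a n274b fun n276a n276b =>
  mulP n220a n220b n220a n220b fun n277a n277b =>
  mulP 8333333 8333334 n220a n220b fun n278a n278b =>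
  addP 16666666 16666667 n278a n278b fun n279a n279b =>
  mulP n277a n277b n279a n279b fun n280a n280b =>
  mulP n86a n86b n218a n218b fun n282a n282b =>
  mulP 12500000 12500000 n220a n220b fun n283a n283b =>
  addP 33333333 33333334 n283a n283b fun n284a n284b =>
  mulP n220a n220b n284a n284b fun n285a n285b =>
  addP 50000000 50000000 n285a n285b fun n286a n286b =>
  mulP n282a n282b n286a n286b fun n287a n287b =>
  addP 100000000 100000000 n287a n287b fun n289a n289b =>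
  mulS n224a n224b n289a n280b n289b n280a fun n290a n290b n290c n290d =>
  gol n276b n271d n290a n290b <|
  true

theorem sndIntM : Snd FIntM (fun s z a b => IntBody s z a b (-z)) := by
  intro l0 h0 l1 h1 l2 h2 l3 h3 H s z a b v0 v1 v2 v3 X e_X τ e_τ p_τ Y e_Y _ as20 c e_c b0 e_b0 zk e_zk f1 e_f1 p_f1 f2 e_f2 p_f2 d1 e_d1 p_d1 d2 e_d2 p_d2 t e_t g e_g al e_al p_al be e_be p_be em e_em p_em N0 e_N0 r0 e_r0 r1 e_r1 p_r1 as93 iN lo96 hi96 u0 e_u0 u1 e_u1 p_u1 θ lo121 hi121 q e_q B e_B gθ e_gθ t2 e_t2 c2 e_c2 p_c2 e3 e_e3 rest e_rest ω e_ω os e_os p_os ap e_ap p_ap ex e_ex p_ex v e_v p_v F e_F iu e_iu T1 e_T1 G e_G W e_W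
  unfold FIntM at H
  obtain ⟨n4a, n4b, m4, H⟩ := mulP_s v0 v0 H
  obtain ⟨n5a, n5b, m5, H⟩ := mulP_s m4 m4 H
  obtain ⟨n6a, n6b, m6, H⟩ := mulP_s m5 m4 H
  have m7 := MP.eq m6 e_X
  obtain ⟨n10a, n10b, m10, H⟩ := nnS_s (subP_s k_1_1 m7) e_τ p_τ H
  obtain ⟨n11a, n11b, m11, H⟩ := addP_s k_1_1 m10 H
  have m12 := MP.eq m11 e_Y
  obtain ⟨n13a, n13b, m13, H⟩ := mulP_s v1 m7 H
  obtain ⟨n14a, n14b, m14, H⟩ := mulP_s v1 m12 H
  obtain ⟨n17a, n17b, m17, H⟩ := mulN_s (c := (2:ℝ)) (n := 2) (by norm_num) m13 H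
  replace H := asm_s (toS_s m17) (toS_s k_1_1) (by linarith only [as20]) H
  obtain ⟨n21a, n21b, m21, H⟩ := mulP_s v1 v1 H
  obtain ⟨n22a, n22b, m22, H⟩ := mulP_s m13 m12 H
  obtain ⟨n23a, n23b, m23, H⟩ := addP_s v2 v3 H
  have m24 := MP.eq m23 e_c
  obtain ⟨n25a, n25b, m25, H⟩ := mulP_s v2 m12 H
  obtain ⟨n26a, n26b, m26, H⟩ := mulP_s v3 m7 H
  have m28 := MS.eq (subP_s m25 m26) e_b0
  obtain ⟨n29a, n29b, m29, H⟩ := mulP_s m25 m12 H
  obtain ⟨n30a, n30b, m30, H⟩ := mulP_s m26 m7 H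
  obtain ⟨n31a, n31b, m31, H⟩ := addP_s m29 m30 H
  obtain ⟨n33a, n33b, m33, H⟩ := mulP_s k_1_3 m31 H
  obtain ⟨n34a, n34b, m34, H⟩ := absS_s m28 H
  obtain ⟨n35a, n35b, m35, H⟩ := mulP_s m34 m34 H
  obtain ⟨n38a, n38b, m38, H⟩ := mulP_s k_1_12 (MP.sq m35) H
  obtain ⟨n39a, n39b, m39, H⟩ := addP_s m33 m38 H
  obtain ⟨n40a, n40b, m40, H⟩ := mulP_s m21 m39 H
  have m41 := MP.eq m40 e_zk
  obtain ⟨n42a, n42b, m42, H⟩ := addP_s k_1_1 m14 H
  obtain ⟨n44a, n44b, m44, H⟩ := nnS_s (toS_s m42) (e_f1.trans (by ring)) p_f1 H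
  obtain ⟨n46a, n46b, m46, H⟩ := nnS_s (subP_s k_1_1 m13) (e_f2.trans (by ring)) p_f2 H
  obtain ⟨n48a, n48b, m48, H⟩ := mulP_s k_4_5 m14 H
  obtain ⟨n49a, n49b, m49, H⟩ := addP_s k_1_1 m48 H
  obtain ⟨n51a, n51b, m51, H⟩ := nnS_s (toS_s m49) (e_d1.trans (by ring)) p_d1 H
  obtain ⟨n53a, n53b, m53, H⟩ := mulP_s k_6_5 m13 H
  obtain ⟨n55a, n55b, m55, H⟩ := nnS_s (subP_s k_1_1 m53) (e_d2.trans (by ring)) p_d2 H
  have m57 := MS.eq (subP_s m10 m22) (e_t.trans (by ring))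
  obtain ⟨n58a, n58b, m58, H⟩ := mulP_s m44 m46 H
  have m59 := MP.eq m58 e_g
  obtain ⟨n61a, n61b, m61, H⟩ := nnS_s (subP_s k_1_1 v2) e_al p_al H
  obtain ⟨n63a, n63b, m63, H⟩ := nnS_s (subP_s k_1_1 v3) e_be p_be H
  obtain ⟨n65a, n65b, m65, H⟩ := mulP_s k_5_2 m59 H
  obtain ⟨n67a, n67b, m67, H⟩ := mulP_s k_1_2 v1 H
  obtain ⟨n68a, n68b, m68, H⟩ := mulP_s m61 m61 H
  obtain ⟨n69a, n69b, m69, H⟩ := divP_s m14 m51 H
  obtain ⟨n70a, n70b, m70, H⟩ := mulP_s m68 m69 H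
  obtain ⟨n71a, n71b, m71, H⟩ := mulP_s m63 m63 H
  obtain ⟨n72a, n72b, m72, H⟩ := divP_s m13 m55 H
  obtain ⟨n73a, n73b, m73, H⟩ := mulP_s m71 m72 H
  obtain ⟨n74a, n74b, m74, H⟩ := addP_s m70 m73 H
  obtain ⟨n75a, n75b, m75, H⟩ := mulP_s m67 m74 H
  obtain ⟨n76a, n76b, m76, H⟩ := addP_s m65 m75 H
  obtain ⟨n78a, n78b, m78, H⟩ := mulP_s k_5_4 v1 H
  obtain ⟨n79a, n79b, m79, H⟩ := mulP_s m78 m22 H
  obtain ⟨n81a, n81b, m81, H⟩ := nnS_s (subP_s m76 m79) e_em p_em H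
  obtain ⟨n82a, n82b, m82, H⟩ := mulP_s m10 m10 H
  obtain ⟨n83a, n83b, m83, H⟩ := mulN_s (c := (2:ℝ)) (n := 2) (by norm_num) m82 H
  obtain ⟨n84a, n84b, m84, H⟩ := addP_s k_2_1 m83 H
  have m85 := MP.eq m84 e_N0
  obtain ⟨n86a, n86b, m86, H⟩ := mulP_s m21 m85 H
  have m87 := MP.eq m86 e_r0
  obtain ⟨n88a, n88b, m88, H⟩ := mulP_s k_1_3 m81 H
  obtain ⟨n90a, n90b, m90, H⟩ := nnS_s (subP_s m88 m41) e_r1 p_r1 H
  replace H := asm_s (toS_s m87) (toS_s m90) as93 H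
  obtain ⟨n94a, n94b, m94, H⟩ := divP_s k_1_1 m85 H
  have m96 := btwP k_0_1 m94 lo96 hi96
  obtain ⟨n97a, n97b, m97, H⟩ := addP_s m25 m26 H
  obtain ⟨n98a, n98b, m98, H⟩ := mulP_s m7 m12 H
  obtain ⟨n99a, n99b, m99, H⟩ := mulN_s (c := (2:ℝ)) (n := 2) (by norm_num) m98 H
  obtain ⟨n100a, n100b, m100, H⟩ := addP_s m97 m99 H
  obtain ⟨n102a, n102b, m102, H⟩ := mulP_s k_1_8 m100 H
  obtain ⟨n103a, n103b, n103c, n103d, m103, H⟩ := mulS_s m102 m28 H
  obtain ⟨n105a, n105b, m105, H⟩ := mulP_s k_3_2 m10 H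
  obtain ⟨n106a, n106b, n106c, n106d, m106, H⟩ := mulS_s m96 m103 H
  obtain ⟨n108a, n108b, m108, H⟩ := subP_S m105 m106 H
  have m109 := MS.eq m108 e_u0
  obtain ⟨n110a, n110b, m110, H⟩ := mulN_s (c := (2:ℝ)) (n := 2) (by norm_num) v1 H
  obtain ⟨n111a, n111b, n111c, n111d, m111, H⟩ := mulS_s m110 m109 H
  obtain ⟨n112a, n112b, m112, H⟩ := addP_S k_1_1 m111 H
  obtain ⟨n113a, n113b, m113, H⟩ := nnS_s m112 (e_u1.trans (by ring)) p_u1 H
  obtain ⟨n114a, n114b, m114, H⟩ := addP_s k_1_1 m113 H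
  obtain ⟨n115a, n115b, m115, H⟩ := divP_s k_2_1 m114 H
  obtain ⟨n116a, n116b, m116, H⟩ := mulP_s k_1_2 m90 H
  obtain ⟨n117a, n117b, m117, H⟩ := addP_s k_3_2 m116 H
  obtain ⟨n118a, n118b, m118, H⟩ := divP_s m113 m117 H
  obtain ⟨n120a, n120b, m120, H⟩ := posS_s (subP_s k_2_1 m118) H
  have m121 := btwP m115 m120 lo121 hi121
  obtain ⟨n122a, n122b, m122, H⟩ := mulP_s m29 m46 H
  obtain ⟨n123a, n123b, m123, H⟩ := mulP_s m30 m44 H
  obtain ⟨n124a, n124b, m124, H⟩ := addP_s m122 m123 H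
  have m125 := MP.eq m124 e_q
  obtain ⟨n126a, n126b, n126c, n126d, m126, H⟩ := mulS_s m110 m57 H
  obtain ⟨n128a, n128b, m128, H⟩ := subP_S m59 m126 H
  obtain ⟨n129a, n129b, m129, H⟩ := mulP_s k_1_2 m21 H
  obtain ⟨n130a, n130b, m130, H⟩ := mulP_s m129 m125 H
  obtain ⟨n132a, n132b, m132, H⟩ := subS_P m128 m130 H
  have m133 := MS.eq m132 (e_B.trans (by ring))
  obtain ⟨n134a, n134b, m134, H⟩ := mulP_s m59 m121 H
  have m135 := MP.eq m134 e_gθ
  obtain ⟨n136a, n136b, m136, H⟩ := absS_s m57 H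
  obtain ⟨n137a, n137b, m137, H⟩ := mulP_s m136 m136 H
  have m139 := MP.eq (MP.sq m137) e_t2
  obtain ⟨n140a, n140b, m140, H⟩ := mulP_s k_1_2 m24 H
  obtain ⟨n142a, n142b, m142, H⟩ := nnS_s (subP_s k_1_1 m140) e_c2 p_c2 H
  obtain ⟨n144a, n144b, m144, H⟩ := mulN_s (c := (3:ℝ)) (n := 3) (by norm_num) m139 H
  have m146 := MS.eq (subP_s m144 k_3_2) e_e3
  obtain ⟨n147a, n147b, m147, H⟩ := posS_s m146 H
  obtain ⟨n149a, n149b, m149, H⟩ := mulP_s k_14_25 m147 H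
  obtain ⟨n151a, n151b, m151, H⟩ := posS_s (neg_s m146) H
  obtain ⟨n152a, n152b, m152, H⟩ := mulN_s (c := (3:ℝ)) (n := 3) (by norm_num) m151 H
  obtain ⟨n155a, n155b, m155, H⟩ := posS_s (subP_s k_1_1 m24) H
  obtain ⟨n156a, n156b, m156, H⟩ := mulP_s k_1_2 m155 H
  obtain ⟨n158a, n158b, m158, H⟩ := addS_P (subP_s m149 m152) m156 H
  obtain ⟨n159a, n159b, m159, H⟩ := mulP_s m136 m142 H
  obtain ⟨n161a, n161b, m161, H⟩ := absS_s (subP_s v2 v3) H
  obtain ⟨n162a, n162b, m162, H⟩ := mulP_s m159 m161 H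
  obtain ⟨n164a, n164b, m164, H⟩ := addS_P m158 m162 H
  obtain ⟨n165a, n165b, m165, H⟩ := addP_s k_1_1 m142 H
  obtain ⟨n166a, n166b, m166, H⟩ := mulP_s m165 m165 H
  obtain ⟨n167a, n167b, m167, H⟩ := mulP_s m139 m166 H
  obtain ⟨n169a, n169b, m169, H⟩ := subS_P m164 m167 H
  have m170 := MS.eq m169 e_rest
  obtain ⟨n171a, n171b, m171, H⟩ := divP_s m88 m12 H
  obtain ⟨n173a, n173b, m173, H⟩ := addP_s m171 k_3_4 H
  have m174 := MP.eq m173 e_ω
  obtain ⟨n176a, n176b, m176, H⟩ := nnS_s (subP_s k_1_1 v0) e_os p_os H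
  obtain ⟨n179a, n179b, m179, H⟩ := nnS_s (subP_s k_2_3 v2) e_ap p_ap H
  obtain ⟨n181a, n181b, m181, H⟩ := mulN_s (c := (12:ℝ)) (n := 12) (by norm_num) m176 H
  obtain ⟨n182a, n182b, m182, H⟩ := mulP_s m176 m176 H
  obtain ⟨n184a, n184b, m184, H⟩ := mulN_s (c := (6:ℝ)) (n := 6) (by norm_num) m182 H
  obtain ⟨n185a, n185b, m185, H⟩ := addP_s m181 m184 H
  obtain ⟨n187a, n187b, n187c, n187d, m187, H⟩ := mulS_s m179 (subP_s m185 m14) H
  obtain ⟨n189a, n189b, m189, H⟩ := mulP_s k_693_500 m10 H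
  obtain ⟨n191a, n191b, n191c, n191d, m191, H⟩ := mulS_s v3 (subP_s m189 m13) H
  obtain ⟨n192a, n192b, n192c, n192d, m192, H⟩ := addS_s m187 m191 H
  obtain ⟨n193a, n193b, m193, H⟩ := mulP_s k_2_3 m14 H
  obtain ⟨n194a, n194b, m194, H⟩ := addP_s m193 k_1_3 H
  obtain ⟨n196a, n196b, m196, H⟩ := addS_P m192 m194 H
  obtain ⟨n197a, n197b, m197, H⟩ := nnS_s m196 (e_ex.trans (by ring)) p_ex H
  obtain ⟨n198a, n198b, n198c, n198d, m198, H⟩ := mulS_s v1 m28 H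
  obtain ⟨n199a, n199b, m199, H⟩ := addP_S k_1_1 m198 H
  obtain ⟨n200a, n200b, m200, H⟩ := nnS_s m199 (e_v.trans (by ring)) p_v H
  obtain ⟨n202a, n202b, m202, H⟩ := mulP_s k_1_24 m197 H
  obtain ⟨n204a, n204b, m204, H⟩ := addP_s k_1_6 m202 H
  obtain ⟨n205a, n205b, m205, H⟩ := mulP_s m197 m204 H
  obtain ⟨n206a, n206b, m206, H⟩ := addP_s k_1_2 m205 H
  obtain ⟨n207a, n207b, m207, H⟩ := mulP_s m197 m206 H
  obtain ⟨n208a, n208b, m208, H⟩ := addP_s k_1_1 m207 H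
  obtain ⟨n209a, n209b, m209, H⟩ := mulP_s m197 m208 H
  obtain ⟨n210a, n210b, m210, H⟩ := addP_s k_1_1 m209 H
  obtain ⟨n212a, n212b, m212, H⟩ := mulP_s k_1433_2000 m210 H
  obtain ⟨n213a, n213b, m213, H⟩ := mulP_s m212 m200 H
  obtain ⟨n214a, n214b, m214, H⟩ := mulP_s m12 m12 H
  obtain ⟨n215a, n215b, m215, H⟩ := divP_s m213 m214 H
  have m216 := MP.eq m215 e_F
  obtain ⟨n217a, n217b, m217, H⟩ := addP_s k_2_1 m113 H
  obtain ⟨n218a, n218b, m218, H⟩ := divP_s k_3_1 m217 H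
  have m219 := MP.eq m218 e_iu
  obtain ⟨n220a, n220b, m220, H⟩ := mulP_s m90 m219 H
  have m221 := MP.eq m220 e_T1
  obtain ⟨n223a, n223b, m223, H⟩ := mulP_s k_32_9 m216 H
  obtain ⟨n224a, n224b, m224, H⟩ := mulP_s m223 m219 H
  have m225 := MP.eq m224 e_G
  obtain ⟨n226a, n226b, m226, H⟩ := mulP_s v0 v1 H
  obtain ⟨n227a, n227b, m227, H⟩ := mulP_s k_1_2 m226 H
  obtain ⟨n228a, n228b, m228, H⟩ := mulP_s m227 m147 H
  have m229 := MP.eq m228 e_W
  obtain ⟨n230a, n230b, m230, H⟩ := addP_s m90 m41 H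
  obtain ⟨n231a, n231b, m231, H⟩ := mulN_s (c := (3:ℝ)) (n := 3) (by norm_num) m230 H
  obtain ⟨n232a, n232b, m232, H⟩ := mulP_s m135 m90 H
  obtain ⟨n234a, n234b, m234, H⟩ := subS_P m133 m232 H
  obtain ⟨n235a, n235b, m235, H⟩ := absS_s m234 H
  obtain ⟨n236a, n236b, m236, H⟩ := mulP_s m235 m235 H
  obtain ⟨n238a, n238b, m238, H⟩ := mulP_s m231 m59 H
  obtain ⟨n239a, n239b, m239, H⟩ := addP_s (MP.sq m236) m238 H
  obtain ⟨n240a, n240b, n240c, n240d, m240, H⟩ := mulS_s m21 m170 H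
  obtain ⟨n242a, n242b, m242, H⟩ := addP_S m239 m240 H
  obtain ⟨n243a, n243b, n243c, n243d, m243, H⟩ := mulS_s m5 m242 H
  obtain ⟨n244a, n244b, m244, H⟩ := mulP_s m12 m174 H
  obtain ⟨n245a, n245b, m245, H⟩ := divP_s m231 m244 H
  obtain ⟨n246a, n246b, m246, H⟩ := addP_s m245 m174 H
  obtain ⟨n247a, n247b, m247, H⟩ := mulP_s m229 m246 H
  obtain ⟨n249a, n249b, m249, H⟩ := addS_P m243 m247 H
  obtain ⟨n250a, n250b, m250, H⟩ := mulP_s k_1_24 m221 H
  obtain ⟨n251a, n251b, m251, H⟩ := addP_s k_1_6 m250 H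
  obtain ⟨n252a, n252b, m252, H⟩ := mulP_s m221 m251 H
  obtain ⟨n253a, n253b, m253, H⟩ := addP_s k_1_2 m252 H
  obtain ⟨n254a, n254b, m254, H⟩ := mulP_s m221 m253 H
  obtain ⟨n255a, n255b, m255, H⟩ := addP_s k_1_1 m254 H
  obtain ⟨n256a, n256b, m256, H⟩ := mulP_s m225 m255 H
  obtain ⟨g258, H⟩ := gol_s m249 (toS_s m256) H
  obtain ⟨n259a, n259b, m259, H⟩ := addP_s m87 m41 H
  obtain ⟨n260a, n260b, m260, H⟩ := mulN_s (c := (3:ℝ)) (n := 3) (by norm_num) m259 H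
  obtain ⟨n261a, n261b, m261, H⟩ := mulP_s m135 m87 H
  obtain ⟨n263a, n263b, m263, H⟩ := subS_P m133 m261 H
  obtain ⟨n264a, n264b, m264, H⟩ := absS_s m263 H
  obtain ⟨n265a, n265b, m265, H⟩ := mulP_s m264 m264 H
  obtain ⟨n267a, n267b, m267, H⟩ := mulP_s m260 m59 H
  obtain ⟨n268a, n268b, m268, H⟩ := addP_s (MP.sq m265) m267 H
  obtain ⟨n270a, n270b, m270, H⟩ := addP_S m268 m240 H
  obtain ⟨n271a, n271b, n271c, n271d, m271, H⟩ := mulS_s m5 m270 H
  obtain ⟨n272a, n272b, m272, H⟩ := divP_s m260 m244 H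
  obtain ⟨n273a, n273b, m273, H⟩ := addP_s m272 m174 H
  obtain ⟨n274a, n274b, m274, H⟩ := mulP_s m229 m273 H
  obtain ⟨n276a, n276b, m276, H⟩ := addS_P m271 m274 H
  obtain ⟨n277a, n277b, m277, H⟩ := mulP_s m221 m221 H
  obtain ⟨n278a, n278b, m278, H⟩ := mulP_s k_1_12 m221 H
  obtain ⟨n279a, n279b, m279, H⟩ := addP_s k_1_6 m278 H
  obtain ⟨n280a, n280b, m280, H⟩ := mulP_s m277 m279 H
  obtain ⟨n282a, n282b, m282, H⟩ := mulP_s m87 m219 H
  obtain ⟨n283a, n283b, m283, H⟩ := mulP_s k_1_8 m221 H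
  obtain ⟨n284a, n284b, m284, H⟩ := addP_s k_1_3 m283 H
  obtain ⟨n285a, n285b, m285, H⟩ := mulP_s m221 m284 H
  obtain ⟨n286a, n286b, m286, H⟩ := addP_s k_1_2 m285 H
  obtain ⟨n287a, n287b, m287, H⟩ := mulP_s m282 m286 H
  obtain ⟨n289a, n289b, m289, H⟩ := addS_P (subP_s k_1_1 m280) m287 H
  obtain ⟨n290a, n290b, n290c, n290d, m290, H⟩ := mulS_s m225 m289 H
  obtain ⟨g291, H⟩ := gol_s m276 m290 H
  exact ⟨g258, g291⟩

end Pool.Agent.Lib.MP_3e0ca7_an
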