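import Pool.Agent.Lib.MP_3e0ca7_an.Iv

/-! Enclosures of the constants. -/

namespace Pool.Agent.Lib.MP_3e0ca7_an

set_option maxRecDepth 100000
set_option linter.unusedVariables false

theorem k_0_1 : MP 0 0 (0:ℝ) := by norm_num [MP]
theorem k_1_720 : MP 138888 138889 (1/720:ℝ) := by norm_num [MP]
theorem k_1_120 : MP 833333 833334 (1/120:ℝ) := by norm_num [MP]
theorem k_1_40 : MP 2500000 2500000 (1/40:ℝ) := by norm_num [MP]
theorem k_1_24 : MP 4166666 4166667 (1/24:ℝ) := by norm_num [MP]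
theorem k_1_12 : MP 8333333 8333334 (1/12:ℝ) := by norm_num [MP]
theorem k_1_8 : MP 12500000 12500000 (1/8:ℝ) := by norm_num [MP]
theorem k_1_6 : MP 16666666 16666667 (1/6:ℝ) := by norm_num [MP]
theorem k_1_4 : MP 25000000 25000000 (1/4:ℝ) := by norm_num [MP]
theorem k_1_3 : MP 33333333 33333334 (1/3:ℝ) := by norm_num [MP]
theorem k_1_2 : MP 50000000 50000000 (1/2:ℝ) := by norm_num [MP]
theorem k_14_25 : MP 56000000 56000000 (14/25:ℝ) := by norm_num [MP]
theorem k_2_3 : MP 66666666 66666667 (2/3:ℝ) := by norm_num [MP]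
theorem k_693_1000 : MP 69300000 69300000 (693/1000:ℝ) := by norm_num [MP]
theorem k_7_10 : MP 70000000 70000000 (7/10:ℝ) := by norm_num [MP]
theorem k_1433_2000 : MP 71650000 71650000 (1433/2000:ℝ) := by norm_num [MP]
theorem k_3_4 : MP 75000000 75000000 (3/4:ℝ) := by norm_num [MP]
theorem k_4_5 : MP 80000000 80000000 (4/5:ℝ) := by norm_num [MP]
theorem k_24_25 : MP 96000000 96000000 (24/25:ℝ) := by norm_num [MP]
theorem k_1_1 : MP 100000000 100000000 (1:ℝ) := by norm_num [MP]
theorem k_6_5 : MP 120000000 120000000 (6/5:ℝ) := by norm_num [MP]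
theorem k_5_4 : MP 125000000 125000000 (5/4:ℝ) := by norm_num [MP]
theorem k_693_500 : MP 138600000 138600000 (693/500:ℝ) := by norm_num [MP]
theorem k_3_2 : MP 150000000 150000000 (3/2:ℝ) := by norm_num [MP]
theorem k_2_1 : MP 200000000 200000000 (2:ℝ) := by norm_num [MP]
theorem k_5_2 : MP 250000000 250000000 (5/2:ℝ) := by norm_num [MP]
theorem k_27_10 : MP 270000000 270000000 (27/10:ℝ) := by norm_num [MP]
theorem k_3_1 : MP 300000000 300000000 (3:ℝ) := by norm_num [MP]
theorem k_32_9 : MP 355555555 355555556 (32/9:ℝ) := by norm_num [MP]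
theorem k_4_1 : MP 400000000 400000000 (4:ℝ) := by norm_num [MP]
theorem k_6_1 : MP 600000000 600000000 (6:ℝ) := by norm_num [MP]

end Pool.Agent.Lib.MP_3e0ca7_an
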