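import Mathlib

/-! Elementary inequalities for finite families. -/

namespace Pool.Agent.Lib.MP_3e0ca7_an

open Finset Real

theorem pade {u : ℝ} (hu : -1 < u) : log (1 + u) ≤ u - 3 * u ^ 2 / (6 + 4 * u) := by
  let f : ℝ → ℝ := fun x => x - 3 * x ^ 2 / (6 + 4 * x) - log (1 + x)
  have hd : ∀ x, -1 < x → HasDerivAt f (x ^ 3 / ((3 + 2 * x) ^ 2 * (1 + x))) x := by
    intro x hx
    have h1 : 6 + 4 * x ≠ 0 := by linarith
    have h2 : 1 + x ≠ 0 := by linarith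
    have h3 : 3 + 2 * x ≠ 0 := by linarith
    have d1 : HasDerivAt (fun x : ℝ => 3 * x ^ 2) (3 * (2 * x)) x := by
      simpa using (hasDerivAt_pow 2 x).const_mul 3
    have d2 : HasDerivAt (fun x : ℝ => 6 + 4 * x) 4 x := by
      simpa using ((hasDerivAt_id x).const_mul 4).const_add 6
    have d3 : HasDerivAt (fun x : ℝ => 1 + x) 1 x := (hasDerivAt_id x).const_add 1
    refine (((hasDerivAt_id x).sub (d1.div d2 h1)).sub (d3.log h2)).congr_deriv ?_
    have : 6 + 4 * x = 2 * (3 + 2 * x) := by ring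
    rw [this]
    field_simp; ring
  have h0 : f 0 = 0 := by simp [f]
  have key : 0 ≤ f u := by
    rcases lt_trichotomy u 0 with h | h | h
    · obtain ⟨c, hc, e⟩ := exists_hasDerivAt_eq_slope f _ h
        (fun x hx => (hd x (by linarith [hx.1])).continuousAt.continuousWithinAt)
        (fun x hx => hd x (by linarith [hx.1]))
      have h1 : 0 < 1 + c := by linarith [hc.1]
      have h2 : c ^ 3 / ((3 + 2 * c) ^ 2 * (1 + c)) ≤ 0 :=
        div_nonpos_of_nonpos_of_nonneg (Odd.pow_nonpos (by decide) hc.2.le) (by positivity)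
      rw [e, h0, div_nonpos_iff] at h2
      rcases h2 with h2 | h2 <;> linarith [h2.1, h2.2]
    · rw [h, h0]
    · obtain ⟨c, hc, e⟩ := exists_hasDerivAt_eq_slope f _ h
        (fun x hx => (hd x (by linarith [hx.1])).continuousAt.continuousWithinAt)
        (fun x hx => hd x (by linarith [hx.1]))
      have h1 : 0 < c := hc.1
      have h2 : 0 ≤ c ^ 3 / ((3 + 2 * c) ^ 2 * (1 + c)) := by positivity
      rw [e, h0, div_nonneg_iff] at h2
      rcases h2 with h2 | h2 <;> linarith [h2.1, h2.2]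
  simp only [f] at key
  linarith

theorem inv_tan {A : ℝ} (hA : 0 < A) (m : ℝ) : 2 * m - m ^ 2 * A ≤ 1 / A := by
  rw [le_div_iff₀ hA]; nlinarith [sq_nonneg (m * A - 1)]

variable {ι : Type*} {s : Finset ι} {u : ι → ℝ} {r w : ℝ}

theorem ubar_lo (hu : ∀ i ∈ s, -1 / 2 ≤ u i) (hr : ∑ i ∈ s, u i ^ 2 = r) (hw : ∑ i ∈ s, u i ^ 3 = w * r)
    (h0 : 0 < r) : 0 ≤ 1 + 2 * w := by
  have : 0 ≤ ∑ i ∈ s, (u i ^ 2 + 2 * u i ^ 3) :=
    sum_nonneg fun i hi => by nlinarith [mul_nonneg (sq_nonneg (u i)) (show 0 ≤ 1 + 2 * u i by linarith [hu i hi])]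
  rw [sum_add_distrib, ← mul_sum, hr, hw] at this
  nlinarith

theorem titu (hu : ∀ i ∈ s, -1 / 2 ≤ u i) (hr : ∑ i ∈ s, u i ^ 2 = r) (hw : ∑ i ∈ s, u i ^ 3 = w * r)
    {k : ℝ} (hk : 0 ≤ k) (hk1 : k ≤ 1) (h0 : 0 ≤ 1 + 2 * w) :
    r / (1 + k * w) ≤ ∑ i ∈ s, u i ^ 2 / (1 + k * u i) := by
  have h1 : 0 < 1 + k * w := by nlinarith
  have h2 : ∑ i ∈ s, (2 * (1 / (1 + k * w)) * u i ^ 2 - (1 / (1 + k * w)) ^ 2 * (u i ^ 2 + k * u i ^ 3)) ≤
      ∑ i ∈ s, u i ^ 2 / (1 + k * u i) := by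
    refine sum_le_sum fun i hi => ?_
    have h3 : 0 < 1 + k * u i := by nlinarith [hu i hi]
    have := mul_le_mul_of_nonneg_left (inv_tan h3 (1 / (1 + k * w))) (sq_nonneg (u i))
    rw [mul_one_div (u i ^ 2)] at this
    linarith
  simp only [sum_sub_distrib, sum_add_distrib, ← mul_sum, hr, hw] at h2
  refine le_trans (le_of_eq ?_) h2
  field_simp; ring

theorem theta_lo (hu : ∀ i ∈ s, -1 / 2 ≤ u i) (hr : ∑ i ∈ s, u i ^ 2 = r)
    (hw : ∑ i ∈ s, u i ^ 3 = w * r) (h0 : 0 ≤ 1 + 2 * w) :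
    r / (1 + w) ≤ ∑ i ∈ s, u i ^ 2 / (1 + u i) := by
  simpa using titu hu hr hw zero_le_one le_rfl h0

theorem theta_hi (hu : ∀ i ∈ s, -1 / 2 ≤ u i) (hr : ∑ i ∈ s, u i ^ 2 = r)
    (hw : ∑ i ∈ s, u i ^ 3 = w * r) {U : ℝ} (hU : 0 ≤ U) (hU' : ∀ i ∈ s, u i ≤ U) :
    ∑ i ∈ s, u i ^ 2 / (1 + u i) ≤ r * (2 - (1 + 2 * w) / (1 + U)) := by
  have h2 : ∑ i ∈ s, u i ^ 2 / (1 + u i) ≤
      ∑ i ∈ s, (2 * u i ^ 2 - 1 / (1 + U) * (u i ^ 2 + 2 * u i ^ 3)) := by
    refine sum_le_sum fun i hi => ?_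
    have h3 : 0 < 1 + u i := by linarith [hu i hi]
    have h4 : 1 / (1 + u i) ≤ 2 - (1 + 2 * u i) / (1 + U) := by
      rw [le_sub_iff_add_le, div_add_div _ _ h3.ne' (by positivity), div_le_iff₀ (by positivity)]
      nlinarith [mul_nonneg (show 0 ≤ 1 + 2 * u i by linarith [hu i hi])
        (show 0 ≤ U - u i by linarith [hU' i hi])]
    have := mul_le_mul_of_nonneg_left h4 (sq_nonneg (u i))
    rw [mul_one_div] at this
    refine this.trans (le_of_eq ?_)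
    ring
  simp only [sum_sub_distrib, sum_add_distrib, ← mul_sum, hr, hw] at h2
  refine h2.trans (le_of_eq ?_)
  ring

theorem theta_hi0 (hu : ∀ i ∈ s, 0 ≤ u i) (hr : ∑ i ∈ s, u i ^ 2 = r)
    (hw : ∑ i ∈ s, u i ^ 3 = w * r) {U : ℝ} (hU : 0 ≤ U) (hU' : ∀ i ∈ s, u i ≤ U) :
    ∑ i ∈ s, u i ^ 2 / (1 + u i) ≤ r * (1 - w / (1 + U)) := by
  have h2 : ∑ i ∈ s, u i ^ 2 / (1 + u i) ≤ ∑ i ∈ s, (u i ^ 2 - 1 / (1 + U) * u i ^ 3) := by
    refine sum_le_sum fun i hi => ?_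
    have h3 : 0 < 1 + u i := by linarith [hu i hi]
    have h4 : 1 / (1 + u i) ≤ 1 - u i / (1 + U) := by
      rw [le_sub_iff_add_le, div_add_div _ _ h3.ne' (by positivity), div_le_iff₀ (by positivity)]
      nlinarith [mul_nonneg (hu i hi) (show 0 ≤ U - u i by linarith [hU' i hi])]
    have := mul_le_mul_of_nonneg_left h4 (sq_nonneg (u i))
    rw [mul_one_div] at this
    refine this.trans (le_of_eq ?_)
    ring
  simp only [sum_sub_distrib, ← mul_sum, hr, hw] at h2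
  refine h2.trans (le_of_eq ?_)
  ring

theorem prod_exp (hu : ∀ i ∈ s, -1 / 2 ≤ u i) (hr : ∑ i ∈ s, u i ^ 2 = r)
    (hw : ∑ i ∈ s, u i ^ 3 = w * r) (h0 : 0 ≤ 1 + 2 * w) :
    exp (r * (3 / (3 + 2 * w)) - 2 * ∑ i ∈ s, u i) ≤ 1 / (∏ i ∈ s, (1 + u i)) ^ 2 := by
  have hp : ∀ i ∈ s, 0 < 1 + u i := fun i hi => by linarith [hu i hi]
  have h1 : 0 < ∏ i ∈ s, (1 + u i) := prod_pos hp
  have h2 := titu hu hr hw (k := 2 / 3) (by norm_num) (by norm_num) h0
  have h3 : 2 * log (∏ i ∈ s, (1 + u i)) ≤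
      2 * ∑ i ∈ s, u i - ∑ i ∈ s, u i ^ 2 / (1 + 2 / 3 * u i) := by
    rw [log_prod (fun i hi => (hp i hi).ne'), mul_sum, mul_sum, ← sum_sub_distrib]
    refine sum_le_sum fun i hi => ?_
    have h4 := pade (u := u i) (by linarith [hu i hi])
    have h5 : 0 < 3 + 2 * u i := by linarith [hu i hi]
    have e : u i ^ 2 / (1 + 2 / 3 * u i) = 2 * (3 * u i ^ 2 / (6 + 4 * u i)) := by
      have : 6 + 4 * u i = 2 * (3 + 2 * u i) := by ring
      rw [this]
      field_simp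
    linarith
  have e : r / (1 + 2 / 3 * w) = r * (3 / (3 + 2 * w)) := by
    have : 0 < 3 + 2 * w := by linarith
    field_simp
  rw [← exp_log (show 0 < 1 / (∏ i ∈ s, (1 + u i)) ^ 2 by positivity), exp_le_exp, one_div, log_inv,
    log_pow]
  push_cast
  linarith

theorem one_add_sum_le (hu : ∀ i ∈ s, 0 ≤ u i) : 1 + ∑ i ∈ s, u i ≤ ∏ i ∈ s, (1 + u i) := by
  classical
  induction s using Finset.induction_on with
  | empty => simp
  | insert j s hj ih =>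
    rw [sum_insert hj, prod_insert hj]
    have h1 := ih fun i hi => hu i (mem_insert_of_mem hi)
    have h2 := hu j (mem_insert_self _ _)
    have h3 : 0 ≤ ∑ i ∈ s, u i := sum_nonneg fun i hi => hu i (mem_insert_of_mem hi)
    nlinarith [mul_nonneg h2 h3]

theorem one_sub_sum_le (hu : ∀ i ∈ s, 0 ≤ u i) (h1 : ∑ i ∈ s, u i ≤ 1) :
    1 - ∑ i ∈ s, u i ≤ ∏ i ∈ s, (1 - u i) := by
  classical
  induction s using Finset.induction_on with
  | empty => simp
  | insert j s hj ih =>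
    rw [sum_insert hj] at h1
    rw [sum_insert hj, prod_insert hj]
    have h2 := hu j (mem_insert_self _ _)
    have h3 : 0 ≤ ∑ i ∈ s, u i := sum_nonneg fun i hi => hu i (mem_insert_of_mem hi)
    have h4 := ih (fun i hi => hu i (mem_insert_of_mem hi)) (by linarith)
    nlinarith [mul_nonneg h2 h3, mul_le_mul_of_nonneg_left h4 (show 0 ≤ 1 - u j by linarith)]

theorem prod_le_exp (hu : ∀ i ∈ s, 0 ≤ u i) : ∏ i ∈ s, (1 + u i) ≤ exp (∑ i ∈ s, u i) := by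
  rw [exp_sum]
  exact prod_le_prod (fun i hi => by linarith [hu i hi]) fun i _ => by linarith [add_one_le_exp (u i)]

theorem exp_T4 {x : ℝ} (hx : 0 ≤ x) :
    1 + x * (1 + x * (1 / 2 + x * (1 / 6 + 1 / 24 * x))) ≤ exp x := by
  have := sum_le_exp_of_nonneg hx 5
  simp only [sum_range_succ, range_zero, sum_empty, Nat.factorial] at this
  norm_num at this
  linarith

theorem exp_T6 {x : ℝ} (hx : 0 ≤ x) :
    1 + x + x * x * (1 / 2 + x * (1 / 6 + x * (1 / 24 + x * (1 / 120 + 1 / 720 * x)))) ≤ exp x := by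
  have := sum_le_exp_of_nonneg hx 7
  simp only [sum_range_succ, range_zero, sum_empty, Nat.factorial] at this
  norm_num at this
  linarith

theorem exp_third : (7165 / 10000 : ℝ) ≤ exp (-(1 / 3)) := by
  by_contra h
  have h1 := pow_lt_pow_left₀ (not_le.mp h) (exp_pos _).le (n := 3) (by norm_num)
  rw [← exp_nat_mul] at h1
  have := exp_neg_one_gt_d9
  norm_num at h1 this
  linarith

theorem log_two_mul_le {x : ℝ} (h0 : 0 ≤ x) (h1 : x ≤ 1) : 693 / 1000 * x ≤ log (1 + x) := by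
  have h2 := rpow_one_add_le_one_add_mul_self (s := 1) (by norm_num) h0 h1
  have h3 := log_le_log (by positivity) h2
  rw [log_rpow (by norm_num), mul_one] at h3
  have h4 := log_two_gt_d9
  norm_num at h3 h4
  nlinarith

theorem neg_log_ge {x : ℝ} (h0 : 0 < x) (h1 : x ≤ 1) : (1 - x) + (1 - x) ^ 2 / 2 ≤ -log x := by
  have h2 := pade (u := x - 1) (by linarith)
  rw [add_sub_cancel] at h2
  have h3 : (1 - x) ^ 2 / 2 ≤ 3 * (x - 1) ^ 2 / (6 + 4 * (x - 1)) := by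
    rw [div_le_div_iff₀ (by norm_num) (by linarith)]
    nlinarith [mul_nonneg (sq_nonneg (1 - x)) (show 0 ≤ 1 - x by linarith)]
  linarith

/-- `(1 - y) e^y ≤ 1 - y^2 g(y)` -/
theorem one_sub_mul_exp {y : ℝ} (h0 : 0 ≤ y) (h1 : y ≤ 2 / 3) :
    (1 - y) * exp y ≤ 1 - y * y * (1 / 2 + y * (1 / 3 + y * (1 / 8 + 1 / 40 * y))) := by
  have h2 := exp_bound' h0 (by linarith) (n := 6) (by norm_num)
  simp only [sum_range_succ, range_zero, sum_empty, Nat.factorial] at h2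
  norm_num at h2
  have h3 := mul_le_mul_of_nonneg_left h2 (show 0 ≤ 1 - y by linarith)
  nlinarith [pow_nonneg h0 5, pow_nonneg h0 6, pow_nonneg h0 7]

end Pool.Agent.Lib.MP_3e0ca7_an
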