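import Pool.Agent.Lib.MP_3e0ca7_an.Nodes

/-! The Jacobi weight: Pearson identity, positivity, lower bounds. -/

namespace Pool.Agent.Lib.MP_3e0ca7_an

open Polynomial Real MeasureTheory Set intervalIntegral

noncomputable def wt (a b t : ℝ) : ℝ := (1 - t) ^ (a - 1) * (1 + t) ^ (b - 1)

theorem int_left {a : ℝ} (ha : 0 < a) :
    IntervalIntegrable (fun t : ℝ => (1 - t) ^ (a - 1)) volume (-1) 1 := by
  have := (intervalIntegrable_rpow' (a := 2) (b := 0) (r := a - 1) (by linarith)).comp_sub_left 1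
  norm_num at this ⊢
  exact this

theorem int_right {b : ℝ} (hb : 0 < b) :
    IntervalIntegrable (fun t : ℝ => (1 + t) ^ (b - 1)) volume (-1) 1 := by
  have := (intervalIntegrable_rpow' (a := 0) (b := 2) (r := b - 1) (by linarith)).comp_add_left 1
  norm_num at this ⊢
  exact this

theorem int_wt {a b : ℝ} (ha : 0 < a) (hb : 0 < b) (f : ℝ[X]) :
    IntervalIntegrable (fun t : ℝ => f.eval t * wt a b t) volume (-1) 1 := by
  have h1 : IntervalIntegrable (fun t : ℝ => wt a b t) volume (-1) 0 := by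
    refine ((int_right hb).mono_set ?_).continuousOn_mul ?_
    · rw [uIcc_of_le (by norm_num), uIcc_of_le (by norm_num)]
      exact Icc_subset_Icc le_rfl (by norm_num)
    · rw [uIcc_of_le (by norm_num)]
      exact ContinuousOn.rpow_const (by fun_prop) fun x hx => Or.inl (by linarith [hx.2])
  have h2 : IntervalIntegrable (fun t : ℝ => wt a b t) volume 0 1 := by
    refine ((int_left ha).mono_set ?_).mul_continuousOn ?_
    · rw [uIcc_of_le (by norm_num), uIcc_of_le (by norm_num)]
      exact Icc_subset_Icc (by norm_num) le_rfl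
    · rw [uIcc_of_le (by norm_num)]
      exact ContinuousOn.rpow_const (by fun_prop) fun x hx => Or.inl (by linarith [hx.1])
  exact (h1.trans h2).continuousOn_mul f.continuous.continuousOn

noncomputable def IJ {a b : ℝ} (ha : 0 < a) (hb : 0 < b) : ℝ[X] →ₗ[ℝ] ℝ where
  toFun f := ∫ t in (-1 : ℝ)..1, f.eval t * wt a b t
  map_add' f g := by
    rw [← integral_add (int_wt ha hb f) (int_wt ha hb g)]
    simp only [eval_add, add_mul]
  map_smul' c f := by
    simp only [eval_smul, smul_eq_mul, RingHom.id_apply, mul_assoc,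
      intervalIntegral.integral_const_mul]

theorem IJ_apply {a b : ℝ} (ha : 0 < a) (hb : 0 < b) (f : ℝ[X]) :
    IJ ha hb f = ∫ t in (-1 : ℝ)..1, f.eval t * wt a b t := rfl

theorem wt_pos (a b : ℝ) {t : ℝ} (h1 : -1 < t) (h2 : t < 1) : 0 < wt a b t :=
  mul_pos (rpow_pos_of_pos (by linarith) _) (rpow_pos_of_pos (by linarith) _)

theorem wt_nonneg (a b : ℝ) {t : ℝ} (h1 : -1 ≤ t) (h2 : t ≤ 1) : 0 ≤ wt a b t :=
  mul_nonneg (rpow_nonneg (by linarith) _) (rpow_nonneg (by linarith) _)

theorem IJ_PF {a b : ℝ} (ha : 0 < a) (hb : 0 < b) : PF a b (IJ ha hb) := by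
  refine ⟨fun f => ?_, fun f hf h0 => ?_⟩
  · rw [IJ_apply, integral_eq_sub_of_hasDerivAt_of_le (by norm_num)
      (f := fun t => (1 - t) ^ a * (1 + t) ^ b * f.eval t) ?_ ?_ (int_wt ha hb _)]
    · simp [ha.ne', hb.ne']
    · refine ((ContinuousOn.rpow_const (by fun_prop) fun _ _ => Or.inr ha.le).mul
        (ContinuousOn.rpow_const (by fun_prop) fun _ _ => Or.inr hb.le)).mul
        f.continuous.continuousOn
    · intro t ht
      have p1 : 0 < 1 - t := by linarith [ht.2]
      have p2 : 0 < 1 + t := by linarith [ht.1]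
      have d1 := ((hasDerivAt_id t).const_sub 1).rpow_const (p := a) (Or.inl p1.ne')
      have d2 := ((hasDerivAt_id t).const_add 1).rpow_const (p := b) (Or.inl p2.ne')
      refine ((d1.mul d2).mul (f.hasDerivAt t)).congr_deriv ?_
      have e1 : (1 - t) ^ a = (1 - t) ^ (a - 1) * (1 - t) := by
        rw [rpow_sub_one p1.ne']; field_simp
      have e2 : (1 + t) ^ b = (1 + t) ^ (b - 1) * (1 + t) := by
        rw [rpow_sub_one p2.ne']; field_simp
      simp only [id, Pi.mul_apply, wt, eval_sub, eval_mul, eval_Dp, eval_bp]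
      rw [e1, e2]; ring
  · rw [IJ_apply, integral_pos_iff_support_of_nonneg_ae' ?_ (int_wt ha hb f)]
    · refine ⟨by norm_num, ?_⟩
      have h1 : Ioo (-1 : ℝ) 1 \ (f.roots.toFinset : Set ℝ) ⊆
          Function.support (fun t => f.eval t * wt a b t) ∩ Ioc (-1) 1 := by
        intro t ht
        refine ⟨mul_ne_zero (fun h => ht.2 ?_) (wt_pos a b ht.1.1 ht.1.2).ne', ht.1.1, ht.1.2.le⟩
        simpa [hf] using h
      refine lt_of_lt_of_le ?_ (measure_mono h1)
      rw [measure_sdiff_null (Finset.measure_zero _ _)]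
      simp
    · rw [uIoc_of_le (by norm_num)]
      refine (ae_restrict_iff' measurableSet_Ioc).mpr (Filter.Eventually.of_forall fun t ht => ?_)
      exact mul_nonneg (h0 t ⟨ht.1.le, ht.2⟩) (wt_nonneg a b ht.1.le ht.2)

theorem IJ_refl {a b : ℝ} (ha : 0 < a) (hb : 0 < b) (f : ℝ[X]) :
    IJ hb ha f = IJ ha hb (f.comp (-X)) := by
  rw [IJ_apply, IJ_apply]
  have := intervalIntegral.integral_comp_neg (a := -1) (b := 1) (fun t => f.eval t * wt b a t)
  simp only [neg_neg] at this
  rw [← this]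
  congr 1
  ext t
  simp [wt, eval_comp, mul_comm, sub_eq_add_neg]

theorem Quad.refl {a b : ℝ} (ha : 0 < a) (hb : 0 < b) {n : ℕ} {τ σ : Fin n → ℝ}
    (h : Quad a b (IJ ha hb) n τ σ) : Quad b a (IJ hb ha) n (fun i => -τ i) σ := by
  refine ⟨IJ_PF hb ha, fun i j e => h.inj (neg_injective e), fun f hf => ?_⟩
  rw [IJ_refl ha hb, h.quad]
  · simp [eval_comp]
  · rwa [degree_comp_neg_X]

theorem mu_lo {a b : ℝ} (ha : 0 < a) (hb : 0 < b) (ha1 : a ≤ 1) (hb1 : b ≤ 1) :
    2 ^ (a + b - 1) * (a + b - a * b) / (a * b) ≤ IJ ha hb 1 := by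
  have i1 : ∫ t in (-1 : ℝ)..1, (1 - t) ^ (a - 1) = 2 ^ a / a := by
    rw [intervalIntegral.integral_comp_sub_left (fun t => t ^ (a - 1)), integral_rpow (Or.inl (by linarith))]
    norm_num [ha.ne']
  have i2 : ∫ t in (-1 : ℝ)..1, (1 + t) ^ (b - 1) = 2 ^ b / b := by
    rw [intervalIntegral.integral_comp_add_left (fun t => t ^ (b - 1)), integral_rpow (Or.inl (by linarith))]
    norm_num [hb.ne']
  have j1 := (int_left ha).const_mul ((2 : ℝ) ^ (b - 1))
  have j2 := (int_right hb).const_mul ((2 : ℝ) ^ (a - 1))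
  have h := integral_mono_on_of_le_Ioo (by norm_num)
    ((j1.add j2).sub (intervalIntegrable_const (c := (2 : ℝ) ^ (a - 1) * 2 ^ (b - 1))))
    (int_wt ha hb 1) fun t ht => by
      have u1 : (2 : ℝ) ^ (a - 1) ≤ (1 - t) ^ (a - 1) :=
        rpow_le_rpow_of_nonpos (by linarith [ht.2]) (by linarith [ht.1]) (by linarith)
      have u2 : (2 : ℝ) ^ (b - 1) ≤ (1 + t) ^ (b - 1) :=
        rpow_le_rpow_of_nonpos (by linarith [ht.1]) (by linarith [ht.2]) (by linarith)
      simp only [wt, eval_one]
      nlinarith [mul_nonneg (sub_nonneg.mpr u1) (sub_nonneg.mpr u2)]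
  rw [integral_sub (j1.add j2) intervalIntegrable_const, integral_add j1 j2,
    intervalIntegral.integral_const_mul, intervalIntegral.integral_const_mul, i1, i2] at h
  refine le_trans (le_of_eq ?_) h
  rw [rpow_sub_one two_ne_zero, rpow_sub_one two_ne_zero, rpow_sub_one two_ne_zero,
    rpow_add two_pos]
  simp only [intervalIntegral.integral_const, smul_eq_mul]
  field_simp; ring

theorem amgm {P Q m : ℝ} (hP : 0 ≤ P) (hQ : 0 ≤ Q) (h : m ^ 2 ≤ P * Q) : 2 * m ≤ P + Q := by
  by_contra h'
  have h1 : 0 < 2 * m - (P + Q) := by linarith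
  nlinarith [mul_pos h1 (show 0 < 2 * m + (P + Q) by linarith), sq_nonneg (P - Q)]

theorem rpow_sym {X y e : ℝ} (h1 : 0 < X - y) (h2 : 0 < X + y) (he : e ≤ 0) :
    X ^ e * X ^ e ≤ (X - y) ^ e * (X + y) ^ e := by
  rw [← mul_rpow (by linarith) (by linarith), ← mul_rpow h1.le h2.le]
  exact rpow_le_rpow_of_nonpos (mul_pos h1 h2) (by nlinarith [sq_nonneg y]) he

theorem loc_lo {a b : ℝ} (ha : 0 < a) (hb : 0 < b) (ha1 : a ≤ 1) (hb1 : b ≤ 1) (f : ℝ[X])
    {x r : ℝ} (hr : 0 < r) (h1 : -1 < x - r) (h2 : x + r < 1)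
    (hf : ∀ y, -r ≤ y → y ≤ r → 1 - y ^ 2 / r ^ 2 ≤ f.eval (x + y) * f.eval (x - y)) :
    4 / 3 * r * wt a b x ≤ IJ ha hb (f * f) := by
  set F : ℝ → ℝ := fun t => (f * f).eval t * wt a b t with hF
  have k0 : IntervalIntegrable F volume (x - r) (x + r) := by
    refine (int_wt ha hb _).mono_set ?_
    rw [uIcc_of_le (by linarith), uIcc_of_le (by norm_num)]
    exact Icc_subset_Icc h1.le h2.le
  have k1 : ∫ t in (x - r)..(x + r), F t ≤ IJ ha hb (f * f) := by
    refine integral_mono_interval h1.le (by linarith) h2.le ?_ (int_wt ha hb _)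
    refine (ae_restrict_iff' measurableSet_Ioc).mpr (Filter.Eventually.of_forall fun t ht => ?_)
    refine mul_nonneg ?_ (wt_nonneg a b ht.1.le ht.2)
    rw [eval_mul]; exact mul_self_nonneg _
  have k2 : ∫ y in (-r)..r, F (x + y) = ∫ t in (x - r)..(x + r), F t := by
    rw [intervalIntegral.integral_comp_add_left F x, sub_eq_add_neg]
  have k3 : ∫ y in (-r)..r, F (x - y) = ∫ t in (x - r)..(x + r), F t := by
    rw [intervalIntegral.integral_comp_sub_left F x, sub_neg_eq_add]
  have k4 : IntervalIntegrable (fun y => F (x + y)) volume (-r) r := by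
    simpa using k0.comp_add_left x
  have k5 : IntervalIntegrable (fun y => F (x - y)) volume (-r) r := by
    simpa using (k0.comp_sub_left x).symm
  have w0 := wt_pos a b (t := x) (by linarith) (by linarith)
  have k6 := integral_mono_on (μ := volume) (f := fun y => 2 * wt a b x - 2 * wt a b x / r ^ 2 * y ^ 2)
    (show -r ≤ r by linarith) (Continuous.intervalIntegrable (by fun_prop) _ _) (k4.add k5)
    fun y hy => by
      have u1 := rpow_sym (X := 1 - x) (y := y) (e := a - 1) (by linarith [hy.2]) (by linarith [hy.1])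
        (by linarith)
      have u2 := rpow_sym (X := 1 + x) (y := y) (e := b - 1) (by linarith [hy.2]) (by linarith [hy.1])
        (by linarith)
      have w1 := wt_pos a b (t := x + y) (by linarith [hy.1]) (by linarith [hy.2])
      have w2 := wt_pos a b (t := x - y) (by linarith [hy.2]) (by linarith [hy.1])
      have u3 : wt a b x ^ 2 ≤ wt a b (x + y) * wt a b (x - y) := by
        have := mul_le_mul u1 u2 (mul_self_nonneg _) ((mul_self_nonneg _).trans u1)
        simp only [wt, ← sub_sub, ← add_assoc, ← add_sub_assoc, sub_sub_eq_add_sub]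
        have e : 1 + y - x = 1 - x + y := by ring
        rw [e]
        linarith
      have u4 : 0 ≤ 1 - y ^ 2 / r ^ 2 := by
        rw [sub_nonneg, div_le_one (by positivity)]; nlinarith [hy.1, hy.2]
      have u5 := pow_le_pow_left₀ u4 (hf y hy.1 hy.2) 2
      have u6 := mul_le_mul u5 u3 (sq_nonneg _) (sq_nonneg _)
      have := amgm (m := (1 - y ^ 2 / r ^ 2) * wt a b x) (P := F (x + y)) (Q := F (x - y))
        (by simp only [hF, eval_mul]; exact mul_nonneg (mul_self_nonneg _) w1.le)
        (by simp only [hF, eval_mul]; exact mul_nonneg (mul_self_nonneg _) w2.le)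
        (by simp only [hF, eval_mul]; linarith)
      refine le_trans (le_of_eq ?_) this
      ring
  rw [integral_add k4 k5, k2, k3, integral_sub (by simp)
    (Continuous.intervalIntegrable (by fun_prop) _ _), intervalIntegral.integral_const_mul,
    intervalIntegral.integral_const_mul, integral_pow] at k6
  simp only [intervalIntegral.integral_const, smul_eq_mul] at k6
  have e : 2 * ((r - -r) * wt a b x) - 2 * wt a b x / r ^ 2 * ((r ^ (2 + 1) - (-r) ^ (2 + 1)) / ((2 : ℕ) + 1)) =
      2 * (4 / 3 * r * wt a b x) := by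
    push_cast; field_simp; ring
  linarith

end Pool.Agent.Lib.MP_3e0ca7_an
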