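import Pool.Agent.Lib.MP_3e0ca7_an.CertI
import Pool.Agent.Lib.MP_3e0ca7_an.Ineq
import Pool.Agent.Lib.MP_3e0ca7_an.Wt

/-! The real variable inequality at an interior node. -/

namespace Pool.Agent.Lib.MP_3e0ca7_an

open Real

theorem quad_conv {α β γ r r0 r1 : ℝ} (hα : 0 ≤ α) (h0 : r0 ≤ r) (h1 : r ≤ r1)
    (f0 : α * r0 ^ 2 + β * r0 + γ ≤ 0) (f1 : α * r1 ^ 2 + β * r1 + γ ≤ 0) :
    α * r ^ 2 + β * r + γ ≤ 0 := by
  rcases (h0.trans h1).eq_or_lt with e | e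
  · have : r = r0 := by linarith
    rwa [this]
  · refine le_of_mul_le_mul_left ?_ (sub_pos.mpr e)
    have p0 := sub_nonneg.mpr h0
    have p1 := sub_nonneg.mpr h1
    have q0 := mul_le_mul_of_nonneg_left f0 p1
    have q1 := mul_le_mul_of_nonneg_left f1 p0
    have q2 := mul_nonneg (mul_nonneg hα (mul_nonneg p0 p1)) (sub_pos.mpr e).le
    linarith

theorem nu_bound {a b n s1 : ℝ} (ha : 0 < a) (hb : 0 < b) (ha1 : a ≤ 2 / 3) (hb1 : b ≤ 2 / 3)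
    (hn : 3 ≤ n) (h1 : (2 * n - 2 + (a + b)) * s1 = -(n * (a - b))) :
    ∃ ν, s1 = -(ν * (a - b)) ∧ 1 / 2 ≤ ν ∧ 2 * ν ≤ 2 - (a + b) / 2 ∧ ν * (2 * n - 2 + (a + b)) = n := by
  have hm : 0 < 2 * n - 2 + (a + b) := by linarith
  refine ⟨n / (2 * n - 2 + (a + b)), ?_, ?_, ?_, div_mul_cancel₀ _ hm.ne'⟩
  · refine mul_left_cancel₀ hm.ne' ?_
    rw [h1]
    linear_combination (a - b) * div_mul_cancel₀ n hm.ne'
  · rw [le_div_iff₀ hm]; linarith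
  · rw [← mul_div_assoc, div_le_iff₀ hm]
    nlinarith [mul_nonneg (show 0 ≤ n - 3 by linarith) (show 0 ≤ 2 - (a + b) by linarith),
      mul_nonneg (show 0 ≤ a + b by linarith) (show 0 ≤ 4 / 3 - (a + b) by linarith)]

theorem E_bound {a b n s1 s2 t c2 : ℝ} (ha : 0 < a) (hb : 0 < b) (ha1 : a ≤ 2 / 3) (hb1 : b ≤ 2 / 3)
    (hn : 3 ≤ n) (h1 : (2 * n - 2 + (a + b)) * s1 = -(n * (a - b)))
    (h2 : (2 * n - 3 + (a + b)) * s2 = n * (n - 1) - s1 ^ 2 - (a - b) * s1)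
    (hc : c2 = 1 - 1 / 2 * (a + b)) :
    n * (3 * t ^ 2 - 2) + 2 * t * s1 + s2 - (2 * t - (a - b + (a + b) * t) / 2) ^ 2 ≤
      n * (3 * (t * t) - 3 / 2) + 1 / 2 * max (1 - (a + b)) 0 + |t| * c2 * |a - b| -
        t * t * ((1 + c2) * (1 + c2)) := by
  obtain ⟨ν, e, n1, n2, -⟩ := nu_bound ha hb ha1 hb1 hn h1
  have hm : 0 < 2 * n - 3 + (a + b) := by linarith
  have k1 : s2 - n / 2 ≤ 1 / 2 * max (1 - (a + b)) 0 + (a - b) ^ 2 / 4 := by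
    refine le_of_mul_le_mul_left ?_ hm
    have u1 := mul_le_mul_of_nonneg_left (le_max_left (1 - (a + b)) 0) (show 0 ≤ n by linarith)
    have u2 := mul_le_mul_of_nonneg_right (show n ≤ 2 * n - 3 + (a + b) by linarith)
      (le_max_right (1 - (a + b)) 0)
    have u3 := mul_le_mul_of_nonneg_right (show 1 ≤ 2 * n - 3 + (a + b) by linarith)
      (sq_nonneg (a - b))
    have u4 := sq_nonneg (s1 + (a - b) / 2)
    nlinarith
  have k2 : t * (a - b) * (1 + c2 - 2 * ν) ≤ |t| * c2 * |a - b| := by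
    have u1 : t * (a - b) ≤ |t| * |a - b| := by rw [← abs_mul]; exact le_abs_self _
    have u2 := mul_le_mul_of_nonneg_right u1 (show 0 ≤ 1 + c2 - 2 * ν by linarith)
    have u3 := mul_le_mul_of_nonneg_left (show 1 + c2 - 2 * ν ≤ c2 by linarith)
      (show 0 ≤ |t| * |a - b| by positivity)
    linarith
  have k3 : 2 * t - (a - b + (a + b) * t) / 2 = t * (1 + c2) - (a - b) / 2 := by rw [hc]; ring
  rw [k3, e]
  linarith

theorem ne3_bound {c n s z Y ω e3 e2 : ℝ} (hc : 0 ≤ c) (hn : 3 ≤ n) (hs : 0 < s) (hz : 0 ≤ z)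
    (hY : 0 < Y) (hω : 0 < ω)
    (he : e2 = n * (n - 1 + c) * (s * s * (s * s) * (s * s) * Y) * (z * z)) :
    s * s * (s * s) * (z * z * (n * e3)) ≤
      s * s * (s * s) * (z * z * (14 / 25 * max e3 0 - 3 * max (-e3) 0)) +
        1 / 2 * (s * z) * max e3 0 * (e2 / (Y * ω) + ω) := by
  rcases le_total e3 0 with h | h
  · rw [max_eq_right h, max_eq_left (by linarith)]
    have : 0 ≤ s * s * (s * s) * (z * z * ((n - 3) * (-e3))) := by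
      have := sub_nonneg.mpr hn
      have := neg_nonneg.mpr h
      positivity
    linarith
  · rw [max_eq_left h, max_eq_right (by linarith)]
    have h1 : (n - 14 / 25) ^ 2 ≤ n * (n - 1 + c) := by nlinarith
    have h2 : 2 * (s * s * s * z * (n - 14 / 25)) ≤ e2 / (Y * ω) + ω := by
      have : e2 / (Y * ω) = (s * s * s * z) ^ 2 * (n * (n - 1 + c)) / ω := by
        rw [he]; field_simp
      rw [this, div_add' _ _ _ hω.ne', le_div_iff₀ hω]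
      nlinarith [mul_le_mul_of_nonneg_left h1 (sq_nonneg (s * s * s * z)),
        sq_nonneg (s * s * s * z * (n - 14 / 25) - ω)]
    have h3 := mul_le_mul_of_nonneg_left h2 (show 0 ≤ 1 / 2 * (s * z) * e3 by positivity)
    linarith

theorem F_bound {a b s τ ex y : ℝ} (hb : 0 < b) (ha1 : a ≤ 2 / 3) (hs : 0 < s) (hs1 : s ≤ 1)
    (hτ : τ = 1 - s * s * (s * s) * (s * s)) (hτ0 : 0 ≤ τ) (hex : 0 ≤ ex)
    (he : ex = (2 / 3 - a) * (12 * (1 - s) + 6 * ((1 - s) * (1 - s))) + b * (693 / 500 * τ) - y + 1 / 3) :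
    1433 / 2000 * (1 + ex * (1 + ex * (1 / 2 + ex * (1 / 6 + 1 / 24 * ex)))) / ((1 + τ) * (1 + τ)) ≤
      s * s * (s * s) * wt a b τ ^ 2 * exp (-y) := by
  have hX : 1 - τ = s ^ 6 := by rw [hτ]; ring
  have hY : 0 < 1 + τ := by linarith
  have hτ1 : τ ≤ 1 := by
    have : 0 < s ^ 6 := by positivity
    linarith
  have e1 : s * s * (s * s) * wt a b τ ^ 2 * exp (-y) * ((1 + τ) * (1 + τ)) =
      exp (-12 * (2 / 3 - a) * log s + 2 * b * log (1 + τ) - y) := by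
    rw [wt, rpow_def_of_pos hY, rpow_def_of_pos (by rw [hX]; positivity), hX, log_pow]
    have u1 : s * s * (s * s) = exp (4 * log s) := by
      rw [show (4 : ℝ) * log s = log (s ^ 4) by simp, exp_log (by positivity)]; ring
    have u2 : (1 + τ) * (1 + τ) = exp (2 * log (1 + τ)) := by
      rw [show (2 : ℝ) * log (1 + τ) = log ((1 + τ) ^ 2) by simp, exp_log (by positivity)]; ring
    rw [u1, u2, ← exp_add, sq, ← exp_add, ← exp_add, ← exp_add, ← exp_add]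
    congr 1; push_cast; ring
  rw [div_le_iff₀ (by positivity), e1]
  have l1 := mul_le_mul_of_nonneg_left (neg_log_ge hs hs1) (show 0 ≤ 2 / 3 - a by linarith)
  have l2 := mul_le_mul_of_nonneg_left (log_two_mul_le hτ0 hτ1) hb.le
  calc _ ≤ exp (-(1 / 3)) * exp ex :=
        mul_le_mul (le_trans (by norm_num) exp_third) (exp_T4 hex) (by positivity) (exp_pos _).le
    _ ≤ _ := by
      rw [← exp_add, exp_le_exp, he]; linarith

theorem R_bound {r iu T1 il y v : ℝ} (hr : 0 ≤ r) (hiu : 0 ≤ iu) (hT : 0 ≤ T1) (hv : v = 1 - y)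
    (hil : exp (r * iu - y) ≤ il) :
    exp (-y) * (r * iu * (1 - T1 * T1 * (1 / 6 + 1 / 12 * T1) +
      r * iu * (1 / 2 + T1 * (1 / 3 + 1 / 8 * T1)))) ≤ il - v := by
  have hT0 : 0 ≤ r * iu := mul_nonneg hr hiu
  generalize r * iu = T at *
  have h1 := exp_T4 hT0
  have h2 : T * (1 - T1 * T1 * (1 / 6 + 1 / 12 * T1) + T * (1 / 2 + T1 * (1 / 3 + 1 / 8 * T1))) ≤
      exp T - 1 := by
    have : 0 ≤ T * ((T - T1) ^ 2 * (1 / 6 + (T + 2 * T1) / 24)) := by positivity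
    linarith
  have h3 := mul_le_mul_of_nonneg_left h2 (exp_pos (-y)).le
  have h4 := add_one_le_exp (-y)
  rw [sub_eq_add_neg, exp_add] at hil
  linarith

theorem z_le_two {a b z X Y d1 d2 g em : ℝ} (ha : 0 < a) (hb : 0 < b) (ha1 : a ≤ 2 / 3)
    (hb1 : b ≤ 2 / 3) (pz : 0 < z) (pX : 0 < X) (pY : 0 < Y) (hY : Y ≤ 2) (sd2 : -(2 * (-z * X)) ≤ 1)
    (hd1 : d1 = 1 - -z * Y - z * Y / 5) (hd2 : d2 = 1 + -z * X - z * X / 5)
    (hg : g = (1 - -z * Y) * (1 + -z * X))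
    (hem : em = 5 / 2 * g + 1 / 2 * z * ((1 - a) * (1 - a) * (z * Y / d1) +
      (1 - b) * (1 - b) * (z * X / d2)) - 5 / 4 * z * (z * X * Y)) (h : 6 * (z * z) ≤ em) : z ≤ 2 := by
  have pzX := mul_pos pz pX
  have pzY := mul_pos pz pY
  have pd1 : 0 < d1 := by linarith
  have pd2 : 0 < d2 := by linarith
  have u1 : (1 - a) * (1 - a) * (z * Y / d1) ≤ 1 * (5 / 4) := by
    refine mul_le_mul (by nlinarith only [ha, ha1]) ?_ (by positivity) (by norm_num)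
    rw [div_le_iff₀ pd1]; linarith
  have u2 : (1 - b) * (1 - b) * (z * X / d2) ≤ 1 * (5 / 4) := by
    refine mul_le_mul (by nlinarith only [hb, hb1]) ?_ (by positivity) (by norm_num)
    rw [div_le_iff₀ pd2]; linarith
  have u3 : g ≤ 1 + 2 * z := by
    have := mul_le_mul_of_nonneg_left hY pz.le
    linarith [mul_pos pzX pzY]
  have u4 := mul_le_mul_of_nonneg_left (add_le_add u1 u2) (show 0 ≤ 1 / 2 * z by positivity)
  have u5 : 0 ≤ z * (z * X * Y) := by positivity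
  have u6 : 6 * (z * z) ≤ 5 / 2 + 25 / 4 * z := by linarith
  by_contra hc
  nlinarith only [u6, hc]

theorem int_core {a b τ ξ n N M3 Θ il σ s1 s2 s X Y t b0 : ℝ} (ha : 0 < a) (hb : 0 < b)
    (ha1 : a ≤ 2 / 3) (hb1 : b ≤ 2 / 3) (hs : 0 < s) (hsX : X = s * s * (s * s) * (s * s))
    (hτ : τ = 1 - X) (hτ0 : 0 ≤ τ) (hY : Y = 1 + τ) (hξ : ξ ≠ 0) (hn : 3 ≤ n)
    (ht : t = τ + ξ * (X * Y)) (hb0 : b0 = a * Y - b * X)
    (hN : N = (n * (n - 1 + (a + b)) - (a + b)) * (X * Y) / 3 - b0 * (b0 + 8 * τ) / 12)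
    (hN0 : 2 + 2 * (τ * τ) ≤ N) (sd1 : 2 * (ξ * Y) ≤ 1) (sd2 : -(2 * (ξ * X)) ≤ 1)
    (hgap : (n * (n - 1 + (a + b)) + 5 / 4) * (|ξ| * (X * Y)) ^ 2 ≤ 5 / 2 * (1 - t ^ 2) +
      (1 - a) ^ 2 * (|ξ| * (X * Y)) ^ 2 / (2 * (1 - t - |ξ| * (X * Y) / 5)) +
      (1 - b) ^ 2 * (|ξ| * (X * Y)) ^ 2 / (2 * (1 + t - |ξ| * (X * Y) / 5)))
    (hM3 : M3 = -(3 / 2) * τ * N + b0 / 8 * (τ * b0 + (a + b + 2) * (X * Y)))
    (hw : 0 ≤ 1 + 2 * (ξ * M3 / N)) (hΘ1 : N * ξ ^ 2 / (1 + ξ * M3 / N) ≤ Θ)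
    (hΘ2 : ∀ U, 0 ≤ U → N * ξ ^ 2 ≤ U ^ 2 → Θ ≤ N * ξ ^ 2 * (2 - (1 + 2 * (ξ * M3 / N)) / (1 + U)))
    (hil : exp (N * ξ ^ 2 * (3 / (3 + 2 * (ξ * M3 / N))) - b0 * ξ) ≤ il)
    (hσ : 16 / 9 * wt a b τ ^ 2 * (X * Y) ^ 2 ≤ σ ^ 2 * N)
    (h1 : (2 * n - 2 + (a + b)) * s1 = -(n * (a - b)))
    (h2 : (2 * n - 3 + (a + b)) * s2 = n * (n - 1) - s1 ^ 2 - (a - b) * s1)
    (hP : ∀ z, 0 ≤ z → z ≤ 1 / 2 → IntBody s z a b z)
    (hM : ∀ z, 0 ≤ z → z ≤ 2 → IntBody s z a b (-z)) :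
    (ξ * (X * Y)) ^ 2 * (((1 - t ^ 2) * (1 + b0 * ξ / 2 - Θ)) ^ 2 +
      (4 * t - (a - b + (a + b) * t)) * (ξ * (X * Y)) * ((1 - t ^ 2) * (1 + b0 * ξ / 2 - Θ)) +
      (ξ * (X * Y)) ^ 2 * (n * (n - 1 + (a + b)) * (1 - t ^ 2) + n * (3 * t ^ 2 - 2) + 2 * t * s1 + s2)) ≤
      2 * (σ * (X * Y)) ^ 2 * ((1 - b0 * ξ) * (il - (1 - b0 * ξ))) := by
  have pX : 0 < X := by rw [hsX]; positivity
  have pY : 0 < Y := by linarith
  have pN : 0 < N := by linarith only [hN0, mul_self_nonneg τ]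
  have hs1 : s ≤ 1 := by
    by_contra h
    have : 1 < s ^ 6 := one_lt_pow₀ (not_le.mp h) (by norm_num)
    linarith only [this, hsX, hτ, hτ0]
  obtain ⟨z, hz⟩ : ∃ z, z = |ξ| := ⟨_, rfl⟩
  rw [← hz] at hgap
  have pz : 0 < z := by rw [hz]; exact abs_pos.mpr hξ
  have z2 : z * z = ξ ^ 2 := by rw [hz, abs_mul_abs_self, sq]
  have zc : (0 < ξ ∧ ξ = z) ∨ (ξ < 0 ∧ ξ = -z) := by
    rcases lt_or_gt_of_ne hξ with h | h
    · exact Or.inr ⟨h, by rw [hz, abs_of_neg h, neg_neg]⟩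
    · exact Or.inl ⟨h, by rw [hz, abs_of_pos h]⟩
  have pzX := mul_pos pz pX
  have pzY := mul_pos pz pY
  obtain ⟨d1, hd1⟩ : ∃ d, d = 1 - ξ * Y - z * Y / 5 := ⟨_, rfl⟩
  obtain ⟨d2, hd2⟩ : ∃ d, d = 1 + ξ * X - z * X / 5 := ⟨_, rfl⟩
  have pd1 : 0 < d1 := by
    rcases zc with ⟨-, h⟩ | ⟨-, h⟩ <;> rw [h] at sd1 hd1 <;> linarith
  have pd2 : 0 < d2 := by
    rcases zc with ⟨-, h⟩ | ⟨-, h⟩ <;> rw [h] at sd2 hd2 <;> linarith
  have pf1 : 0 ≤ 1 - ξ * Y := by linarith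
  have pf2 : 0 ≤ 1 + ξ * X := by linarith
  obtain ⟨g, hg⟩ : ∃ g, g = (1 - ξ * Y) * (1 + ξ * X) := ⟨_, rfl⟩
  have pg : 0 ≤ g := by rw [hg]; positivity
  have eD : 1 - t ^ 2 = g * (X * Y) := by rw [hg, ht, hY, hτ]; ring
  obtain ⟨zk, hzk⟩ : ∃ zk, zk = z * z * (1 / 3 * (a * Y * Y + b * X * X) + 1 / 12 * (b0 * b0)) :=
    ⟨_, rfl⟩
  have pzk : 0 ≤ zk := by
    have := mul_self_nonneg b0
    rw [hzk]; positivity
  obtain ⟨r, hr⟩ : ∃ r, r = N * ξ ^ 2 := ⟨_, rfl⟩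
  have pr : 0 < r := by rw [hr]; positivity
  have e2 : 3 * (r + zk) = n * (n - 1 + (a + b)) * (X * Y) * (z * z) := by
    rw [hr, hzk, z2, hN, hb0, hY, hτ]; ring
  obtain ⟨em, hem⟩ : ∃ em, em = 5 / 2 * g + 1 / 2 * z * ((1 - a) * (1 - a) * (z * Y / d1) +
    (1 - b) * (1 - b) * (z * X / d2)) - 5 / 4 * z * (z * X * Y) := ⟨_, rfl⟩
  have e3 : 3 * (r + zk) ≤ em := by
    have u1 : 1 - t - z * (X * Y) / 5 = X * d1 := by rw [hd1, ht, hτ]; ring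
    have u2 : 1 + t - z * (X * Y) / 5 = Y * d2 := by rw [hd2, ht, ← add_assoc, ← hY]; ring
    rw [u1, u2, eD] at hgap
    refine le_of_mul_le_mul_left ?_ (mul_pos pX pY)
    have u3 : X * Y * em = 5 / 2 * (g * (X * Y)) + (1 - a) ^ 2 * (z * (X * Y)) ^ 2 / (2 * (X * d1)) +
        (1 - b) ^ 2 * (z * (X * Y)) ^ 2 / (2 * (Y * d2)) - 5 / 4 * (z * (X * Y)) ^ 2 := by
      rw [hem]; field_simp; ring
    rw [u3, e2]; linarith only [hgap]
  have r0r : z * z * (2 + 2 * (τ * τ)) ≤ r := by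
    rw [hr, z2, mul_comm]; exact mul_le_mul_of_nonneg_right hN0 (sq_nonneg _)
  have hQ : IntBody s z a b ξ := by
    rcases zc with ⟨h0, h⟩ | ⟨h0, h⟩
    · rw [h]; refine hP z pz.le ?_
      rw [h, hY] at sd1
      linarith only [sd1, mul_nonneg pz.le hτ0]
    · rw [h]; refine hM z pz.le ?_
      rw [h] at sd2 hd1 hd2 hg
      exact z_le_two ha hb ha1 hb1 pz pX pY (by linarith only [hY, hτ, pX]) sd2 hd1 hd2 hg hem
        (by linarith only [r0r, e3, pzk, mul_nonneg (mul_self_nonneg z) (mul_self_nonneg τ)])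
  obtain ⟨r1, hr1⟩ : ∃ r1, r1 = 1 / 3 * em - zk := ⟨_, rfl⟩
  have rr1 : r ≤ r1 := by linarith
  obtain ⟨u1, hu1⟩ : ∃ u, u = 1 + 2 * (ξ * M3 / N) := ⟨_, rfl⟩
  have pu1 : 0 ≤ u1 := by rw [hu1]; exact hw
  obtain ⟨θ, hθ⟩ : ∃ θ, θ = Θ / r := ⟨_, rfl⟩
  have eΘ : Θ = θ * r := by rw [hθ]; field_simp
  have yb : ξ * b0 ≤ 1 / 3 := by
    rw [hb0]
    rcases zc with ⟨-, h⟩ | ⟨-, h⟩ <;> rw [h] at sd1 sd2 ⊢
    · linarith only [mul_pos hb pzX, mul_le_mul_of_nonneg_left sd1 ha.le, ha1]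
    · linarith only [mul_pos ha pzY, mul_le_mul_of_nonneg_left sd2 hb.le, hb1]
  obtain ⟨ex, hex⟩ : ∃ ex, ex = (2 / 3 - a) * (12 * (1 - s) + 6 * ((1 - s) * (1 - s))) +
    b * (693 / 500 * τ) - b0 * ξ + 1 / 3 := ⟨_, rfl⟩
  have pex : 0 ≤ ex := by
    have := sub_nonneg.mpr ha1
    have := sub_nonneg.mpr hs1
    have : 0 ≤ (2 / 3 - a) * (12 * (1 - s) + 6 * ((1 - s) * (1 - s))) + b * (693 / 500 * τ) := by
      positivity
    linarith
  obtain ⟨ω, hω⟩ : ∃ ω, ω = 1 / 3 * em / Y + 3 / 4 := ⟨_, rfl⟩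
  have pω : 0 < ω := by
    have : 0 ≤ em := by linarith
    rw [hω]; positivity
  obtain ⟨G1, G0⟩ := hQ X hsX τ hτ hτ0 Y hY sd1 sd2 _ rfl b0 hb0 zk hzk _ rfl pf1 _ rfl pf2
    d1 hd1 pd1.le d2 hd2 pd2.le t ht g hg _ rfl (by linarith) _ rfl (by linarith) em hem
    (by linarith) _ rfl _ rfl r1 hr1 (by linarith) (by linarith) (1 / N) (by positivity)
    (one_div_le_one_div_of_le (by positivity) hN0) _ rfl u1
    (by rw [hu1, hM3, hb0, hY, hτ]; field_simp; ring) pu1 θ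
    (by
      rw [hθ, le_div_iff₀ pr]
      refine le_trans (le_of_eq ?_) hΘ1
      have : 1 + u1 = 2 * (1 + ξ * M3 / N) := by rw [hu1]; ring
      have h0 : 1 + ξ * M3 / N ≠ 0 := by linarith
      rw [this, hr]; field_simp)
    (by
      refine le_trans ?_ (le_max_left _ _)
      rw [hθ, div_le_iff₀ pr]
      refine (hΘ2 (1 / 2 + 1 / 2 * r1) (by linarith) (by linarith only [sq_nonneg (r1 - 1), hr, rr1])).trans
        (le_of_eq ?_)
      rw [← hr, ← hu1]; ring)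
    _ rfl _ rfl _ rfl _ rfl _ rfl (by linarith) _ rfl _ rfl ω hω _ rfl (by linarith) _ rfl
    (by linarith) ex (by rw [hex, hb0]; ring) pex _ rfl (by linarith) _ rfl _ rfl _ rfl _ rfl _ rfl
  obtain ⟨iu, hiu⟩ : ∃ iu, iu = 3 / (2 + u1) := ⟨_, rfl⟩
  have piu : 0 < iu := by rw [hiu]; positivity
  rw [← hiu] at G1 G0
  have k1 := E_bound (t := t) ha hb ha1 hb1 hn h1 h2 rfl
  have k2 := ne3_bound (e3 := 3 * (t * t) - 3 / 2) (show 0 ≤ a + b by linarith) hn hs pz.le pY pω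
    (e2.trans (by rw [hsX]))
  have k3 := F_bound (y := b0 * ξ) hb ha1 hs hs1 (hτ.trans (by rw [hsX])) hτ0 pex hex
  have k4 := R_bound (T1 := r1 * iu) (v := 1 - b0 * ξ) pr.le piu.le (mul_nonneg (by linarith) piu.le) rfl
    (show exp (r * iu - b0 * ξ) ≤ il by
      rw [hr, hiu, hu1]
      convert hil using 4; ring)
  rw [← hY] at k3
  generalize hF0 : 1433 / 2000 * (1 + ex * (1 + ex * (1 / 2 + ex * (1 / 6 + 1 / 24 * ex)))) = F0
    at G1 G0 k3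
  generalize hB : g + 2 * ξ * t - 1 / 2 * (z * z) *
    (a * Y * Y * (1 + ξ * X) + b * X * X * (1 - ξ * Y)) = B at G1 G0
  generalize hrest : 14 / 25 * max (3 * (t * t) - 3 / 2) 0 - 3 * max (-(3 * (t * t) - 3 / 2)) 0 +
    1 / 2 * max (1 - (a + b)) 0 + |t| * (1 - 1 / 2 * (a + b)) * |a - b| -
    t * t * ((1 + (1 - 1 / 2 * (a + b))) * (1 + (1 - 1 / 2 * (a + b)))) = rest at G1 G0
  generalize hW : 1 / 2 * (s * z) * max (3 * (t * t) - 3 / 2) 0 = W at G1 G0 k2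
  generalize hG : 32 / 9 * (F0 * (1 - ξ * b0) / (Y * Y)) * iu = G at G1 G0
  generalize hT1 : r1 * iu = T1 at G1 G0 k4
  generalize hS : s * s * (s * s) = S at G1 G0 k2 k3
  have pS : 0 < S := by rw [← hS]; positivity
  have k5 := quad_conv (α := S * (g * θ) ^ 2)
    (β := S * (-2 * B * (g * θ) + 3 * g) + W * (3 / (Y * ω)) -
      G * (iu * (1 / 2 + T1 * (1 / 3 + 1 / 8 * T1))))
    (γ := S * (B * B + 3 * zk * g + z * z * rest) + W * (3 * zk / (Y * ω) + ω) -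
      G * (1 - T1 * T1 * (1 / 6 + 1 / 12 * T1))) (by positivity) r0r rr1
    (by
      have : 3 * (z * z * (2 + 2 * (τ * τ)) + zk) / (Y * ω) =
        3 / (Y * ω) * (z * z * (2 + 2 * (τ * τ))) + 3 * zk / (Y * ω) := by ring
      rw [this] at G0
      linarith)
    (by
      have : 3 * (r1 + zk) / (Y * ω) = 3 / (Y * ω) * r1 + 3 * zk / (Y * ω) := by ring
      rw [this] at G1
      have e : G * (iu * (1 / 2 + T1 * (1 / 3 + 1 / 8 * T1))) * r1 =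
        G * (T1 * (1 / 2 + T1 * (1 / 3 + 1 / 8 * T1))) := by rw [← hT1]; ring
      linarith)
  obtain ⟨L, hL⟩ : ∃ L, L = (B - g * θ * r) ^ 2 + 3 * (r + zk) * g + z * z * (n * (3 * t ^ 2 - 2) +
    2 * t * s1 + s2 - (2 * t - (a - b + (a + b) * t) / 2) ^ 2) := ⟨_, rfl⟩
  obtain ⟨ψ, hψ⟩ : ∃ ψ, ψ = 1 - T1 * T1 * (1 / 6 + 1 / 12 * T1) +
    r * iu * (1 / 2 + T1 * (1 / 3 + 1 / 8 * T1)) := ⟨_, rfl⟩
  rw [← hψ] at k4
  have k6 : S * L ≤ G * ψ := by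
    have u1 := mul_le_mul_of_nonneg_left k1 (show 0 ≤ S * (z * z) by positivity)
    have : 3 * (r + zk) / (Y * ω) = 3 / (Y * ω) * r + 3 * zk / (Y * ω) := by ring
    rw [this] at k2
    rw [← hrest] at k5
    rw [hL, hψ]
    linarith
  have pv : 0 < 1 - b0 * ξ := by linarith
  have pF : 0 < F0 / (Y * Y) := by rw [← hF0]; positivity
  have pil : 0 ≤ il - (1 - b0 * ξ) := by
    have := R_bound (T1 := 0) (v := 1 - b0 * ξ) pr.le piu.le le_rfl rfl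
      (show exp (r * iu - b0 * ξ) ≤ il by
        rw [hr, hiu, hu1]
        convert hil using 4; ring)
    refine le_trans ?_ this
    positivity
  have k7 : G * ψ * r ≤ S * (32 / 9 * wt a b τ ^ 2 * ((1 - b0 * ξ) * (il - (1 - b0 * ξ)))) := by
    have e : G * ψ * r = 32 / 9 * (1 - b0 * ξ) * (F0 / (Y * Y) * (r * iu * ψ)) := by
      rw [← hG]; ring
    have u : F0 / (Y * Y) * (r * iu * ψ) ≤ S * wt a b τ ^ 2 * (il - (1 - b0 * ξ)) := by
      rcases le_total 0 (r * iu * ψ) with h | h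
      · refine (mul_le_mul_of_nonneg_right k3 h).trans ?_
        rw [mul_assoc]
        exact mul_le_mul_of_nonneg_left k4 (by positivity)
      · exact (mul_nonpos_of_nonneg_of_nonpos pF.le h).trans (by positivity)
    rw [e]
    refine (mul_le_mul_of_nonneg_left u (by positivity)).trans (le_of_eq (by ring))
  have k8 : L * r ≤ 32 / 9 * wt a b τ ^ 2 * ((1 - b0 * ξ) * (il - (1 - b0 * ξ))) := by
    refine le_of_mul_le_mul_left ?_ pS
    have := mul_le_mul_of_nonneg_right k6 pr.le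
    linarith
  have eB : B = g * (1 + b0 * ξ / 2) + ξ * (2 * t - (a - b + (a + b) * t) / 2) := by
    rw [← hB, z2, hg, hb0, ht, hY, hτ]; ring
  have k9 : (ξ * (X * Y)) ^ 2 * (((1 - t ^ 2) * (1 + b0 * ξ / 2 - Θ)) ^ 2 +
      (4 * t - (a - b + (a + b) * t)) * (ξ * (X * Y)) * ((1 - t ^ 2) * (1 + b0 * ξ / 2 - Θ)) +
      (ξ * (X * Y)) ^ 2 * (n * (n - 1 + (a + b)) * (1 - t ^ 2) + n * (3 * t ^ 2 - 2) + 2 * t * s1 + s2)) =
      (X * Y) ^ 4 * (L * ξ ^ 2) := by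
    rw [hL, e2, z2, eB, eD, eΘ]; ring
  rw [k9]
  refine le_of_mul_le_mul_left ?_ pN
  have u1 := mul_le_mul_of_nonneg_left k8 (show 0 ≤ (X * Y) ^ 4 by positivity)
  have u2 := mul_le_mul_of_nonneg_right hσ
    (show 0 ≤ 2 * (X * Y) ^ 2 * ((1 - b0 * ξ) * (il - (1 - b0 * ξ))) by positivity)
  rw [hr] at u1
  linarith

end Pool.Agent.Lib.MP_3e0ca7_an
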