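import Pool.Agent.Lib.MP_3e0ca7_an.KBound
import Pool.Agent.Lib.MP_3e0ca7_an.IntCore

/-! The real variable inequalities at the largest node. -/

namespace Pool.Agent.Lib.MP_3e0ca7_an

open Real

/-- data at the largest node `1 - X` -/
structure ExtD (a b n X Y y1 N M3 Θ1 : ℝ) : Prop where
  ha : 0 < a
  hb : 0 < b
  ha1 : a ≤ 2 / 3
  hb1 : b ≤ 2 / 3
  hn : 3 ≤ n
  pX : 0 < X
  hY : Y = 2 - X
  pY : 0 < Y
  py : 0 < y1
  hy : y1 * Y = a * Y - b * X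
  pN : 0 < N
  hN : N = (n * (n - 1 + (a + b)) - (a + b)) * (X * Y) / 3 - y1 * Y * (y1 * Y + 8 * (1 - X)) / 12
  hM3 : M3 = -(3 / 2) * (1 - X) * N + y1 * Y / 8 * ((1 - X) * (y1 * Y) + (a + b + 2) * (X * Y))
  pM : 0 ≤ M3
  t1 : N / Y ^ 2 / (1 + M3 / (N * Y)) ≤ Θ1
  t2 : Θ1 ≤ N / Y ^ 2 * (1 - M3 / (N * Y) / (1 + y1 / 2))
  t3 : M3 / (N * Y) ≤ y1 / 2
  t4 : N / Y ^ 2 ≤ (y1 / 2) ^ 2
  t5 : X * (n * (n - 1 + (a + b))) = 2 * a * (1 + y1 / 2 - Θ1)

namespace ExtD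

variable {a b n X Y y1 N M3 Θ1 : ℝ}

theorem y1_le (h : ExtD a b n X Y y1 N M3 Θ1) : y1 ≤ a := by
  refine le_of_mul_le_mul_right ?_ h.pY
  linarith only [h.hy, mul_pos h.hb h.pX]

theorem th_nonneg (h : ExtD a b n X Y y1 N M3 Θ1) : 0 ≤ Θ1 := by
  have := h.pN; have := h.pY; have := h.pM
  exact le_trans (by positivity) h.t1

theorem th_le (h : ExtD a b n X Y y1 N M3 Θ1) : Θ1 ≤ N / Y ^ 2 := by
  have := h.pN; have := h.pY; have := h.pM; have := h.py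
  have h1 : 0 ≤ N / Y ^ 2 * (M3 / (N * Y) / (1 + y1 / 2)) := by positivity
  linarith only [h.t2, h1]

theorem basic (h : ExtD a b n X Y y1 N M3 Θ1) :
    0 ≤ 1 + (a + b) * (1 / n) - 1 / n ∧ 2 ≤ 2 + y1 - 2 * Θ1 ∧ 2 + y1 - 2 * Θ1 ≤ 2 + a ∧
    X / a = (2 + y1 - 2 * Θ1) * (1 / n * (1 / n) / (1 + (a + b) * (1 / n) - 1 / n)) ∧
    y1 / a = 1 - b * (X / a) / Y ∧ 1 / n ≤ 1 / 3 := by
  have ha := h.ha; have hb := h.hb; have hn := h.hn; have pY := h.pY; have py := h.py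
  have pn : 0 < n := by linarith
  have e : 1 + (a + b) * (1 / n) - 1 / n = (n - 1 + (a + b)) / n := by field_simp; ring
  have p1 : 0 < n - 1 + (a + b) := by linarith
  refine ⟨by rw [e]; positivity, ?_, by linarith [h.y1_le, h.th_nonneg], ?_, ?_,
    one_div_le_one_div_of_le (by norm_num) hn⟩
  · nlinarith only [h.th_le, h.t4, h.y1_le, h.ha1, py]
  · rw [e]; field_simp; linear_combination h.t5
  · field_simp; linear_combination h.hy

theorem one_core (h : ExtD a b n X Y y1 N M3 Θ1) (hQ : QOne a b (1 / n) 0) {K l : ℝ}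
    (hK : K ≤ a ^ 4 * (pi3 a b * pi3 a b * sig 3 a b) * (3 / 4 * (1 + 1 / n)))
    (l1 : 1 + y1 / 2 ≤ l) (l2 : l ≤ exp (y1 / 2)) :
    K ≤ 2 * ((1 - y1) * l ^ 2 * (1 - (1 - y1) * l ^ 2)) := by
  obtain ⟨b1, b2, b3, b4, b5, b6⟩ := h.basic
  have ha := h.ha; have hb := h.hb; have py := h.py; have ha1 := h.ha1
  have y2 : y1 ≤ 2 / 3 := h.y1_le.trans h.ha1
  have key := hQ _ rfl _ rfl _ rfl (hm_pos h.ha1).le (pi3 a b) rfl _ (sig3 ha hb)
    (sig_pos ha hb h.ha1 h.hb1 le_rfl).le _ rfl _ rfl b1 _ b2 b3 (X / a) b4 X (by field_simp) Y h.hY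
    h.pY.le (y1 / a) b5 (by positivity) y1 (by field_simp) _ rfl
  obtain ⟨G, hG⟩ : ∃ G, G = y1 * y1 * (1 / 2 + y1 * (1 / 3 + y1 * (1 / 8 + 1 / 40 * y1))) := ⟨_, rfl⟩
  have k1 : a ^ 4 * (pi3 a b * pi3 a b * sig 3 a b) ≤ 2 * (G * (1 - G)) := by
    have := mul_le_mul_of_nonneg_left key (sq_nonneg a)
    refine le_trans (le_of_eq (by ring)) (this.trans (le_of_eq ?_))
    rw [hG]; field_simp
  have k2 : K ≤ a ^ 4 * (pi3 a b * pi3 a b * sig 3 a b) := by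
    have := sig_pos ha hb h.ha1 h.hb1 le_rfl
    have h0 : 0 ≤ a ^ 4 * (pi3 a b * pi3 a b * sig 3 a b) := by
      have := mul_self_nonneg (pi3 a b)
      positivity
    exact hK.trans (mul_le_of_le_one_right h0 (by linarith))
  have k3 : (1 - y1) * l ^ 2 ≤ 1 - G := by
    have u1 : l ^ 2 ≤ exp y1 := by
      have := pow_le_pow_left₀ (by linarith) l2 2
      rwa [← exp_nat_mul, show ((2 : ℕ) : ℝ) * (y1 / 2) = y1 by push_cast; ring] at this
    have u2 := one_sub_mul_exp py.le y2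
    rw [← hG] at u2
    exact (mul_le_mul_of_nonneg_left u1 (by linarith)).trans u2
  have k4 : G ≤ (1 - y1) * l ^ 2 := by
    have u1 := pow_le_pow_left₀ (by linarith) l1 2
    have u2 := mul_le_mul_of_nonneg_left u1 (show 0 ≤ 1 - y1 by linarith)
    have u3 : y1 * y1 ≤ 4 / 9 := by nlinarith only [py, y2]
    have u4 : 1 / 2 + y1 * (1 / 3 + y1 * (1 / 8 + 1 / 40 * y1)) ≤ 1 := by nlinarith only [py, y2, u3]
    have u5 : G ≤ 4 / 9 * 1 := by
      rw [hG]; exact mul_le_mul u3 u4 (by positivity) (by norm_num)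
    nlinarith only [u2, u3, u5, py, y2]
  linarith only [k1, k2, mul_nonneg (sub_nonneg.mpr k3) (sub_nonneg.mpr k4)]

theorem rho_eq (h : ExtD a b n X Y y1 N M3 Θ1) :
    N / (y1 * Y) ^ 2 * (3 * Y + 2 * a * (Θ1 / (N / Y ^ 2))) = X / y1 + a / y1 - 1 / 4 * Y := by
  have ha := h.ha; have pY := h.pY; have py := h.py; have pN := h.pN
  have e1 := h.hN
  have e2 := h.t5
  have e3 := h.hy
  have e4 := h.hY
  field_simp
  have e5 : b * X = a * Y - y1 * Y := by linarith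
  have e6 : 12 * N = 4 * Y * (2 * a * (1 + y1 / 2 - Θ1)) - 4 * a * X * Y - 4 * Y * (a * Y - y1 * Y)
      - y1 * Y * (y1 * Y + 8 * (1 - X)) := by
    rw [← e2, ← e5]; linarith
  have e7 : X = 2 - Y := by linarith
  rw [e7] at e6 ⊢
  linear_combination e6

theorem mr_eq (h : ExtD a b n X Y y1 N M3 Θ1) :
    M3 / (N * (y1 * Y)) * (8 * Y * (X / y1 + a / y1 - 1 / 4 * Y)) =
      3 * (X / y1) * (X + 2 * (X / y1) + 2 * (b * (X / y1) / Y)) +
        Θ1 / (N / Y ^ 2) * (2 * (a / y1) * (1 - X + (a + b + 2) * (X / y1))) := by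
  have ha := h.ha; have pY := h.pY; have py := h.py; have pN := h.pN; have pX := h.pX
  have e0 := h.rho_eq
  obtain ⟨φ, hφ⟩ : ∃ φ, φ = Θ1 / (N / Y ^ 2) := ⟨_, rfl⟩
  rw [← hφ] at e0 ⊢
  have e1 : M3 / (N * (y1 * Y)) * (8 * Y * (X / y1 + a / y1 - 1 / 4 * Y)) =
      8 * M3 / (y1 ^ 3 * Y ^ 2) * (3 * Y + 2 * a * φ) := by
    rw [← e0]; field_simp
  have e2 : 8 * M3 / (y1 ^ 3 * Y ^ 2) = -12 * (1 - X) / y1 * (N / (y1 * Y) ^ 2) +
      (1 - X + (a + b + 2) * (X / y1)) / y1 := by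
    rw [h.hM3]; field_simp; ring
  have e5 : b = (a * Y - y1 * Y) / X := by rw [eq_div_iff pX.ne']; linarith [h.hy]
  have e7 : Y = 2 - X := h.hY
  rw [e1, e2, add_mul, mul_assoc, e0, e5]
  field_simp
  rw [e7]; ring

theorem ext_core (h : ExtD a b n X Y y1 N M3 Θ1) (hQ : ∀ η, 0 ≤ η → η ≤ 4 → QExt a b (1 / n) η)
    {ξ t b0 Θ il σ s1 s2 P l : ℝ} (hξ : ξ < 0) (ht : t = 1 - X + ξ * (X * Y)) (ht1 : -1 ≤ t)
    (hb0 : b0 = y1 * Y) (hw : 0 ≤ 1 + 2 * (ξ * M3 / N)) (hΘ1 : N * ξ ^ 2 / (1 + ξ * M3 / N) ≤ Θ)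
    (hΘ2 : Θ ≤ N * ξ ^ 2 * (2 - (1 + 2 * (ξ * M3 / N)) / (1 + 0)))
    (hil : exp (N * ξ ^ 2 * (3 / (3 + 2 * (ξ * M3 / N))) - b0 * ξ) ≤ il)
    (hr : N * ξ ^ 2 ≤ -(b0 * ξ) / 4)
    (h1 : (2 * n - 2 + (a + b)) * s1 = -(n * (a - b)))
    (h2 : (2 * n - 3 + (a + b)) * s2 = n * (n - 1) - s1 ^ 2 - (a - b) * s1)
    (pP : 0 < P) (hσ : σ * (X * Y) * P = X ^ 2 * l ^ 2) (l1 : 1 + y1 / 2 ≤ l)
    (hK : P ^ 2 * sig n a b ≤ a ^ 4 * ((7 / 10 + 27 / 10 * a) / (1 + 1 / 2 * b)) * (3 / 4 * (1 + 1 / n))) :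
    (ξ * (X * Y)) ^ 2 * (((1 - t ^ 2) * (1 + b0 * ξ / 2 - Θ)) ^ 2 +
      (4 * t - (a - b + (a + b) * t)) * (ξ * (X * Y)) * ((1 - t ^ 2) * (1 + b0 * ξ / 2 - Θ)) +
      (ξ * (X * Y)) ^ 2 * (n * (n - 1 + (a + b)) * (1 - t ^ 2) + n * (3 * t ^ 2 - 2) + 2 * t * s1 + s2)) ≤
      2 * (σ * (X * Y)) ^ 2 * ((1 - b0 * ξ) * (il - (1 - b0 * ξ))) := by
  obtain ⟨b1, b2, b3, b4, b5, b6⟩ := h.basic
  have ha := h.ha; have hb := h.hb; have py := h.py; have ha1 := h.ha1; have hb1 := h.hb1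
  have pX := h.pX; have pY := h.pY; have pN := h.pN; have pM := h.pM; have hn := h.hn
  have hY := h.hY
  have pn : 0 < n := by linarith only [hn]
  have y2 := h.y1_le
  obtain ⟨η, hη⟩ : ∃ η, η = -(b0 * ξ) := ⟨_, rfl⟩
  have eξ : ξ = -(η / (y1 * Y)) := by rw [hη, hb0]; field_simp
  have pη : 0 < η := by
    rw [hη, hb0]; exact neg_pos.mpr (mul_neg_of_pos_of_neg (mul_pos py pY) hξ)
  obtain ⟨φ, hφ⟩ : ∃ φ, φ = Θ1 / (N / Y ^ 2) := ⟨_, rfl⟩
  have pR : 0 < N / Y ^ 2 := by positivity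
  have pφ : 0 ≤ φ := by rw [hφ]; exact div_nonneg h.th_nonneg pR.le
  have φ1 : φ ≤ 1 := by rw [hφ, div_le_one pR]; exact h.th_le
  obtain ⟨ρ, hρ⟩ : ∃ ρ, ρ = N / (y1 * Y) ^ 2 := ⟨_, rfl⟩
  have pρ : 0 < ρ := by rw [hρ]; positivity
  obtain ⟨mr, hmr⟩ : ∃ mr, mr = M3 / (N * (y1 * Y)) := ⟨_, rfl⟩
  have pmr : 0 ≤ mr := by rw [hmr]; positivity
  have e1 := h.rho_eq
  have e2 := h.mr_eq
  rw [← hφ, ← hρ] at e1
  rw [← hφ, ← hmr] at e2
  have e3 : M3 / (N * Y) = y1 * mr := by rw [hmr]; field_simp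
  have e4 : ξ * M3 / N = -(η * mr) := by rw [eξ, hmr]; field_simp
  have e5 : N * ξ ^ 2 = ρ * (η * η) := by rw [eξ, hρ]; field_simp
  have e6 : b0 * ξ = -η := by rw [hη]; ring
  rw [e4] at hw
  rw [e4, e5] at hΘ1 hΘ2 hil
  rw [e5, ← hη] at hr
  rw [e6] at hil
  have a1 : 1 ≤ a / y1 := by rw [le_div_iff₀ py]; linarith only [y2]
  have pnum : 1 / 2 ≤ X / y1 + a / y1 - 1 / 4 * Y := by
    linarith only [a1, div_pos pX py, hY, pX]
  have η4 : η ≤ 4 := by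
    have u1 : ρ * η ≤ 1 / 4 := le_of_mul_le_mul_right (by linarith only [hr]) pη
    have u2 : 3 * Y + 2 * a * φ ≤ 8 := by nlinarith only [hY, pX, ha, ha1, pφ, φ1]
    have u3 := mul_le_mul_of_nonneg_left u2 pρ.le
    refine le_of_mul_le_mul_left ?_ pρ
    linarith only [u1, u3, e1, pnum]
  have X1 : X ≤ 1 := by
    have u1 : 6 ≤ n * (n - 1 + (a + b)) := by nlinarith only [hn, ha, hb]
    have u2 := mul_le_mul_of_nonneg_left u1 pX.le
    have u3 := mul_le_mul_of_nonneg_left b3 ha.le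
    nlinarith only [u2, u3, h.t5, ha, ha1]
  obtain ⟨ϑ, hϑ⟩ : ∃ ϑ, ϑ = Θ / (ρ * (η * η)) := ⟨_, rfl⟩
  have pr : 0 < ρ * (η * η) := by positivity
  have eΘ : Θ = ϑ * (ρ * (η * η)) := by rw [hϑ]; field_simp
  obtain ⟨w, hw'⟩ : ∃ w, w = η * mr := ⟨_, rfl⟩
  rw [← hw'] at hw hΘ1 hΘ2 hil
  have pw : 0 ≤ w := by rw [hw']; positivity
  obtain ⟨ot, hot⟩ : ∃ ot, ot = X / y1 * (y1 + η) := ⟨_, rfl⟩
  have et : t = 1 - ot := by rw [ht, eξ, hot]; field_simp; ring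
  have pot : 0 ≤ ot := by rw [hot]; positivity
  obtain ⟨m, hm⟩ : ∃ m, m = 2 * n - 2 + (a + b) := ⟨_, rfl⟩
  have hm4 : 4 ≤ m := by linarith only [hm, hn, ha, hb]
  have p0 : 0 < m := by linarith only [hm4]
  have p1 : 0 < m - 1 := by linarith only [hm4]
  have s0p := s0f_pos ha hb ha1 hb1 hm4
  have φ2 : 1 / (1 + y1 * mr) ≤ φ := by
    rw [hφ, le_div_iff₀ pR, ← e3]
    exact le_trans (le_of_eq (by ring)) h.t1
  have key := hQ η pη.le η4 _ rfl _ rfl b1 _ b2 b3 (X / a) b4 X (by field_simp) Y hY pY.le (y1 / a) b5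
    (by positivity) y1 (by field_simp)
    (by
      rw [max_eq_left (by linarith only [y2, ha1])]
      linarith only [h.th_le, h.t4])
    (by linarith only [h.th_nonneg]) (a / y1) (by field_simp) (X / y1) (by field_simp) φ
    (by
      refine le_trans ?_ φ2
      rw [div_le_div_iff₀ (by positivity) (by positivity), ← e3]
      linarith only [h.t3])
    φ1 _ rfl (by linarith only [pnum]) _ rfl (by linarith only [X1]) _ rfl _ rfl mr
    (by rw [eq_div_iff (by positivity), e2]) φ2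
    (by
      refine le_trans ?_ (le_max_left _ _)
      rw [hφ, div_le_iff₀ pR, ← e3]
      refine h.t2.trans (le_of_eq ?_)
      field_simp)
    ρ (by rw [eq_div_iff (by positivity), e1]) w hw' (by linarith only [hw]) ot hot _ rfl
    (by linarith only [et, ht1]) _ rfl (by linarith only [ha1, hb1]) _ rfl ϑ
    (by
      rw [hϑ, le_div_iff₀ pr]
      refine le_trans ?_ hΘ1
      rw [le_div_iff₀ (by linarith only [hw])]
      nlinarith only [mul_nonneg pr.le (mul_self_nonneg w)])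
    (by
      rw [min_eq_left (by linarith only [hw]), hϑ, div_le_iff₀ pr]
      exact hΘ2.trans (le_of_eq (by ring)))
    _ rfl _ rfl (m / n) (by rw [hm]; field_simp; ring) (by positivity) ((m - 1) / n)
    (by field_simp) (by positivity) (s0f a b m) (by unfold s0f; field_simp)
    (by linarith only [s0p]) _ rfl (by linarith only [ha1, hb1]) _ rfl _ rfl _ rfl _ rfl
  generalize hG : (y1 + η) * (2 - ot) * (η * (ρ * η * ϑ + 1 / 2) - 1) = G at key
  generalize hJ : 2 - a - ot * (2 - 1 / 2 * (a + b)) = J at key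
  generalize hbr : G * G + 2 * η * (G * J) + η * η * (ot + (y1 + η) * (2 - ot) * (a / y1) *
    (2 + y1 - 2 * Θ1) / (1 + (a + b) * (1 / n) - 1 / n) * (1 - (4 - (a + b)) * (1 / n))) = br at key
  generalize hE : 1 / 2 + η * (1 / 6 + η * (1 / 24 + η * (1 / 120 + 1 / 720 * η))) = E2 at key
  generalize hrp : ρ * (1 + 2 / 3 * w) = rp at key
  generalize hKm : (7 / 10 + 27 / 10 * a) / (1 + 1 / 2 * b) = Km at key hK
  have prp : 0 ≤ rp := by rw [← hrp]; positivity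
  have pE : 0 ≤ E2 := by rw [← hE]; positivity
  obtain ⟨ν, eν, n1, -, n3⟩ := nu_bound ha hb ha1 hb1 hn h1
  have eS := sig_eq ha hb (by linarith only [hn]) h1 h2
  have pS := sig_pos ha hb ha1 hb1 hn
  generalize hS : sig n a b = S at *
  have iS : 1 / S ≤ 1 / n / s0f a b m := by
    rw [div_div, ← hS, sig, ← hm]
    exact one_div_le_one_div_of_le (by positivity)
      (mul_le_mul_of_nonneg_left (s0f_le ha hb hm4) pn.le)
  obtain ⟨Z, hZ⟩ : ∃ Z, Z = G * G + 2 * η * (G * J) + η * η * (n * (n - 1 + (a + b)) * (1 - t ^ 2) +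
    n * (3 * t ^ 2 - 2) + 2 * t * s1 + s2) := ⟨_, rfl⟩
  have k1 : Z ≤ η * η * S + br := by
    have u1 : (y1 + η) * (2 - ot) * (a / y1) * (2 + y1 - 2 * Θ1) / (1 + (a + b) * (1 / n) - 1 / n) *
        (1 - (4 - (a + b)) * (1 / n)) = (n * (n - 1 + (a + b)) - 3 * n) * (1 - t ^ 2) := by
      have e : 1 + (a + b) * (1 / n) - 1 / n = (n - 1 + (a + b)) / n := by field_simp; ring
      have q1 : n - 1 + (a + b) ≠ 0 := by linarith only [hn, ha, hb]
      have q2 : 2 + y1 - 2 * Θ1 = X * (n * (n - 1 + (a + b))) / a := by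
        rw [h.t5]; field_simp
      have q3 : 1 - t ^ 2 = X / y1 * (y1 + η) * (2 - ot) := by rw [← hot, et]; ring
      rw [e, q2, q3]; field_simp; ring
    have u2 : -2 * s1 ≤ 1 := by
      have v1 : ν ≤ 3 / 4 := by
        refine le_of_mul_le_mul_right ?_ p0
        rw [hm, n3]; linarith only [hn, ha, hb]
      have v2 := mul_le_mul v1 ha1 ha.le (by norm_num)
      have v3 : 0 ≤ ν * b := mul_nonneg (by linarith only [n1]) hb.le
      rw [eν]; linarith only [v2, v3]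
    have u3 := mul_le_mul_of_nonneg_left u2 (show 0 ≤ η * η * ot by positivity)
    rw [← hbr, u1, hZ, ← eS, et]
    linarith only [u3]
  have k2 : P ^ 2 / y1 ^ 4 * Z ≤ Km * (3 / 4 * (1 + 1 / n)) * (a / y1 * (a / y1) * (a / y1 * (a / y1))) *
      (η * η + 1 / n / s0f a b m * max br 0) := by
    have u1 : Z ≤ S * (η * η + 1 / n / s0f a b m * max br 0) := by
      have v1 := mul_le_mul_of_nonneg_right iS (le_max_right br 0)
      have v2 := mul_le_mul_of_nonneg_left v1 pS.le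
      have v3 : S * (1 / S * max br 0) = max br 0 := by field_simp
      linarith only [k1, v2, v3, le_max_left br 0]
    have u2 : 0 ≤ η * η + 1 / n / s0f a b m * max br 0 := by
      have := le_max_right br 0
      have : 0 < s0f a b m := by linarith only [s0p]
      positivity
    generalize η * η + 1 / n / s0f a b m * max br 0 = V at u1 u2 ⊢
    calc _ ≤ P ^ 2 / y1 ^ 4 * (S * V) := mul_le_mul_of_nonneg_left u1 (by positivity)
      _ = P ^ 2 * S * (V / y1 ^ 4) := by ring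
      _ ≤ a ^ 4 * Km * (3 / 4 * (1 + 1 / n)) * (V / y1 ^ 4) :=
        mul_le_mul_of_nonneg_right hK (by positivity)
      _ = _ := by field_simp
  have k3 : η * η * (E2 + (1 + η + η * η * E2) * rp *
      (1 + rp * (η * η) * (1 / 2 + 1 / 6 * (rp * (η * η))))) ≤ il - (1 + η) := by
    have u1 : exp (rp * (η * η) + η) ≤ il := by
      refine le_trans (exp_le_exp.mpr ?_) hil
      have : 1 + 2 / 3 * w ≤ 3 / (3 + 2 * -w) := by
        rw [le_div_iff₀ (by linarith only [hw])]; nlinarith only [mul_self_nonneg w]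
      have := mul_le_mul_of_nonneg_left this pr.le
      rw [← hrp]; linarith only [this]
    have pT : 0 ≤ rp * (η * η) := by positivity
    have e : η * η * (E2 + (1 + η + η * η * E2) * rp *
        (1 + rp * (η * η) * (1 / 2 + 1 / 6 * (rp * (η * η))))) = (1 + η + η * η * E2) *
        (1 + rp * (η * η) * (1 + rp * (η * η) * (1 / 2 + 1 / 6 * (rp * (η * η))))) - (1 + η) := by ring
    rw [e]
    generalize rp * (η * η) = T at u1 pT ⊢
    have u2 := exp_T6 pη.le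
    rw [hE] at u2
    have u3 : 1 + T * (1 + T * (1 / 2 + 1 / 6 * T)) ≤ exp T :=
      le_trans (by linarith only [pow_nonneg pT 4]) (exp_T4 pT)
    have u4 := mul_le_mul u2 u3 (by positivity) (exp_pos _).le
    rw [exp_add] at u1
    linarith only [u1, u4]
  have k4 : (1 + 1 / 2 * y1) * (1 + 1 / 2 * y1) * ((1 + 1 / 2 * y1) * (1 + 1 / 2 * y1)) ≤ l ^ 4 :=
    le_trans (le_of_eq (by ring)) (pow_le_pow_left₀ (by positivity) l1 4)
  have k5 : η * η * (P ^ 2 / y1 ^ 4 * Z) ≤ 2 * l ^ 4 * (1 + η) * (il - (1 + η)) := by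
    have u1 := mul_le_mul_of_nonneg_left (k2.trans key) (mul_self_nonneg η)
    have u0 : 0 ≤ η * η * (E2 + (1 + η + η * η * E2) * rp *
      (1 + rp * (η * η) * (1 / 2 + 1 / 6 * (rp * (η * η))))) := by positivity
    generalize E2 + (1 + η + η * η * E2) * rp *
      (1 + rp * (η * η) * (1 / 2 + 1 / 6 * (rp * (η * η)))) = R at u1 u0 k3
    have u2 := mul_le_mul (mul_le_mul_of_nonneg_right k4 (show 0 ≤ 2 * (1 + η) by positivity)) k3 u0
      (by positivity)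
    linarith only [u1, u2]
  have eD : (1 - t ^ 2) * (1 + b0 * ξ / 2 - Θ) = -(X / y1 * G) := by
    have q3 : 1 - t ^ 2 = X / y1 * (y1 + η) * (2 - ot) := by rw [← hot, et]; ring
    rw [q3, e6, eΘ, ← hG]; ring
  have eJ : 4 * t - (a - b + (a + b) * t) = 2 * J := by rw [← hJ, et]; ring
  have ex : ξ * (X * Y) = -(X / y1 * η) := by rw [eξ]; field_simp
  have eσ : σ * (X * Y) = X ^ 2 * l ^ 2 / P := by rw [← hσ]; field_simp
  rw [eD, eJ, ex, e6, eσ]
  have u1 := mul_le_mul_of_nonneg_left k5 (show 0 ≤ X ^ 4 / P ^ 2 by positivity)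
  refine le_trans (le_of_eq ?_) (u1.trans (le_of_eq ?_))
  · rw [hZ]; field_simp
  · field_simp; ring

end ExtD

end Pool.Agent.Lib.MP_3e0ca7_an
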