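import Pool.Agent.Lib.MP_3e0ca7_an.Nodes

/-! A Sturm type bound for the distance to the nearest node. -/

namespace Pool.Agent.Lib.MP_3e0ca7_an

open Polynomial Finset

theorem mvt_poly {Φ φ : ℝ → ℝ} {k e0 e1 e2 e3 e4 : ℝ} (hk : 0 < k) (h1 : Φ k = 0) (h2 : Φ (-k) = 0)
    (hd : ∀ y, -k ≤ y → y ≤ k → HasDerivAt Φ (φ y) y)
    (hle : ∀ y, -k < y → y < k → φ y ≤ e0 + e1 * y + e2 * y ^ 2 + e3 * y ^ 3 + e4 * y ^ 4) :
    0 ≤ e0 + e2 * k ^ 2 / 3 + e4 * k ^ 4 / 5 := by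
  have hd' : ∀ y, -k ≤ y → y ≤ k → HasDerivAt (fun y => e0 * y + e1 / 2 * y ^ 2 + e2 / 3 * y ^ 3
      + e3 / 4 * y ^ 4 + e4 / 5 * y ^ 5 - Φ y)
      (e0 + e1 * y + e2 * y ^ 2 + e3 * y ^ 3 + e4 * y ^ 4 - φ y) y := by
    intro y a b
    refine (((((((hasDerivAt_id y).const_mul e0).add ((hasDerivAt_pow 2 y).const_mul (e1 / 2))).add
      ((hasDerivAt_pow 3 y).const_mul (e2 / 3))).add ((hasDerivAt_pow 4 y).const_mul (e3 / 4))).add
      ((hasDerivAt_pow 5 y).const_mul (e4 / 5))).sub (hd y a b)).congr_deriv ?_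
    push_cast; ring
  obtain ⟨c, hc, e⟩ := exists_hasDerivAt_eq_slope _ _ (show -k < k by linarith)
    (fun x hx => (hd' x hx.1 hx.2).continuousAt.continuousWithinAt)
    (fun x hx => hd' x hx.1.le hx.2.le)
  have h3 := hle c hc.1 hc.2
  have h4 : e0 + e2 * k ^ 2 / 3 + e4 * k ^ 4 / 5 =
      e0 + e1 * c + e2 * c ^ 2 + e3 * c ^ 3 + e4 * c ^ 4 - φ c := by
    rw [e, h1, h2]
    have : k - -k = 2 * k := by ring
    rw [this]
    field_simp; ring
  linarith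

theorem tan_avg {e k W : ℝ} (hW : W ≠ 0) (h : 4 / 5 * k + e = W) :
    e / (4 / 5 * k + e) ^ 2 * k ^ 2 + 5 / 4 * ((4 / 5 * k) ^ 2 / (4 / 5 * k + e) ^ 2) * k =
      k ^ 2 / W := by
  rw [h]
  field_simp
  linear_combination 5 * k ^ 2 * h

theorem tan_inv {e V W : ℝ} (he : 0 ≤ e) (hV : 0 < V) (hW : 0 < W) :
    1 / (e + V) ≤ e / (W + e) ^ 2 + W ^ 2 / (W + e) ^ 2 / V := by
  have : e / (W + e) ^ 2 + W ^ 2 / (W + e) ^ 2 / V - 1 / (e + V) =
      e * (V - W) ^ 2 / ((W + e) ^ 2 * V * (e + V)) := by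
    field_simp; ring
  have h2 : 0 ≤ e * (V - W) ^ 2 / ((W + e) ^ 2 * V * (e + V)) := by positivity
  linarith

namespace Quad

variable {a b : ℝ} {I : ℝ[X] →ₗ[ℝ] ℝ} {n : ℕ} {τ σ : Fin n → ℝ}

theorem gap_lt (h : Quad a b I n τ σ) {t k : ℝ} (hk : 0 < k) (h1 : -1 < t - k) (h2 : t + k < 1)
    (h3 : ∀ i, k < |t - τ i|) :
    ((n : ℝ) * (n - 1 + (a + b)) + 5 / 4) * k ^ 2 ≤ 5 / 2 * (1 - t ^ 2) +
      (1 - a) ^ 2 * k ^ 2 / (2 * (1 - t - k / 5)) + (1 - b) ^ 2 * k ^ 2 / (2 * (1 + t - k / 5)) := by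
  set lam := (n : ℝ) * (n - 1 + (a + b)) with hlam
  have hne : ∀ y, -k ≤ y → y ≤ k → ∀ i, t + y ≠ τ i := by
    intro y y1 y2 i e
    have := h3 i
    rw [← e, lt_abs] at this
    rcases this with h | h <;> linarith
  set c0 := (1 - t - k) / (4 / 5 * k + (1 - t - k)) ^ 2
  set c1 := (4 / 5 * k) ^ 2 / (4 / 5 * k + (1 - t - k)) ^ 2
  set d0 := (1 + t - k) / (4 / 5 * k + (1 + t - k)) ^ 2
  set d1 := (4 / 5 * k) ^ 2 / (4 / 5 * k + (1 + t - k)) ^ 2
  set L := lam + (a + b - 2) ^ 2 / 4 - (1 - a) ^ 2 * c0 / 2 - (1 - b) ^ 2 * d0 / 2 with hL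
  set p := (1 - a) ^ 2 * c1 / 2 with hp
  set q := (1 - b) ^ 2 * d1 / 2 with hq
  set g0 := a - b + (a + b - 2) * t with hg0
  have key := mvt_poly (k := k) (e0 := -L * k ^ 4 + (p + q) * k ^ 3)
    (e1 := -2 * g0 * k ^ 2 + (p - q) * k ^ 2)
    (e2 := 2 * L * k ^ 2 + 4 * (1 - t ^ 2) - 2 * (a + b - 2) * k ^ 2 - (p + q) * k)
    (e3 := -8 * t + 2 * g0 - (p - q)) (e4 := -L - 4 + 2 * (a + b - 2))
    (Φ := fun y => (1 - (t + y) ^ 2) * (k ^ 2 - y ^ 2) ^ 2 * ∑ i, 1 / (t + y - τ i))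
    (φ := fun y => (-(2 * (t + y)) * (k ^ 2 - y ^ 2) ^ 2 +
      (1 - (t + y) ^ 2) * (2 * (k ^ 2 - y ^ 2) * (-(2 * y)))) * (∑ i, 1 / (t + y - τ i)) +
      (1 - (t + y) ^ 2) * (k ^ 2 - y ^ 2) ^ 2 * (-∑ i, (1 / (t + y - τ i)) ^ 2))
    hk (by simp) (by simp) (fun y y1 y2 => by
      have d1 : HasDerivAt (fun y : ℝ => 1 - (t + y) ^ 2) (-(2 * (t + y))) y := by
        simpa using (((hasDerivAt_id y).const_add t).pow 2).const_sub 1
      have d2 : HasDerivAt (fun y : ℝ => (k ^ 2 - y ^ 2) ^ 2) (2 * (k ^ 2 - y ^ 2) * (-(2 * y))) y := by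
        refine (((hasDerivAt_pow 2 y).const_sub (k ^ 2)).pow 2).congr_deriv ?_
        simp
      have d3 : HasDerivAt (fun y : ℝ => ∑ i, 1 / (t + y - τ i))
          (-∑ i, (1 / (t + y - τ i)) ^ 2) y := by
        rw [← sum_neg_distrib]
        refine HasDerivAt.fun_sum fun i _ => ?_
        have h0 := sub_ne_zero.mpr (hne y y1 y2 i)
        refine ((hasDerivAt_const y (1 : ℝ)).div
          (((hasDerivAt_id y).const_add t).sub_const (τ i)) h0).congr_deriv ?_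
        simp only [id]
        field_simp; ring
      exact (d1.mul d2).mul d3) (fun y y1 y2 => by
      have hr := h.ric (hne y y1.le y2.le)
      rw [← hlam] at hr
      generalize (∑ i, 1 / (t + y - τ i)) = R at hr ⊢
      generalize (∑ i, (1 / (t + y - τ i)) ^ 2) = S at hr ⊢
      have p1 : 0 < 1 - (t + y) := by linarith
      have p2 : 0 < 1 + (t + y) := by linarith
      have t1 := tan_inv (e := 1 - t - k) (V := k - y) (W := 4 / 5 * k) (by linarith) (by linarith)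
        (by positivity)
      have t2 := tan_inv (e := 1 + t - k) (V := k + y) (W := 4 / 5 * k) (by linarith) (by linarith)
        (by positivity)
      have e1 : 1 - t - k + (k - y) = 1 - (t + y) := by ring
      have e2 : 1 + t - k + (k + y) = 1 + (t + y) := by ring
      rw [e1] at t1
      rw [e2] at t2
      change _ ≤ c0 + c1 / (k - y) at t1
      change _ ≤ d0 + d1 / (k + y) at t2
      clear_value c0 c1 d0 d1
      have p3 : 0 < k - y := by linarith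
      have p4 : 0 < k + y := by linarith
      set f := k ^ 2 - y ^ 2 with hf
      have u1 : f ^ 2 * (1 / (1 - (t + y))) ≤ c0 * f ^ 2 + c1 * (f * (k + y)) := by
        refine (mul_le_mul_of_nonneg_left t1 (sq_nonneg f)).trans (le_of_eq ?_)
        have : f = (k - y) * (k + y) := by rw [hf]; ring
        rw [this]; field_simp
      have u2 : f ^ 2 * (1 / (1 + (t + y))) ≤ d0 * f ^ 2 + d1 * (f * (k - y)) := by
        refine (mul_le_mul_of_nonneg_left t2 (sq_nonneg f)).trans (le_of_eq ?_)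
        have : f = (k - y) * (k + y) := by rw [hf]; ring
        rw [this]; field_simp
      have u3 := mul_le_mul_of_nonneg_left u1 (sq_nonneg (1 - a))
      have u4 := mul_le_mul_of_nonneg_left u2 (sq_nonneg (1 - b))
      set D := 1 - (t + y) ^ 2 with hD
      have hD' : D = (1 - (t + y)) * (1 + (t + y)) := by rw [hD]; ring
      have pD : 0 < D := by rw [hD']; positivity
      set g := g0 + (a + b - 2) * y with hg
      have u5 : -D * (f * R) ^ 2 + f * R * (g * f + 2 * D * (-(2 * y))) ≤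
          (g * f) ^ 2 / (4 * D) + g * f * (-(2 * y)) + D * (2 * y) ^ 2 := by
        have : (g * f) ^ 2 / (4 * D) + g * f * (-(2 * y)) + D * (2 * y) ^ 2 -
            (-D * (f * R) ^ 2 + f * R * (g * f + 2 * D * (-(2 * y)))) =
            (2 * D * (f * R) - (g * f + 2 * D * (-(2 * y)))) ^ 2 / (4 * D) := by
          field_simp; ring
        have h0 : 0 ≤ (2 * D * (f * R) - (g * f + 2 * D * (-(2 * y)))) ^ 2 / (4 * D) := by positivity
        linarith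
      have u6 : (g * f) ^ 2 / (4 * D) = (1 - a) ^ 2 * (f ^ 2 * (1 / (1 - (t + y)))) / 2 +
          (1 - b) ^ 2 * (f ^ 2 * (1 / (1 + (t + y)))) / 2 - (a + b - 2) ^ 2 / 4 * f ^ 2 := by
        rw [hD', hg, hg0]; field_simp; ring
      have u7 : (-(2 * (t + y)) * f ^ 2 + D * (2 * f * -(2 * y))) * R + D * f ^ 2 * -S =
          -D * (f * R) ^ 2 + f * R * (g * f + 2 * D * (-(2 * y))) - lam * f ^ 2 := by
        rw [hg, hg0]; linear_combination f ^ 2 * hr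
      have u8 : -L * k ^ 4 + (p + q) * k ^ 3 + (-2 * g0 * k ^ 2 + (p - q) * k ^ 2) * y +
          (2 * L * k ^ 2 + 4 * (1 - t ^ 2) - 2 * (a + b - 2) * k ^ 2 - (p + q) * k) * y ^ 2 +
          (-8 * t + 2 * g0 - (p - q)) * y ^ 3 + (-L - 4 + 2 * (a + b - 2)) * y ^ 4 =
          -L * f ^ 2 + p * (f * (k + y)) + q * (f * (k - y)) + g * f * (-(2 * y)) + D * (2 * y) ^ 2 := by
        rw [hg, hD, hf]; ring
      rw [u7, u8, hL, hp, hq]
      linarith)
  have p5 : 0 < 1 - t - k / 5 := by linarith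
  have p6 : 0 < 1 + t - k / 5 := by linarith
  have v1 : c0 * k ^ 2 + 5 / 4 * c1 * k = k ^ 2 / (1 - t - k / 5) := tan_avg p5.ne' (by ring)
  have v2 : d0 * k ^ 2 + 5 / 4 * d1 * k = k ^ 2 / (1 + t - k / 5) := tan_avg p6.ne' (by ring)
  have v3 : (1 - a) ^ 2 * k ^ 2 / (2 * (1 - t - k / 5)) = (1 - a) ^ 2 / 2 * (k ^ 2 / (1 - t - k / 5)) := by
    field_simp
  have v4 : (1 - b) ^ 2 * k ^ 2 / (2 * (1 + t - k / 5)) = (1 - b) ^ 2 / 2 * (k ^ 2 / (1 + t - k / 5)) := by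
    field_simp
  have v5 : 0 ≤ 8 / 15 * k ^ 2 * (-L * k ^ 2 + 5 / 4 * (p + q) * k + 5 / 2 * (1 - t ^ 2) -
      (a + b - 2) * k ^ 2 / 2 - 3 / 2 * k ^ 2) := key.trans_eq (by ring)
  have v6 := (mul_nonneg_iff_of_pos_left (by positivity)).mp v5
  rw [v3, v4, ← v1, ← v2]
  rw [hL, hp, hq] at v6
  linarith [mul_nonneg (sq_nonneg (a + b - 1)) (sq_nonneg k)]

theorem gap (h : Quad a b I n τ σ) {t k : ℝ} (hk : 0 < k) (h1 : -1 ≤ t - k) (h2 : t + k ≤ 1)
    (h3 : ∀ i, k ≤ |t - τ i|) :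
    ((n : ℝ) * (n - 1 + (a + b)) + 5 / 4) * k ^ 2 ≤ 5 / 2 * (1 - t ^ 2) +
      (1 - a) ^ 2 * k ^ 2 / (2 * (1 - t - k / 5)) + (1 - b) ^ 2 * k ^ 2 / (2 * (1 + t - k / 5)) := by
  have p5 : 2 * (1 - t - k / 5) ≠ 0 := by linarith
  have p6 : 2 * (1 + t - k / 5) ≠ 0 := by linarith
  have c1 : ContinuousWithinAt (fun k : ℝ => ((n : ℝ) * (n - 1 + (a + b)) + 5 / 4) * k ^ 2)
      (Set.Ioo 0 k) k := by fun_prop
  have c2 : ContinuousWithinAt (fun k : ℝ => 5 / 2 * (1 - t ^ 2) +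
      (1 - a) ^ 2 * k ^ 2 / (2 * (1 - t - k / 5)) + (1 - b) ^ 2 * k ^ 2 / (2 * (1 + t - k / 5)))
      (Set.Ioo 0 k) k := by
    refine ContinuousAt.continuousWithinAt ?_
    fun_prop (disch := assumption)
  refine ContinuousWithinAt.closure_le (s := Set.Ioo 0 k) ?_ c1 c2 fun y hy => ?_
  · rw [closure_Ioo hk.ne]; exact ⟨hk.le, le_rfl⟩
  · exact h.gap_lt hy.1 (by linarith [hy.2]) (by linarith [hy.2]) fun i => hy.2.trans_le (h3 i)

end Quad

end Pool.Agent.Lib.MP_3e0ca7_an
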