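import Pool.Agent.Lib.MP_3e0ca7_an.Nodes

/-! Hermite fundamental polynomials at Gauss nodes and the reduction to a one node inequality. -/

namespace Pool.Agent.Lib.MP_3e0ca7_an

open Polynomial Finset

noncomputable def lag {n : ℕ} (τ : Fin n → ℝ) (j : Fin n) : ℝ[X] :=
  C (1 / (nod (univ.erase j) τ).eval (τ j)) * nod (univ.erase j) τ

noncomputable def hpol (a b : ℝ) {n : ℕ} (τ : Fin n → ℝ) (j : Fin n) : ℝ[X] :=
  (C 1 - C ((a - b + (a + b) * τ j) / (1 - τ j ^ 2)) * (X - C (τ j))) * (lag τ j * lag τ j)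

noncomputable def kpol {n : ℕ} (τ : Fin n → ℝ) (j : Fin n) : ℝ[X] :=
  (X - C (τ j)) * (lag τ j * lag τ j)

noncomputable def Hh (a b τ σ t : ℝ) : ℝ :=
  σ * (1 - τ ^ 2 - (a - b + (a + b) * τ) * (t - τ)) / (t - τ) ^ 2

/-- the one node inequality -/
def Goal (a b : ℝ) {n : ℕ} (τ σ : Fin n → ℝ) (j : Fin n) (t : ℝ) : Prop :=
  ∑ i, ((1 - τ i ^ 2) / (t - τ i)) ^ 2 ≤
    2 * Hh a b (τ j) (σ j) t * ∑ i ∈ univ.erase j, Hh a b (τ i) (σ i) t

theorem lag_natDegree {n : ℕ} (τ : Fin n → ℝ) (j : Fin n) : (lag τ j).natDegree ≤ n - 1 := by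
  refine (natDegree_C_mul_le _ _).trans ?_
  simp [nod_natDegree]

theorem lin_lag_degree {n : ℕ} (τ : Fin n → ℝ) (j : Fin n) (f : ℝ[X]) (hf : f.natDegree ≤ 1) :
    (f * (lag τ j * lag τ j)).degree < (2 * n : ℕ) := by
  have h2 := lag_natDegree τ j
  have h3 := natDegree_mul_le (p := f) (q := lag τ j * lag τ j)
  have h4 := natDegree_mul_le (p := lag τ j) (q := lag τ j)
  have h5 := j.pos
  exact degree_le_natDegree.trans_lt (by exact_mod_cast (by omega))

theorem lag_other {n : ℕ} (τ : Fin n → ℝ) {j i : Fin n} (h : i ≠ j) : (lag τ j).eval (τ i) = 0 := by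
  rw [lag, eval_mul, nod_eval_zero _ _ (mem_erase.mpr ⟨h, mem_univ i⟩), mul_zero]

theorem lag_eval {n : ℕ} {τ : Fin n → ℝ} (inj : Function.Injective τ) (j : Fin n) (t : ℝ) :
    (lag τ j).eval t = ∏ i ∈ univ.erase j, (1 + (t - τ j) * (1 / (τ j - τ i))) := by
  rw [lag, eval_mul, eval_C, nod_eval, nod_eval, one_div, ← prod_inv_distrib, ← prod_mul_distrib]
  refine prod_congr rfl fun i hi => ?_
  have := sub_ne_zero.mpr (ne_of_erase inj j i hi)
  field_simp; ring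

theorem v_pos {a b τ t : ℝ} (ha : 0 < a) (hb : 0 < b) (ha1 : a < 1) (hb1 : b < 1) (h1 : -1 < τ)
    (h2 : τ < 1) (h3 : -1 ≤ t) (h4 : t ≤ 1) :
    0 < 1 - τ ^ 2 - (a - b + (a + b) * τ) * (t - τ) := by
  have e : 2 * (1 - τ ^ 2 - (a - b + (a + b) * τ) * (t - τ)) =
      (1 + t) * ((1 - τ) * (b * (1 - τ) + (1 - a) * (1 + τ))) +
      (1 - t) * ((1 + τ) * (a * (1 + τ) + (1 - b) * (1 - τ))) := by ring
  have p1 : 0 < 1 - τ := by linarith
  have p2 : 0 < 1 + τ := by linarith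
  have p3 : 0 < 1 - a := by linarith
  have p4 : 0 < 1 - b := by linarith
  have q1 : 0 < (1 - τ) * (b * (1 - τ) + (1 - a) * (1 + τ)) := by positivity
  have q2 : 0 < (1 + τ) * (a * (1 + τ) + (1 - b) * (1 - τ)) := by positivity
  rcases h4.eq_or_lt with rfl | h4
  · nlinarith
  · nlinarith [mul_nonneg (show 0 ≤ 1 + t by linarith) q1.le, mul_pos (show 0 < 1 - t by linarith) q2]

namespace Quad

variable {a b : ℝ} {I : ℝ[X] →ₗ[ℝ] ℝ} {n : ℕ} {τ σ : Fin n → ℝ}

theorem lag_self (h : Quad a b I n τ σ) (j : Fin n) : (lag τ j).eval (τ j) = 1 := by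
  have := h.qne j
  rw [lag, eval_mul, eval_C]; field_simp

theorem lag_der (h : Quad a b I n τ σ) (j : Fin n) :
    2 * (derivative (lag τ j)).eval (τ j) = (a - b + (a + b) * τ j) / (1 - τ j ^ 2) := by
  have h1 := h.qne j
  have h2 := (h.ode_at j).1
  have h3 := (h.Dpos j).ne'
  simp only [lag, derivative_mul, derivative_C, zero_mul, zero_add, eval_mul, eval_C]
  field_simp
  linear_combination h2

theorem hpol_val (h : Quad a b I n τ σ) (j i : Fin n) :
    (hpol a b τ j).eval (τ i) = if j = i then 1 else 0 := by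
  split_ifs with e
  · subst e; simp [hpol, h.lag_self]
  · simp [hpol, lag_other τ (Ne.symm e)]

theorem hpol_der (h : Quad a b I n τ σ) (j i : Fin n) :
    (derivative (hpol a b τ j)).eval (τ i) = 0 := by
  simp only [hpol, derivative_mul, derivative_sub, derivative_C, derivative_X, eval_add, eval_mul,
    eval_sub, eval_C, eval_X, eval_zero, eval_one]
  by_cases e : j = i
  · subst e
    rw [h.lag_self, ← h.lag_der]; ring
  · rw [lag_other τ (Ne.symm e)]; ring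

theorem kpol_der (h : Quad a b I n τ σ) (j i : Fin n) :
    (derivative (kpol τ j)).eval (τ i) = if j = i then 1 else 0 := by
  simp only [kpol, derivative_mul, derivative_sub, derivative_C, derivative_X, eval_add, eval_mul,
    eval_sub, eval_C, eval_X, eval_zero, eval_one]
  split_ifs with e
  · subst e
    rw [h.lag_self]; ring
  · rw [lag_other τ (Ne.symm e)]; ring

theorem kpol_val (j i : Fin n) : (kpol τ j).eval (τ i) = 0 := by
  by_cases e : j = i
  · subst e; simp [kpol]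
  · simp [kpol, lag_other τ (Ne.symm e)]

theorem hpol_degree (j : Fin n) : (hpol a b τ j).degree < (2 * n : ℕ) :=
  lin_lag_degree τ j _ (by compute_degree)

theorem kpol_degree (j : Fin n) : (kpol τ j).degree < (2 * n : ℕ) :=
  lin_lag_degree τ j _ (by compute_degree)

theorem eq_hpol (h : Quad a b I n τ σ) (j : Fin n) {f : ℝ[X]} (hd : f.degree < (2 * n : ℕ))
    (h0 : ∀ i, f.eval (τ i) = if j = i then 1 else 0) (h1 : ∀ i, (derivative f).eval (τ i) = 0) :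
    f = hpol a b τ j := by
  refine sub_eq_zero.mp (herm_zero h.inj ?_ (fun i => ?_) fun i => ?_)
  · exact (degree_sub_le _ _).trans_lt (max_lt hd (hpol_degree j))
  · rw [eval_sub, h0, h.hpol_val, sub_self]
  · rw [derivative_sub, eval_sub, h1, h.hpol_der, sub_self]

theorem eq_kpol (h : Quad a b I n τ σ) (j : Fin n) {f : ℝ[X]} (hd : f.degree < (2 * n : ℕ))
    (h0 : ∀ i, f.eval (τ i) = 0)
    (h1 : ∀ i, (derivative f).eval (τ i) = if j = i then 1 else 0) : f = kpol τ j := by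
  refine sub_eq_zero.mp (herm_zero h.inj ?_ (fun i => ?_) fun i => ?_)
  · exact (degree_sub_le _ _).trans_lt (max_lt hd (kpol_degree j))
  · rw [eval_sub, h0, kpol_val, sub_self]
  · rw [derivative_sub, eval_sub, h1, h.kpol_der, sub_self]

theorem sum_hpol (h : Quad a b I n τ σ) (hn : 0 < n) : ∑ j, hpol a b τ j = 1 := by
  refine sub_eq_zero.mp (herm_zero h.inj ?_ (fun i => ?_) fun i => ?_)
  · refine (degree_sub_le _ _).trans_lt (max_lt ?_ ?_)
    · refine (degree_sum_le _ _).trans_lt ?_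
      rw [Finset.sup_lt_iff (WithBot.bot_lt_coe _)]
      exact fun j _ => hpol_degree j
    · rw [degree_one]; exact_mod_cast (by omega)
  · simp [eval_finsetSum, h.hpol_val]
  · simp [eval_finsetSum, h.hpol_der]

/-- the normalised square `p(t)^2 / c_n` -/
noncomputable def Pn (I : ℝ[X] →ₗ[ℝ] ℝ) (a b : ℝ) {n : ℕ} (τ : Fin n → ℝ) (t : ℝ) : ℝ :=
  (nod univ τ).eval t ^ 2 / ((2 * n - 1 + (a + b)) * I (nod univ τ * nod univ τ))

theorem lag_sq (h : Quad a b I n τ σ) (j : Fin n) {t : ℝ} (ht : t ≠ τ j) :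
    (lag τ j).eval t ^ 2 = Pn I a b τ t * (σ j * (1 - τ j ^ 2)) / (t - τ j) ^ 2 := by
  have h1 := h.qne j
  have h2 := (h.Dpos j).ne'
  have h3 := (h.spos j).ne'
  have h4 := sub_ne_zero.mpr ht
  rw [Pn, ← h.cn j, nod_split τ j, lag]
  simp only [eval_mul, eval_sub, eval_C, eval_X]
  field_simp

theorem hpol_eval (h : Quad a b I n τ σ) (j : Fin n) {t : ℝ} (ht : t ≠ τ j) :
    (hpol a b τ j).eval t = Pn I a b τ t * Hh a b (τ j) (σ j) t := by
  have h2 := (h.Dpos j).ne'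
  have h4 := sub_ne_zero.mpr ht
  simp only [hpol, eval_mul, eval_sub, eval_C, eval_X, Hh]
  rw [← sq, h.lag_sq j ht]
  field_simp

theorem kpol_eval (h : Quad a b I n τ σ) (j : Fin n) {t : ℝ} (ht : t ≠ τ j) :
    (kpol τ j).eval t / σ j = Pn I a b τ t * ((1 - τ j ^ 2) / (t - τ j)) := by
  have h3 := (h.spos j).ne'
  have h4 := sub_ne_zero.mpr ht
  simp only [kpol, eval_mul, eval_sub, eval_C, eval_X]
  rw [← sq, h.lag_sq j ht]
  field_simp

theorem Pn_sum (h : Quad a b I n τ σ) (hn : 0 < n) {t : ℝ} (ht : ∀ i, t ≠ τ i) :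
    Pn I a b τ t * ∑ i, Hh a b (τ i) (σ i) t = 1 := by
  have := congrArg (eval t) (h.sum_hpol hn)
  rw [eval_finsetSum, eval_one] at this
  rw [mul_sum, ← this]
  exact sum_congr rfl fun i _ => (h.hpol_eval i (ht i)).symm

theorem Pn_pos (h : Quad a b I n τ σ) (hn : 0 < n) {t : ℝ} (ht : ∀ i, t ≠ τ i) :
    0 < Pn I a b τ t := by
  let j : Fin n := ⟨0, hn⟩
  have h1 := h.qne j
  have h2 := h.Dpos j
  have h3 := h.spos j
  have h4 := nod_eval_ne univ τ t fun i _ => ht i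
  rw [Pn, ← h.cn j]
  positivity

theorem final (h : Quad a b I n τ σ) (ha : 0 < a) (hb : 0 < b) (ha1 : a < 1) (hb1 : b < 1) {t : ℝ}
    (h3 : -1 ≤ t) (h4 : t ≤ 1) (ht : ∀ i, t ≠ τ i) {j : Fin n} (hg : Goal a b τ σ j t) :
    ∑ i, ((hpol a b τ i).eval t ^ 2 + (σ i)⁻¹ ^ 2 * (kpol τ i).eval t ^ 2) ≤ 1 := by
  have hs := h.Pn_sum j.pos ht
  have hH : ∀ i, 0 ≤ Hh a b (τ i) (σ i) t := fun i =>
    div_nonneg (mul_pos (h.spos i) (v_pos ha hb ha1 hb1 (h.gt_neg i) (h.lt_one i) h3 h4)).le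
      (sq_nonneg _)
  have e : ∀ i, (hpol a b τ i).eval t ^ 2 + (σ i)⁻¹ ^ 2 * (kpol τ i).eval t ^ 2 =
      Pn I a b τ t ^ 2 * (Hh a b (τ i) (σ i) t ^ 2 + ((1 - τ i ^ 2) / (t - τ i)) ^ 2) := by
    intro i
    have := h.kpol_eval i (ht i)
    rw [h.hpol_eval i (ht i), ← mul_pow, ← div_eq_inv_mul, this]; ring
  simp only [e]
  rw [← mul_sum, sum_add_distrib, ← add_sum_erase _ _ (mem_univ j)]
  rw [← add_sum_erase _ _ (mem_univ j)] at hs
  have h5 : ∑ i ∈ univ.erase j, Hh a b (τ i) (σ i) t ^ 2 ≤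
      (∑ i ∈ univ.erase j, Hh a b (τ i) (σ i) t) ^ 2 := sum_sq_le_sq_sum_of_nonneg fun i _ => hH i
  unfold Goal at hg
  calc _ ≤ Pn I a b τ t ^ 2 * (Hh a b (τ j) (σ j) t +
        ∑ i ∈ univ.erase j, Hh a b (τ i) (σ i) t) ^ 2 :=
        mul_le_mul_of_nonneg_left (by nlinarith) (sq_nonneg _)
    _ = 1 := by rw [← mul_pow, hs]; norm_num

/-- the one node inequality in terms of the Lagrange polynomial -/
theorem goal_of (h : Quad a b I n τ σ) {t : ℝ} (ht : ∀ i, t ≠ τ i) (j : Fin n) {v : ℝ}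
    (hv : v = 1 - (a - b + (a + b) * τ j) * ((t - τ j) / (1 - τ j ^ 2)))
    (H : (t - τ j) ^ 4 * ∑ i, ((1 - τ i ^ 2) / (t - τ i)) ^ 2 ≤
      2 * (σ j * (1 - τ j ^ 2)) ^ 2 * (v * (1 / (lag τ j).eval t ^ 2 - v))) : Goal a b τ σ j t := by
  have hs := h.Pn_sum j.pos ht
  have hP := h.Pn_pos j.pos ht
  rw [← add_sum_erase _ _ (mem_univ j)] at hs
  have h2 := (h.Dpos j).ne'
  have h3 := (h.spos j).ne'
  have h4 := sub_ne_zero.mpr (ht j)
  have h5 : ∑ i ∈ univ.erase j, Hh a b (τ i) (σ i) t = 1 / Pn I a b τ t - Hh a b (τ j) (σ j) t := by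
    field_simp; linarith
  unfold Goal
  refine le_of_mul_le_mul_left (H.trans_eq ?_) (by positivity : 0 < (t - τ j) ^ 4)
  rw [h5, h.lag_sq j (ht j), hv, Hh]
  field_simp

theorem pair_sum (h : Quad a b I n τ σ) (f : ℝ → ℝ) (g : ℝ → ℝ → ℝ)
    (hg : ∀ x y, f x - f y = (x - y) * g x y) :
    2 * ∑ j, f (τ j) * ∑ i ∈ univ.erase j, 1 / (τ j - τ i) =
      ∑ j, ∑ i, g (τ j) (τ i) - ∑ j, g (τ j) (τ j) := by
  have e1 : ∀ j, f (τ j) * ∑ i ∈ univ.erase j, 1 / (τ j - τ i) = ∑ i, f (τ j) / (τ j - τ i) := by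
    intro j
    rw [← add_sum_erase _ _ (mem_univ j), mul_sum]
    simp [div_eq_mul_inv]
  simp only [e1]
  rw [two_mul]
  nth_rewrite 2 [sum_comm]
  rw [← sum_add_distrib, ← sum_sub_distrib]
  refine sum_congr rfl fun j _ => ?_
  rw [← sum_add_distrib, ← add_sum_erase _ _ (mem_univ j), ← add_sum_erase univ _ (mem_univ j)]
  simp only [sub_self, div_zero, add_zero, zero_add, add_sub_cancel_left]
  refine sum_congr rfl fun i hi => ?_
  have h1 := sub_ne_zero.mpr (ne_of_erase h.inj j i hi)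
  have h2 : τ i - τ j = -(τ j - τ i) := by ring
  rw [h2]
  field_simp
  linear_combination hg (τ j) (τ i)

theorem s1 (h : Quad a b I n τ σ) : (2 * n - 2 + (a + b)) * ∑ j, τ j = -(n * (a - b)) := by
  have h1 := h.pair_sum (fun x => 1 - x ^ 2) (fun x y => -(x + y)) fun x y => by ring
  have h2 : 2 * ∑ j, (1 - τ j ^ 2) * ∑ i ∈ univ.erase j, 1 / (τ j - τ i) =
      ∑ j, (a - b + (a + b) * τ j) := by
    rw [mul_sum]
    exact sum_congr rfl fun j _ => by rw [← (h.S123 j).1]; ring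
  rw [h2] at h1
  simp only [neg_add, sum_add_distrib, sum_neg_distrib, sum_const, card_univ, Fintype.card_fin,
    nsmul_eq_mul, ← mul_sum] at h1
  linear_combination h1

theorem s2 (h : Quad a b I n τ σ) : (2 * n - 3 + (a + b)) * ∑ j, τ j ^ 2 =
    n * (n - 1) - (∑ j, τ j) ^ 2 - (a - b) * ∑ j, τ j := by
  have h1 := h.pair_sum (fun x => x * (1 - x ^ 2)) (fun x y => 1 - x ^ 2 - x * y - y ^ 2)
    fun x y => by ring
  have h2 : 2 * ∑ j, τ j * (1 - τ j ^ 2) * ∑ i ∈ univ.erase j, 1 / (τ j - τ i) =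
      ∑ j, ((a - b) * τ j + (a + b) * τ j ^ 2) := by
    rw [mul_sum]
    refine sum_congr rfl fun j _ => ?_
    have := (h.S123 j).1
    linear_combination τ j * this
  rw [h2] at h1
  simp only [sum_add_distrib, sum_sub_distrib, sum_const, card_univ, Fintype.card_fin,
    nsmul_eq_mul, ← mul_sum, ← sum_mul, ← sq] at h1
  linear_combination h1

theorem A_closed (h : Quad a b I n τ σ) {t : ℝ} (ht : ∀ i, t ≠ τ i) :
    ∑ i, ((1 - τ i ^ 2) / (t - τ i)) ^ 2 =
      ((1 - t ^ 2) * ∑ i, 1 / (t - τ i)) ^ 2 +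
        (4 * t - (a - b + (a + b) * t)) * ((1 - t ^ 2) * ∑ i, 1 / (t - τ i)) +
        (n : ℝ) * (n - 1 + (a + b)) * (1 - t ^ 2) + n * (3 * t ^ 2 - 2) + 2 * t * ∑ i, τ i +
        ∑ i, τ i ^ 2 := by
  have e : ∀ i, ((1 - τ i ^ 2) / (t - τ i)) ^ 2 = (1 - t ^ 2) ^ 2 * (1 / (t - τ i)) ^ 2 +
      4 * t * (1 - t ^ 2) * (1 / (t - τ i)) + (3 * t ^ 2 - 2) + 2 * t * τ i + τ i ^ 2 := by
    intro i
    have := sub_ne_zero.mpr (ht i)
    field_simp; ring
  simp only [e, sum_add_distrib, ← mul_sum, sum_const, card_univ, Fintype.card_fin, nsmul_eq_mul]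
  linear_combination (-(1 - t ^ 2)) * h.ric ht

theorem xR (h : Quad a b I n τ σ) {t : ℝ} (ht : ∀ i, t ≠ τ i) (j : Fin n) :
    (t - τ j) * ∑ i, 1 / (t - τ i) = 1 + ∑ i ∈ univ.erase j, (t - τ j) * (1 / (τ j - τ i)) -
      ∑ i ∈ univ.erase j, ((t - τ j) * (1 / (τ j - τ i))) ^ 2 /
        (1 + (t - τ j) * (1 / (τ j - τ i))) := by
  rw [← add_sum_erase _ _ (mem_univ j), mul_add, mul_sum, add_sub_assoc, ← sum_sub_distrib]
  have h4 := sub_ne_zero.mpr (ht j)
  congr 1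
  · field_simp
  · refine sum_congr rfl fun i hi => ?_
    have h1 := sub_ne_zero.mpr (ne_of_erase h.inj j i hi)
    have h2 := sub_ne_zero.mpr (ht i)
    have h3 : 1 + (t - τ j) * (1 / (τ j - τ i)) = (t - τ i) / (τ j - τ i) := by
      field_simp; ring
    rw [h3]; field_simp; ring

theorem Pn_one (h : Quad a b I n τ σ) (ha : 0 < a) (hb : 0 < b) (hn : 0 < n) :
    Pn I a b τ 1 * I 1 = Gf n a b / (2 * n - 1 + (a + b)) := by
  have h1 := PF.at_one n h.toPF ha hb h.orth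
  have h2 := (h.toPF.sq_pos h.orth.ne_zero).ne'
  have h3 : (1 : ℝ) ≤ n := by exact_mod_cast hn
  have h4 : 2 * (n : ℝ) - 1 + (a + b) ≠ 0 := by linarith
  rw [Pn]; field_simp
  linear_combination h1

end Quad

end Pool.Agent.Lib.MP_3e0ca7_an
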