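import Mathlib

/-! Fixed point interval arithmetic (scale `10^8`) in continuation passing style. -/

namespace Pool.Agent.Lib.MP_3e0ca7_an

noncomputable def force (n : ℕ) (k : ℕ → Bool) : Bool :=
  Nat.rec (motive := fun _ => Bool) (k 0) (fun m _ => k m.succ) n

theorem force_eq (n : ℕ) (k : ℕ → Bool) : force n k = k n := by cases n <;> rfl

noncomputable def iff' (c t e : Bool) : Bool := Bool.rec (motive := fun _ => Bool) e t c

/-- enclosure of a nonnegative real -/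
def MP (l h : ℕ) (x : ℝ) : Prop := (l : ℝ) ≤ 100000000 * x ∧ 100000000 * x ≤ h

/-- enclosure of a real of any sign -/
def MS (a b c d : ℕ) (x : ℝ) : Prop := (a : ℝ) - b ≤ 100000000 * x ∧ 100000000 * x ≤ (c : ℝ) - d

theorem MP.nonneg {l h : ℕ} {x : ℝ} (m : MP l h x) : 0 ≤ x := by
  have := m.1; have h0 : (0 : ℝ) ≤ l := Nat.cast_nonneg l; linarith

theorem MP.eq {l h : ℕ} {x y : ℝ} (m : MP l h x) (e : y = x) : MP l h y := e ▸ m

theorem MS.eq {a b c d : ℕ} {x y : ℝ} (m : MS a b c d x) (e : y = x) : MS a b c d y := e ▸ m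

theorem MP.sq {l h : ℕ} {x : ℝ} (m : MP l h (|x| * |x|)) : MP l h (x * x) := by
  rwa [abs_mul_abs_self] at m

theorem MS.split {a b c d : ℕ} {x y : ℝ} (m : MS a b c d (max x 0 * y - max (-x) 0 * y)) :
    MS a b c d (x * y) := by
  rwa [← sub_mul, max_zero_sub_max_neg_zero_eq_self] at m

theorem MP.mk' {h : ℕ} {x : ℝ} (h0 : 0 ≤ x) (h1 : 100000000 * x ≤ h) : MP 0 h x :=
  ⟨by simpa using h0, h1⟩

theorem div_lo (a s : ℕ) : ((Nat.div a s : ℕ) : ℝ) ≤ a / s := Nat.cast_div_le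

theorem div_hi (a s : ℕ) (hs : 0 < s) : (a : ℝ) / s ≤ ((Nat.add (Nat.div a s) 1 : ℕ) : ℝ) := by
  have h1 : a < s * (a / s + 1) := Nat.lt_mul_div_succ a hs
  have h2 : (a : ℝ) < s * ((a / s + 1 : ℕ) : ℝ) := by exact_mod_cast h1
  have hs' : (0 : ℝ) < s := by exact_mod_cast hs
  rw [div_le_iff₀ hs']
  have : ((Nat.add (Nat.div a s) 1 : ℕ) : ℝ) = ((a / s + 1 : ℕ) : ℝ) := rfl
  rw [this]; linarith

theorem c_add (a b : ℕ) : ((Nat.add a b : ℕ) : ℝ) = a + b := Nat.cast_add a b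
theorem c_mul (a b : ℕ) : ((Nat.mul a b : ℕ) : ℝ) = a * b := Nat.cast_mul a b
theorem c_sub (a b : ℕ) : ((Nat.sub a b : ℕ) : ℝ) = max ((a : ℝ) - b) 0 := by
  change ((a - b : ℕ) : ℝ) = _
  rcases le_total a b with h | h
  · have : (a : ℝ) ≤ b := by exact_mod_cast h
    rw [Nat.sub_eq_zero_of_le h, max_eq_right (by linarith)]; simp
  · have : (b : ℝ) ≤ a := by exact_mod_cast h
    rw [Nat.cast_sub h, max_eq_left (by linarith)]

theorem mul_lo {p q : ℕ} {x y : ℝ} (hp : (p : ℝ) ≤ 100000000 * x) (hq : (q : ℝ) ≤ 100000000 * y) :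
    ((Nat.div (Nat.mul p q) 100000000 : ℕ) : ℝ) ≤ 100000000 * (x * y) := by
  refine (div_lo _ _).trans ?_
  have h0 : (0 : ℝ) ≤ p := Nat.cast_nonneg p
  have h1 : (0 : ℝ) ≤ q := Nat.cast_nonneg q
  have := mul_le_mul hp hq h1 (h0.trans hp)
  rw [c_mul, div_le_iff₀ (by norm_num)]; push_cast; linarith

theorem mul_hi {p q : ℕ} {x y : ℝ} (hx : 0 ≤ x) (hp : 100000000 * x ≤ (p : ℝ))
    (hq : 100000000 * y ≤ (q : ℝ)) :
    100000000 * (x * y) ≤ ((Nat.add (Nat.div (Nat.mul p q) 100000000) 1 : ℕ) : ℝ) := by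
  refine le_trans ?_ (div_hi _ _ (by norm_num))
  have h0 : (0 : ℝ) ≤ p := Nat.cast_nonneg p
  have h1 : (0 : ℝ) ≤ q := Nat.cast_nonneg q
  have h2 : 100000000 * x * (100000000 * y) ≤ p * q :=
    (mul_le_mul_of_nonneg_left hq (by positivity)).trans (mul_le_mul_of_nonneg_right hp h1)
  rw [c_mul, le_div_iff₀ (by norm_num)]; push_cast; linarith

noncomputable def two (l h : ℕ) (k : ℕ → ℕ → Bool) : Bool := force l fun l => force h fun h => k l h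

theorem two_eq (l h : ℕ) (k : ℕ → ℕ → Bool) : two l h k = k l h := by
  simp only [two, force_eq]

noncomputable def addP (l1 h1 l2 h2 : ℕ) (k : ℕ → ℕ → Bool) : Bool :=
  force (Nat.add l1 l2) fun l => force (Nat.add h1 h2) fun h => k l h

theorem addP_s {l1 h1 l2 h2 : ℕ} {x y : ℝ} {k : ℕ → ℕ → Bool} (m1 : MP l1 h1 x) (m2 : MP l2 h2 y)
    (H : addP l1 h1 l2 h2 k = true) : ∃ l h, MP l h (x + y) ∧ k l h = true := by
  simp only [addP, force_eq] at H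
  refine ⟨_, _, ⟨?_, ?_⟩, H⟩ <;> rw [c_add] <;> linarith [m1.1, m1.2, m2.1, m2.2]

theorem addS_P {a b c d l2 h2 : ℕ} {x y : ℝ} {k : ℕ → ℕ → Bool} (m1 : MS a b c d x)
    (m2 : MP l2 h2 y) (H : addP a c l2 h2 k = true) :
    ∃ l h, MS l b h d (x + y) ∧ k l h = true := by
  simp only [addP, force_eq] at H
  refine ⟨_, _, ⟨?_, ?_⟩, H⟩ <;> rw [c_add] <;> linarith [m1.1, m1.2, m2.1, m2.2]

theorem addP_S {a b c d l2 h2 : ℕ} {x y : ℝ} {k : ℕ → ℕ → Bool} (m2 : MP l2 h2 y)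
    (m1 : MS a b c d x) (H : addP a c l2 h2 k = true) :
    ∃ l h, MS l b h d (y + x) ∧ k l h = true := by
  rw [add_comm]; exact addS_P m1 m2 H

theorem subS_P {a b c d l2 h2 : ℕ} {x y : ℝ} {k : ℕ → ℕ → Bool} (m1 : MS a b c d x)
    (m2 : MP l2 h2 y) (H : addP d b l2 h2 k = true) :
    ∃ l h, MS a h c l (x - y) ∧ k l h = true := by
  simp only [addP, force_eq] at H
  refine ⟨_, _, ⟨?_, ?_⟩, H⟩ <;> rw [c_add] <;> linarith [m1.1, m1.2, m2.1, m2.2]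

theorem subP_S {a b c d l2 h2 : ℕ} {x y : ℝ} {k : ℕ → ℕ → Bool} (m2 : MP l2 h2 y)
    (m1 : MS a b c d x) (H : addP d b l2 h2 k = true) :
    ∃ l h, MS l c h a (y - x) ∧ k l h = true := by
  simp only [addP, force_eq] at H
  refine ⟨_, _, ⟨?_, ?_⟩, H⟩ <;> rw [c_add] <;> linarith [m1.1, m1.2, m2.1, m2.2]

noncomputable def addS (a b c d a' b' c' d' : ℕ) (k : ℕ → ℕ → ℕ → ℕ → Bool) : Bool :=
  force (Nat.add a a') fun a => force (Nat.add b b') fun b => force (Nat.add c c') fun c =>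
    force (Nat.add d d') fun d => k a b c d

theorem addS_s {a b c d a' b' c' d' : ℕ} {x y : ℝ} {k : ℕ → ℕ → ℕ → ℕ → Bool}
    (m1 : MS a b c d x) (m2 : MS a' b' c' d' y) (H : addS a b c d a' b' c' d' k = true) :
    ∃ p q r s, MS p q r s (x + y) ∧ k p q r s = true := by
  simp only [addS, force_eq] at H
  refine ⟨_, _, _, _, ⟨?_, ?_⟩, H⟩ <;> rw [c_add, c_add] <;> linarith [m1.1, m1.2, m2.1, m2.2]

theorem subS_s {a b c d a' b' c' d' : ℕ} {x y : ℝ} {k : ℕ → ℕ → ℕ → ℕ → Bool}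
    (m1 : MS a b c d x) (m2 : MS a' b' c' d' y) (H : addS a b c d d' c' b' a' k = true) :
    ∃ p q r s, MS p q r s (x - y) ∧ k p q r s = true := by
  simp only [addS, force_eq] at H
  refine ⟨_, _, _, _, ⟨?_, ?_⟩, H⟩ <;> rw [c_add, c_add] <;> linarith [m1.1, m1.2, m2.1, m2.2]

theorem subP_s {l1 h1 l2 h2 : ℕ} {x y : ℝ} (m1 : MP l1 h1 x) (m2 : MP l2 h2 y) :
    MS l1 h2 h1 l2 (x - y) := ⟨by linarith [m1.1, m2.2], by linarith [m1.2, m2.1]⟩

theorem neg_s {a b c d : ℕ} {x : ℝ} (m : MS a b c d x) : MS d c b a (-x) :=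
  ⟨by linarith [m.2], by linarith [m.1]⟩

theorem toS_s {l h : ℕ} {x : ℝ} (m : MP l h x) : MS l 0 h 0 x :=
  ⟨by simpa using m.1, by simpa using m.2⟩

noncomputable def mulP (l1 h1 l2 h2 : ℕ) (k : ℕ → ℕ → Bool) : Bool :=
  force (Nat.div (Nat.mul l1 l2) 100000000) fun l =>
    force (Nat.add (Nat.div (Nat.mul h1 h2) 100000000) 1) fun h => k l h

theorem mulP_s {l1 h1 l2 h2 : ℕ} {x y : ℝ} {k : ℕ → ℕ → Bool} (m1 : MP l1 h1 x) (m2 : MP l2 h2 y)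
    (H : mulP l1 h1 l2 h2 k = true) : ∃ l h, MP l h (x * y) ∧ k l h = true := by
  simp only [mulP, force_eq] at H
  exact ⟨_, _, ⟨mul_lo m1.1 m2.1, mul_hi m1.nonneg m1.2 m2.2⟩, H⟩

noncomputable def mulN (n l h : ℕ) (k : ℕ → ℕ → Bool) : Bool :=
  force (Nat.mul n l) fun l => force (Nat.mul n h) fun h => k l h

theorem mulN_s {n l1 h1 : ℕ} {c x : ℝ} {k : ℕ → ℕ → Bool} (hc : c = n) (m1 : MP l1 h1 x)
    (H : mulN n l1 h1 k = true) : ∃ l h, MP l h (c * x) ∧ k l h = true := by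
  simp only [mulN, force_eq] at H
  have h0 : (0 : ℝ) ≤ n := Nat.cast_nonneg n
  refine ⟨_, _, ⟨?_, ?_⟩, H⟩ <;> rw [c_mul, hc]
  · nlinarith [mul_le_mul_of_nonneg_left m1.1 h0]
  · nlinarith [mul_le_mul_of_nonneg_left m1.2 h0]

noncomputable def mulS (l h a b c d : ℕ) (k : ℕ → ℕ → ℕ → ℕ → Bool) : Bool :=
  force (Nat.div (Nat.mul l (Nat.sub a b)) 100000000) fun p =>
    force (Nat.add (Nat.div (Nat.mul h (Nat.sub b a)) 100000000) 1) fun q =>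
      force (Nat.add (Nat.div (Nat.mul h (Nat.sub c d)) 100000000) 1) fun r =>
        force (Nat.div (Nat.mul l (Nat.sub d c)) 100000000) fun s => k p q r s

theorem mulS_aux {l h a b : ℕ} {x y : ℝ} (m1 : MP l h x) (hy : (a : ℝ) - b ≤ 100000000 * y) :
    ((Nat.div (Nat.mul l (Nat.sub a b)) 100000000 : ℕ) : ℝ) -
      ((Nat.add (Nat.div (Nat.mul h (Nat.sub b a)) 100000000) 1 : ℕ) : ℝ)
      ≤ 100000000 * (x * y) := by
  have hx := m1.nonneg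
  rcases le_total (0 : ℝ) ((a : ℝ) - b) with h0 | h0
  · have h1 : ((Nat.sub a b : ℕ) : ℝ) ≤ 100000000 * y := by rw [c_sub, max_eq_left h0]; exact hy
    have h2 := mul_lo m1.1 h1
    have h3 : (0 : ℝ) ≤ ((Nat.add (Nat.div (Nat.mul h (Nat.sub b a)) 100000000) 1 : ℕ) : ℝ) :=
      Nat.cast_nonneg _
    linarith
  · have h1 : 100000000 * (-y) ≤ ((Nat.sub b a : ℕ) : ℝ) := by
      rw [c_sub, max_eq_left (by linarith)]; linarith
    have h2 := mul_hi hx m1.2 h1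
    have h3 : ((Nat.sub a b : ℕ) : ℝ) ≤ 100000000 * 0 := by rw [c_sub, max_eq_right h0]; simp
    have h4 := mul_lo m1.1 h3
    linarith

theorem mulS_s {l h a b c d : ℕ} {x y : ℝ} {k : ℕ → ℕ → ℕ → ℕ → Bool} (m1 : MP l h x)
    (m2 : MS a b c d y) (H : mulS l h a b c d k = true) :
    ∃ p q r s, MS p q r s (x * y) ∧ k p q r s = true := by
  simp only [mulS, force_eq] at H
  refine ⟨_, _, _, _, ⟨mulS_aux m1 m2.1, ?_⟩, H⟩
  have := mulS_aux (a := d) (b := c) (y := -y) m1 (by linarith [m2.2])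
  linarith

noncomputable def divP (l1 h1 l2 h2 : ℕ) (k : ℕ → ℕ → Bool) : Bool :=
  iff' (Nat.ble 1 l2) (force (Nat.div (Nat.mul l1 100000000) h2) fun l =>
    force (Nat.add (Nat.div (Nat.mul h1 100000000) l2) 1) fun h => k l h) false

theorem iff'_false {c t : Bool} (H : iff' c t false = true) : c = true ∧ t = true := by
  cases c
  · exact absurd H (by simp [iff'])
  · exact ⟨rfl, H⟩

theorem iff'_true {c e : Bool} (H : iff' c true e = true) : c = true ∨ e = true := by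
  cases c
  · exact Or.inr H
  · exact Or.inl rfl

theorem divP_s {l1 h1 l2 h2 : ℕ} {x y : ℝ} {k : ℕ → ℕ → Bool} (m1 : MP l1 h1 x) (m2 : MP l2 h2 y)
    (H : divP l1 h1 l2 h2 k = true) : ∃ l h, MP l h (x / y) ∧ k l h = true := by
  obtain ⟨h0, H⟩ := iff'_false H
  simp only [force_eq] at H
  have hl : 1 ≤ l2 := Nat.le_of_ble_eq_true h0
  have hl' : (1 : ℝ) ≤ l2 := by exact_mod_cast hl
  have hy : 0 < y := by linarith [m2.1]
  have hx := m1.nonneg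
  have hh : (0 : ℝ) < h2 := by linarith [m2.2]
  have h00 : (0 : ℝ) ≤ l1 := Nat.cast_nonneg _
  refine ⟨_, _, ⟨(div_lo _ _).trans ?_, le_trans ?_ (div_hi _ _ hl)⟩, H⟩
  · rw [c_mul, ← mul_div_assoc, div_le_div_iff₀ hh hy]; push_cast
    nlinarith [mul_le_mul m1.1 m2.2 (by positivity) (by positivity)]
  · rw [c_mul, ← mul_div_assoc, div_le_div_iff₀ hy (by linarith)]; push_cast
    nlinarith [mul_le_mul m1.2 m2.1 (by positivity) (Nat.cast_nonneg h1)]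

noncomputable def posS (a b c d : ℕ) (k : ℕ → ℕ → Bool) : Bool :=
  force (Nat.sub a b) fun l => force (Nat.sub c d) fun h => k l h

theorem posS_s {a b c d : ℕ} {x : ℝ} {k : ℕ → ℕ → Bool} (m : MS a b c d x)
    (H : posS a b c d k = true) : ∃ l h, MP l h (max x 0) ∧ k l h = true := by
  simp only [posS, force_eq] at H
  refine ⟨_, _, ⟨?_, ?_⟩, H⟩ <;> rw [c_sub]
  · refine max_le ?_ (by positivity)
    linarith [m.1, le_max_left x 0]
  · rcases le_total x 0 with h | h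
    · rw [max_eq_right h]; simp
    · rw [max_eq_left h]; exact m.2.trans (le_max_left _ _)

theorem nnS_s {a b c d : ℕ} {x y : ℝ} {k : ℕ → ℕ → Bool} (m : MS a b c d x) (e : y = x)
    (h0 : 0 ≤ y) (H : posS a b c d k = true) : ∃ l h, MP l h y ∧ k l h = true := by
  have := posS_s m H
  rwa [← e, max_eq_left h0] at this

noncomputable def absS (a b c d : ℕ) (k : ℕ → ℕ → Bool) : Bool :=
  force (Nat.add (Nat.sub a b) (Nat.sub d c)) fun l => force (Nat.sub c d) fun p =>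
    force (Nat.add p (Nat.sub (Nat.sub b a) p)) fun h => k l h

theorem absS_s {a b c d : ℕ} {x : ℝ} {k : ℕ → ℕ → Bool} (m : MS a b c d x)
    (H : absS a b c d k = true) : ∃ l h, MP l h |x| ∧ k l h = true := by
  simp only [absS, force_eq] at H
  have h1 := m.1
  have h2 := m.2
  refine ⟨_, _, ⟨?_, ?_⟩, H⟩ <;> simp only [c_add, c_sub]
  · rcases abs_cases x with h | h <;> rcases max_cases ((a : ℝ) - b) 0 with h3 | h3 <;>
      rcases max_cases ((d : ℝ) - c) 0 with h4 | h4 <;> linarith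
  · rcases abs_cases x with h | h <;> rcases max_cases ((b : ℝ) - a) 0 with h3 | h3 <;>
      rcases max_cases ((c : ℝ) - d) 0 with h4 | h4 <;>
      rcases max_cases (max ((b : ℝ) - a) 0 - max ((c : ℝ) - d) 0) 0 with h5 | h5 <;> linarith

noncomputable def minP (l1 h1 l2 h2 : ℕ) (k : ℕ → ℕ → Bool) : Bool :=
  force (Nat.sub l1 (Nat.sub l1 l2)) fun l => force (Nat.sub h1 (Nat.sub h1 h2)) fun h => k l h

theorem c_min (a b : ℕ) : ((Nat.sub a (Nat.sub a b) : ℕ) : ℝ) = min (a : ℝ) b := by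
  have : Nat.sub a (Nat.sub a b) = min a b := by
    change a - (a - b) = min a b
    omega
  rw [this, Nat.cast_min]

theorem minP_s {l1 h1 l2 h2 : ℕ} {x y : ℝ} {k : ℕ → ℕ → Bool} (m1 : MP l1 h1 x) (m2 : MP l2 h2 y)
    (H : minP l1 h1 l2 h2 k = true) : ∃ l h, MP l h (min x y) ∧ k l h = true := by
  simp only [minP, force_eq] at H
  refine ⟨_, _, ⟨?_, ?_⟩, H⟩ <;> rw [c_min]
  · rcases min_cases x y with h | h <;> rw [h.1]
    · exact (min_le_left _ _).trans m1.1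
    · exact (min_le_right _ _).trans m2.1
  · refine le_min ?_ ?_
    · linarith [m1.2, min_le_left x y]
    · linarith [m2.2, min_le_right x y]

theorem btwP {l1 h1 l2 h2 : ℕ} {x y z : ℝ} (m1 : MP l1 h1 x) (m2 : MP l2 h2 y) (h : x ≤ z)
    (h' : z ≤ y) : MP l1 h2 z := ⟨by linarith [m1.1], by linarith [m2.2]⟩

/-- discard a box on which the hypothesis `x ≤ y` fails -/
noncomputable def asm (a b c d : ℕ) (k : Bool) : Bool :=
  iff' (Nat.ble (Nat.add (Nat.add c b) 1) (Nat.add a d)) true k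

theorem asm_s {a b c d a' b' c' d' : ℕ} {x y : ℝ} {k : Bool} (m1 : MS a b c d x)
    (m2 : MS a' b' c' d' y) (h : x ≤ y) (H : asm a b c' d' k = true) : k = true := by
  rcases iff'_true H with h0 | h0
  · have h1 := Nat.le_of_ble_eq_true h0
    have h2 : ((Nat.add (Nat.add c' b) 1 : ℕ) : ℝ) ≤ ((Nat.add a d' : ℕ) : ℝ) := by
      exact_mod_cast h1
    simp only [c_add] at h2
    push_cast at h2
    linarith [m1.1, m2.2]
  · exact h0

/-- verify `x ≤ y` on a box -/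
noncomputable def gol (c d a b : ℕ) (k : Bool) : Bool :=
  iff' (Nat.ble (Nat.add c b) (Nat.add a d)) k false

theorem gol_s {a b c d a' b' c' d' : ℕ} {x y : ℝ} {k : Bool} (m1 : MS a b c d x)
    (m2 : MS a' b' c' d' y) (H : gol c d a' b' k = true) : x ≤ y ∧ k = true := by
  obtain ⟨h0, H⟩ := iff'_false H
  refine ⟨?_, H⟩
  have h1 := Nat.le_of_ble_eq_true h0
  have h2 : ((Nat.add c b' : ℕ) : ℝ) ≤ ((Nat.add a' d : ℕ) : ℝ) := by exact_mod_cast h1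
  simp only [c_add] at h2
  linarith [m1.2, m2.1]

/-- bisection trees over boxes in four variables -/
inductive Tr : Type
  | l : Tr
  | a : Tr → Tr → Tr
  | b : Tr → Tr → Tr
  | c : Tr → Tr → Tr
  | d : Tr → Tr → Tr

abbrev Chk := ℕ → ℕ → ℕ → ℕ → ℕ → ℕ → ℕ → ℕ → Bool

noncomputable def chk (F : Chk) (t : Tr) : Chk :=
  Tr.rec (motive := fun _ => Chk) F
    (fun _ _ p q l0 h0 l1 h1 l2 h2 l3 h3 => force (Nat.div (Nat.add l0 h0) 2) fun m =>
      iff' (p l0 m l1 h1 l2 h2 l3 h3) (q m h0 l1 h1 l2 h2 l3 h3) false)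
    (fun _ _ p q l0 h0 l1 h1 l2 h2 l3 h3 => force (Nat.div (Nat.add l1 h1) 2) fun m =>
      iff' (p l0 h0 l1 m l2 h2 l3 h3) (q l0 h0 m h1 l2 h2 l3 h3) false)
    (fun _ _ p q l0 h0 l1 h1 l2 h2 l3 h3 => force (Nat.div (Nat.add l2 h2) 2) fun m =>
      iff' (p l0 h0 l1 h1 l2 m l3 h3) (q l0 h0 l1 h1 m h2 l3 h3) false)
    (fun _ _ p q l0 h0 l1 h1 l2 h2 l3 h3 => force (Nat.div (Nat.add l3 h3) 2) fun m =>
      iff' (p l0 h0 l1 h1 l2 h2 l3 m) (q l0 h0 l1 h1 l2 h2 m h3) false) t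

def Snd (F : Chk) (Q : ℝ → ℝ → ℝ → ℝ → Prop) : Prop :=
  ∀ l0 h0 l1 h1 l2 h2 l3 h3, F l0 h0 l1 h1 l2 h2 l3 h3 = true →
    ∀ x0 x1 x2 x3, MP l0 h0 x0 → MP l1 h1 x1 → MP l2 h2 x2 → MP l3 h3 x3 → Q x0 x1 x2 x3

theorem MP.split {l h : ℕ} {x : ℝ} (m : MP l h x) (k : ℕ) : MP l k x ∨ MP k h x := by
  rcases le_total (100000000 * x) k with h | h
  · exact Or.inl ⟨m.1, h⟩
  · exact Or.inr ⟨h, m.2⟩

theorem chk_a (F : Chk) (p q : Tr) (l0 h0 l1 h1 l2 h2 l3 h3 : ℕ) :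
    chk F (Tr.a p q) l0 h0 l1 h1 l2 h2 l3 h3 =
      iff' (chk F p l0 (Nat.div (Nat.add l0 h0) 2) l1 h1 l2 h2 l3 h3)
        (chk F q (Nat.div (Nat.add l0 h0) 2) h0 l1 h1 l2 h2 l3 h3) false :=
  force_eq (Nat.div (Nat.add l0 h0) 2) fun m =>
    iff' (chk F p l0 m l1 h1 l2 h2 l3 h3) (chk F q m h0 l1 h1 l2 h2 l3 h3) false

theorem chk_b (F : Chk) (p q : Tr) (l0 h0 l1 h1 l2 h2 l3 h3 : ℕ) :
    chk F (Tr.b p q) l0 h0 l1 h1 l2 h2 l3 h3 =
      iff' (chk F p l0 h0 l1 (Nat.div (Nat.add l1 h1) 2) l2 h2 l3 h3)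
        (chk F q l0 h0 (Nat.div (Nat.add l1 h1) 2) h1 l2 h2 l3 h3) false :=
  force_eq (Nat.div (Nat.add l1 h1) 2) fun m =>
    iff' (chk F p l0 h0 l1 m l2 h2 l3 h3) (chk F q l0 h0 m h1 l2 h2 l3 h3) false

theorem chk_c (F : Chk) (p q : Tr) (l0 h0 l1 h1 l2 h2 l3 h3 : ℕ) :
    chk F (Tr.c p q) l0 h0 l1 h1 l2 h2 l3 h3 =
      iff' (chk F p l0 h0 l1 h1 l2 (Nat.div (Nat.add l2 h2) 2) l3 h3)
        (chk F q l0 h0 l1 h1 (Nat.div (Nat.add l2 h2) 2) h2 l3 h3) false :=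
  force_eq (Nat.div (Nat.add l2 h2) 2) fun m =>
    iff' (chk F p l0 h0 l1 h1 l2 m l3 h3) (chk F q l0 h0 l1 h1 m h2 l3 h3) false

theorem chk_d (F : Chk) (p q : Tr) (l0 h0 l1 h1 l2 h2 l3 h3 : ℕ) :
    chk F (Tr.d p q) l0 h0 l1 h1 l2 h2 l3 h3 =
      iff' (chk F p l0 h0 l1 h1 l2 h2 l3 (Nat.div (Nat.add l3 h3) 2))
        (chk F q l0 h0 l1 h1 l2 h2 (Nat.div (Nat.add l3 h3) 2) h3) false :=
  force_eq (Nat.div (Nat.add l3 h3) 2) fun m =>
    iff' (chk F p l0 h0 l1 h1 l2 h2 l3 m) (chk F q l0 h0 l1 h1 l2 h2 m h3) false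

theorem chk_s {F : Chk} {Q : ℝ → ℝ → ℝ → ℝ → Prop} (hF : Snd F Q) (t : Tr) : Snd (chk F t) Q := by
  induction t with
  | l => exact hF
  | a p q hp hq =>
    intro l0 h0 l1 h1 l2 h2 l3 h3 H x0 x1 x2 x3 m0 m1 m2 m3
    rw [chk_a] at H
    obtain ⟨H1, H2⟩ := iff'_false H
    rcases m0.split (Nat.div (Nat.add l0 h0) 2) with m | m
    · exact hp _ _ _ _ _ _ _ _ H1 _ _ _ _ m m1 m2 m3
    · exact hq _ _ _ _ _ _ _ _ H2 _ _ _ _ m m1 m2 m3
  | b p q hp hq =>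
    intro l0 h0 l1 h1 l2 h2 l3 h3 H x0 x1 x2 x3 m0 m1 m2 m3
    rw [chk_b] at H
    obtain ⟨H1, H2⟩ := iff'_false H
    rcases m1.split (Nat.div (Nat.add l1 h1) 2) with m | m
    · exact hp _ _ _ _ _ _ _ _ H1 _ _ _ _ m0 m m2 m3
    · exact hq _ _ _ _ _ _ _ _ H2 _ _ _ _ m0 m m2 m3
  | c p q hp hq =>
    intro l0 h0 l1 h1 l2 h2 l3 h3 H x0 x1 x2 x3 m0 m1 m2 m3
    rw [chk_c] at H
    obtain ⟨H1, H2⟩ := iff'_false H
    rcases m2.split (Nat.div (Nat.add l2 h2) 2) with m | m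
    · exact hp _ _ _ _ _ _ _ _ H1 _ _ _ _ m0 m1 m m3
    · exact hq _ _ _ _ _ _ _ _ H2 _ _ _ _ m0 m1 m m3
  | d p q hp hq =>
    intro l0 h0 l1 h1 l2 h2 l3 h3 H x0 x1 x2 x3 m0 m1 m2 m3
    rw [chk_d] at H
    obtain ⟨H1, H2⟩ := iff'_false H
    rcases m3.split (Nat.div (Nat.add l3 h3) 2) with m | m
    · exact hp _ _ _ _ _ _ _ _ H1 _ _ _ _ m0 m1 m2 m
    · exact hq _ _ _ _ _ _ _ _ H2 _ _ _ _ m0 m1 m2 m

end Pool.Agent.Lib.MP_3e0ca7_an
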