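import Pool.Agent.Lib.MP_3e0ca7_an.CertE
import Pool.Agent.Lib.MP_3e0ca7_an.Ineq
import Pool.Agent.Lib.MP_3e0ca7_an.Alg

/-! The bound for `P(1)^2 ∑ (1 + τ)^2`, uniformly in the degree. -/

namespace Pool.Agent.Lib.MP_3e0ca7_an

open Real

noncomputable def rho (n : ℕ) (a b : ℝ) : ℝ := Gf n a b / (2 * n - 1 + (a + b))

noncomputable def s0f (a b m : ℝ) : ℝ := 3 / 2 - 2 * (a - b) / m + (1 - (a + b)) / (2 * (m - 1))

noncomputable def shf (a b m : ℝ) : ℝ :=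
  s0f a b m + (a - b) ^ 2 * ((m - 2 + (a + b)) / (2 * m ^ 2 * (m - 1)))

noncomputable def sig (n a b : ℝ) : ℝ := n * shf a b (2 * n - 2 + (a + b))

theorem sig_eq {a b n s1 s2 : ℝ} (ha : 0 < a) (hb : 0 < b) (hn : 2 ≤ n)
    (h1 : (2 * n - 2 + (a + b)) * s1 = -(n * (a - b)))
    (h2 : (2 * n - 3 + (a + b)) * s2 = n * (n - 1) - s1 ^ 2 - (a - b) * s1) :
    n + 2 * s1 + s2 = sig n a b := by
  obtain ⟨m, hm⟩ : ∃ m, m = 2 * n - 2 + (a + b) := ⟨_, rfl⟩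
  have p1 : m ≠ 0 := by linarith
  have p2 : m - 1 ≠ 0 := by linarith
  have e1 : s1 = -(n * (a - b)) / m := by rw [eq_div_iff p1, hm]; linarith
  have e2 : s2 = (n * (n - 1) - s1 ^ 2 - (a - b) * s1) / (m - 1) := by
    rw [eq_div_iff p2, hm]; linarith
  have e3 : n = (m + 2 - (a + b)) / 2 := by linarith
  rw [sig, ← hm, e2, e1, shf, s0f]
  field_simp
  rw [e3]; ring

theorem s0f_pos {a b m : ℝ} (ha : 0 < a) (hb : 0 < b) (ha1 : a ≤ 2 / 3) (hb1 : b ≤ 2 / 3)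
    (hm : 4 ≤ m) : 1 ≤ s0f a b m := by
  have h1 : 2 * (a - b) / m ≤ 1 / 3 := by rw [div_le_iff₀ (by linarith)]; linarith
  have h2 : -(1 / 6) ≤ (1 - (a + b)) / (2 * (m - 1)) := by
    rw [le_div_iff₀ (by linarith)]; linarith
  unfold s0f; linarith

theorem s0f_le {a b m : ℝ} (ha : 0 < a) (hb : 0 < b) (hm : 4 ≤ m) : s0f a b m ≤ shf a b m := by
  have h1 : 0 < m - 2 + (a + b) := by linarith
  have h2 : 0 < m - 1 := by linarith
  have : 0 ≤ (a - b) ^ 2 * ((m - 2 + (a + b)) / (2 * m ^ 2 * (m - 1))) := by positivity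
  unfold shf; linarith

theorem shf_step {a b m : ℝ} (ha : 0 < a) (hb : 0 < b) (hm : 4 ≤ m) : shf a b (m + 2) ≤
    shf a b m + (4 / (m * (m + 2)) * (a - b) - 1 / ((m - 1) * (m + 1)) * (1 - (a + b))) := by
  have p0 : 0 < m := by linarith
  have p1 : 0 < m - 1 := by linarith
  have p2 : 0 < m + 2 - 1 := by linarith
  have h1 : s0f a b (m + 2) = s0f a b m +
      (4 / (m * (m + 2)) * (a - b) - 1 / ((m - 1) * (m + 1)) * (1 - (a + b))) := by
    have e : m + 2 - 1 = m + 1 := by ring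
    unfold s0f; rw [e]; field_simp; ring
  have h2 : (m + 2 - 2 + (a + b)) / (2 * (m + 2) ^ 2 * (m + 2 - 1)) ≤
      (m - 2 + (a + b)) / (2 * m ^ 2 * (m - 1)) := by
    rw [div_le_div_iff₀ (by positivity) (by positivity)]
    obtain ⟨k, rfl⟩ : ∃ k, m = k + 4 := ⟨m - 4, by ring⟩
    have hk : 0 ≤ k := by linarith
    have hc : 0 < a + b := by linarith
    generalize a + b = c at hc
    have : 0 ≤ c * (12 * k ^ 2 + 112 * k + 264) + (8 * k ^ 3 + 92 * k ^ 2 + 328 * k + 336) := by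
      positivity
    linarith
  have := mul_le_mul_of_nonneg_left h2 (sq_nonneg (a - b))
  unfold shf; linarith

theorem rho_succ {a b : ℝ} (ha : 0 < a) (hb : 0 < b) (n : ℕ) :
    rho (n + 2) a b = rho (n + 1) a b *
      (((n + 1 : ℕ) + a) * ((n + 1 : ℕ) - 1 + (a + b)) / (((n + 1 : ℕ) + 1) * ((n + 1 : ℕ) + b))) := by
  have h := Gf_succ n ha hb
  have hn : (0 : ℝ) ≤ n := Nat.cast_nonneg n
  have p1 : 2 * ((n : ℝ) + 2) - 1 + (a + b) ≠ 0 := by linarith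
  have p2 : 2 * ((n : ℝ) + 1) - 1 + (a + b) ≠ 0 := by linarith
  unfold rho
  push_cast
  rw [div_mul_div_comm, div_eq_div_iff p1 (by positivity)]
  linear_combination h

theorem mono_step {a b n : ℝ} (ha : 0 < a) (hb : 0 < b) (ha1 : a ≤ 2 / 3) (hb1 : b ≤ 2 / 3)
    (hn : 3 ≤ n) (hQ : QMono a b (1 / n) 0) :
    ((n + a) * (n - 1 + (a + b)) / ((n + 1) * (n + b))) ^ 2 * sig (n + 1) a b * (1 + 1 / n) ≤
      sig n a b * (1 + 1 / (n + 1)) := by
  obtain ⟨m, hm⟩ : ∃ m, m = 2 * n - 2 + (a + b) := ⟨_, rfl⟩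
  have pn : 0 < n := by linarith
  have hm4 : 4 ≤ m := by linarith
  have p0 : 0 < m := by linarith
  have p1 : 0 < m - 1 := by linarith
  have p2 : 0 < n - 1 + (a + b) := by linarith
  have s0p := s0f_pos ha hb ha1 hb1 hm4
  have s0l := s0f_le ha hb hm4
  have st := shf_step ha hb hm4
  obtain ⟨Δ, hΔ⟩ : ∃ Δ, Δ = 4 / (m * (m + 2)) * (a - b) - 1 / ((m - 1) * (m + 1)) * (1 - (a + b)) :=
    ⟨_, rfl⟩
  rw [← hΔ] at st
  have key := hQ _ rfl (m / n) (by rw [hm]; field_simp; ring) (by positivity) ((m - 1) / n)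
    (by field_simp) (by positivity) (s0f a b m) (by unfold s0f; field_simp) (by linarith)
    (n ^ 2 * max Δ 0 / s0f a b m) (by
      rw [mul_max_of_nonneg _ _ (sq_nonneg n), mul_zero, hΔ]
      congr 2; field_simp) _ rfl (by linarith) ((n - 1 + (a + b)) / n) (by field_simp; ring)
    (by positivity) _ rfl _ rfl _ rfl _ rfl _ rfl _ rfl
  obtain ⟨x, hx⟩ : ∃ x, x = max Δ 0 / s0f a b m := ⟨_, rfl⟩
  have px : 0 ≤ x := by rw [hx]; exact div_nonneg (le_max_right _ _) (by linarith)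
  have k1 : shf a b (m + 2) ≤ shf a b m * (1 + x) := by
    have u1 : Δ ≤ s0f a b m * x := by
      rw [hx, mul_div_cancel₀ _ (by linarith)]; exact le_max_left _ _
    have u2 := mul_le_mul_of_nonneg_right s0l px
    linarith
  rw [mul_div_assoc, ← hx] at key
  have k2 : (1 + 1 / n) * (1 + x) * ((n + 1) ^ 2 / (n * (n + 2))) ≤
      ((n + 1) * (n + b) / ((n + a) * (n - 1 + (a + b)))) ^ 2 := by
    have := add_le_add_left (mul_le_mul_of_nonneg_left key (show 0 ≤ 1 / n by positivity)) 1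
    refine le_trans (le_of_eq ?_) (this.trans (le_of_eq ?_))
    · field_simp; ring
    · field_simp; ring
  have e1 : sig (n + 1) a b = (n + 1) * shf a b (m + 2) := by
    unfold sig; congr 2; rw [hm]; ring
  have e2 : sig n a b = n * shf a b m := by unfold sig; rw [hm]
  rw [e1, e2]
  obtain ⟨W, hW⟩ : ∃ W, W = (n + 1) * (n + b) / ((n + a) * (n - 1 + (a + b))) := ⟨_, rfl⟩
  have pW : 0 < W := by rw [hW]; positivity
  have e3 : (n + a) * (n - 1 + (a + b)) / ((n + 1) * (n + b)) = 1 / W := by rw [hW]; field_simp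
  rw [← hW] at k2
  rw [e3]
  have ps : 0 ≤ shf a b m := by linarith
  calc _ ≤ (1 / W) ^ 2 * ((n + 1) * (shf a b m * (1 + x))) * (1 + 1 / n) := by gcongr
    _ = (1 / W) ^ 2 * ((1 + 1 / n) * (1 + x) * ((n + 1) ^ 2 / (n * (n + 2)))) *
        (n * shf a b m * (1 + 1 / (n + 1))) := by field_simp; ring
    _ ≤ (1 / W) ^ 2 * W ^ 2 * (n * shf a b m * (1 + 1 / (n + 1))) := by gcongr
    _ = _ := by field_simp

theorem mono_all {a b : ℝ} (ha : 0 < a) (hb : 0 < b) (ha1 : a ≤ 2 / 3) (hb1 : b ≤ 2 / 3)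
    (hQ : ∀ e, 0 ≤ e → e ≤ 1 / 3 → QMono a b e 0) (n : ℕ) (hn : 3 ≤ n) :
    rho n a b ^ 2 * sig n a b ≤ rho 3 a b ^ 2 * sig 3 a b * (3 / 4 * (1 + 1 / n)) := by
  induction n, hn using Nat.le_induction with
  | base => norm_num
  | succ n hn ih =>
    obtain ⟨k, rfl⟩ : ∃ k, n = k + 1 := ⟨n - 1, by omega⟩
    rw [rho_succ ha hb]
    have hn' : (3 : ℝ) ≤ (k + 1 : ℕ) := by exact_mod_cast hn
    rw [Nat.cast_succ (k + 1)]
    generalize ((k + 1 : ℕ) : ℝ) = N at *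
    have pN : 0 < N := by linarith
    have st := mono_step ha hb ha1 hb1 hn'
      (hQ _ (by positivity) (one_div_le_one_div_of_le (by norm_num) hn'))
    refine le_of_mul_le_mul_right ?_ (show 0 < 1 + 1 / N by positivity)
    have u1 := mul_le_mul_of_nonneg_left st (sq_nonneg (rho (k + 1) a b))
    have u2 := mul_le_mul_of_nonneg_right ih (show 0 ≤ 1 + 1 / (N + 1) by positivity)
    linarith

noncomputable def pi3 (a b : ℝ) : ℝ :=
  (1 + a) * (2 + a) * (1 + (a + b)) / (3 * (1 + b) * (2 + b) * (1 + 693 / 1000 * (a + b) *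
    (1 + 693 / 1000 * (a + b) * (1 / 2 + 693 / 1000 * (a + b) *
      (1 / 6 + 1 / 24 * (693 / 1000 * (a + b)))))) * (1 - min (min a b) (1 / 4 * (a + b))))

theorem sig3 {a b : ℝ} (ha : 0 < a) (hb : 0 < b) : sig 3 a b = 3 - 6 / (4 + (a + b)) * (a - b) +
    (6 + 3 * ((a - b) * (a - b)) * (1 + (a + b)) / ((4 + (a + b)) * (4 + (a + b)))) / (3 + (a + b)) := by
  have e1 : 2 * 3 - 2 + (a + b) = 4 + (a + b) := by ring
  have e2 : 4 + (a + b) - 1 = 3 + (a + b) := by ring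
  unfold sig shf s0f
  rw [e1, e2]
  field_simp; ring

theorem sig_pos {a b n : ℝ} (ha : 0 < a) (hb : 0 < b) (ha1 : a ≤ 2 / 3) (hb1 : b ≤ 2 / 3)
    (hn : 3 ≤ n) : 0 < sig n a b := by
  have h1 := s0f_pos ha hb ha1 hb1 (m := 2 * n - 2 + (a + b)) (by linarith)
  have h2 := s0f_le ha hb (m := 2 * n - 2 + (a + b)) (by linarith)
  exact mul_pos (by linarith) (by linarith)

theorem hm_pos {a b : ℝ} (ha1 : a ≤ 2 / 3) : 0 < 1 - min (min a b) (1 / 4 * (a + b)) := by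
  linarith [min_le_left (min a b) (1 / 4 * (a + b)), min_le_left a b]

theorem two_rpow_ge {c : ℝ} (hc : 0 ≤ c) : 1 + 693 / 1000 * c * (1 + 693 / 1000 * c *
    (1 / 2 + 693 / 1000 * c * (1 / 6 + 1 / 24 * (693 / 1000 * c)))) ≤ 2 ^ c := by
  refine (exp_T4 (by positivity)).trans ?_
  rw [rpow_def_of_pos two_pos, exp_le_exp]
  have := log_two_gt_d9
  nlinarith

theorem rho3_le {a b μ : ℝ} (ha : 0 < a) (hb : 0 < b) (ha1 : a ≤ 2 / 3)
    (hμ : 2 ^ (a + b - 1) * (a + b - a * b) / (a * b) ≤ μ) :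
    0 ≤ rho 3 a b ∧ rho 3 a b ≤ a ^ 2 * pi3 a b * μ := by
  have e1 : rho 3 a b = a * (a + 1) * (a + 2) * (a + b) * (a + b + 1) / (6 * b * (b + 1) * (b + 2)) := by
    have p : 2 * (3 : ℝ) - 1 + (a + b) = 5 + (a + b) := by ring
    simp only [rho, Gf]
    push_cast
    rw [p]
    field_simp; ring
  refine ⟨by rw [e1]; positivity, ?_⟩
  have h1 := two_rpow_ge (c := a + b) (by linarith)
  have h2 := hm_pos (b := b) ha1
  have h3 : (a + b) * (1 - min (min a b) (1 / 4 * (a + b))) ≤ a + b - a * b := by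
    have : a * b ≤ (a + b) * min (min a b) (1 / 4 * (a + b)) := by
      rw [mul_min_of_nonneg _ _ (by linarith), mul_min_of_nonneg _ _ (by linarith)]
      refine le_min (le_min ?_ ?_) ?_ <;> nlinarith [sq_nonneg (a - b), mul_pos ha ha, mul_pos hb hb]
    linarith
  unfold pi3
  generalize (1 - min (min a b) (1 / 4 * (a + b))) = hm at *
  have pT : 0 < 1 + 693 / 1000 * (a + b) * (1 + 693 / 1000 * (a + b) *
    (1 / 2 + 693 / 1000 * (a + b) * (1 / 6 + 1 / 24 * (693 / 1000 * (a + b))))) := by positivity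
  generalize (1 + 693 / 1000 * (a + b) * (1 + 693 / 1000 * (a + b) *
    (1 / 2 + 693 / 1000 * (a + b) * (1 / 6 + 1 / 24 * (693 / 1000 * (a + b)))))) = T at *
  have h4 : T / 2 * ((a + b) * hm) / (a * b) ≤ μ := by
    refine le_trans ?_ hμ
    rw [rpow_sub_one two_ne_zero]
    gcongr
  refine le_trans (le_of_eq ?_) (mul_le_mul_of_nonneg_left h4 (by positivity))
  rw [e1]; field_simp; ring

theorem P_bound {a b μ P : ℝ} (ha : 0 < a) (hb : 0 < b) (ha1 : a ≤ 2 / 3) (hb1 : b ≤ 2 / 3)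
    (hQ : ∀ e, 0 ≤ e → e ≤ 1 / 3 → QMono a b e 0) {n : ℕ} (hn : 3 ≤ n)
    (hμ : 2 ^ (a + b - 1) * (a + b - a * b) / (a * b) ≤ μ) (hμ0 : 0 < μ) (hP : P * μ = rho n a b) :
    P ^ 2 * sig n a b ≤ a ^ 4 * (pi3 a b * pi3 a b * sig 3 a b) * (3 / 4 * (1 + 1 / n)) := by
  have h1 := mono_all ha hb ha1 hb1 hQ n hn
  obtain ⟨h2, h3⟩ := rho3_le ha hb ha1 hμ
  have h4 := pow_le_pow_left₀ h2 h3 2
  have h5 := sig_pos ha hb ha1 hb1 (le_refl 3)
  have h6 := mul_le_mul_of_nonneg_right h4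
    (show 0 ≤ sig 3 a b * (3 / 4 * (1 + 1 / (n : ℝ))) by positivity)
  rw [← hP] at h1
  refine le_of_mul_le_mul_left ?_ (show 0 < μ ^ 2 by positivity)
  linarith

theorem kh_maj {a b : ℝ} (ha : 0 < a) (hb : 0 < b) (ha1 : a ≤ 2 / 3) (hb1 : b ≤ 2 / 3)
    (hQ : QKb a b 0 0) :
    pi3 a b * pi3 a b * sig 3 a b ≤ (7 / 10 + 27 / 10 * a) / (1 + 1 / 2 * b) :=
  hQ _ rfl _ rfl _ rfl (hm_pos ha1).le _ rfl _ (sig3 ha hb) (sig_pos ha hb ha1 hb1 le_rfl).le _ rfl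

end Pool.Agent.Lib.MP_3e0ca7_an
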