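import Pool.Agent.Lib.MP_3e0ca7_an.Two

/-! Assembly of all cases. -/

namespace Pool.Agent.Lib.MP_3e0ca7_an

open Polynomial Finset Real

theorem goal_refl {a b : ℝ} {n : ℕ} {τ σ : Fin n → ℝ} {j : Fin n} {t : ℝ}
    (h : Goal b a (fun i => -τ i) σ j (-t)) : Goal a b τ σ j t := by
  have e1 : ∀ x s, Hh b a (-x) s (-t) = Hh a b x s t := fun x s => by
    unfold Hh; congr 1 <;> ring
  have e2 : ∀ x : ℝ, ((1 - (-x) ^ 2) / (-t - -x)) ^ 2 = ((1 - x ^ 2) / (t - x)) ^ 2 := fun x => by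
    rw [div_pow, div_pow]; congr 1 <;> ring
  unfold Goal at h ⊢
  simpa only [e1, e2] using h

theorem exists_goal {a b : ℝ} {n : ℕ} {τ σ : Fin n → ℝ} (ha : 0 < a) (hb : 0 < b)
    (ha1 : a ≤ 6631 / 10000) (hb1 : b ≤ 6631 / 10000) (hΦ : Phi a ≤ 8) (hΨ : Phi b ≤ 8)
    (h : Quad a b (IJ ha hb) n τ σ) (hn : 2 ≤ n) {t : ℝ} (t0 : -1 ≤ t) (t1 : t ≤ 1)
    (ht : ∀ i, t ≠ τ i) : ∃ j, Goal a b τ σ j t := by
  rcases hn.eq_or_lt with rfl | hn3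
  · exact ⟨0, node_two ha hb ha1 hb1 hΦ hΨ h t0 t1 ht⟩
  obtain ⟨j, -, hj⟩ := exists_min_image univ (fun i => |t - τ i|) ⟨⟨0, by omega⟩, mem_univ _⟩
  have hj1 : ∀ i, |t - τ j| ≤ |t - τ i| := fun i => hj i (mem_univ i)
  have hj2 : ∀ i, |-t - -τ j| ≤ |-t - -τ i| := fun i => by
    rw [neg_sub_neg, neg_sub_neg, abs_sub_comm, abs_sub_comm (τ i)]; exact hj1 i
  have ht2 : ∀ i, -t ≠ -τ i := fun i e => ht i (neg_injective e)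
  refine ⟨j, ?_⟩
  by_cases c1 : ∀ i, τ i ≤ τ j
  · exact node_ext ha hb ha1 hb1 h hn3 c1 t0 t1 ht hj1
  by_cases c2 : ∀ i, τ j ≤ τ i
  · exact goal_refl (node_ext hb ha hb1 ha1 (h.refl ha hb) hn3 (fun i => neg_le_neg (c2 i))
      (by linarith) (by linarith) ht2 hj2)
  obtain ⟨i1, c1⟩ := not_forall.mp c1
  obtain ⟨i2, c2⟩ := not_forall.mp c2
  rcases le_total 0 (τ j) with c | c
  · exact node_int ha hb ha1 hb1 h (not_le.mp c1) (not_le.mp c2) c ht hj1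
  · exact goal_refl (node_int hb ha hb1 ha1 (h.refl ha hb) (i1 := i2) (i2 := i1)
      (neg_lt_neg (not_le.mp c2)) (neg_lt_neg (not_le.mp c1)) (neg_nonneg.mpr c) ht2 hj2)

theorem main {a b : ℝ} {n : ℕ} {τ σ : Fin n → ℝ} (ha : 0 < a) (hb : 0 < b)
    (ha1 : a ≤ 1) (hb1 : b ≤ 1) (hΦ : Phi a ≤ 8) (hΨ : Phi b ≤ 8)
    (h : Quad a b (IJ ha hb) n τ σ) (hn : 2 ≤ n) {t : ℝ} (t0 : -1 ≤ t) (t1 : t ≤ 1) :
    ∑ i, ((hpol a b τ i).eval t ^ 2 + (σ i)⁻¹ ^ 2 * (kpol τ i).eval t ^ 2) ≤ 1 := by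
  have a1 := small_of_Phi ha1 hΦ
  have b1 := small_of_Phi hb1 hΨ
  by_cases ht : ∀ i, t ≠ τ i
  · obtain ⟨j, hj⟩ := exists_goal ha hb a1 b1 hΦ hΨ h hn t0 t1 ht
    exact h.final ha hb (by linarith) (by linarith) t0 t1 ht hj
  · obtain ⟨j, hj⟩ := not_forall.mp ht
    rw [not_not.mp hj]
    simp [h.hpol_val, Quad.kpol_val]

end Pool.Agent.Lib.MP_3e0ca7_an
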