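import Pool.Agent.Lib.MP_3e0ca7_an.NodeInt
import Pool.Agent.Lib.MP_3e0ca7_an.ExtCore

/-! The one node inequality at the largest node. -/

namespace Pool.Agent.Lib.MP_3e0ca7_an

open Polynomial Finset Real

theorem Hh_anti {a b x s t : ℝ} (hs : 0 ≤ s) (h1 : x < t) (h2 : t ≤ 1) (hx : -1 < x)
    (hv : 0 < 1 - x ^ 2 - (a - b + (a + b) * x) * (1 - x)) : Hh a b x s 1 ≤ Hh a b x s t := by
  have p1 : 0 < t - x := by linarith
  have p2 : 0 < 1 - x := by linarith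
  have p3 : 0 < 1 - x ^ 2 := by nlinarith
  unfold Hh
  rw [div_le_div_iff₀ (by positivity) (by positivity)]
  generalize 1 - x ^ 2 = D at *
  generalize a - b + (a + b) * x = β at *
  have e : 1 - x = (t - x) + (1 - t) := by ring
  have p4 : 0 ≤ 1 - t := by linarith
  rw [e] at hv ⊢
  generalize t - x = y at *
  generalize 1 - t = d at *
  have : 0 ≤ s * d * (y * (D - β * (y + d)) + D * (y + d)) := by positivity
  linarith

namespace Quad

variable {a b : ℝ} {I : ℝ[X] →ₗ[ℝ] ℝ} {n : ℕ} {τ σ : Fin n → ℝ}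

theorem top_lt (h : Quad a b I n τ σ) {j : Fin n} (hj : ∀ i, τ i ≤ τ j) :
    ∀ i ∈ univ.erase j, 0 < τ j - τ i := fun i hi =>
  sub_pos.mpr ((hj i).lt_of_ne (ne_of_erase h.inj j i hi).symm)

/-- to the right of the largest node the inequality follows from the one at `t = 1` -/
theorem goal_mono (h : Quad a b I n τ σ) (ha : 0 < a) (hb : 0 < b) (ha1 : a < 1) (hb1 : b < 1)
    {j : Fin n} (hj : ∀ i, τ i ≤ τ j) {t : ℝ} (h1 : τ j < t) (h2 : t ≤ 1)
    (hg : Goal a b τ σ j 1) : Goal a b τ σ j t := by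
  have hv : ∀ i, 0 < 1 - τ i ^ 2 - (a - b + (a + b) * τ i) * (1 - τ i) := fun i =>
    v_pos ha hb ha1 hb1 (h.gt_neg i) (h.lt_one i) (by norm_num) le_rfl
  have p1 : 0 < t - τ j := by linarith
  have p2 : 0 < 1 - τ j := by linarith
  have k0 : 0 ≤ a - b + (a + b) * τ j := by
    rw [← (h.S123 j).1]
    exact mul_nonneg (by linarith [h.Dpos j])
      (sum_nonneg fun i hi => (one_div_pos.mpr (h.top_lt hj i hi)).le)
  have k1 : ∑ i ∈ univ.erase j, Hh a b (τ i) (σ i) 1 ≤ ∑ i ∈ univ.erase j, Hh a b (τ i) (σ i) t :=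
    sum_le_sum fun i _ => Hh_anti (h.spos i).le (by linarith [hj i]) h2 (h.gt_neg i) (hv i)
  have k2 : 0 ≤ ∑ i ∈ univ.erase j, Hh a b (τ i) (σ i) 1 :=
    sum_nonneg fun i _ => div_nonneg (mul_pos (h.spos i) (hv i)).le (sq_nonneg _)
  have k3 : (t - τ j) ^ 2 * ∑ i, ((1 - τ i ^ 2) / (t - τ i)) ^ 2 ≤
      (1 - τ j) ^ 2 * ∑ i, ((1 - τ i ^ 2) / (1 - τ i)) ^ 2 := by
    rw [mul_sum, mul_sum]
    refine sum_le_sum fun i _ => ?_
    have q1 : 0 < t - τ i := by linarith [hj i]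
    have q2 : 0 < 1 - τ i := by linarith
    have q3 := h.Dpos i
    rw [← mul_pow, ← mul_pow]
    refine pow_le_pow_left₀ (by positivity) ?_ 2
    rw [← mul_div_assoc, ← mul_div_assoc, div_le_div_iff₀ q1 q2]
    have := mul_nonneg q3.le (mul_nonneg (sub_nonneg.mpr h2) (sub_nonneg.mpr (hj i)))
    linarith
  have k4 : (1 - τ j) ^ 2 * Hh a b (τ j) (σ j) 1 ≤ (t - τ j) ^ 2 * Hh a b (τ j) (σ j) t := by
    unfold Hh
    rw [mul_div_cancel₀ _ (by positivity), mul_div_cancel₀ _ (by positivity)]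
    have := mul_nonneg (h.spos j).le (mul_nonneg k0 (sub_nonneg.mpr h2))
    linarith
  have k5 : 0 ≤ (1 - τ j) ^ 2 * Hh a b (τ j) (σ j) 1 :=
    mul_nonneg (sq_nonneg _) (div_nonneg (mul_pos (h.spos j) (hv j)).le (sq_nonneg _))
  have k6 := mul_le_mul k4 k1 k2 (k5.trans k4)
  unfold Goal at hg ⊢
  have k7 := mul_le_mul_of_nonneg_left hg (sq_nonneg (1 - τ j))
  refine le_of_mul_le_mul_left ?_ (show 0 < (t - τ j) ^ 2 by positivity)
  linarith

theorem extD (h : Quad a b I n τ σ) (ha : 0 < a) (hb : 0 < b) (ha1 : a ≤ 2 / 3) (hb1 : b ≤ 2 / 3)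
    (hn : 3 ≤ n) {j : Fin n} (hj : ∀ i, τ i ≤ τ j) {X Y b0 N M3 : ℝ} (hX : X = 1 - τ j)
    (hY : Y = 1 + τ j) (hb0 : b0 = a - b + (a + b) * τ j)
    (hN : N = ((n : ℝ) * (n - 1 + (a + b)) - (a + b)) * (X * Y) / 3 - b0 * (b0 + 8 * τ j) / 12)
    (hM : M3 = -(3 / 2) * τ j * N + b0 / 8 * (τ j * b0 + (a + b + 2) * (X * Y))) :
    ∃ Θ1, ExtD a b n X Y (b0 / Y) N M3 Θ1 ∧ 1 + b0 / Y / 2 ≤ (lag τ j).eval 1 ∧
      (lag τ j).eval 1 ≤ exp (b0 / Y / 2) := by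
  have pX : 0 < X := by linarith [h.lt_one j]
  have pY : 0 < Y := by linarith [h.gt_neg j]
  have hD : X * Y = 1 - τ j ^ 2 := by rw [hX, hY]; ring
  have hne : (univ.erase j).Nonempty := card_pos.mp (by simp; omega)
  have hd := h.top_lt hj
  obtain ⟨e1, e2, e3⟩ := h.S123 j
  rw [← hD, ← hb0] at e1 e2 e3
  rw [← hN] at e2 e3
  rw [← hM] at e3
  have pb : 0 < b0 := by
    rw [← e1]
    exact mul_pos (by positivity) (sum_pos (fun i hi => one_div_pos.mpr (hd i hi)) hne)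
  have pN : 0 < N := by
    rw [← e2]
    exact mul_pos (by positivity) (sum_pos (fun i hi => pow_pos (one_div_pos.mpr (hd i hi)) 2) hne)
  have pM : 0 < M3 := by
    rw [← e3]
    exact mul_pos (by positivity) (sum_pos (fun i hi => pow_pos (one_div_pos.mpr (hd i hi)) 3) hne)
  obtain ⟨s1, s2, s3⟩ := h.usums j (t := 1) (ξ := 1 / Y) hD (by field_simp; linarith) hb0 hN hM pN.ne'
  have f1 : b0 * (1 / Y) / 2 = b0 / Y / 2 := by ring
  have f2 : N * (1 / Y) ^ 2 = N / Y ^ 2 := by field_simp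
  have f3 : 1 / Y * M3 / N = M3 / (N * Y) := by field_simp
  rw [f1] at s1
  rw [f2] at s2 s3
  rw [f3] at s3
  have hu : ∀ i ∈ univ.erase j, 0 ≤ (1 - τ j) * (1 / (τ j - τ i)) := fun i hi =>
    mul_nonneg (by linarith) (one_div_pos.mpr (hd i hi)).le
  have hU : ∀ i ∈ univ.erase j, (1 - τ j) * (1 / (τ j - τ i)) ≤ b0 / Y / 2 := fun i hi => by
    rw [← s1]; exact single_le_sum hu hi
  have hx := h.xR (t := 1) (fun i => (h.lt_one i).ne') j
  have hr := h.ric (t := 1) fun i => (h.lt_one i).ne'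
  rw [s1] at hx
  have eb : b0 / Y * Y = b0 := div_mul_cancel₀ _ pY.ne'
  have eτ : 1 - X = τ j := by linarith
  refine ⟨_, ⟨ha, hb, ha1, hb1, by exact_mod_cast hn, pX, by linarith, pY, by positivity,
    by rw [eb, hb0, hX, hY]; ring, pN, by rw [eb, eτ, hN], by rw [eb, eτ, hM], pM.le,
    theta_lo (fun i hi => by linarith [hu i hi]) s2 s3 (by positivity),
    theta_hi0 hu s2 s3 (by positivity) hU, ?_, ?_, ?_⟩, ?_, ?_⟩
  · refine le_of_mul_le_mul_right ?_ (show 0 < N / Y ^ 2 by positivity)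
    rw [← s3, ← s2, mul_sum]
    refine sum_le_sum fun i hi => ?_
    have := mul_le_mul_of_nonneg_right (hU i hi) (sq_nonneg ((1 - τ j) * (1 / (τ j - τ i))))
    linarith
  · rw [← s1, ← s2]; exact sum_sq_le_sq_sum_of_nonneg hu
  · rw [← hx, hX]; linear_combination (1 - τ j) * hr
  · rw [lag_eval h.inj, ← s1]; exact one_add_sum_le hu
  · rw [lag_eval h.inj, ← s1]; exact prod_le_exp hu

end Quad

theorem node_ext {a b : ℝ} {n : ℕ} {τ σ : Fin n → ℝ} (ha : 0 < a) (hb : 0 < b)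
    (ha1 : a ≤ 6631 / 10000) (hb1 : b ≤ 6631 / 10000) (h : Quad a b (IJ ha hb) n τ σ) (hn : 3 ≤ n)
    {j : Fin n} (hj : ∀ i, τ i ≤ τ j) {t : ℝ} (t0 : -1 ≤ t) (t1 : t ≤ 1)
    (ht : ∀ i, t ≠ τ i) (hnear : ∀ i, |t - τ j| ≤ |t - τ i|) : Goal a b τ σ j t := by
  obtain ⟨X, hX⟩ : ∃ X, X = 1 - τ j := ⟨_, rfl⟩
  obtain ⟨Y, hY⟩ : ∃ Y, Y = 1 + τ j := ⟨_, rfl⟩
  obtain ⟨b0, hb0⟩ : ∃ b0, b0 = a - b + (a + b) * τ j := ⟨_, rfl⟩
  obtain ⟨N, hN⟩ : ∃ N, N = ((n : ℝ) * (n - 1 + (a + b)) - (a + b)) * (X * Y) / 3 -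
    b0 * (b0 + 8 * τ j) / 12 := ⟨_, rfl⟩
  obtain ⟨M3, hM⟩ : ∃ M3, M3 = -(3 / 2) * τ j * N + b0 / 8 * (τ j * b0 + (a + b + 2) * (X * Y)) :=
    ⟨_, rfl⟩
  have a2 : a ≤ 2 / 3 := by linarith
  have b2 : b ≤ 2 / 3 := by linarith
  obtain ⟨Θ1, hE, l1, l2⟩ := h.extD ha hb a2 b2 hn hj hX hY hb0 hN hM
  have pX := hE.pX
  have pY := hE.pY
  have pN := hE.pN
  have py := hE.py
  have hD : X * Y = 1 - τ j ^ 2 := by rw [hX, hY]; ring
  have mA : MP 0 66310000 a := MP.mk' ha.le (by push_cast; linarith)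
  have mB : MP 0 66310000 b := MP.mk' hb.le (by push_cast; linarith)
  have m0 : MP 0 0 (0 : ℝ) := MP.mk' le_rfl (by simp)
  have mE : ∀ e : ℝ, 0 ≤ e → e ≤ 1 / 3 → MP 0 33333334 e := fun e e0 e1 =>
    MP.mk' e0 (by push_cast; linarith)
  have mN := mE (1 / n) (by positivity) hE.basic.2.2.2.2.2
  have h1 : ∀ i, (1 : ℝ) ≠ τ i := fun i => (h.lt_one i).ne'
  have pP := h.Pn_pos j.pos h1
  have hK := P_bound ha hb a2 b2 (fun e e0 e1 => allMono mA mB (mE e e0 e1) m0) hn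
    (mu_lo ha hb (by linarith) (by linarith))
    (by simpa using h.toPF.sq_pos one_ne_zero) (h.Pn_one ha hb j.pos)
  have hσ : σ j * (X * Y) * Quad.Pn (IJ ha hb) a b τ 1 = X ^ 2 * (lag τ j).eval 1 ^ 2 := by
    rw [h.lag_sq j (h1 j), ← hX, ← hD]; field_simp
  generalize Quad.Pn (IJ ha hb) a b τ 1 = P at pP hK hσ
  have eS := sig_eq ha hb (by exact_mod_cast (by omega : 2 ≤ n)) h.s1 h.s2
  rcases lt_or_gt_of_ne (ht j) with hx | hx
  · obtain ⟨ξ, hξ⟩ : ∃ ξ, ξ = (t - τ j) / (X * Y) := ⟨_, rfl⟩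
    have e1 : t - τ j = ξ * (X * Y) := by rw [hξ]; field_simp
    have e2 : t = τ j + ξ * (X * Y) := by linarith
    have hξ0 : ξ < 0 := by rw [hξ]; exact div_neg_of_neg_of_pos (by linarith) (by positivity)
    obtain ⟨s1, s2, s3⟩ := h.usums j hD e2 hb0 hN hM pN.ne'
    have hu : ∀ i ∈ univ.erase j, -1 / 2 ≤ (t - τ j) * (1 / (τ j - τ i)) := fun i hi =>
      near_half (ne_of_erase h.inj j i hi) (hnear i)
    have hU : ∀ i ∈ univ.erase j, (t - τ j) * (1 / (τ j - τ i)) ≤ 0 := fun i hi =>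
      mul_nonpos_of_nonpos_of_nonneg (by linarith) (one_div_pos.mpr (h.top_lt hj i hi)).le
    have hw := ubar_lo hu s2 s3 (mul_pos pN (by have := hξ0.ne; positivity))
    refine h.goal_core j ht hD e2 hb0 rfl (hE.ext_core
      (fun η η0 η1 => allExt mA mB mN (MP.mk' η0 (by push_cast; linarith))) hξ0 (by linarith) t0
      (div_mul_cancel₀ _ pY.ne').symm hw (theta_lo hu s2 s3 hw) (theta_hi hu s2 s3 le_rfl hU) ?_ ?_
      h.s1 h.s2 pP hσ l1 (hK.trans ?_))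
    · refine le_trans (le_of_eq ?_) (prod_exp hu s2 s3 hw)
      rw [s1]; congr 1; ring
    · have : ∑ i ∈ univ.erase j, ((t - τ j) * (1 / (τ j - τ i))) ^ 2 ≤
          ∑ i ∈ univ.erase j, -(1 / 2) * ((t - τ j) * (1 / (τ j - τ i))) :=
        sum_le_sum fun i hi => by nlinarith only [hu i hi, hU i hi]
      rw [← mul_sum, s1, s2] at this
      linarith
    · have := kh_maj ha hb a2 b2 (allKb mA mB m0 m0)
      gcongr
  · refine h.goal_mono ha hb (by linarith) (by linarith) hj hx t1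
      (h.goal_of h1 j (v := 1 - b0 / Y) (by rw [← hX, ← hD, ← hb0]; field_simp) ?_)
    have k1 := hE.one_core (allOne mA mB mN m0) hK l1 l2
    have k2 : ∑ i, ((1 - τ i ^ 2) / (1 - τ i)) ^ 2 = sig n a b := by
      rw [h.A_closed h1, ← eS]; ring
    have pl : 0 < (lag τ j).eval 1 := by linarith
    rw [k2, ← hX, ← hD]
    generalize (lag τ j).eval 1 = l at *
    have k3 : σ j * (X * Y) = X ^ 2 * l ^ 2 / P := by rw [← hσ]; field_simp
    rw [k3]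
    have k4 := mul_le_mul_of_nonneg_left k1 (show 0 ≤ X ^ 4 / P ^ 2 by positivity)
    refine le_trans (le_of_eq ?_) (k4.trans (le_of_eq ?_)) <;> field_simp

end Pool.Agent.Lib.MP_3e0ca7_an
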