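import Pool.Agent.Lib.MP_3e0ca7_an.Herm
import Pool.Agent.Lib.MP_3e0ca7_an.Gap
import Pool.Agent.Lib.MP_3e0ca7_an.IntCore
import Pool.Agent.Lib.MP_3e0ca7_an.All

/-! The one node inequality at an interior node. -/

namespace Pool.Agent.Lib.MP_3e0ca7_an

open Polynomial Finset Real

theorem near_half {t x y : ℝ} (hxy : x ≠ y) (h : |t - x| ≤ |t - y|) :
    -1 / 2 ≤ (t - x) * (1 / (x - y)) := by
  have h0 := sub_ne_zero.mpr hxy
  have h1 : (t - x) ^ 2 ≤ (t - y) ^ 2 := sq_le_sq.mpr h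
  have h2 : (t - x) * (1 / (x - y)) = ((t - y) ^ 2 - (t - x) ^ 2) / (2 * (x - y) ^ 2) - 1 / 2 := by
    field_simp; ring
  have h3 : 0 ≤ ((t - y) ^ 2 - (t - x) ^ 2) / (2 * (x - y) ^ 2) :=
    div_nonneg (by linarith) (by positivity)
  linarith

namespace Quad

variable {a b : ℝ} {I : ℝ[X] →ₗ[ℝ] ℝ} {n : ℕ} {τ σ : Fin n → ℝ}

theorem usums (h : Quad a b I n τ σ) (j : Fin n) {t ξ D b0 N M3 : ℝ} (hD : D = 1 - τ j ^ 2)
    (hξ : t = τ j + ξ * D) (hb0 : b0 = a - b + (a + b) * τ j)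
    (hN : N = ((n : ℝ) * (n - 1 + (a + b)) - (a + b)) * D / 3 - b0 * (b0 + 8 * τ j) / 12)
    (hM : M3 = -(3 / 2) * τ j * N + b0 / 8 * (τ j * b0 + (a + b + 2) * D)) (pN : N ≠ 0) :
    ∑ i ∈ univ.erase j, (t - τ j) * (1 / (τ j - τ i)) = b0 * ξ / 2 ∧
    ∑ i ∈ univ.erase j, ((t - τ j) * (1 / (τ j - τ i))) ^ 2 = N * ξ ^ 2 ∧
    ∑ i ∈ univ.erase j, ((t - τ j) * (1 / (τ j - τ i))) ^ 3 = ξ * M3 / N * (N * ξ ^ 2) := by
  obtain ⟨h1, h2, h3⟩ := h.S123 j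
  rw [← hD, ← hb0] at h1 h2 h3
  rw [← hN] at h2 h3
  rw [← hM] at h3
  have e : t - τ j = ξ * D := by linarith
  simp only [mul_pow, ← mul_sum, e]
  refine ⟨by rw [← h1]; ring, by rw [← h2]; ring, ?_⟩
  rw [← h3]; field_simp

theorem goal_core (h : Quad a b I n τ σ) (j : Fin n) {t ξ D b0 Θ : ℝ} (ht : ∀ i, t ≠ τ i)
    (hD : D = 1 - τ j ^ 2) (hξ : t = τ j + ξ * D) (hb0 : b0 = a - b + (a + b) * τ j)
    (hΘ : Θ = ∑ i ∈ univ.erase j, ((t - τ j) * (1 / (τ j - τ i))) ^ 2 /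
      (1 + (t - τ j) * (1 / (τ j - τ i))))
    (H : (ξ * D) ^ 2 * (((1 - t ^ 2) * (1 + b0 * ξ / 2 - Θ)) ^ 2 +
      (4 * t - (a - b + (a + b) * t)) * (ξ * D) * ((1 - t ^ 2) * (1 + b0 * ξ / 2 - Θ)) +
      (ξ * D) ^ 2 * ((n : ℝ) * (n - 1 + (a + b)) * (1 - t ^ 2) + n * (3 * t ^ 2 - 2) +
        2 * t * ∑ i, τ i + ∑ i, τ i ^ 2)) ≤
      2 * (σ j * D) ^ 2 * ((1 - b0 * ξ) *
        (1 / (∏ i ∈ univ.erase j, (1 + (t - τ j) * (1 / (τ j - τ i)))) ^ 2 - (1 - b0 * ξ)))) :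
    Goal a b τ σ j t := by
  have pD := (h.Dpos j).ne'
  have e : t - τ j = ξ * D := by linarith
  refine h.goal_of ht j (v := 1 - b0 * ξ) (by rw [e, hD, hb0]; field_simp) ?_
  have h1 := h.xR ht j
  have h2 : ∑ i ∈ univ.erase j, (t - τ j) * (1 / (τ j - τ i)) = b0 * ξ / 2 := by
    rw [← mul_sum, e, hb0, ← (h.S123 j).1, hD]; ring
  rw [h2, ← hΘ] at h1
  rw [h.A_closed ht, lag_eval h.inj, ← hD]
  refine le_trans (le_of_eq ?_) H
  rw [← h1, e]; ring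

theorem lag_norm (h : Quad a b I n τ σ) (j : Fin n) : I (lag τ j * lag τ j) = σ j := by
  have := lin_lag_degree τ j 1 (by simp)
  rw [one_mul] at this
  rw [h.quad _ this, sum_eq_single j]
  · rw [eval_mul, h.lag_self]; ring
  · intro i _ hi
    rw [eval_mul, lag_other τ hi]; ring
  · simp

theorem S2_lo (h : Quad a b I n τ σ) {j i1 i2 : Fin n} (h1 : τ j < τ i1) (h2 : τ i2 < τ j) :
    (1 / (1 - τ j)) ^ 2 + (1 / (1 + τ j)) ^ 2 ≤ ∑ i ∈ univ.erase j, (1 / (τ j - τ i)) ^ 2 := by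
  have e1 : i1 ≠ i2 := fun e => by rw [e] at h1; linarith
  have e2 : ({i1, i2} : Finset (Fin n)) ⊆ univ.erase j := by
    intro i hi
    refine mem_erase.mpr ⟨fun e => ?_, mem_univ _⟩
    rcases mem_insert.mp hi with k | k
    · rw [← e, k] at h1; exact lt_irrefl _ h1
    · rw [← e, mem_singleton.mp k] at h2; exact lt_irrefl _ h2
  refine le_trans ?_ (sum_le_sum_of_subset_of_nonneg e2 fun i _ _ => sq_nonneg _)
  rw [sum_pair e1]
  have u1 := h.lt_one i1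
  have u2 := h.gt_neg i2
  refine add_le_add ?_ ?_
  · rw [← neg_sub (τ i1), one_div_neg_eq_neg_one_div, neg_sq]
    exact pow_le_pow_left₀ (one_div_nonneg.mpr (by linarith))
      (one_div_le_one_div_of_le (by linarith) (by linarith)) 2
  · exact pow_le_pow_left₀ (one_div_nonneg.mpr (by linarith))
      (one_div_le_one_div_of_le (by linarith) (by linarith)) 2

end Quad

theorem sigma_lo {a b : ℝ} {n : ℕ} {τ σ : Fin n → ℝ} (ha : 0 < a) (hb : 0 < b) (ha1 : a ≤ 1)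
    (hb1 : b ≤ 1) (h : Quad a b (IJ ha hb) n τ σ) {j i1 i2 : Fin n} (h1 : τ j < τ i1)
    (h2 : τ i2 < τ j) :
    16 / 9 * wt a b (τ j) ^ 2 ≤ σ j ^ 2 * ∑ i ∈ univ.erase j, (1 / (τ j - τ i)) ^ 2 := by
  have k1 := h.S2_lo h1 h2
  obtain ⟨S, hS⟩ : ∃ S, S = ∑ i ∈ univ.erase j, (1 / (τ j - τ i)) ^ 2 := ⟨_, rfl⟩
  rw [← hS] at k1 ⊢
  have pX : 0 < 1 - τ j := by linarith [h.lt_one j]
  have pY : 0 < 1 + τ j := by linarith [h.gt_neg j]
  have q1 : 0 < (1 / (1 - τ j)) ^ 2 := by positivity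
  have q2 : 0 < (1 / (1 + τ j)) ^ 2 := by positivity
  have pS : 0 < S := by linarith
  have pr : 0 < √S := sqrt_pos.mpr pS
  have key : ∀ Z : ℝ, 0 < Z → (1 / Z) ^ 2 < S → 1 / √S < Z := by
    intro Z pZ hZ
    rw [one_div_lt pr pZ]
    exact lt_sqrt_of_sq_lt hZ
  have k2 := key _ pX (by linarith)
  have k3 := key _ pY (by linarith)
  have er : (1 / √S) ^ 2 = 1 / S := by rw [div_pow, sq_sqrt pS.le, one_pow]
  have k4 := loc_lo ha hb ha1 hb1 (lag τ j) (x := τ j) (r := 1 / √S) (by positivity) (by linarith)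
    (by linarith) fun y y1 y2 => by
      have u1 : y ^ 2 ≤ 1 / S := by
        rw [← er]; exact sq_le_sq' y1 y2
      have u2 : ∑ i ∈ univ.erase j, y ^ 2 * (1 / (τ j - τ i)) ^ 2 = y ^ 2 / (1 / √S) ^ 2 := by
        rw [← mul_sum, ← hS, er]; field_simp
      rw [lag_eval h.inj, lag_eval h.inj, ← prod_mul_distrib, ← u2]
      refine (one_sub_sum_le (fun i _ => by positivity) ?_).trans (le_of_eq ?_)
      · rw [← mul_sum, ← hS]; rwa [le_div_iff₀ pS] at u1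
      · exact prod_congr rfl fun i _ => by ring
  rw [h.lag_norm] at k4
  have k5 := pow_le_pow_left₀ (by have := wt_pos a b (h.gt_neg j) (h.lt_one j); positivity) k4 2
  rw [mul_pow, mul_pow, er] at k5
  have k6 := mul_le_mul_of_nonneg_right k5 pS.le
  refine le_trans (le_of_eq ?_) k6
  field_simp; ring

theorem node_int {a b : ℝ} {n : ℕ} {τ σ : Fin n → ℝ} (ha : 0 < a) (hb : 0 < b)
    (ha1 : a ≤ 6631 / 10000) (hb1 : b ≤ 6631 / 10000) (h : Quad a b (IJ ha hb) n τ σ)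
    {j i1 i2 : Fin n} (h1 : τ j < τ i1) (h2 : τ i2 < τ j) (h0 : 0 ≤ τ j) {t : ℝ}
    (ht : ∀ i, t ≠ τ i) (hnear : ∀ i, |t - τ j| ≤ |t - τ i|) : Goal a b τ σ j t := by
  have pX : 0 < 1 - τ j := by linarith [h.lt_one j]
  have pY : 0 < 1 + τ j := by linarith [h.gt_neg j]
  have hn : (3 : ℝ) ≤ n := by
    have : ({j, i1, i2} : Finset (Fin n)).card ≤ n := by simpa using card_le_univ ({j, i1, i2} : Finset (Fin n))
    rw [card_eq_three.mpr ⟨j, i1, i2, fun e => by rw [e] at h1; exact lt_irrefl _ h1,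
      fun e => by rw [e] at h2; exact lt_irrefl _ h2, fun e => by rw [e] at h1; linarith, rfl⟩] at this
    exact_mod_cast this
  obtain ⟨X, hX⟩ : ∃ X, X = 1 - τ j := ⟨_, rfl⟩
  obtain ⟨Y, hY⟩ : ∃ Y, Y = 1 + τ j := ⟨_, rfl⟩
  have hD : X * Y = 1 - τ j ^ 2 := by rw [hX, hY]; ring
  have k1 := h.S2_lo h1 h2
  have k2 := sigma_lo ha hb (by linarith) (by linarith) h h1 h2
  rw [← hX] at pX k1
  rw [← hY] at pY k1
  obtain ⟨ξ, hξ⟩ : ∃ ξ, ξ = (t - τ j) / (X * Y) := ⟨_, rfl⟩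
  have e1 : t - τ j = ξ * (X * Y) := by rw [hξ]; field_simp
  have e2 : t = τ j + ξ * (X * Y) := by linarith
  obtain ⟨b0, hb0⟩ : ∃ b0, b0 = a - b + (a + b) * τ j := ⟨_, rfl⟩
  obtain ⟨N, hN⟩ : ∃ N, N = ((n : ℝ) * (n - 1 + (a + b)) - (a + b)) * (X * Y) / 3 -
    b0 * (b0 + 8 * τ j) / 12 := ⟨_, rfl⟩
  have e3 := (h.S123 j).2.1
  rw [← hD, ← hb0, ← hN] at e3
  have k3 : 2 + 2 * (τ j * τ j) ≤ N := by
    have := mul_le_mul_of_nonneg_left k1 (sq_nonneg (X * Y))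
    rw [e3] at this
    refine le_trans (le_of_eq ?_) this
    field_simp
    rw [hX, hY]; ring
  have pN : 0 < N := by linarith [mul_self_nonneg (τ j)]
  obtain ⟨s1, s2, s3⟩ := h.usums j hD e2 hb0 hN rfl pN.ne'
  have hu : ∀ i ∈ univ.erase j, -1 / 2 ≤ (t - τ j) * (1 / (τ j - τ i)) := fun i hi =>
    near_half (ne_of_erase h.inj j i hi) (hnear i)
  have x0 : t - τ j ≠ 0 := sub_ne_zero.mpr (ht j)
  have hξ0 : ξ ≠ 0 := by rw [hξ]; positivity
  have hw := ubar_lo hu s2 s3 (by positivity)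
  have n1 := hnear i1
  have n2 := hnear i2
  have l1 := h.lt_one i1
  have l2 := h.gt_neg i2
  have g1 : 2 * (t - τ j) ≤ X ∧ t + |t - τ j| ≤ 1 := by
    rcases abs_cases (t - τ j) with k | k <;> rcases abs_cases (t - τ i1) with k' | k' <;>
      constructor <;> linarith [k.1, k.2, k'.1, k'.2]
  have g2 : -(2 * (t - τ j)) ≤ Y ∧ -1 ≤ t - |t - τ j| := by
    rcases abs_cases (t - τ j) with k | k <;> rcases abs_cases (t - τ i2) with k' | k' <;>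
      constructor <;> linarith [k.1, k.2, k'.1, k'.2]
  have g3 := h.gap (abs_pos.mpr x0) g2.2 g1.2 hnear
  have e4 : |t - τ j| = |ξ| * (X * Y) := by rw [e1, abs_mul, abs_of_pos (mul_pos pX pY)]
  rw [e4] at g3
  have ps : 0 < X ^ (1 / 6 : ℝ) := rpow_pos_of_pos pX _
  have s6 : (X ^ (1 / 6 : ℝ)) ^ 6 = X := by rw [← rpow_natCast, ← rpow_mul pX.le]; norm_num
  have s7 : X ^ (1 / 6 : ℝ) ≤ 1 := rpow_le_one pX.le (by linarith) (by norm_num)
  have mS : MP 0 100000000 (X ^ (1 / 6 : ℝ)) := MP.mk' ps.le (by push_cast; linarith)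
  have mA : MP 0 66310000 a := MP.mk' ha.le (by push_cast; linarith)
  have mB : MP 0 66310000 b := MP.mk' hb.le (by push_cast; linarith)
  refine h.goal_core j ht hD e2 hb0 rfl (int_core ha hb (by linarith) (by linarith) ps
    (by linarith only [s6]) (by linarith) h0 hY hξ0 hn e2 (by rw [hb0, hX, hY]; ring) hN k3
    ?_ ?_ g3 rfl hw (theta_lo hu s2 s3 hw) (fun U U0 U1 => theta_hi hu s2 s3 U0 fun i hi => ?_) ?_ ?_
    h.s1 h.s2 (fun z z0 z1 => allIntP mS (MP.mk' z0 (by push_cast; linarith)) mA mB)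
    fun z z0 z1 => allIntM mS (MP.mk' z0 (by push_cast; linarith)) mA mB)
  · refine le_of_mul_le_mul_left ?_ pX
    linarith [g1.1]
  · refine le_of_mul_le_mul_left ?_ pY
    linarith [g2.1]
  · refine le_of_sq_le_sq ?_ U0
    rw [← s2] at U1
    exact (single_le_sum (f := fun i => ((t - τ j) * (1 / (τ j - τ i))) ^ 2)
      (fun i _ => sq_nonneg _) hi).trans U1
  · refine le_trans (le_of_eq ?_) (prod_exp hu s2 s3 hw)
    rw [s1]; congr 1; ring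
  · have := mul_le_mul_of_nonneg_right k2 (sq_nonneg (X * Y))
    rw [← e3]; linarith

end Pool.Agent.Lib.MP_3e0ca7_an
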