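import Pool.Agent.Lib.MP_3e0ca7_an.Alg

/-! Gauss nodes: location, Christoffel numbers, power sums, Hermite polynomials. -/

namespace Pool.Agent.Lib.MP_3e0ca7_an

open Polynomial Finset

noncomputable def nod {ι : Type*} (s : Finset ι) (τ : ι → ℝ) : ℝ[X] := ∏ i ∈ s, (X - C (τ i))

theorem nod_logder {ι : Type*} [DecidableEq ι] (s : Finset ι) (τ : ι → ℝ) (y : ℝ)
    (hy : ∀ i ∈ s, y ≠ τ i) :
    (derivative (nod s τ)).eval y = (nod s τ).eval y * ∑ i ∈ s, 1 / (y - τ i) ∧
    (derivative (derivative (nod s τ))).eval y = (nod s τ).eval y *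
      ((∑ i ∈ s, 1 / (y - τ i)) ^ 2 - ∑ i ∈ s, (1 / (y - τ i)) ^ 2) ∧
    (derivative (derivative (derivative (nod s τ)))).eval y = (nod s τ).eval y *
      ((∑ i ∈ s, 1 / (y - τ i)) ^ 3 - 3 * (∑ i ∈ s, 1 / (y - τ i)) * (∑ i ∈ s, (1 / (y - τ i)) ^ 2)
        + 2 * ∑ i ∈ s, (1 / (y - τ i)) ^ 3) := by
  induction s using Finset.induction_on with
  | empty => simp [nod]
  | insert j s hj ih =>
    obtain ⟨h1, h2, h3⟩ := ih fun i hi => hy i (mem_insert_of_mem hi)
    have h0 : y - τ j ≠ 0 := sub_ne_zero.mpr (hy j (mem_insert_self _ _))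
    have e : nod (insert j s) τ = (X - C (τ j)) * nod s τ := prod_insert hj
    simp only [e, sum_insert hj, derivative_mul, derivative_sub, derivative_X, derivative_C,
      derivative_add, sub_zero, one_mul, eval_add, eval_mul, eval_sub, eval_X, eval_C, h1, h2, h3]
    generalize (∑ i ∈ s, 1 / (y - τ i)) = A
    generalize (∑ i ∈ s, (1 / (y - τ i)) ^ 2) = B
    generalize (∑ i ∈ s, (1 / (y - τ i)) ^ 3) = E
    generalize y - τ j = x at h0
    refine ⟨?_, ?_, ?_⟩ <;> field_simp <;> ring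

theorem nod_eval {ι : Type*} (s : Finset ι) (τ : ι → ℝ) (y : ℝ) :
    (nod s τ).eval y = ∏ i ∈ s, (y - τ i) := by simp [nod, eval_prod]

theorem nod_eval_ne {ι : Type*} (s : Finset ι) (τ : ι → ℝ) (y : ℝ) (hy : ∀ i ∈ s, y ≠ τ i) :
    (nod s τ).eval y ≠ 0 := by
  rw [nod_eval]; exact prod_ne_zero_iff.mpr fun i hi => sub_ne_zero.mpr (hy i hi)

theorem nod_eval_zero {ι : Type*} (s : Finset ι) (τ : ι → ℝ) {i : ι} (hi : i ∈ s) :
    (nod s τ).eval (τ i) = 0 := by
  rw [nod_eval]; exact prod_eq_zero hi (sub_self _)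

theorem nod_monic {ι : Type*} (s : Finset ι) (τ : ι → ℝ) : (nod s τ).Monic :=
  monic_prod_of_monic _ _ fun _ _ => monic_X_sub_C _

theorem nod_natDegree {ι : Type*} (s : Finset ι) (τ : ι → ℝ) : (nod s τ).natDegree = s.card :=
  natDegree_finsetProd_X_sub_C_eq_card s τ

theorem nod_degree {ι : Type*} (s : Finset ι) (τ : ι → ℝ) : (nod s τ).degree = s.card := by
  rw [degree_eq_natDegree (nod_monic s τ).ne_zero, nod_natDegree]

theorem nod_split {n : ℕ} (τ : Fin n → ℝ) (j : Fin n) :
    nod univ τ = (X - C (τ j)) * nod (univ.erase j) τ :=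
  (mul_prod_erase univ (fun i => X - C (τ i)) (mem_univ j)).symm

structure Quad (a b : ℝ) (I : ℝ[X] →ₗ[ℝ] ℝ) (n : ℕ) (τ σ : Fin n → ℝ) : Prop extends PF a b I where
  inj : Function.Injective τ
  quad : ∀ f : ℝ[X], f.degree < (2 * n : ℕ) → I f = ∑ i, σ i * f.eval (τ i)

theorem ne_of_erase {n : ℕ} {τ : Fin n → ℝ} (inj : Function.Injective τ) (j : Fin n) :
    ∀ i ∈ univ.erase j, τ j ≠ τ i := fun _ hi h => (mem_erase.mp hi).1 (inj h).symm

theorem herm_zero {n : ℕ} {τ : Fin n → ℝ} (inj : Function.Injective τ) {f : ℝ[X]}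
    (hf : f.degree < (2 * n : ℕ)) (h0 : ∀ i, f.eval (τ i) = 0)
    (h1 : ∀ i, (derivative f).eval (τ i) = 0) : f = 0 := by
  have hm := nod_monic univ τ
  have hd := nod_degree univ τ
  have e := modByMonic_add_div f (nod univ τ)
  have hr : f %ₘ nod univ τ = 0 := by
    refine eq_zero_of_degree_lt_of_eval_index_eq_zero univ inj.injOn ?_ fun i _ => ?_
    · rw [← hd]; exact degree_modByMonic_lt f hm
    · have := congrArg (eval (τ i)) e
      rwa [eval_add, eval_mul, nod_eval_zero _ _ (mem_univ i), zero_mul, add_zero, h0] at this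
  rw [hr, zero_add] at e
  have hq : f /ₘ nod univ τ = 0 := by
    refine eq_zero_of_degree_lt_of_eval_index_eq_zero univ inj.injOn ?_ fun i _ => ?_
    · by_cases hz : f /ₘ nod univ τ = 0
      · rw [hz]; exact bot_lt_iff_ne_bot.mpr (by simp)
      · have h2 := congrArg degree e
        rw [degree_mul, hd, degree_eq_natDegree hz] at h2
        rw [← h2] at hf
        rw [degree_eq_natDegree hz]
        norm_cast at hf ⊢
        simp only [card_univ, Fintype.card_fin] at hf ⊢
        omega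
    · have h2 := h1 i
      rw [← e, nod_split τ i] at h2
      simp only [derivative_mul, derivative_sub, derivative_X, derivative_C, eval_add, eval_mul,
        eval_sub, eval_X, eval_C, sub_self, zero_mul, add_zero, sub_zero, one_mul] at h2
      rw [← nod_split τ i] at h2
      exact (mul_eq_zero.mp h2).resolve_left (nod_eval_ne _ _ _ (ne_of_erase inj i))
  rw [← e, hq, mul_zero]

namespace Quad

variable {a b : ℝ} {I : ℝ[X] →ₗ[ℝ] ℝ} {n : ℕ} {τ σ : Fin n → ℝ}

theorem orth (h : Quad a b I n τ σ) : Orth I n (nod univ τ) := by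
  have hd : (nod univ τ).natDegree = n := by simp [nod_natDegree]
  refine ⟨fun m hm => coeff_eq_zero_of_natDegree_lt (by omega), ?_, fun q hq => ?_⟩
  · have := (nod_monic univ τ).coeff_natDegree
    rwa [hd] at this
  · have hq' : q.degree < n := (degree_lt_iff_coeff_zero q n).mpr fun m hm => hq m hm
    rw [h.quad]
    · exact sum_eq_zero fun i _ => by rw [eval_mul, nod_eval_zero _ _ (mem_univ i)]; ring
    · rw [degree_mul, nod_degree, two_mul]
      push_cast
      simp only [card_univ, Fintype.card_fin]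
      exact WithBot.add_lt_add_left (by simp) hq'

theorem single (h : Quad a b I n τ σ) (j : Fin n) (u v : ℝ) :
    I ((C u + C v * X) * (nod (univ.erase j) τ * nod (univ.erase j) τ)) =
      σ j * (u + v * τ j) * (nod (univ.erase j) τ).eval (τ j) ^ 2 := by
  rw [h.quad, sum_eq_single j]
  · simp only [eval_mul, eval_add, eval_C, eval_X]; ring
  · intro i _ hi
    rw [eval_mul, eval_mul, nod_eval_zero _ _ (mem_erase.mpr ⟨hi, mem_univ i⟩)]; ring
  · simp
  · have h1 : (C u + C v * X).natDegree ≤ 1 := by compute_degree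
    have h2 : (nod (univ.erase j) τ).natDegree = n - 1 := by simp [nod_natDegree]
    have h3 := natDegree_mul_le (p := C u + C v * X)
      (q := nod (univ.erase j) τ * nod (univ.erase j) τ)
    have h4 := natDegree_mul_le (p := nod (univ.erase j) τ) (q := nod (univ.erase j) τ)
    have h5 := j.pos
    exact degree_le_natDegree.trans_lt (by exact_mod_cast (by omega))

theorem qne (h : Quad a b I n τ σ) (j : Fin n) : (nod (univ.erase j) τ).eval (τ j) ≠ 0 :=
  nod_eval_ne _ _ _ (ne_of_erase h.inj j)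

theorem lin_pos (h : Quad a b I n τ σ) (j : Fin n) (u v : ℝ) (h1 : 0 ≤ u + v) (h2 : 0 ≤ u - v)
    (h3 : 0 < u) : 0 < σ j * (u + v * τ j) := by
  have h4 := h.single j u v
  have h5 := h.pos ((C u + C v * X) * (nod (univ.erase j) τ * nod (univ.erase j) τ))
    (mul_ne_zero (fun h0 => by
      have := congrArg (eval 0) h0
      simp at this; linarith)
      (mul_ne_zero (nod_monic _ _).ne_zero (nod_monic _ _).ne_zero)) (fun t ht => by
      rw [eval_mul, eval_mul]
      refine mul_nonneg ?_ (mul_self_nonneg _)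
      simp only [eval_add, eval_mul, eval_C, eval_X]
      nlinarith [mul_nonneg h1 (show 0 ≤ 1 + t by linarith [ht.1]),
        mul_nonneg h2 (show 0 ≤ 1 - t by linarith [ht.2])])
  rw [h4] at h5
  exact (mul_pos_iff_of_pos_right (pow_pos' (h.qne j))).mp h5
where pow_pos' {x : ℝ} (hx : x ≠ 0) : 0 < x ^ 2 := by positivity

theorem spos (h : Quad a b I n τ σ) (j : Fin n) : 0 < σ j := by
  simpa using h.lin_pos j 1 0 (by norm_num) (by norm_num) (by norm_num)

theorem lt_one (h : Quad a b I n τ σ) (j : Fin n) : τ j < 1 := by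
  have := (mul_pos_iff_of_pos_left (h.spos j)).mp
    (h.lin_pos j 1 (-1) (by norm_num) (by norm_num) (by norm_num))
  linarith

theorem gt_neg (h : Quad a b I n τ σ) (j : Fin n) : -1 < τ j := by
  have := (mul_pos_iff_of_pos_left (h.spos j)).mp
    (h.lin_pos j 1 1 (by norm_num) (by norm_num) (by norm_num))
  linarith

theorem Dpos (h : Quad a b I n τ σ) (j : Fin n) : 0 < 1 - τ j ^ 2 := by
  nlinarith [h.lt_one j, h.gt_neg j]

theorem cn (h : Quad a b I n τ σ) (j : Fin n) :
    σ j * (1 - τ j ^ 2) * (nod (univ.erase j) τ).eval (τ j) ^ 2 =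
      (2 * n - 1 + (a + b)) * I (nod univ τ * nod univ τ) := by
  obtain ⟨m, rfl⟩ : ∃ m, n = m + 1 := ⟨n - 1, by have := j.pos; omega⟩
  have h2 : (nod (univ.erase j) τ).natDegree = m := by simp [nod_natDegree]
  have h1 := h.toPF.norm_quot h.orth (nod_split τ j)
    (fun k hk => coeff_eq_zero_of_natDegree_lt (by omega))
    (by have := (nod_monic (univ.erase j) τ).coeff_natDegree; rwa [h2] at this)
  have h3 := h.single j (1 + τ j ^ 2) (-2 * τ j)
  have e : (C (1 + τ j ^ 2) + C (-2 * τ j) * X) * (nod (univ.erase j) τ * nod (univ.erase j) τ) =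
      Dp * (nod (univ.erase j) τ * nod (univ.erase j) τ) + nod univ τ * nod univ τ := by
    rw [nod_split τ j]
    simp only [Dp, map_add, map_one, map_pow, map_mul, map_neg, C_ofNat]; ring
  rw [e, map_add, h1] at h3
  push_cast
  linear_combination -h3

theorem ode_at (h : Quad a b I n τ σ) (j : Fin n) :
    let q := nod (univ.erase j) τ
    let D := 1 - τ j ^ 2
    let b0 := a - b + (a + b) * τ j
    let lam := (n : ℝ) * (n - 1 + (a + b))
    2 * D * (derivative q).eval (τ j) = b0 * q.eval (τ j) ∧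
    3 * D * (derivative (derivative q)).eval (τ j) =
      (4 * τ j + 2 * b0) * (derivative q).eval (τ j) - (lam - (a + b)) * q.eval (τ j) ∧
    4 * D * (derivative (derivative (derivative q))).eval (τ j) =
      (4 + 4 * (a + b) - 2 * lam) * (derivative q).eval (τ j) +
        (12 * τ j + 3 * b0) * (derivative (derivative q)).eval (τ j) := by
  intro q D b0 lam
  have h0 := h.toPF.ode h.orth
  rw [nod_split τ j] at h0
  have h1 := congrArg (eval (τ j)) h0
  have h2 := congrArg (fun f => eval (τ j) (derivative f)) h0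
  have h3 := congrArg (fun f => eval (τ j) (derivative (derivative f))) h0
  simp only [Lop, derivative_mul, derivative_sub, derivative_X, derivative_C, derivative_add,
    der_Dp, der_bp, derivative_neg, derivative_zero, sub_zero, one_mul, zero_mul, mul_one,
    eval_add, eval_mul, eval_sub, eval_X, eval_C, eval_neg, eval_zero, eval_Dp, eval_bp,
    sub_self, zero_add, add_zero] at h1 h2 h3
  refine ⟨?_, ?_, ?_⟩
  · linear_combination h1
  · linear_combination h2
  · linear_combination h3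

theorem S123 (h : Quad a b I n τ σ) (j : Fin n) :
    let D := 1 - τ j ^ 2
    let b0 := a - b + (a + b) * τ j
    let N := ((n : ℝ) * (n - 1 + (a + b)) - (a + b)) * D / 3 - b0 * (b0 + 8 * τ j) / 12
    2 * D * ∑ i ∈ univ.erase j, 1 / (τ j - τ i) = b0 ∧
    D ^ 2 * ∑ i ∈ univ.erase j, (1 / (τ j - τ i)) ^ 2 = N ∧
    D ^ 3 * ∑ i ∈ univ.erase j, (1 / (τ j - τ i)) ^ 3 =
      -(3 / 2) * τ j * N + b0 / 8 * (τ j * b0 + (a + b + 2) * D) := by
  intro D b0 N
  obtain ⟨h1, h2, h3⟩ := h.ode_at j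
  obtain ⟨e1, e2, e3⟩ := nod_logder (univ.erase j) τ (τ j) (ne_of_erase h.inj j)
  rw [e1] at h1 h2 h3
  rw [e2] at h2 h3
  rw [e3] at h3
  have hq := h.qne j
  generalize (∑ i ∈ univ.erase j, 1 / (τ j - τ i)) = A at *
  generalize (∑ i ∈ univ.erase j, (1 / (τ j - τ i)) ^ 2) = B at *
  generalize (∑ i ∈ univ.erase j, (1 / (τ j - τ i)) ^ 3) = E at *
  generalize (nod (univ.erase j) τ).eval (τ j) = q at *
  have k1 : 2 * D * A = b0 := mul_right_cancel₀ hq (by linear_combination h1)
  have k2 : 3 * D * (A ^ 2 - B) = (4 * τ j + 2 * b0) * A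
      - ((n : ℝ) * (n - 1 + (a + b)) - (a + b)) := mul_right_cancel₀ hq (by linear_combination h2)
  have k3 : 4 * D * (A ^ 3 - 3 * A * B + 2 * E) =
      (4 + 4 * (a + b) - 2 * ((n : ℝ) * (n - 1 + (a + b)))) * A +
        (12 * τ j + 3 * b0) * (A ^ 2 - B) := mul_right_cancel₀ hq (by linear_combination h3)
  have k4 : D ^ 2 * B = N := by
    simp only [N]
    rw [← k1] at k2 ⊢
    linear_combination (-D / 3) * k2
  refine ⟨k1, k4, ?_⟩
  rw [← k4]
  rw [← k1] at k2 k3 ⊢
  linear_combination (D ^ 2 / 8) * k3 + (-(D ^ 2) * A / 4) * k2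

theorem ric (h : Quad a b I n τ σ) {t : ℝ} (ht : ∀ i, t ≠ τ i) :
    (1 - t ^ 2) * ((∑ i, 1 / (t - τ i)) ^ 2 - ∑ i, (1 / (t - τ i)) ^ 2) -
      (a - b + (a + b) * t) * (∑ i, 1 / (t - τ i)) + (n : ℝ) * (n - 1 + (a + b)) = 0 := by
  have h1 := congrArg (eval t) (h.toPF.ode h.orth)
  obtain ⟨e1, e2, -⟩ := nod_logder univ τ t fun i _ => ht i
  simp only [Lop, eval_add, eval_mul, eval_sub, eval_C, eval_zero, eval_Dp, eval_bp, e1, e2] at h1
  refine mul_left_cancel₀ (nod_eval_ne univ τ t fun i _ => ht i) ?_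
  linear_combination h1

end Quad

end Pool.Agent.Lib.MP_3e0ca7_an
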