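import Pool.Agent.Lib.MP_3e0ca7_an.CertI
import Pool.Agent.Lib.MP_3e0ca7_an.CertE

/-! Kernel runs of the bisection certificates. -/

namespace Pool.Agent.Lib.MP_3e0ca7_an

set_option maxRecDepth 100000
set_option linter.unusedVariables false

open Tr in
noncomputable def trIntM2 : Tr :=
  (b (b (b (b (c l (a (b l (b l l)) (b l (b l l)))) (a (c l (b (c l (b l (a l l))) (c l (d (a (b l (a l l)) (a
    (b l l) (b l l))) l)))) (b (a (c l (b l (a l l))) (c l (b l (b l l)))) (c l (b (c l (c l (a l (a l l)))) (c l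
    (d (c l (a (a l l) (a l l))) l))))))) (a (b (b (c l (b (c l (c l (b (a l l) (a l l)))) (b (c l (c l (a l l)))
    (c l (c l (a l (a l l))))))) (b (c l (c l (d (a (b (a l l) (c l l)) (c l (c l (b l l)))) l))) (c l (a (c l (c
    l (d (c l (b l l)) l))) (c l (d (c l (d (a (b l l) (b l l)) l)) l)))))) (b (c (a l (b l l)) (c (d (a (b l l)
    (b l l)) l) (a (b (c l (d (d (a (b l l) (b l l)) l) l)) (d (a (b (c l l) (c l l)) (c l (d (b l l) l))) l)) (a
    (b (c l (b (a l l) (a l l))) (c l (d (d (b l l) l) l))) (b (c l (d (b l (a l l)) l)) (c l (d (c l (b l l))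
    l))))))) (c (c l (a l (a l l))) (a (b (c l (a (c l (d (d (b l l) l) l)) (c l (d (c l (b l l)) l)))) (b (c l (c
    l (d (c l (a l l)) l))) (c l (c l (d (c l (a l l)) l))))) (c (c (a l l) (b l l)) (b (b (c l (d (c l (a l l))
    l)) (d (c l (c l (a l l))) l)) (a (d (c l (c (a l l) (b l l))) l) (d (c l (c (a l l) (b l l))) l)))))))) (b (b
    (b (c l (c l (d (a (c l (b l l)) (c l (b l l))) l))) (c l (a (c l (c l (d (b l (a l l)) l))) (c l (d (d (c l
    (b l (a l l))) l) l))))) (a (b (c l (c l (a (c l (b l l)) (c l (b l (a l l)))))) (c l (a (c l (c l (d (b l l)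
    l))) (c l (c l (d (b l l) l)))))) (a (c l (b (c l (c l (b l (a l l)))) (c l (c l (d (b l l) l))))) (b (c l (c
    l (c l (b l (a l l))))) (c l (c l (c l (d (b l l) l)))))))) (b (b (c (c l l) (c (d (a l (a l l)) l) (a (d (a
    (c l (b l (a l l))) (c l (b l (a l l)))) l) (a (d (c l (b l (a l l))) l) (d (c l (b l l)) l))))) (c (c l (a l
    l)) (c (c (a l l) (a l (a l l))) (a (d (b (c l (d (a l l) l)) (c l (d (a l l) l))) l) (d (b (c l (d (a l l)
    l)) (c l (d (a l l) l))) l))))) (a (c (b (c l l) (c l l)) (c (d (a (b l l) (b l l)) l) (b (d (b (c l (c l (a l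
    l))) (c l (c (a l l) (a l l)))) l) (b (d (c l (c (a l l) (a l l))) l) (d (c (a l l) (c (a l l) (a l l)))
    l))))) (b (c (c l l) (c (c l (a l l)) (b (d (c l (d (a l l) l)) l) (d (c l (d (a l l) l)) l)))) (c (c l l) (c
    (c l (a l l)) (b (d (c (a l l) (d (a l l) l)) l) (d (d (c l (a l l)) (a l l)) l)))))))))) (b (a (a (b (b (c (c
    l (a l l)) (c (c (a l l) (b l l)) (b (b (d (c l (c l (a l l))) l) (d (c l (c l (a l l))) l)) (b (d (c l (c l
    (a l l))) l) (d (c l (d (c l (a l l)) l)) l))))) (c (b (c l l) (c l l)) (c (d (b (c l l) (c l l)) l) (c (d (b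
    (a l (a l l)) (c l (a l l))) l) (b (d (b (d (c l (a l l)) l) (d (c l (a l l)) l)) l) (d (b (d (c l (a l l)) l)
    (b (a l l) (c l (a l l)))) l)))))) (b (b (a (c (c l l) (b (a (c l (c l l)) (c l (c l l))) (c l l))) (c (c l l)
    (b (a (c l (c l l)) (c l (c l l))) (c (a l l) l)))) (b (c (c l l) (c (c l (a l l)) l)) (c (c l l) l))) (b (c
    (b (c l (a l l)) (c l l)) l) (b (b (c (c l l) l) l) l)))) (b (b (c (b (c l l) (c l l)) (c (d (b (a l l) (c l
    l)) l) (c (d (b (b l (a l l)) (d (a l l) l)) l) (c (d (b (d (b l l) l) (d (b l l) l)) l) (b (d (d (a (b l l)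
    (b l l)) l) l) (d (d (a (b l l) (b l l)) l) l)))))) (b (c (c l l) (c (c l (a l l)) (c (d (d (a l l) l) l) (c
    (d (d (a l l) l) l) (d (d (a (b l l) (b l l)) l) l))))) (c (c l (a l l)) (c (c l (a l l)) (b (d (c (a l l) (c
    (a l l) (a l l))) l) (d (c (a l l) (d (a (a l l) (a l l)) l)) l)))))) (b (b (c (a (c l l) (c l l)) (c (d (c l
    (a l l)) l) (a (a (b (c l l) l) (b (c l l) l)) (a (b (c l l) l) (b (c l l) l))))) (c (c (a l l) (c l (a l l)))
    (b (c (c l (a l l)) l) l))) (c (b (b (c l (a l l)) (c (a l l) l)) (b (c (a l l) l) l)) l)))) (a (b (b (b (c (c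
    l l) (c (c l (a l l)) (c (d (d (a l l) l) l) (d (b (c (a l l) (a l l)) (d (a (a l l) l) l)) l)))) (c (c l (a l
    l)) (c (c l (a l l)) (a (d (c (a l l) (c (a l l) (b l l))) l) (d (c (a l l) (d (b l l) l)) l))))) (c (c (b l
    (a l l)) (d (a (b l l) (b l l)) l)) (b (c (d (c l (a l l)) l) (a (d (c (a l l) (d (b (a l l) l) l)) l) (d (c
    (a l l) (d (b l l) l)) l))) (c (d (c l (a l l)) l) (a (a (d (c l (b l l)) l) (d (c l (b l l)) l)) (a (d (c l
    (b l l)) l) (d (c l (b l l)) l))))))) (b (b (c (a (c l l) (c l (a l l))) (c (a (c l (a l l)) (c l (a l l))) (b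
    (d (a (c l l) (c l l)) l) (a l l)))) (c (c (c l l) (d (a l (a l l)) l)) (b (c (d (c l l) l) l) l))) (c (b (c
    (d (c l l) l) (b (c l l) l)) (b (a l l) l)) l))) (b (b (b (c (c l (a l l)) (c (c l (a l l)) (a (d (d (c l (b l
    l)) (a l l)) l) (d (b (c l l) (c l l)) l)))) (c (a (c l l) (c l l)) (c (d (c l (a l l)) l) (a (d (d (c l (b l
    l)) (a l l)) l) (d (b (c l l) (c l l)) l))))) (c (c (d (b l (a l l)) l) (a (b l (a l l)) (b l (a l l)))) (b (c
    (d (c l (a l l)) l) (a (d (b (c l l) (c l l)) l) (d (c l (b l l)) l))) (c (d (c l (a l l)) l) (a (d (b (c l l)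
    (c l (a l l))) l) (d (c l (b l l)) l)))))) (b (b (a (c (c l (a l l)) (d (b (c l (c l l)) (c l l)) (c l (a l
    l)))) (c (a (c l l) (c l l)) (c (c l (a l l)) (b (c l l) l)))) (c (c (d (a l l) l) (d (c l (a l l)) l)) (b (c
    (c (a l l) l) l) l))) (c (b (b (a (c l l) (c (a l l) l)) (c (d (a l l) l) l)) (b (a l l) l)) l))))) (b (b (c
    (a (a l l) (a l l)) l) l) l))) (b l l))

theorem okIntM2 : chk FIntM trIntM2 75000000 81250000 0 200000000 0 66310000 0 66310000 = true := by decide +kernel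

open Tr in
noncomputable def trExt5 : Tr :=
  (c (d (d (d (d l l) (d l l)) (c (d (d l l) (d (d l (a l l)) (a (d l (c l l)) (c (a l l) (d l l))))) (d (d l (a
    l l)) (a (d (d l l) (c (d l (a l l)) (d l (a l l)))) (c (d l (d l (a l l))) (a (d l (d l l)) (d l (d l
    l)))))))) (c (d (c (c (a (d (d (d l l) (a (d l l) (d l l))) l) (a (d (d (d l l) (d l l)) l) (d (d (d l l) (d l
    l)) l))) (a (d (d (d l (a l l)) (a (d l (a l l)) (d l (a l l)))) l) (a (d (d (d l l) (d l (a l l))) l) (d (d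
    (d l l) (d l (a l l))) l)))) (d (a (a (d (d l (a l l)) (c (d l (a l l)) (b (d l l) (d l l)))) (d (d l (a l l))
    (c (d l (a l l)) (b (d l (a l l)) (d l l))))) (a (d (d l (a l l)) (b (c (d l l) (d l (a l l))) (c (d l l) (d l
    (a l l))))) (d (d l (b l l)) (c (d (a l l) (d l l)) (d (a l l) (d l l)))))) (d (c (a l (a l l)) (a l (b l l)))
    l))) l) (a (a (d (c (c (d (d (d l l) (b (d l l) (d l l))) l) (d (d (d l l) (b (d l l) (d l l))) l)) (b (d (d
    (d l (a l l)) (c (d l l) (d l l))) l) (d (d (d l (a l l)) (c (d l l) (d l l))) l))) l) (d (b (c (c (d (d (d l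
    l) (d l (a l l))) l) (d (d (d l l) (d l (a l l))) l)) (d (d (d l (a l l)) (c (d l (a l l)) (d (a l l) l))) l))
    (c (d (d (d l (a l l)) (c (d l (a l l)) (d l l))) l) (d (d (d l (a l l)) (c (d l l) (d (a l l) l))) l))) l))
    (d (c (d (a (c (d (d l l) (b (d l (a l l)) (d l (a l l)))) (d (d l (a l l)) (b (d l (a l l)) (d l (a l l)))))
    (d (d (a l l) (d l (a l l))) (c (d (b l l) (d l (a l l))) (d (d l l) (a (b l l) (b l l)))))) (d (c (b l l) (b
    l l)) l)) (d (a (c (d (d l (a l l)) (d (d l (a l l)) (a (b l l) (b l l)))) (d (d l (a l l)) (d (d l (a l l))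
    (a (b l l) (b l l))))) (c (d (d l (a l l)) (d (d l (a l l)) (d (a l l) (a l l)))) (d (d l (b l l)) (d (d l (a
    l l)) (b (c l l) (c l l)))))) (d (c (b l l) (b l l)) l))) l)))) (d (d (d (d l (a l l)) (a (d l l) (d l l))) (c
    (a (d (d l l) (d (d l (a l l)) (a (c (d l l) (d l (a l l))) (c (d l (a l l)) (d l (a l l)))))) (d (d l l) (d
    (d l (c l l)) (a (c (d l (a l l)) (d l (a l l))) (c (d l (a l l)) (d l (b l l))))))) (d (d l (d l (a l l))) (a
    (c (d (d l l) (a (d l (a l l)) (d l (a l l)))) (d (d l l) (a (d l (a l l)) (d l (a l l))))) (c (d (d l l) (a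
    (d l (b l l)) (d l (b l l)))) (d (d l (a l l)) (a (d l (b l l)) (b (c l l) (d l l))))))))) (a (b (c (a (c (d
    (d (d (d l (a l l)) (c (d l l) (c l l))) l) l) (d (d (d (d l (a l l)) (c (b l l) (a l l))) l) l)) (d (c (d (d
    (d l (a l l)) (c (d (a l l) l) (d l l))) l) (d (d (d l (a l l)) (c (d l l) (c l l))) l)) l)) (d (c (d (a (d (d
    l (a l l)) (c l l)) (d (d l (a l l)) (c (a l l) (a l l)))) l) (d (a (d (d l l) (c l l)) (c (d (d l l) l) (d (d
    l l) l))) l)) l)) (c (a (c (d (d (d (d l (a l l)) (c (c (a l l) l) (c l l))) l) l) (d (d (c (d (d l l) (a l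
    l)) (d (d l l) (a l l))) l) l)) (d (c (d (c (d (d l l) (d (a l l) l)) (d (d l l) (d (a l l) l))) l) (d (c (d
    (d l l) (c l l)) (d (d l l) (b l l))) l)) l)) (d (c (d (a (c (d (d l l) l) (d (d l l) l)) (c (d (d l l) (a l
    l)) (d (d l l) l))) l) (c (a (d (d (d l l) l) l) (d (d (d l l) l) l)) (a (d (d (d l l) l) l) (d (d (d l l) l)
    l)))) l))) (c (c (d (d (a (c (d (d l (b l l)) (d (d l (a l l)) (a (b l l) (b l l)))) (b (d (d l l) (d (a l l)
    l)) (d (d l l) (d (a l l) l)))) (d (d (d l (a l l)) (b (c l l) (c l l))) (b (c (c (d l l) (d l l)) (b (d l l)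
    (d l l))) (b (c (d l l) (d l l)) (c (d l l) (d l l)))))) (d (c (b l l) (a l l)) l)) l) (c (a (d (d (b (d (d l
    l) (d (a l l) l)) (d (d l l) (d (a l l) l))) l) l) (d (d (b (d (d l l) (a (d l l) (d l l))) (d (d l l) (a (d l
    l) (d l l)))) l) l)) (a (d (d (b (d (d l l) (d l l)) (d (d l l) (c (a l l) l))) l) l) (d (d (b (d (d l l) (d
    (a l l) l)) (d (d l l) (d (a l l) l))) l) l)))) (b (a (d (c (d (d (d l (a l l)) (c (c l l) (b l l))) l) (d (d
    (d l (a l l)) (c (a l l) l)) l)) l) (d (c (c (d (d (d l l) (d l l)) l) (d (d (d l l) (d l l)) l)) (d (d (d l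
    (a l l)) (b (c l l) (c l l))) l)) l)) (a (d (c (d (c (d (d l l) (b l l)) (d (d l l) (a l l))) l) (d (c (d (d l
    l) (a l l)) (d (d l l) l)) l)) l) (d (c (d (c (d (d l l) (d (a l l) l)) (d (d l l) (c l l))) l) (d (c (d (d l
    l) (a l l)) (d (d l l) (a l l))) l)) l)))))))

theorem okExt5 : chk FExt trExt5 49732500 66310000 16577500 33155000 16666667 33333334 0 400000000 = true := by decide +kernel

open Tr in
noncomputable def trExt1 : Tr :=
  (a (d (d (d l (d l (a l l))) (c (d (d l (a l l)) (a (c (d l (a l l)) (d l (d l (a l l)))) (c (d l (d l (a l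
    l))) (a (d l (d l l)) (d l (d l (a l l))))))) (d (d l (a (a l l) (b l l))) (a (b (c (d l (a l l)) (d l (c l
    l))) (c (d l (c l l)) (d l (a l (a l l))))) (c (b (d l (d l (a l l))) (d l (d l (a l l)))) (d (d l (a l l)) (b
    (d l (a l l)) (a (c l l) (c l l))))))))) (c (d (c (a (c (d (d (a l l) l) l) (d (d (d l l) l) l)) (d (d (a (d l
    (a l l)) (d l (b l l))) (c (b l l) (b l l))) l)) (b (d (d (a (d l (a l l)) (a (d l (a l l)) (d l (a l l)))) (c
    (a l (a l l)) (a l (a l l)))) l) (d (d (a (d l (a l l)) (a (d l l) (d l (a l l)))) (c (a l l) (a l (a l l))))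
    l))) l) (c (c (a (d (d (b (d (a l l) l) (d (d l l) l)) l) l) (d (a (d (d (d l (a l l)) (b l l)) l) (d (b (d (d
    l l) l) (d (d l l) l)) l)) l)) (a (d (d (b (d (a l l) l) (d (d l l) l)) l) l) (d (a (d (d (d l (a l l)) (b l
    l)) l) (d (b (d (b l l) l) (d (d l l) l)) l)) l))) (c (a (d (d (b (d (a l l) l) (d (d l l) l)) l) l) (d (d (b
    (a (d (a l l) l) (d (b l l) l)) (d (d (a l l) (a l l)) l)) l) l)) (a (d (d (a (b (d l l) (b l l)) (b (d l l)
    (b (a l l) l))) l) l) (d (d (b (a (d (a l l) l) (d (a l l) l)) (d (b (a l l) (d l l)) l)) l) l)))))) (d (d (d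
    (d l l) (c (d l l) (d l l))) (c (d (d l (c l (a l l))) (a (c (d (a l l) (d l (a l l))) (d (d l l) (a (d l (b l
    l)) (d l (b l l))))) (c (c (d l (d l l)) (d l (d l (a l l)))) (d (d l (a l l)) (c (d l (a l l)) (b (d l l) (d
    l l))))))) (a (d (d l (c l l)) (c (d (d l (a l l)) (b (a (c l l) (d l l)) (c (d l l) (d l l)))) (b (a (d l (c
    l l)) (d l (c l l))) (c (d l (d l l)) (d l (d l (a l l))))))) (d (d l (c l (a l l))) (c (d (d l (b l l)) (b (c
    (d l l) (d l l)) (a (d l (a l l)) (d l (c l l))))) (b (c (d l (d l l)) (d l (d l l))) (d (d l (a l l)) (c (d l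
    (a l l)) (d l (a l l)))))))))) (c (c (c (d (d (a (c (d (d l l) (b l l)) (d (d l (a l l)) (b l l))) (d (a (d l
    (a l l)) (d l (a l l))) (d (a (b l l) (b (a l l) l)) (b l l)))) l) l) (d (d (a (c (d (d l (a l l)) (b l l)) (b
    (d (d l l) l) (d (d l l) l))) (a (d (d l (b l l)) (c (b l l) (b l l))) (b (d (d l l) (d (a l l) l)) (d (d l l)
    (d (a l l) l))))) l) l)) (d (c (a (a (d (d (d l (b l l)) (b (a l l) l)) l) (d (b (d (d l l) (b l l)) (d (d l
    l) (b l l))) l)) (a (d (b (d (d l l) (c l l)) (d (d l l) (c l l))) l) (d (b (d (d l (a l l)) (d (c l l) l)) (d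
    (d l l) (d (a l l) l))) l))) (b (d (a (d (a (d l l) (d l l)) (d (a (a l l) (a l l)) l)) (a (c (d (d l l) l) (d
    (d l l) l)) (c (d (d l l) (a l l)) (d (d l l) (a l l))))) l) (c (d (a (d (d l (a l l)) l) (a (d (d l l) l) (d
    (d l l) l))) l) (d (a (d (d l (a l l)) l) (a (d (d l l) l) (d (d l l) l))) l)))) l)) (c (d (c (a (d (a (b (d
    (d l l) (a l l)) (d (d l l) l)) (b (d (d l l) (b l l)) (d (d l l) (a l l)))) l) (a (d (b (c (d (d l l) l) (d
    (d l l) l)) (b (d (d l l) l) (d (d l l) l))) l) (d (b (d (d l (a l l)) (d (b l l) l)) (c (d (d l l) l) (d (d l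
    l) l))) l))) (c (a (d (b (d (d l (a l l)) l) (d (d l (a l l)) l)) l) (a (d (b (d (d l l) l) (d (d l l) l)) l)
    (d (b (d (d l l) l) (d (d l l) l)) l))) (a (d (b (d (d l l) l) (d (d l (a l l)) l)) l) (a (d (b (d (b l l) l)
    (d (d l l) l)) l) (d (b (d (d l l) l) (d (d l l) l)) l))))) l) (c (a (a (d (d (b (d (d l l) l) (d (d l l) l))
    l) l) (d (d (b (d (d l l) (a l l)) (d (d l l) l)) l) l)) (b (d (d (a (d (d l l) (b l l)) (d (d l l) (b l l)))
    l) l) (d (d (a (a (d (d l l) l) (d (d l l) l)) (d (d l (a l l)) (b l l))) l) l))) (a (b (d (a (d (d (b l l) l)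
    l) (d (d (d l l) l) l)) l) (d (d (d (d (a l l) (a l l)) (a l l)) l) l)) (b (d (a (d (d (d l l) (a l l)) l) (d
    (d (d l l) (b l l)) l)) l) (d (d (d (a (d l (a l l)) (d l (a l l))) (b l l)) l) l))))))))

theorem okExt1 : chk FExt trExt1 0 33155000 0 33155000 16666667 33333334 0 400000000 = true := by decide +kernel

open Tr in
noncomputable def trExt4 : Tr :=
  (d (d (d (d l l) (c (d l l) (d l l))) (c (d (d l (c l (a l l))) (a (c (d l (d l (a l l))) (c (d l (d l l)) (d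
    l (d l (a l l))))) (c (d (a l l) (d l (a l l))) (c (d l (d l (a l l))) (d l (d l (a l l))))))) (a (d (d l (c l
    l)) (c (d (d l (a l l)) (c (d l (a l l)) (d l (a l l)))) (d (d l (a l l)) (c (d l (a l l)) (a (d l l) (d l
    l)))))) (d (d l (c l l)) (c (d (d l (a l l)) (c (d l (a l l)) (a (d l l) (d l l)))) (d (d l (c l l)) (a (c (d
    l l) (d l l)) (c (d l (a l l)) (d l (a l l)))))))))) (c (c (d (d (a (a (c (d (d l l) (d l l)) (d (d l l) (d (a
    l l) l))) (c (d (d l l) (d l (a l l))) (d (d l l) (b (d l l) (d l l))))) (c (d (d l (a l l)) (c (a (d l l) (d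
    l l)) (a (d l l) (d l l)))) (d (a (d l (a l l)) (d l (a l l))) (d (a (c l l) (d l l)) (c (a l l) (a l l))))))
    (d (c (a l l) (a l l)) l)) l) (d (c (c (d (a (d (d l (a l l)) (d (a l l) l)) (a (d (d l l) (d (a l l) l)) (d
    (d l l) (d (a l l) l)))) l) (d (a (a (d (d l l) (b l l)) (d (d l l) (d (a l l) l))) (a (d (d l l) (d (a l l)
    l)) (d (d l l) (d (a l l) l)))) l)) (a (d (d (a (d l (a l l)) (b (d l l) (d l l))) (c (d (a (a l l) (a l l))
    l) (d (a (a l l) (a l l)) l))) l) (c (d (a (d (d l l) (d (a l l) l)) (d (d l (a l l)) (d (b l l) l))) l) (d (a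
    (d (d l (a l l)) (d (a l l) l)) (d (d l (a l l)) (d (b l l) l))) l)))) l)) (c (d (c (c (a (d (d (a (d l l) (d
    l l)) (d (a (a l l) (a l l)) l)) l) (d (a (d (d l (a l l)) (b (a l l) l)) (d (d l (a l l)) (d (b l l) l))) l))
    (a (d (d (a (d l l) (d l l)) (d (a (a l l) (a l l)) l)) l) (d (a (b (d (d l l) l) (d (d l l) l)) (d (d l (a l
    l)) (d (b l l) l))) l))) (c (a (d (a (d (d l l) l) (d (d l l) (a l l))) l) (d (a (b (d (d l l) l) (d (d l l)
    l)) (d (d l (a l l)) (b (a l l) l))) l)) (a (d (d (a (d l l) (d l l)) (b l l)) l) (d (a (b (d (d l l) l) (d (d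
    l l) l)) (b (d (d l l) l) (d (d l l) l))) l)))) l) (c (d (a (d (a (d (d (a l l) (b l l)) (b l l)) (c (d (d l
    l) l) (d (d l l) l))) l) (c (d (a (a (d (d l l) l) (d (d l l) l)) (b (d (d l l) l) (d (d l l) l))) l) (d (b (a
    (d (a l l) l) (d (d l l) l)) (d (d l (a l l)) l)) l))) l) (d (a (a (d (d (d (a l l) (a l l)) (b l l)) l) (d (d
    (d (a l l) (b l l)) (b l l)) l)) (c (b (d (d (d l l) l) l) (d (d (d l (a l l)) l) l)) (b (d (d (d l l) l) l)
    (d (d (d l (a l l)) l) l)))) l)))))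

theorem okExt4 : chk FExt trExt4 33155000 49732500 16577500 33155000 16666667 33333334 0 400000000 = true := by decide +kernel

open Tr in
noncomputable def trTwo0 : Tr :=
  (a (a (b (b (a (b (b (b (b l l) (a l l)) (b l l)) (b (b l l) (a l l))) (b (a (b (b (a l l) l) (b l l)) (b (b
    (b l l) (a l l)) (b l l))) (b (b l l) (a l l)))) (b (a (b l l) (b l l)) (b l l))) (b (b (a l l) l) (a l l)))
    (b (b (a (b (a (b (b (b l l) (b l l)) (b l l)) (b (b (b (a l l) l) (b l l)) (b (a l l) l))) (b (b (a l l) l)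
    (b l l))) (b (a (b (b (b (a l l) l) (b l l)) (b (a l l) l)) (b (b (a (b l l) (b l l)) (b l l)) (b (a l l) l)))
    (b (a (b l l) (b l l)) (b l l)))) (b (a (b (a l l) l) (b (a l l) l)) (b (a l l) l))) (b (a (b l l) (b l l)) (b
    l l)))) (a (b (a (b (b (a (b (b (a (b l l) (b l l)) (b l l)) (a (b l l) (b l l))) (b (b (a (b l l) (b l l)) (b
    l l)) (b (a l l) l))) (b (a (b l l) (b l l)) (b l l))) (b (b (a l l) l) (b l l))) (b (b (a (b (b (b (a l l) l)
    (b l l)) (b (a l l) l)) (b (b (b l l) (b l l)) (b (a l l) l))) (b (a (b l l) (b l l)) (b l l))) (b (b (a l l)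
    l) (b l l)))) (b (a (b l l) (b l l)) (b l l))) (b (b (a (b (a (b (b (b l l) (a l l)) (b l l)) (b (b (a l l) l)
    (b l l))) (b (b l l) (a l l))) (b (b (b (a l l) l) (b l l)) (b (a l l) l))) (b (a (b l l) (b l l)) (b (a l l)
    l))) (b (b (a l l) l) (b l l)))))

theorem okTwo0 : chk FTwo trTwo0 0 66310000 0 66310000 0 0 0 0 = true := by decide +kernel

end Pool.Agent.Lib.MP_3e0ca7_an
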