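import Pool.Agent.Lib.MP_3e0ca7_an.NodeExt

/-! The critical parameter and the case of two nodes. -/

namespace Pool.Agent.Lib.MP_3e0ca7_an

open Polynomial Finset Real

noncomputable def Phi (a : ℝ) : ℝ :=
  4 ^ (4 - a) * (a ^ 2 * ((1 + a) ^ 2 / ((2 + a) ^ 2 * (3 + a)))) + 2 * a ^ 2 * (3 + a)

theorem Phi_mono {a c : ℝ} (ha : 0 ≤ a) (h : a ≤ c) (hc : c ≤ 1) : Phi a ≤ Phi c := by
  have h1 : (2 : ℝ) ^ (c - a) ≤ 1 + (c - a) := by
    have := rpow_one_add_le_one_add_mul_self (s := 1) (p := c - a) (by norm_num) (by linarith)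
      (by linarith)
    norm_num at this
    exact this
  have h2 : (4 : ℝ) ^ (4 - a) = 4 ^ (4 - c) * (2 ^ (c - a) * 2 ^ (c - a)) := by
    rw [← mul_rpow (by norm_num) (by norm_num), show (2 : ℝ) * 2 = 4 by norm_num,
      ← rpow_add (by norm_num)]
    congr 1; ring
  have h3 : (2 : ℝ) ^ (c - a) * a ≤ c := by
    have := mul_le_mul_of_nonneg_right h1 ha
    nlinarith [mul_nonneg (sub_nonneg.mpr h) (show 0 ≤ 1 - a by linarith)]
  have h4 := pow_le_pow_left₀ (by positivity) h3 2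
  have hc0 : 0 ≤ c := ha.trans h
  have h5 : (1 + a) ^ 2 / ((2 + a) ^ 2 * (3 + a)) ≤ (1 + c) ^ 2 / ((2 + c) ^ 2 * (3 + c)) := by
    rw [div_le_div_iff₀ (by positivity) (by positivity)]
    have u1 : 0 ≤ 5 - (1 + a) * (1 + c) := by nlinarith
    have u2 := sub_nonneg.mpr h
    have : 0 ≤ (c - a) * ((1 + a) * (1 + c) * (5 - (1 + a) * (1 + c)) + 2 * (2 + a + c)) := by
      positivity
    linarith
  have h6 := mul_le_mul h4 h5 (by positivity) (by positivity)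
  have h7 := mul_le_mul_of_nonneg_left h6 (show (0 : ℝ) ≤ 4 ^ (4 - c) by positivity)
  have h8 : a ^ 2 * (3 + a) ≤ c ^ 2 * (3 + c) := by gcongr
  unfold Phi
  rw [h2]; linarith

theorem Phi_num : 8 < Phi (6631 / 10000) := by
  have h1 := exp_T6 (x := 467 / 1000) (by norm_num)
  have h2 : exp (467 / 1000) ≤ (4 : ℝ) ^ (3369 / 10000 : ℝ) := by
    rw [rpow_def_of_pos (by norm_num), exp_le_exp, show (4 : ℝ) = 2 ^ 2 by norm_num, log_pow]
    have := log_two_gt_d9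
    push_cast; linarith
  have h3 : (4 : ℝ) ^ (4 - 6631 / 10000 : ℝ) = 64 * 4 ^ (3369 / 10000 : ℝ) := by
    rw [show (4 - 6631 / 10000 : ℝ) = (3 : ℕ) + 3369 / 10000 by norm_num, rpow_add (by norm_num),
      rpow_natCast]
    norm_num
  unfold Phi
  rw [h3]
  norm_num at h1 h2 ⊢
  linarith

theorem Phi_crit {x : ℝ} (h0 : -1 < x)
    (h : x ^ 2 * (3 + x) ^ 4 + (1 + x) ^ 4 * (4 + x) ^ 2 +
      4 ^ (3 - x) * ((1 + x) ^ 4 * (2 + x) ^ 2 / (3 + x) ^ 2) = 16) : Phi (x + 1) = 8 := by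
  have p1 : 0 < x + 1 := by linarith
  have p2 : 3 + x ≠ 0 := by linarith
  have p3 : 2 + (x + 1) ≠ 0 := by linarith
  have p4 : 3 + (x + 1) ≠ 0 := by linarith
  unfold Phi
  rw [show 4 - (x + 1) = 3 - x by ring]
  generalize (4 : ℝ) ^ (3 - x) = F at *
  refine mul_left_cancel₀ (show (x + 1) ^ 2 * (3 + (x + 1)) ≠ 0 by positivity) ?_
  have e : (x + 1) ^ 2 * (3 + (x + 1)) * (F * ((x + 1) ^ 2 *
      ((1 + (x + 1)) ^ 2 / ((2 + (x + 1)) ^ 2 * (3 + (x + 1)))))) =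
      F * ((1 + x) ^ 4 * (2 + x) ^ 2 / (3 + x) ^ 2) := by
    rw [show 2 + (x + 1) = 3 + x by ring]
    field_simp; ring
  linear_combination h + e

theorem small_of_Phi {a : ℝ} (h1 : a ≤ 1) (h : Phi a ≤ 8) : a ≤ 6631 / 10000 := by
  by_contra hc
  linarith [Phi_mono (by norm_num) (not_le.mp hc).le h1, Phi_num]

theorem two_core {a b μ : ℝ} (ha : 0 < a) (hb : 0 < b) (ha1 : a ≤ 6631 / 10000)
    (hb1 : b ≤ 6631 / 10000) (hΦ : Phi a ≤ 8)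
    (hμ : 2 ^ (a + b - 1) * (a + b - a * b) / (a * b) ≤ μ) :
    16 * (1 + b) ^ 2 * (2 + 2 * b + b ^ 2 + a * (2 + b)) * ((a + b) * (1 + a)) ^ 2 ≤
      (μ * b) ^ 2 * ((2 + (a + b)) ^ 4 * (1 + (a + b)) * (3 + 3 * b - 2 * a - a ^ 2 - a * b)) := by
  have m0 : MP 0 0 (0 : ℝ) := MP.mk' le_rfl (by simp)
  have p1 : 0 < 1 - a := by linarith
  have key := allTwo (MP.mk' ha.le (by push_cast; linarith)) (MP.mk' hb.le (by push_cast; linarith))
    m0 m0 _ rfl _ rfl _ rfl _ rfl _ rfl _ rfl _ rfl _ rfl _ rfl p1.le _ rfl _ rfl _ rfl _ rfl _ rfl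
    _ rfl _ rfl
  obtain ⟨V, hV⟩ : ∃ V, V = 3 + 3 * b - 2 * a - a ^ 2 - a * b := ⟨_, rfl⟩
  have pV : 0 < V := by rw [hV]; nlinarith
  obtain ⟨T, hT⟩ : ∃ T, T = 1 + b * (693 / 500 + 24 / 25 * b) := ⟨_, rfl⟩
  have k1 : ((2 + 3 * b) / (2 + b)) ^ 2 * (1 + b) ^ 2 * ((2 + 2 * b + b ^ 2 + a * (2 + b)) / (2 + 2 * a)) ≤
      ((2 + (a + b)) / (2 + a)) ^ 4 * ((1 + (a + b)) / (1 + a)) * (V / ((1 - a) * (3 + a))) * T := by
    have := add_le_add_left (mul_le_mul_of_nonneg_left key hb.le) 1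
    refine le_trans (le_of_eq ?_) (this.trans (le_of_eq ?_))
    · field_simp; ring
    · rw [hV, hT]; field_simp; ring
  have k2 : T ≤ 4 ^ b := by
    have u1 := two_rpow_ge (c := 2 * b) (by positivity)
    rw [rpow_mul (by norm_num)] at u1
    norm_num at u1
    have : 0 ≤ b ^ 2 := by positivity
    have : 0 ≤ b ^ 3 := by positivity
    have : 0 ≤ b ^ 4 := by positivity
    rw [hT]; nlinarith
  have k3 : 32 * a ^ 2 * (1 + a) ^ 2 ≤ 4 ^ (a - 1) * ((1 - a) * (2 + a) ^ 4 * (3 + a)) := by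
    have u1 : (4 : ℝ) ^ (4 - a) * 4 ^ (a - 1) = 64 := by
      rw [← rpow_add (by norm_num), show 4 - a + (a - 1) = (3 : ℕ) by push_cast; ring, rpow_natCast]
      norm_num
    have u2 := mul_le_mul_of_nonneg_left hΦ
      (show 0 ≤ (4 : ℝ) ^ (a - 1) * ((2 + a) ^ 2 * (3 + a)) by positivity)
    have u3 : (4 : ℝ) ^ (a - 1) * ((2 + a) ^ 2 * (3 + a)) * Phi a =
        4 ^ (4 - a) * 4 ^ (a - 1) * (a ^ 2 * (1 + a) ^ 2) +
        4 ^ (a - 1) * ((2 + a) ^ 2 * (3 + a)) * (2 * a ^ 2 * (3 + a)) := by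
      unfold Phi; field_simp
    rw [u3, u1] at u2
    linarith
  have k4 : 2 ^ (a + b - 1) * ((a + b) / a * ((2 + b) / (2 + 3 * b))) ≤ μ * b := by
    refine le_trans ?_ (mul_le_mul_of_nonneg_right hμ hb.le)
    have : (a + b) / a * ((2 + b) / (2 + 3 * b)) ≤ (a + b - a * b) / (a * b) * b := by
      rw [div_mul_div_comm, div_mul_eq_mul_div, div_le_div_iff₀ (by positivity) (by positivity)]
      have : 0 ≤ a * b * (b * b * (2 - 3 * a)) := by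
        have : 0 ≤ 2 - 3 * a := by linarith
        positivity
      linarith
    have := mul_le_mul_of_nonneg_left this (show (0 : ℝ) ≤ 2 ^ (a + b - 1) by positivity)
    rw [mul_div_assoc, mul_assoc]; exact this
  have k5 := pow_le_pow_left₀ (by positivity) k4 2
  have k6 : ((2 : ℝ) ^ (a + b - 1)) ^ 2 = 4 ^ (a - 1) * 4 ^ b := by
    rw [sq, ← mul_rpow (by norm_num) (by norm_num), ← rpow_add (by norm_num)]
    congr 1 <;> ring
  rw [mul_pow, k6] at k5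
  rw [← hV]
  have pT : 0 < T := by rw [hT]; positivity
  have pF : (0 : ℝ) < 4 ^ (a - 1) := by positivity
  generalize (4 : ℝ) ^ (a - 1) = F at *
  generalize (4 : ℝ) ^ b = G at *
  have k7 := mul_le_mul k3 k1 (by positivity) (by positivity)
  have k8 := mul_le_mul_of_nonneg_left k7
    (show 0 ≤ ((a + b) / a * ((2 + b) / (2 + 3 * b))) ^ 2 * (1 + a) by positivity)
  refine le_trans (le_of_eq ?_) (k8.trans (le_trans (le_of_eq ?_) (le_trans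
    (b := F * G * ((a + b) / a * ((2 + b) / (2 + 3 * b))) ^ 2 * ((2 + (a + b)) ^ 4 * (1 + (a + b)) * V))
    (a := F * T * ((a + b) / a * ((2 + b) / (2 + 3 * b))) ^ 2 * ((2 + (a + b)) ^ 4 * (1 + (a + b)) * V))
    (by gcongr) (mul_le_mul_of_nonneg_right k5 (by positivity)))))
  · field_simp; ring
  · field_simp

theorem two_at_one {a b : ℝ} {τ σ : Fin 2 → ℝ} (ha : 0 < a) (hb : 0 < b) (ha1 : a ≤ 6631 / 10000)
    (hb1 : b ≤ 6631 / 10000) (hΦ : Phi a ≤ 8) (h : Quad a b (IJ ha hb) 2 τ σ) :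
    (τ 0 - τ 1) ^ 2 * ((1 - τ 0 ^ 2) ^ 2 * (1 - τ 1) ^ 2 + (1 - τ 1 ^ 2) ^ 2 * (1 - τ 0) ^ 2) ≤
      2 * (σ 0 * σ 1 * ((1 - τ 0 ^ 2) * (1 - τ 1 ^ 2))) *
        ((3 * τ 0 - τ 1 - 2) * (τ 0 - 3 * τ 1 + 2)) := by
  have k := two_core ha hb ha1 hb1 hΦ (mu_lo ha hb (by linarith) (by linarith))
  have s1 := h.s1
  have s2 := h.s2
  have m1 := h.toPF.mom1
  have m2 := h.toPF.mom2
  have q0 := h.quad 1 (by rw [degree_one]; norm_num)
  have q1 := h.quad X (by rw [degree_X]; norm_num)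
  have q2 := h.quad (X * X) (by rw [degree_mul, degree_X]; norm_num)
  rw [q0] at k m1 m2
  rw [q1] at m1 m2
  rw [q2] at m2
  simp only [Fin.sum_univ_two, eval_one, eval_mul, eval_X, mul_one] at k s1 s2 m1 m2
  push_cast at s1 s2
  have hΔ : τ 0 - τ 1 ≠ 0 := sub_ne_zero.mpr fun e => by simpa using h.inj e
  have l0 := h.lt_one 0
  have l1 := h.lt_one 1
  generalize τ 0 = x at *
  generalize τ 1 = y at *
  generalize σ 0 = u at *
  generalize σ 1 = v at *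
  obtain ⟨c, hc⟩ : ∃ c, c = a + b := ⟨_, rfl⟩
  have pc : 0 < c := by linarith
  have e0 : x + y = -(2 * (a - b)) / (2 + c) := by rw [eq_div_iff (by positivity), hc]; linarith
  have e1 : x ^ 2 + y ^ 2 = (2 - (x + y) ^ 2 - (a - b) * (x + y)) / (1 + c) := by
    rw [eq_div_iff (by positivity), hc]; linarith
  have e2 : u * v * (x - y) ^ 2 = (u + v) ^ 2 * (4 * a * b / (c ^ 2 * (1 + c))) := by
    rw [hc]; field_simp
    linear_combination (a + b) ^ 2 * (u + v) * m2 - ((a + b) * (a - b) * (u + v) +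
      (1 + (a + b)) * ((a + b) * (u * x + v * y) - (a - b) * (u + v))) * m1
  have f0 : x * y = ((x + y) ^ 2 - (x ^ 2 + y ^ 2)) / 2 := by ring
  have f1 : (1 - x) * (1 - y) = 4 * a * (1 + a) / ((1 + c) * (2 + c)) := by
    rw [show (1 - x) * (1 - y) = 1 - (x + y) + x * y by ring, f0, e1, e0, hc]; field_simp; ring
  have f2 : (1 + x) * (1 + y) = 4 * b * (1 + b) / ((1 + c) * (2 + c)) := by
    rw [show (1 + x) * (1 + y) = 1 + (x + y) + x * y by ring, f0, e1, e0, hc]; field_simp; ring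
  have f3 : (x - y) ^ 2 = 16 * (1 + a) * (1 + b) / ((2 + c) ^ 2 * (1 + c)) := by
    rw [show (x - y) ^ 2 = 2 * (x ^ 2 + y ^ 2) - (x + y) ^ 2 by ring, e1, e0, hc]; field_simp; ring
  have f4 : (1 + x) ^ 2 + (1 + y) ^ 2 =
      8 * (1 + b) * (2 + 2 * b + b ^ 2 + a * (2 + b)) / ((2 + c) ^ 2 * (1 + c)) := by
    rw [show (1 + x) ^ 2 + (1 + y) ^ 2 = 2 + 2 * (x + y) + (x ^ 2 + y ^ 2) by ring, e1, e0, hc]
    field_simp; ring
  refine le_of_mul_le_mul_left ?_ (show 0 < (x - y) ^ 2 by positivity)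
  have g1 : (x - y) ^ 2 * ((x - y) ^ 2 * ((1 - x ^ 2) ^ 2 * (1 - y) ^ 2 + (1 - y ^ 2) ^ 2 * (1 - x) ^ 2)) =
      ((x - y) ^ 2) ^ 2 * ((1 - x) * (1 - y)) ^ 2 * ((1 + x) ^ 2 + (1 + y) ^ 2) := by ring
  have g2 : (x - y) ^ 2 * (2 * (u * v * ((1 - x ^ 2) * (1 - y ^ 2))) *
      ((3 * x - y - 2) * (x - 3 * y + 2))) = 2 * (u * v * (x - y) ^ 2) * ((1 - x) * (1 - y)) *
      ((1 + x) * (1 + y)) * (3 * (x - y) ^ 2 - 4 * ((1 - x) * (1 - y))) := by ring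
  rw [g1, g2, e2, f1, f2, f3, f4]
  rw [← hc] at k
  have k2 := mul_le_mul_of_nonneg_left k (show 0 ≤ 2048 * a ^ 2 * (1 + a) ^ 2 * (1 + b) /
    (c ^ 2 * (1 + c) ^ 5 * (2 + c) ^ 8) by positivity)
  refine le_trans (le_of_eq ?_) (k2.trans (le_of_eq ?_))
  · field_simp; ring
  · rw [hc]; field_simp; ring

theorem node_two {a b : ℝ} {τ σ : Fin 2 → ℝ} (ha : 0 < a) (hb : 0 < b) (ha1 : a ≤ 6631 / 10000)
    (hb1 : b ≤ 6631 / 10000) (hΦ : Phi a ≤ 8) (hΨ : Phi b ≤ 8) (h : Quad a b (IJ ha hb) 2 τ σ)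
    {t : ℝ} (t0 : -1 ≤ t) (t1 : t ≤ 1) (ht : ∀ i, t ≠ τ i) : Goal a b τ σ 0 t := by
  have k1 := two_at_one ha hb ha1 hb1 hΦ h
  have k2 := two_at_one hb ha hb1 ha1 hΨ (h.refl ha hb)
  have e0 : (univ : Finset (Fin 2)).erase 0 = {1} := by decide
  have e1 : (univ : Finset (Fin 2)).erase 1 = {0} := by decide
  have b0 := (h.S123 0).1
  have b1 := (h.S123 1).1
  have d0 := h.Dpos 0
  have d1 := h.Dpos 1
  have p0 := h.spos 0
  have p1 := h.spos 1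
  have x0 := sub_ne_zero.mpr (ht 0)
  have x1 := sub_ne_zero.mpr (ht 1)
  have hΔ : τ 0 - τ 1 ≠ 0 := sub_ne_zero.mpr fun e => by simpa using h.inj e
  unfold Goal Hh
  rw [e0] at b0 ⊢
  rw [e1] at b1
  simp only [Fin.sum_univ_two, sum_singleton, neg_sq] at b0 b1 k2 ⊢
  rw [← b0, ← b1, ← neg_sub (τ 0) (τ 1)]
  have pW : 0 ≤ σ 0 * σ 1 * ((1 - τ 0 ^ 2) * (1 - τ 1 ^ 2)) := by positivity
  have k3 : (τ 0 - τ 1) ^ 2 * ((1 - τ 0 ^ 2) ^ 2 * (t - τ 1) ^ 2 + (1 - τ 1 ^ 2) ^ 2 * (t - τ 0) ^ 2) ≤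
      2 * (σ 0 * σ 1 * ((1 - τ 0 ^ 2) * (1 - τ 1 ^ 2))) *
        ((3 * τ 0 - τ 1 - 2 * t) * (τ 0 - 3 * τ 1 + 2 * t)) := by
    generalize σ 0 * σ 1 * ((1 - τ 0 ^ 2) * (1 - τ 1 ^ 2)) = W at *
    generalize (1 - τ 0 ^ 2) ^ 2 = A, (1 - τ 1 ^ 2) ^ 2 = B, sq_nonneg (1 - τ 0 ^ 2) = hA,
      sq_nonneg (1 - τ 1 ^ 2) = hB at *
    have := quad_conv (α := (τ 0 - τ 1) ^ 2 * (A + B) + 8 * W)
      (β := -2 * (τ 0 - τ 1) ^ 2 * (A * τ 1 + B * τ 0) - 8 * W * (τ 0 + τ 1))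
      (γ := (τ 0 - τ 1) ^ 2 * (A * τ 1 ^ 2 + B * τ 0 ^ 2) - 2 * W * ((3 * τ 0 - τ 1) * (τ 0 - 3 * τ 1)))
      (by positivity) t0 t1 (by linarith) (by linarith)
    linarith
  have k4 := mul_le_mul_of_nonneg_left k3
    (show 0 ≤ 1 / ((τ 0 - τ 1) ^ 2 * (t - τ 0) ^ 2 * (t - τ 1) ^ 2) by positivity)
  refine le_trans (le_of_eq ?_) (k4.trans (le_of_eq ?_))
  · field_simp
  · field_simp; ring

end Pool.Agent.Lib.MP_3e0ca7_an
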